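import Pool.Agent.Helper92.MONO.KAP

/-!
Rows KAP and RJ: enclosures of `Kp M = 2 cos (π/M)` with 48 bits and the recursion of the run
parameters `Rb M j = tan (π/M) cot (j π/(2 M))`.
-/

set_option autoImplicit false
noncomputable section
namespace Pool.Agent.Helper6.MONO

/-- `2^48 * Kp M`, rounded -/
def kb : ℕ → ℕ
  | 3 => 281474976710656
  | 4 => 398065729532861
  | 5 => 455436079300426
  | 6 => 487528960722123
  | 7 => 507200382219719
  | 8 => 520097939794132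
  | 9 => 528999917101778
  | 10 => 535397221549392
  | 11 => 540146524804357
  | 12 => 543767898917873
  | _ => 0

/-- the trigonometric equations -/
theorem kap_sq (x : ℝ) (hx : 0 < x) (n : ℕ) (s : ℝ) (hs : 1 < s)
    (h : x ^ 2 = n) (h1 : ((s - 1) / 2 ^ 48) ^ 2 ≤ n) (h2 : (n : ℝ) ≤ ((s + 1) / 2 ^ 48) ^ 2) :
    |x - s / 2 ^ 48| ≤ 1 / 2 ^ 48 := by
  rw [← h] at h1 h2
  have a1 := abs_le_of_sq_le_sq h1 hx.le
  have a2 := abs_le_of_sq_le_sq h2 (by positivity)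
  rw [abs_le] at a1 a2 ⊢
  constructor
  · have := a1.2
    have e : (s - 1) / 2 ^ 48 = s / 2 ^ 48 - 1 / 2 ^ 48 := by ring
    linarith
  · have := a2.2
    have e : (s + 1) / 2 ^ 48 = s / 2 ^ 48 + 1 / 2 ^ 48 := by ring
    linarith

/-- roots of an increasing function -/
theorem kap_enc_of (f : ℝ → ℝ) (Q : ℝ → ℝ → ℝ) (hf : ∀ x a, f x - f a = (x - a) * Q x a)
    (x s : ℝ) (lo : ℝ) (hx : lo ≤ x) (h0 : f x = 0)
    (hQ : ∀ a, lo ≤ a → 0 < Q x a)
    (hs : lo ≤ (s - 1) / 2 ^ 48)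
    (h1 : f ((s - 1) / 2 ^ 48) ≤ 0) (h2 : 0 ≤ f ((s + 1) / 2 ^ 48)) :
    |x - s / 2 ^ 48| ≤ 1 / 2 ^ 48 := by
  have e1 := hf x ((s - 1) / 2 ^ 48)
  have e2 := hf x ((s + 1) / 2 ^ 48)
  rw [h0] at e1 e2
  have hs' : lo ≤ (s + 1) / 2 ^ 48 := hs.trans (by
    apply div_le_div_of_nonneg_right _ (by positivity)
    linarith)
  have q1 := hQ _ hs
  have q2 := hQ _ hs'
  have c1 : 0 ≤ x - (s - 1) / 2 ^ 48 := by
    by_contra h
    push Not at h
    nlinarith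
  have c2 : x - (s + 1) / 2 ^ 48 ≤ 0 := by
    by_contra h
    push Not at h
    nlinarith
  have e3 : (s - 1) / 2 ^ 48 = s / 2 ^ 48 - 1 / 2 ^ 48 := by ring
  have e4 : (s + 1) / 2 ^ 48 = s / 2 ^ 48 + 1 / 2 ^ 48 := by ring
  rw [abs_le]
  constructor <;> linarith

theorem Kp3 : Kp 3 = 1 := by
  unfold Kp
  rw [Nat.cast_ofNat, Real.cos_pi_div_three]
  ring

theorem Kp_ge1 {M : ℕ} (h : 3 ≤ M) : 1 ≤ Kp M := by
  rw [← Kp3]
  exact kap_mono (by norm_num) h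

theorem Kp4_sq : Kp 4 ^ 2 = 2 := by
  rw [kap_4]
  exact Real.sq_sqrt (by norm_num)

theorem Kp5_eq : Kp 5 ^ 2 - Kp 5 - 1 = 0 := by
  rw [kap_5]
  have := Real.sq_sqrt (show (0 : ℝ) ≤ 5 by norm_num)
  nlinarith

theorem Kp6_sq : Kp 6 ^ 2 = 3 := by
  rw [kap_6]
  exact Real.sq_sqrt (by norm_num)

/-- double and triple angles -/
theorem Kp_double (M : ℕ) (hM : 0 < M) : Kp (2 * M) ^ 2 - 2 = Kp M := by
  unfold Kp
  have h : Real.cos (Real.pi / M) = 2 * Real.cos (Real.pi / (2 * M : ℕ)) ^ 2 - 1 := by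
    rw [← Real.cos_two_mul]
    congr 1
    have : (M : ℝ) ≠ 0 := by exact_mod_cast hM.ne'
    push_cast
    field_simp
  rw [h]
  ring

theorem Kp_triple (M : ℕ) (hM : 0 < M) : Kp (3 * M) ^ 3 - 3 * Kp (3 * M) = Kp M := by
  unfold Kp
  have h : Real.cos (Real.pi / M) =
      4 * Real.cos (Real.pi / (3 * M : ℕ)) ^ 3 - 3 * Real.cos (Real.pi / (3 * M : ℕ)) := by
    rw [← Real.cos_three_mul]
    congr 1
    have : (M : ℝ) ≠ 0 := by exact_mod_cast hM.ne'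
    push_cast
    field_simp
  rw [h]
  ring

theorem Kp7_eq : Kp 7 ^ 3 - Kp 7 ^ 2 - 2 * Kp 7 + 1 = 0 := by
  have h2 := kap_le2 7
  have h3 : 1 ≤ Kp 7 := Kp_ge1 (by norm_num)
  have e1 : Real.cos (4 * (Real.pi / 7)) = -Real.cos (3 * (Real.pi / 7)) := by
    rw [← Real.cos_pi_sub]
    congr 1
    ring
  have e2 : Real.cos (4 * (Real.pi / 7)) = 2 * (2 * Real.cos (Real.pi / 7) ^ 2 - 1) ^ 2 - 1 := by
    rw [← Real.cos_two_mul, ← Real.cos_two_mul]
    congr 1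
    ring
  have e3 : Real.cos (3 * (Real.pi / 7)) =
      4 * Real.cos (Real.pi / 7) ^ 3 - 3 * Real.cos (Real.pi / 7) := by
    rw [← Real.cos_three_mul]
  have hk : Kp 7 = 2 * Real.cos (Real.pi / 7) := by
    unfold Kp
    rw [Nat.cast_ofNat]
  set c := Real.cos (Real.pi / 7) with hc
  rw [e2, e3] at e1
  have hf : (Kp 7 + 2) * (Kp 7 ^ 3 - Kp 7 ^ 2 - 2 * Kp 7 + 1) = 0 := by
    rw [hk]
    linear_combination 2 * e1
  rcases mul_eq_zero.1 hf with h | h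
  · linarith
  · exact h

theorem Kp8_eq : Kp 8 ^ 4 - 4 * Kp 8 ^ 2 + 2 = 0 := by
  have h := Kp_double 4 (by norm_num)
  have h4 := Kp4_sq
  rw [← h] at h4
  have : (2 * 4 : ℕ) = 8 := rfl
  rw [this] at h4
  linear_combination h4

theorem Kp9_eq : Kp 9 ^ 3 - 3 * Kp 9 - 1 = 0 := by
  have h := Kp_triple 3 (by norm_num)
  rw [Kp3] at h
  have : (3 * 3 : ℕ) = 9 := rfl
  rw [this] at h
  linarith

theorem Kp10_eq : Kp 10 ^ 4 - 5 * Kp 10 ^ 2 + 5 = 0 := by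
  have h := Kp_double 5 (by norm_num)
  have h5 := Kp5_eq
  rw [← h] at h5
  have : (2 * 5 : ℕ) = 10 := rfl
  rw [this] at h5
  linear_combination h5

theorem Kp12_eq : Kp 12 ^ 4 - 4 * Kp 12 ^ 2 + 1 = 0 := by
  have h := Kp_double 6 (by norm_num)
  have h6 := Kp6_sq
  rw [← h] at h6
  have : (2 * 6 : ℕ) = 12 := rfl
  rw [this] at h6
  linear_combination h6

theorem Kp11_eq : Kp 11 ^ 5 - Kp 11 ^ 4 - 4 * Kp 11 ^ 3 + 3 * Kp 11 ^ 2 + 3 * Kp 11 - 1 = 0 := by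
  have h3 : 1 ≤ Kp 11 := Kp_ge1 (by norm_num)
  have e1 : Real.cos (6 * (Real.pi / 11)) = -Real.cos (5 * (Real.pi / 11)) := by
    rw [← Real.cos_pi_sub]
    congr 1
    ring
  have d2 : Real.cos (2 * (Real.pi / 11)) = 2 * Real.cos (Real.pi / 11) ^ 2 - 1 :=
    Real.cos_two_mul _
  have d3 : Real.cos (3 * (Real.pi / 11)) =
      4 * Real.cos (Real.pi / 11) ^ 3 - 3 * Real.cos (Real.pi / 11) := Real.cos_three_mul _
  have d6 : Real.cos (6 * (Real.pi / 11)) = 2 * Real.cos (3 * (Real.pi / 11)) ^ 2 - 1 := by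
    rw [← Real.cos_two_mul]
    congr 1
    ring
  have d5 : Real.cos (5 * (Real.pi / 11)) =
      2 * Real.cos (2 * (Real.pi / 11)) * Real.cos (3 * (Real.pi / 11)) -
        Real.cos (Real.pi / 11) := by
    have a := Real.cos_add (3 * (Real.pi / 11)) (2 * (Real.pi / 11))
    have b := Real.cos_sub (3 * (Real.pi / 11)) (2 * (Real.pi / 11))
    have c1 : 3 * (Real.pi / 11) + 2 * (Real.pi / 11) = 5 * (Real.pi / 11) := by ring
    have c2 : 3 * (Real.pi / 11) - 2 * (Real.pi / 11) = Real.pi / 11 := by ring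
    rw [c1] at a
    rw [c2] at b
    linarith
  have hk : Kp 11 = 2 * Real.cos (Real.pi / 11) := by
    unfold Kp
    rw [Nat.cast_ofNat]
  rw [d6, d5, d3, d2] at e1
  set c := Real.cos (Real.pi / 11) with hc
  have hf : (Kp 11 + 2) * (Kp 11 ^ 5 - Kp 11 ^ 4 - 4 * Kp 11 ^ 3 + 3 * Kp 11 ^ 2 +
      3 * Kp 11 - 1) = 0 := by
    rw [hk]
    linear_combination 2 * e1
  rcases mul_eq_zero.1 hf with h | h
  · linarith
  · exact h

/-- ROW KAP -/
theorem kap_enc (M : ℕ) (h3 : 3 ≤ M) (h12 : M ≤ 12) :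
    |Kp M - (kb M : ℝ) / 2 ^ 48| ≤ 1 / 2 ^ 48 := by
  have h6 : (1.7 : ℝ) ≤ Kp 6 := by
    rw [kap_6]
    exact le_trans (by norm_num) kap_73
  have hlo : ∀ N : ℕ, 6 ≤ N → (1.7 : ℝ) ≤ Kp N := fun N hN =>
    h6.trans (kap_mono (by norm_num) hN)
  interval_cases M
  · rw [Kp3]
    simp only [kb]
    norm_num
  · refine kap_sq _ (by linarith [Kp_ge1 (M := 4) (by norm_num)]) 2 _ ?_ ?_ ?_ ?_
    · simp only [kb]; norm_num
    · rw [Kp4_sq]; norm_num
    · simp only [kb]; norm_num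
    · simp only [kb]; norm_num
  · refine kap_enc_of (fun x => x ^ 2 - x - 1) (fun x a => x + a - 1) (fun x a => by ring)
      _ _ 1 (Kp_ge1 (by norm_num)) Kp5_eq (fun a ha => ?_) ?_ ?_ ?_
    · show 0 < Kp 5 + a - 1
      linarith [Kp_ge1 (M := 5) (by norm_num)]
    · simp only [kb]; norm_num
    · simp only [kb]; norm_num
    · simp only [kb]; norm_num
  · refine kap_sq _ (by linarith [Kp_ge1 (M := 6) (by norm_num)]) 3 _ ?_ ?_ ?_ ?_
    · simp only [kb]; norm_num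
    · rw [Kp6_sq]; norm_num
    · simp only [kb]; norm_num
    · simp only [kb]; norm_num
  · refine kap_enc_of (fun x => x ^ 3 - x ^ 2 - 2 * x + 1)
      (fun x a => x ^ 2 + a * x + a ^ 2 - (x + a) - 2) (fun x a => by ring)
      _ _ 1.7 (hlo 7 (by norm_num)) Kp7_eq (fun a ha => ?_) ?_ ?_ ?_
    · show 0 < Kp 7 ^ 2 + a * Kp 7 + a ^ 2 - (Kp 7 + a) - 2
      nlinarith [hlo 7 (by norm_num)]
    · simp only [kb]; norm_num
    · simp only [kb]; norm_num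
    · simp only [kb]; norm_num
  · refine kap_enc_of (fun x => x ^ 4 - 4 * x ^ 2 + 2)
      (fun x a => (x + a) * (x ^ 2 + a ^ 2 - 4)) (fun x a => by ring)
      _ _ 1.7 (hlo 8 (by norm_num)) Kp8_eq (fun a ha => ?_) ?_ ?_ ?_
    · have := hlo 8 (by norm_num)
      refine mul_pos (by linarith) (by nlinarith)
    · simp only [kb]; norm_num
    · simp only [kb]; norm_num
    · simp only [kb]; norm_num
  · refine kap_enc_of (fun x => x ^ 3 - 3 * x - 1)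
      (fun x a => x ^ 2 + a * x + a ^ 2 - 3) (fun x a => by ring)
      _ _ 1.7 (hlo 9 (by norm_num)) Kp9_eq (fun a ha => ?_) ?_ ?_ ?_
    · show 0 < Kp 9 ^ 2 + a * Kp 9 + a ^ 2 - 3
      nlinarith [hlo 9 (by norm_num)]
    · simp only [kb]; norm_num
    · simp only [kb]; norm_num
    · simp only [kb]; norm_num
  · refine kap_enc_of (fun x => x ^ 4 - 5 * x ^ 2 + 5)
      (fun x a => (x + a) * (x ^ 2 + a ^ 2 - 5)) (fun x a => by ring)
      _ _ 1.7 (hlo 10 (by norm_num)) Kp10_eq (fun a ha => ?_) ?_ ?_ ?_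
    · have := hlo 10 (by norm_num)
      refine mul_pos (by linarith) (by nlinarith)
    · simp only [kb]; norm_num
    · simp only [kb]; norm_num
    · simp only [kb]; norm_num
  · have h8 : (1.84 : ℝ) ≤ Kp 8 := by
      have h0 := Kp8_eq
      have h1 := hlo 8 (by norm_num)
      have h2 : (0.89 : ℝ) ≤ Kp 8 ^ 2 - 2 := by nlinarith
      have h3 : (Kp 8 ^ 2 - 2) ^ 2 = 2 := by linear_combination h0
      have h4 : (1.4 : ℝ) ≤ Kp 8 ^ 2 - 2 := by
        generalize Kp 8 ^ 2 - 2 = y at h2 h3 ⊢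
        nlinarith
      nlinarith
    have h11 : (1.84 : ℝ) ≤ Kp 11 := h8.trans (kap_mono (by norm_num) (by norm_num))
    have h11' := kap_le2 11
    refine kap_enc_of (fun x => x ^ 5 - x ^ 4 - 4 * x ^ 3 + 3 * x ^ 2 + 3 * x - 1)
      (fun x a => (x ^ 4 + x ^ 3 * a + x ^ 2 * a ^ 2 + x * a ^ 3 + a ^ 4) -
        (x ^ 3 + x ^ 2 * a + x * a ^ 2 + a ^ 3) - 4 * (x ^ 2 + x * a + a ^ 2) +
        3 * (x + a) + 3) (fun x a => by ring)
      _ _ 1.84 h11 Kp11_eq (fun a ha => ?_) ?_ ?_ ?_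
    · obtain ⟨u, hu⟩ : ∃ u, u = Kp 11 - 1.84 := ⟨_, rfl⟩
      obtain ⟨v, hv⟩ : ∃ v, v = a - 1.84 := ⟨_, rfl⟩
      have hx : Kp 11 = u + 1.84 := by linarith
      have ha' : a = v + 1.84 := by linarith
      have hu0 : 0 ≤ u := by linarith
      have hv0 : 0 ≤ v := by linarith
      rw [hx, ha']
      have m1 := mul_nonneg hu0 hv0
      have m2 := mul_nonneg hu0 hu0
      have m3 := mul_nonneg hv0 hv0
      have m4 := mul_nonneg m2 hv0
      have m5 := mul_nonneg hu0 m3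
      have m6 := mul_nonneg m2 hu0
      have m7 := mul_nonneg m3 hv0
      have m8 := mul_nonneg m2 m2
      have m9 := mul_nonneg m3 m3
      have m10 := mul_nonneg m6 hv0
      have m11 := mul_nonneg m2 m3
      have m12 := mul_nonneg hu0 m7
      nlinarith
    · simp only [kb]; norm_num
    · simp only [kb]; norm_num
    · simp only [kb]; norm_num
  · refine kap_enc_of (fun x => x ^ 4 - 4 * x ^ 2 + 1)
      (fun x a => (x + a) * (x ^ 2 + a ^ 2 - 4)) (fun x a => by ring)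
      _ _ 1.7 (hlo 12 (by norm_num)) Kp12_eq (fun a ha => ?_) ?_ ?_ ?_
    · have := hlo 12 (by norm_num)
      refine mul_pos (by linarith) (by nlinarith)
    · simp only [kb]; norm_num
    · simp only [kb]; norm_num
    · simp only [kb]; norm_num

/-- the tails -/
theorem kap_tail (N M : ℕ) (h3 : 3 ≤ N) (h12 : N ≤ 12) (hM : N ≤ M) :
    ((kb N : ℝ) - 1) / 2 ^ 48 ≤ Kp M ∧ Kp M ≤ 2 := by
  refine ⟨?_, kap_le2 M⟩
  have h1 := kap_enc N h3 h12
  rw [abs_le] at h1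
  have h2 := kap_mono (M := N) (N := M) (by omega) hM
  have e : ((kb N : ℝ) - 1) / 2 ^ 48 = (kb N : ℝ) / 2 ^ 48 - 1 / 2 ^ 48 := by ring
  linarith [h1.1]

/-! ### row RJ -/

theorem RJ_one (M : ℕ) (hM : 3 ≤ M) : Rb M 1 = 1 + 2 / Kp M := by
  have hM' : (3 : ℝ) ≤ M := by exact_mod_cast hM
  have hpi := Real.pi_pos
  have h1 : 0 < Real.pi / M := by positivity
  have h2 : Real.pi / M ≤ Real.pi / 3 := div_le_div_of_nonneg_left hpi.le (by norm_num) hM'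
  have hc : 0 < Real.cos (Real.pi / M) := Real.cos_pos_of_mem_Ioo ⟨by linarith, by linarith⟩
  have hs2 : 0 < Real.sin (Real.pi / M / 2) :=
    Real.sin_pos_of_pos_of_lt_pi (by linarith) (by linarith)
  unfold Rb Kp
  rw [Nat.cast_one, one_mul, Real.tan_eq_sin_div_cos]
  have e1 : Real.sin (Real.pi / M) = 2 * Real.sin (Real.pi / M / 2) * Real.cos (Real.pi / M / 2) := by
    rw [← Real.sin_two_mul]; congr 1; ring
  have e2 : Real.cos (Real.pi / M) = 2 * Real.cos (Real.pi / M / 2) ^ 2 - 1 := by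
    rw [← Real.cos_two_mul]; congr 1; ring
  rw [e1]
  generalize Real.sin (Real.pi / M / 2) = S at hs2 ⊢
  generalize Real.cos (Real.pi / M / 2) = C at e2 ⊢
  generalize Real.cos (Real.pi / M) = c at hc e2 ⊢
  have hS := hs2.ne'
  have hc' := hc.ne'
  field_simp
  linarith

theorem RJ_aux (M j : ℕ) (hM : 3 ≤ M) (hj : 1 ≤ j) (hjM : j ≤ M) :
    0 < Real.sin ((j : ℝ) * (Real.pi / M) / 2) ∧ 0 ≤ Real.cos ((j : ℝ) * (Real.pi / M) / 2) ∧
      (j < M → 0 < Real.cos ((j : ℝ) * (Real.pi / M) / 2)) := by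
  have hM' : (3 : ℝ) ≤ M := by exact_mod_cast hM
  have hpi := Real.pi_pos
  have h1 : 0 < Real.pi / M := by positivity
  have hj' : (1 : ℝ) ≤ j := by exact_mod_cast hj
  have hjM' : (j : ℝ) ≤ M := by exact_mod_cast hjM
  have e : (M : ℝ) * (Real.pi / M) = Real.pi := by field_simp
  have h3 : 0 < (j : ℝ) * (Real.pi / M) / 2 := by positivity
  have h4 : (j : ℝ) * (Real.pi / M) ≤ Real.pi := by
    have := mul_le_mul_of_nonneg_right hjM' h1.le
    linarith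
  refine ⟨Real.sin_pos_of_pos_of_lt_pi h3 (by linarith),
    Real.cos_nonneg_of_mem_Icc ⟨by linarith, by linarith⟩, fun hlt => ?_⟩
  have hlt' : (j : ℝ) < M := by exact_mod_cast hlt
  have h5 : (j : ℝ) * (Real.pi / M) < Real.pi := by
    have := mul_lt_mul_of_pos_right hlt' h1
    linarith
  exact Real.cos_pos_of_mem_Ioo ⟨by linarith, by linarith⟩

theorem tan_pos' (M : ℕ) (hM : 3 ≤ M) : 0 < Real.tan (Real.pi / M) ∧
    Real.tan (Real.pi / M) ^ 2 = SbP (Kp M) := by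
  have hM' : (3 : ℝ) ≤ M := by exact_mod_cast hM
  have hpi := Real.pi_pos
  have h1 : 0 < Real.pi / M := by positivity
  have h2 : Real.pi / M ≤ Real.pi / 3 := div_le_div_of_nonneg_left hpi.le (by norm_num) hM'
  have hc : 0 < Real.cos (Real.pi / M) := Real.cos_pos_of_mem_Ioo ⟨by linarith, by linarith⟩
  refine ⟨Real.tan_pos_of_pos_of_lt_pi_div_two h1 (by linarith), ?_⟩
  rw [Real.tan_eq_sin_div_cos, SbP, Kp]
  have := Real.sin_sq_add_cos_sq (Real.pi / M)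
  field_simp
  nlinarith

theorem RJ_pos (M j : ℕ) (hM : 3 ≤ M) (hj : 1 ≤ j) (hjM : j ≤ M) :
    0 ≤ Rb M j ∧ (j < M → 0 < Rb M j) := by
  obtain ⟨s, c, c'⟩ := RJ_aux M j hM hj hjM
  obtain ⟨t, -⟩ := tan_pos' M hM
  exact ⟨mul_nonneg t.le (div_nonneg c s.le), fun h => mul_pos t (div_pos (c' h) s)⟩

theorem RJ_succ (M j : ℕ) (hM : 3 ≤ M) (hj : 1 ≤ j) (hjM : j + 1 ≤ M) :
    Rb M (j + 1) = (Rb M 1 * Rb M j - SbP (Kp M)) / (Rb M 1 + Rb M j) := by
  obtain ⟨s1, c1, c1'⟩ := RJ_aux M 1 hM le_rfl (by omega)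
  obtain ⟨s2, c2, c2'⟩ := RJ_aux M j hM hj (by omega)
  obtain ⟨s3, -, -⟩ := RJ_aux M (j + 1) hM (by omega) hjM
  obtain ⟨t, t2⟩ := tan_pos' M hM
  have p1 := (RJ_pos M 1 hM le_rfl (by omega)).2 (by omega)
  have p2 := (RJ_pos M j hM hj (by omega)).2 (by omega)
  rw [← t2]
  rw [eq_div_iff (by linarith)]
  unfold Rb
  set T := Real.tan (Real.pi / M)
  have e : ((j + 1 : ℕ) : ℝ) * (Real.pi / M) / 2 =
      ((1 : ℕ) : ℝ) * (Real.pi / M) / 2 + (j : ℝ) * (Real.pi / M) / 2 := by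
    push_cast; ring
  rw [e] at s3 ⊢
  rw [Real.sin_add] at s3
  rw [Real.cos_add, Real.sin_add]
  set S1 := Real.sin (((1 : ℕ) : ℝ) * (Real.pi / M) / 2)
  set C1 := Real.cos (((1 : ℕ) : ℝ) * (Real.pi / M) / 2)
  set S2 := Real.sin ((j : ℝ) * (Real.pi / M) / 2)
  set C2 := Real.cos ((j : ℝ) * (Real.pi / M) / 2)
  have hs3 : S1 * C2 + C1 * S2 ≠ 0 := s3.ne'
  have hS1 := s1.ne'
  have hS2 := s2.ne'
  have k1 : T * (C1 / S1) + T * (C2 / S2) = T * ((S1 * C2 + C1 * S2) / (S1 * S2)) := by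
    field_simp
    ring
  rw [k1]
  have k2 : ∀ D N : ℝ, D ≠ 0 → T * (N / D) * (T * (D / (S1 * S2))) = T ^ 2 * (N / (S1 * S2)) := by
    intro D N hD
    field_simp
  rw [k2 _ _ hs3]
  field_simp

theorem RJ_two (M : ℕ) (hM : 3 ≤ M) : Rb M 2 = 1 := by
  obtain ⟨t, -⟩ := tan_pos' M hM
  unfold Rb
  have e : ((2 : ℕ) : ℝ) * (Real.pi / M) / 2 = Real.pi / M := by push_cast; ring
  rw [e]
  rw [Real.tan_eq_sin_div_cos] at t ⊢
  have hM' : (3 : ℝ) ≤ M := by exact_mod_cast hM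
  have hpi := Real.pi_pos
  have h1 : 0 < Real.pi / M := by positivity
  have h2 : Real.pi / M ≤ Real.pi / 3 := div_le_div_of_nonneg_left hpi.le (by norm_num) hM'
  have hc : 0 < Real.cos (Real.pi / M) := Real.cos_pos_of_mem_Ioo ⟨by linarith, by linarith⟩
  have hs : 0 < Real.sin (Real.pi / M) := Real.sin_pos_of_pos_of_lt_pi h1 (by linarith)
  field_simp

/-- the parameters decrease -/
theorem RJ_anti (M j : ℕ) (hM : 3 ≤ M) (hj : 1 ≤ j) (hjM : j + 1 ≤ M) :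
    Rb M (j + 1) < Rb M j := by
  have p1 := (RJ_pos M 1 hM le_rfl (by omega)).2 (by omega)
  have p2 := (RJ_pos M j hM hj (by omega)).2 (by omega)
  obtain ⟨t, t2⟩ := tan_pos' M hM
  rw [RJ_succ M j hM hj hjM, div_lt_iff₀ (by linarith), ← t2]
  nlinarith [sq_pos_of_pos t, mul_pos p2 p2]

end Pool.Agent.Helper6.MONO
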