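import Pool.Agent.Helper12.CX.GTO
import Pool.Agent.Helper12.CX.KAP

/-!
Thresholds: the certificate clause of one triple from `ZF` at the exact threshold.
-/

set_option autoImplicit false
noncomputable section
namespace Pool.Agent.Helper6.MONO

open Polynomial

theorem thr_Kp2 (M : ℕ) (h : 3 ≤ M) : 1 ≤ Kp M ∧ Kp M < 2 := by
  refine ⟨Kp_ge1 h, ?_⟩
  unfold Kp
  have hM' : (0 : ℝ) < M := by
    have : (3 : ℝ) ≤ M := by exact_mod_cast h
    linarith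
  have h1 : 0 < Real.pi / M := div_pos Real.pi_pos hM'
  have h2 : Real.pi / M ≤ Real.pi := by
    rw [div_le_iff₀ hM']
    have : (3 : ℝ) ≤ M := by exact_mod_cast h
    nlinarith [Real.pi_pos]
  have h3 : Real.cos (Real.pi / M) < Real.cos 0 :=
    Real.cos_lt_cos_of_nonneg_of_le_pi le_rfl h2 h1
  rw [Real.cos_zero] at h3
  linarith

theorem Kp_mono {M N : ℕ} (h : 3 ≤ M) (h2 : M ≤ N) : Kp M ≤ Kp N := by
  unfold Kp
  have hM' : (0 : ℝ) < M := by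
    have : (3 : ℝ) ≤ M := by exact_mod_cast h
    linarith
  have hN' : (0 : ℝ) < N := by
    have : (M : ℝ) ≤ N := by exact_mod_cast h2
    linarith
  have h1 : Real.pi / N ≤ Real.pi / M :=
    div_le_div_of_nonneg_left Real.pi_pos.le hM' (by exact_mod_cast h2)
  have h3 : Real.pi / M ≤ Real.pi := by
    rw [div_le_iff₀ hM']
    have : (3 : ℝ) ≤ M := by exact_mod_cast h
    nlinarith [Real.pi_pos]
  have h4 := Real.cos_le_cos_of_nonneg_of_le_pi (div_pos Real.pi_pos hN').le h3 h1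
  linarith

/-- the formula of `xA` -/
theorem xA_eq (p q r : ℕ) : xA p q r = (4 - Kp r ^ 2 - Kp p ^ 2 * Kp q ^ 2) /
    (Kp p * Kp q * Kp r) := rfl

theorem fB_eq (p q r : ℕ) (x : ℝ) : fB p q r x =
    fBx (Kp p ^ 2 + Kp q ^ 2 + Kp r ^ 2 - 3) (Kp p * Kp q * Kp r) x := rfl

theorem xA_swap (p q r : ℕ) : xA q p r = xA p q r := by
  rw [xA_eq, xA_eq]
  congr 1 <;> ring

theorem fB_swap (p q r : ℕ) (x : ℝ) : fB q p r x = fB p q r x := by
  rw [fB_eq, fB_eq]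
  congr 1 <;> ring

theorem fB_rot (p q r : ℕ) (x : ℝ) : fB q r p x = fB p q r x := by
  rw [fB_eq, fB_eq]
  congr 1 <;> ring

/-- `xA` is larger than `-2` -/
theorem xA_gt {p q r : ℕ} (hp : 3 ≤ p) (hq : 3 ≤ q) (hqr : q ≤ r) : -2 < xA p q r := by
  have hr : 3 ≤ r := hq.trans hqr
  obtain ⟨a1, a2⟩ := thr_Kp2 p hp
  obtain ⟨b1, b2⟩ := thr_Kp2 q hq
  obtain ⟨c1, c2⟩ := thr_Kp2 r hr
  have hm := Kp_mono hq hqr
  rw [xA_eq, lt_div_iff₀ (by positivity)]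
  have h1 : Kp p * Kp q - Kp r < 2 := by nlinarith
  have h2 : -2 < Kp p * Kp q - Kp r := by nlinarith
  nlinarith

theorem xA_le2 {p q r : ℕ} (hp : 3 ≤ p) (hq : 3 ≤ q) (hr : 3 ≤ r) : xA p q r ≤ 2 := by
  obtain ⟨a1, a2⟩ := thr_Kp2 p hp
  obtain ⟨b1, b2⟩ := thr_Kp2 q hq
  obtain ⟨c1, c2⟩ := thr_Kp2 r hr
  rw [xA_eq, div_le_iff₀ (by positivity)]
  have h1 : 2 ≤ Kp p * Kp q + Kp r := by nlinarith
  nlinarith

/-- the sorted labelling has the largest `xA` -/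
theorem xA_max {p q r : ℕ} (hp : 3 ≤ p) (hq : 3 ≤ q) (hqr : q ≤ r) :
    xA r p q ≤ xA p q r := by
  have hr : 3 ≤ r := hq.trans hqr
  obtain ⟨a1, a2⟩ := thr_Kp2 p hp
  obtain ⟨b1, b2⟩ := thr_Kp2 q hq
  obtain ⟨c1, c2⟩ := thr_Kp2 r hr
  have hm := Kp_mono hq hqr
  rw [xA_eq, xA_eq]
  have e : Kp r * Kp p * Kp q = Kp p * Kp q * Kp r := by ring
  rw [e]
  refine div_le_div_of_nonneg_right ?_ (by positivity)
  have h1 : Kp q ^ 2 ≤ Kp r ^ 2 := by nlinarith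
  have h2 : 1 ≤ Kp p ^ 2 := by nlinarith
  nlinarith [mul_nonneg (sub_nonneg.2 h1) (sub_nonneg.2 h2)]

/-- all three labellings -/
theorem xA_max' {p q r : ℕ} (hp : 3 ≤ p) (hpq : p ≤ q) (hqr : q ≤ r) :
    xA r p q ≤ xA p q r ∧ xA q r p ≤ xA p q r := by
  have hq : 3 ≤ q := hp.trans hpq
  have hr : 3 ≤ r := hq.trans hqr
  refine ⟨xA_max hp hq hqr, ?_⟩
  have h := xA_max hq hp (hpq.trans hqr)
  rw [xA_swap p q r] at h
  rw [xA_swap r q p]
  exact h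

/-- class type A: zero freeness down to `xA` -/
theorem certA {p q r : ℕ} (hp : 3 ≤ p) (hpq : p ≤ q) (hqr : q ≤ r)
    (hZ : ZF p q r (xA p q r)) : CertAt p q r := by
  have hq : 3 ≤ q := hp.trans hpq
  have hr : 3 ≤ r := hq.trans hqr
  refine ⟨xA p q r, xA_gt hp hq hqr, fun x1 hx1 => ?_, hZ⟩
  have h2 := xA_le2 hp hq hr
  exact ⟨(x1 + xA p q r) / 2, by linarith, by linarith, by linarith, Or.inl (by linarith)⟩

/-- the conditions at the threshold -/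
structure Thr (p q r : ℕ) (x0 : ℝ) : Prop where
  gt : -2 < x0
  le : x0 ≤ 2
  A1 : xA p q r ≤ x0
  A2 : xA q r p ≤ x0
  A3 : xA r p q ≤ x0
  B : 0 ≤ fB p q r x0
  eq : x0 = xA p q r ∨ x0 = xA q r p ∨ x0 = xA r p q ∨ fB p q r x0 = 0

theorem Thr.rot {p q r : ℕ} {x0 : ℝ} (h : Thr p q r x0) : Thr q r p x0 :=
  ⟨h.gt, h.le, h.A2, h.A3, h.A1, by rw [fB_rot]; exact h.B, by
    rw [fB_rot]
    rcases h.eq with e | e | e | e
    · exact Or.inr (Or.inr (Or.inl e))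
    · exact Or.inl e
    · exact Or.inr (Or.inl e)
    · exact Or.inr (Or.inr (Or.inr e))⟩

theorem Thr.swap {p q r : ℕ} {x0 : ℝ} (h : Thr p q r x0) : Thr q p r x0 :=
  ⟨h.gt, h.le, by rw [xA_swap]; exact h.A1, by rw [xA_swap]; exact h.A3,
    by rw [xA_swap]; exact h.A2, by rw [fB_swap]; exact h.B, by
    rw [fB_swap, xA_swap p q r, xA_swap r p q, xA_swap q r p]
    rcases h.eq with e | e | e | e
    · exact Or.inl e
    · exact Or.inr (Or.inr (Or.inl e))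
    · exact Or.inr (Or.inl e)
    · exact Or.inr (Or.inr (Or.inr e))⟩

/-- class type A or B: zero freeness at every point with the threshold conditions which lies in a
given interval -/
theorem certB {p q r : ℕ} (hp : 3 ≤ p) (hpq : p ≤ q) (hqr : q ≤ r) (lo hi : ℝ) (hm2 : -2 < lo)
    (hlh : lo ≤ hi) (h2 : hi ≤ 2)
    (hlo : lo < xA p q r ∨ fB p q r lo < 0) (hA : xA p q r ≤ hi) (hB : 0 ≤ fB p q r hi)
    (hZ : ∀ x0 : ℝ, lo ≤ x0 → x0 ≤ hi → Thr p q r x0 → ZF p q r x0) : CertAt p q r := by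
  obtain ⟨x0, h1, h3, h4, h5, h6⟩ := st_THX p q r lo hi hlh h2 hlo hA hB
  obtain ⟨k1, k2⟩ := xA_max' hp hpq hqr
  refine ⟨x0, by linarith, h6, hZ x0 h1 h3 ⟨by linarith, by linarith, h4, k2.trans h4,
    k1.trans h4, h5, ?_⟩⟩
  by_contra hc
  push Not at hc
  obtain ⟨c1, -, -, c4⟩ := hc
  have g1 : xA p q r < x0 := lt_of_le_of_ne h4 (Ne.symm c1)
  have g2 : 0 < fB p q r x0 := lt_of_le_of_ne h5 (Ne.symm c4)
  -- a neighbourhood without bad points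
  have hopen : IsOpen {x : ℝ | xA p q r < x ∧ 0 < fB p q r x} :=
    (isOpen_lt continuous_const continuous_id).inter
      (isOpen_lt continuous_const (thx_cont p q r))
  obtain ⟨ε, hε, hball⟩ := Metric.isOpen_iff.1 hopen x0 ⟨g1, g2⟩
  obtain ⟨x, hx1, hx2, -, hx4⟩ := h6 (x0 - ε / 2) (by linarith)
  have hx : x ∈ {x : ℝ | xA p q r < x ∧ 0 < fB p q r x} := by
    apply hball
    rw [Metric.mem_ball, Real.dist_eq, abs_lt]
    constructor <;> linarith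
  rcases hx4 with h | h
  · exact absurd hx.1 (not_lt.2 h.le)
  · exact absurd hx.2 (not_lt.2 h.le)

/-- without numbers: some threshold exists -/
theorem certT {p q r : ℕ} (hp : 3 ≤ p) (hpq : p ≤ q) (hqr : q ≤ r)
    (hZ : ∀ x0 : ℝ, Thr p q r x0 → ZF p q r x0) : CertAt p q r := by
  have hq : 3 ≤ q := hp.trans hpq
  have hr : 3 ≤ r := hq.trans hqr
  have g := xA_gt hp hq hqr
  have g2 := xA_le2 hp hq hr
  refine certB hp hpq hqr ((xA p q r - 2) / 2) 2 (by linarith) (by linarith) le_rfl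
    (Or.inl (by linarith)) g2 ?_ (fun x0 _ _ h => hZ x0 h)
  obtain ⟨a1, a2⟩ := thr_Kp2 p hp
  obtain ⟨b1, b2⟩ := thr_Kp2 q hq
  obtain ⟨c1, c2⟩ := thr_Kp2 r hr
  rw [fB_eq]
  set τ := (Kp p ^ 2 + Kp q ^ 2 + Kp r ^ 2 - 3) + Kp p * Kp q * Kp r with hτ
  have e : fBx (Kp p ^ 2 + Kp q ^ 2 + Kp r ^ 2 - 3) (Kp p * Kp q * Kp r) 2 =
      (τ + 3) ^ 3 * (τ - 1) := by
    rw [hτ]
    unfold fBx
    ring
  rw [e]
  have h1 : 1 ≤ τ := by
    have k1 : 1 ≤ Kp p * Kp q := by nlinarith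
    have k2 : 1 ≤ Kp p * Kp q * Kp r := by nlinarith
    nlinarith
  have h3 : 0 ≤ (τ + 3) ^ 3 := by positivity
  exact mul_nonneg h3 (by linarith)

end Pool.Agent.Helper6.MONO
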