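import Pool.Agent.Helper12.CX.Defs

/-!
Thresholds, the statement of the certificate, the final statement (MP_c75db0).
-/

set_option autoImplicit false
noncomputable section
namespace Pool.Agent.Helper6.MONO

open Polynomial

/-- the discriminant of the characteristic polynomial of `I₁ I₂ I₃` as a function of
`x = 2 cos (phase)`: with `S = Σ c² - 3`, `K = c₀ c₁ c₂` the trace is `S + K z⁻¹` -/
def fBx (S K x : ℝ) : ℝ :=
  (S ^ 2 + K ^ 2 + K * S * x) ^ 2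
    + 8 * (S ^ 3 + 3 / 2 * S ^ 2 * K * x + 3 * S * K ^ 2 * (x ^ 2 / 2 - 1)
      + K ^ 3 * ((x ^ 3 - 3 * x) / 2))
    + 18 * (S ^ 2 + K ^ 2 + K * S * x) - 27

def fB (p q r : ℕ) (x : ℝ) : ℝ :=
  fBx (kk p q r 0 1 ^ 2 + kk p q r 1 2 ^ 2 + kk p q r 2 0 ^ 2 - 3)
    (kk p q r 0 1 * kk p q r 1 2 * kk p q r 2 0) x

/-- where the discriminant is negative, `W_B` is elliptic -/
def ST_THB : Prop := ∀ (p q r : ℕ), 3 ≤ p → 3 ≤ q → 3 ≤ r → ∀ e : Fin 3 → V3, IsTri p q r e →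
  ∀ z : ℂ, ‖z‖ = 1 → -trip e = (‖trip e‖ : ℂ) * z → fB p q r (2 * z.re) < 0 →
  Ell (act e [0, 1, 2])

/-- THE CERTIFICATE: zero freeness down to the exact threshold -/
def ST_CERT : Prop := ∀ (p q r : ℕ), 3 ≤ p → p ≤ q → q ≤ r →
  (1 : ℝ) / p + 1 / q + 1 / r < 1 →
  ∃ x0 : ℝ, -2 < x0 ∧ (∀ x1 : ℝ, x1 < x0 → ∃ x : ℝ, x1 ≤ x ∧ x ≤ x0 ∧ x ≤ 2 ∧
    (x < xA p q r ∨ fB p q r x < 0)) ∧ ZF p q r x0

/-- the final statement -/
def ST_FIN : Prop := ∀ (p q r : ℕ), 2 ≤ p → p ≤ q → q ≤ r → (1 : ℝ) / p + 1 / q + 1 / r < 1 →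
  ∀ e e' : Fin 3 → V3, IsTri p q r e → IsTri p q r e' →
    |Complex.arg (-trip e)| ≤ |Complex.arg (-trip e')| →
    (∀ e'' : Fin 3 → V3, IsTri p q r e'' →
      |Complex.arg (-trip e'')| ≤ |Complex.arg (-trip e')| →
      ¬ Ell (act e'' [0, 1, 2, 1]) ∧ ¬ Ell (act e'' [0, 1, 2])) →
    ∀ w : List (Fin 3), tl (act e' w) ≤ tl (act e w)

def ST_FIN' : Prop := ST_CERT → ST_NRZ → ST_WGA → ST_TLW → ST_P2 → ST_THA → ST_THB → ST_EXZ →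
  ST_FIN

end Pool.Agent.Helper6.MONO
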