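import Pool.Agent.Helper90.CX.WGA
import Pool.Agent.Helper12.CX.Defs2

/-!
Order two: the phase can be removed, all configurations have the same word norms.
-/

set_option autoImplicit false
noncomputable section
namespace Pool.Agent.Helper6.MONO

theorem p2_ratio (a a' : ℂ) (h : ‖a'‖ = ‖a‖) :
    ∃ u : ℂ, ‖u‖ = 1 ∧ a' = u * a ∧ star a' * u = star a := by
  by_cases ha : a = 0
  · subst ha
    rw [norm_zero, norm_eq_zero] at h
    subst h
    exact ⟨1, by simp, by simp, by simp⟩
  · have ha' : ‖a‖ ≠ 0 := norm_ne_zero_iff.2 ha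
    have h2 : star a' * a' = star a * a := by
      have e1 : star a' * a' = ((‖a'‖ ^ 2 : ℝ) : ℂ) := by
        rw [← Complex.normSq_eq_norm_sq, Complex.normSq_eq_conj_mul_self]
        rfl
      have e2 : star a * a = ((‖a‖ ^ 2 : ℝ) : ℂ) := by
        rw [← Complex.normSq_eq_norm_sq, Complex.normSq_eq_conj_mul_self]
        rfl
      rw [e1, e2, h]
    refine ⟨a' / a, ?_, ?_, ?_⟩
    · rw [norm_div, h, div_self ha']
    · rw [div_mul_cancel₀ _ ha]
    · rw [← mul_div_assoc, h2, mul_div_assoc, div_self ha, mul_one]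

theorem st_P2 : ST_P2 := by
  intro q r e e' he he' w
  have hherm : ∀ (f : Fin 3 → V3) (i j : Fin 3), gram f j i = star (gram f i j) := by
    intro f i j
    simp only [gram]
    rw [wga_hf_star (f i) (f j)]
    simp
  have hn : ∀ (f : Fin 3 → V3), IsTri 2 q r f → gram f 0 1 = 0 ∧ ‖gram f 2 1‖ = |Kp q| ∧
      ‖gram f 2 0‖ = |Kp r| := by
    intro f hf
    refine ⟨?_, ?_, ?_⟩
    · rw [← norm_eq_zero]
      simp only [gram, norm_mul, hf.ang1]
      norm_num
    · rw [hherm f 1 2, norm_star]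
      have h1 : 0 ≤ Real.cos (Real.pi / q) := by
        rw [← hf.ang2]
        exact norm_nonneg _
      simp only [gram, norm_mul, hf.ang2, Kp]
      rw [abs_of_nonneg (by positivity)]
      norm_num
    · have h1 : 0 ≤ Real.cos (Real.pi / r) := by
        rw [← hf.ang3]
        exact norm_nonneg _
      simp only [gram, norm_mul, hf.ang3, Kp]
      rw [abs_of_nonneg (by positivity)]
      norm_num
  obtain ⟨a0, a1, a2⟩ := hn e he
  obtain ⟨b0, b1, b2⟩ := hn e' he'
  obtain ⟨u, u1, u2, u3⟩ := p2_ratio (gram e 2 1) (gram e' 2 1) (by rw [a1, b1])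
  obtain ⟨v, v1, v2, v3⟩ := p2_ratio (gram e 2 0) (gram e' 2 0) (by rw [a2, b2])
  have a0' : gram e 1 0 = 0 := by rw [hherm e 0 1, a0, star_zero]
  have b0' : gram e' 1 0 = 0 := by rw [hherm e' 0 1, b0, star_zero]
  symm
  apply wga_nrm_gauge (gram e) (gram e') ![v, u, 1]
  · intro k
    fin_cases k
    · simpa using v1
    · simpa using u1
    · simp
  · intro i j hij
    have key : ∀ a b : Fin 3, a ≠ b → (a = 0 ∧ b = 1) ∨ (a = 1 ∧ b = 0) ∨ (a = 1 ∧ b = 2) ∨
        (a = 2 ∧ b = 1) ∨ (a = 2 ∧ b = 0) ∨ (a = 0 ∧ b = 2) := by decide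
    rcases key i j hij with ⟨hi, hj⟩ | ⟨hi, hj⟩ | ⟨hi, hj⟩ | ⟨hi, hj⟩ | ⟨hi, hj⟩ | ⟨hi, hj⟩ <;>
      subst hi <;> subst hj
    · rw [a0', b0']
      simp
    · rw [a0, b0]
      simp
    · -- i = 1, j = 2
      simp only [Matrix.cons_val_one, Matrix.cons_val, mul_one]
      exact u2
    · -- i = 2, j = 1
      simp only [Matrix.cons_val_one, Matrix.cons_val, one_mul]
      rw [hherm e 2 1, hherm e' 2 1]
      exact u3
    · -- i = 2, j = 0
      simp only [Matrix.cons_val_zero, Matrix.cons_val, one_mul]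
      rw [hherm e 2 0, hherm e' 2 0]
      exact v3
    · -- i = 0, j = 2
      simp only [Matrix.cons_val_zero, Matrix.cons_val, mul_one]
      exact v2

end Pool.Agent.Helper6.MONO
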