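import Pool.Agent.Helper12.CX.SVF
import Pool.Agent.Helper6.CX.LNR

/-!
The class theorem in the global charts: `zf_class` instantiated with `MG`, `link_global`, `MG_rc`.
-/

set_option autoImplicit false
noncomputable section
namespace Pool.Agent.Helper6.MONO.SV

open Polynomial Filter Topology Complex
open Pool.Agent.Helper39.C75
open Pool.Agent.Helper21.MIR
open Pool.Agent.Helper21.SUP (GS Sch gM fD SBlk SSt DG DG_nx Modes std Ty)

/-- the `Y` chart at the start states -/
theorem DG3_inv_Y {p q r : ℕ} (hp : 3 ≤ p) (hq : 3 ≤ q) (hr : 3 ≤ r) {x0 : ℝ} (hx : -2 < x0)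
    {s : GS} (h : DG s) (f : Bool) {z : ℂ} (hz : InX x0 z) (v : V3) :
    ((DG3 p q r (s, f, none) (zw z))⁻¹).mulVec v = ![v 0, v 1 / omS p q r s (zw z),
      v 2 / (omS p q r s (zw z) * (1 / 2 - omS p q r s (zw z)))] := by
  obtain ⟨-, h2, h3⟩ := denS_zw hp hq hr hx hz s h
  have h3' : 1 / 2 - omS p q r s (zw z) ≠ 0 := h3
  have e : (DG3 p q r (s, f, none) (zw z)) = DYm (omS p q r s (zw z)) := by
    rw [DG3]
    have : DG (s, f, (none : Option Ty)).1 := h
    rw [if_pos this]
    rfl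
  have hdet := DG3_det hp hq hr hx hz (s, f, (none : Option Ty))
  set y : V3 := ![v 0, v 1 / omS p q r s (zw z),
      v 2 / (omS p q r s (zw z) * (1 / 2 - omS p q r s (zw z)))] with hy
  have hv : v = (DG3 p q r (s, f, none) (zw z)).mulVec y := by
    rw [e, hy]
    funext i
    fin_cases i
    · simp [DYm, Matrix.mulVec, dotProduct, Fin.sum_univ_three]
    · simp [DYm, Matrix.mulVec, dotProduct, Fin.sum_univ_three]
      field_simp
    · have h6 : 1 - omS p q r s (zw z) * 2 ≠ 0 := by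
        intro h
        apply h3'
        linear_combination h / 2
      simp [DYm, Matrix.mulVec, dotProduct, Fin.sum_univ_three]
      field_simp
  have hinv : ((DG3 p q r (s, f, none) (zw z))⁻¹).mulVec
      ((DG3 p q r (s, f, none) (zw z)).mulVec y) = y := by
    rw [Matrix.mulVec_mulVec, Matrix.nonsing_inv_mul _ hdet, Matrix.one_mulVec]
  rw [hv, hinv]

/-- THE CLASS THEOREM in the global charts. What remains: treatments `K` of the blocks and the
pointwise certificates on the upper half of the critical line. -/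
theorem zf_global {p q r : ℕ} (hp : 3 ≤ p) (hq : 3 ≤ q) (hr : 3 ≤ r)
    (hne : ¬ (p = 3 ∧ q = 3 ∧ r = 3)) {x0 : ℝ} (hx : -2 < x0) (Y : Modes)
    (al be e : ℝ) (he : e ≠ 0)
    (K : SBlk (std Y) p q r → TR (SBlk (std Y) p q r)) (rk : SBlk (std Y) p q r → ℕ)
    (hK : ∀ b, (K b).ok SBlk.src (fun b => MG p q r b) (Omg x0) rk b)
    (hck : ∀ b, ∀ w ∈ Frt x0, (K b).conjOK w (starRingEnd ℂ w)) (C : ℝ)
    (hpt : ∀ w ∈ Frt x0, 0 ≤ w.im →
      PT SBlk.src SBlk.tgt (fun b : SBlk (std Y) p q r => MG p q r b)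
        (StartY p q r al be e) K C w) : ZF p q r x0 :=
  zf_class hp hq hr hne hx (std Y) (fun s w => (DG3 p q r s w)⁻¹) (fun b w => MG p q r b w)
    (link_global hp hq hr hx Y) al be e he
    (fun _ hs _ _ hz v => DG3_inv_Y hp hq hr hx hs false hz v)
    (fun b i j => (MG_rc hp hq hr hx b).reg i j) K rk hK
    (fun b w _ i j => (MG_rc hp hq hr hx b).conj w i j) hck C hpt

end Pool.Agent.Helper6.MONO.SV
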