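import Pool.Agent.Helper12.CX.THR
import Pool.Agent.Helper12.CX.P2
import Pool.Agent.Helper12.CX.CLG

/-!
The top assembly: everything except the certificates of the classes.
-/

set_option autoImplicit false
noncomputable section
namespace Pool.Agent.Helper6.MONO

/-- the final statement from the certificate clause of every triple -/
theorem top_fin (hC : ∀ p q r : ℕ, 3 ≤ p → p ≤ q → q ≤ r → ¬ (p = 3 ∧ q = 3 ∧ r = 3) →
    CertAt p q r) : ST_FIN := by
  refine st_FIN ?_ g_NRZ st_WGA g_TLW st_P2 st_THA st_THB st_EXZ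
  intro p q r hp hpq hqr hyp
  refine hC p q r hp hpq hqr ?_
  rintro ⟨rfl, rfl, rfl⟩
  norm_num at hyp

/-! ### labels of orders -/

/-- a label: an exact order, a tail or a range -/
inductive Lab | ex (n : ℕ) | tl (n : ℕ) | rg (n m : ℕ)
  deriving DecidableEq

def Lab.has : Lab → ℕ → Prop
  | Lab.ex n, M => M = n
  | Lab.tl n, M => n ≤ M
  | Lab.rg n m, M => n ≤ M ∧ M ≤ m

/-- a class of triples -/
structure Cls where
  p : Lab
  q : Lab
  r : Lab
  deriving DecidableEq

def Cls.has (c : Cls) (p q r : ℕ) : Prop := c.p.has p ∧ c.q.has q ∧ c.r.has r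

/-- the certificate clause for a class -/
def Cls.Cert (c : Cls) : Prop := ∀ p q r : ℕ, c.has p q r → 3 ≤ p → p ≤ q → q ≤ r →
  ¬ (p = 3 ∧ q = 3 ∧ r = 3) → CertAt p q r

/-- the label of an order, tail from `N` on -/
def labOf (N M : ℕ) : Lab := if M < N then Lab.ex M else Lab.tl N

theorem labOf_has (N M : ℕ) : (labOf N M).has M := by
  unfold labOf
  split_ifs with h
  · rfl
  · exact not_lt.1 h

/-- the labels `3, ..., N-1, tail N` -/
def labs (N : ℕ) : List ℕ := List.range' 3 (N - 2)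

def labAt (N i : ℕ) : Lab := if i < N then Lab.ex i else Lab.tl N

/-- all sorted classes except `(3,3,3)` -/
def allCls (N : ℕ) : List Cls :=
  (((labs N).product ((labs N).product (labs N))).filter
    (fun t => decide (t.1 ≤ t.2.1) && decide (t.2.1 ≤ t.2.2) && !decide (t = (3, 3, 3)))).map
    (fun t => ⟨labAt N t.1, labAt N t.2.1, labAt N t.2.2⟩)

theorem labAt_min (N M : ℕ) : (labAt N (min M N)).has M := by
  unfold labAt
  rcases lt_or_ge M N with h | h
  · rw [min_eq_left h.le, if_pos h]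
    rfl
  · rw [min_eq_right h, if_neg (lt_irrefl N)]
    exact h

theorem allCls_mem (N : ℕ) (hN : 4 ≤ N) (p q r : ℕ) (hp : 3 ≤ p) (hpq : p ≤ q) (hqr : q ≤ r)
    (hne : ¬ (p = 3 ∧ q = 3 ∧ r = 3)) : ∃ c ∈ allCls N, c.has p q r := by
  refine ⟨⟨labAt N (min p N), labAt N (min q N), labAt N (min r N)⟩, ?_,
    labAt_min N p, labAt_min N q, labAt_min N r⟩
  unfold allCls labs
  rw [List.mem_map]
  refine ⟨(min p N, min q N, min r N), ?_, rfl⟩
  rw [List.mem_filter]
  constructor
  · rw [List.pair_mem_product, List.pair_mem_product]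
    simp only [List.mem_range'_1]
    omega
  · simp only [Bool.and_eq_true, Bool.not_eq_true', decide_eq_true_eq, decide_eq_false_iff_not,
      Prod.mk.injEq]
    omega

/-- THE FINAL STATEMENT from the classes -/
theorem top_classes (N : ℕ) (hN : 4 ≤ N) (h : ∀ c ∈ allCls N, c.Cert) : ST_FIN := by
  refine top_fin (fun p q r hp hpq hqr hne => ?_)
  obtain ⟨c, hc, hm⟩ := allCls_mem N hN p q r hp hpq hqr hne
  exact h c hc p q r hm hp hpq hqr hne

/-- the triples of a class -/
theorem top_class {c : Cls} (h : c.Cert) (p q r : ℕ) (hc : c.has p q r) (hp : 3 ≤ p)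
    (hpq : p ≤ q) (hqr : q ≤ r) (hne : ¬ (p = 3 ∧ q = 3 ∧ r = 3)) : FinAt p q r :=
  g_FIN' p q r hp (hp.trans hpq) (hp.trans (hpq.trans hqr)) (h p q r hc hp hpq hqr hne)

end Pool.Agent.Helper6.MONO
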