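import Pool.Agent.Helper12.CX.QTR
import Pool.Agent.Helper6.CX.TPC

/-!
Arcs: certificates on a quarter of the critical line for one labelling; rotation; classes.
-/

set_option autoImplicit false
noncomputable section
namespace Pool.Agent.Helper6.MONO.QTR

open Complex
open Pool.Agent.Helper6.MONO
open Pool.Agent.Helper21.SUP (GS DG SSt Ty std Modes srl mmOK_rot mmOK_02)
open Pool.Agent.Helper21.MIRI
open Pool.Agent.Helper39.SLT (T4)

/-- the reference vectors: `(1, 3/10, 1)` in the `Y` chart, `(1, 2/5, 1/2)` in the `L` chart for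
the states with label `3` -/
def V0 : RV2 := ⟨3 / 10, 1, 2 / 5, fun _ => 1 / 2⟩
/-- the step of the start vectors -/
def e0 : ℝ := 1 / 128

/-- typed certificates on the cell `a ≤ y ≤ b` -/
def TCell (p q r : ℕ) (x0 a b : ℝ) : Prop :=
  ∃ C : ℝ, ∀ w, Qt x0 w → a ≤ (xw w).im → (xw w).im ≤ b →
    ∃ R : GS → T4 → Set V3, TCert V0 e0 p q r C w R

/-- certificates near `w = 1` -/
def Far (p q r : ℕ) (x0 b : ℝ) : Prop := FarX V0 e0 p q r Y0 (liveT p q r) x0 b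

theorem tcert_mono {V : RV2} {e : ℝ} {p q r : ℕ} {C C' : ℝ} {w : ℂ} {R : GS → T4 → Set V3}
    (h : C ≤ C') (hR : TCert V e p q r C w R) : TCert V e p q r C' w R :=
  ⟨hR.reg, hR.blk, hR.refY, hR.refL, hR.start, hR.slit3, hR.slit2,
    fun s hs T hT u hu j => (hR.bound s hs T hT u hu j).trans
      (mul_le_mul_of_nonneg_right h (norm_nonneg _))⟩

theorem TCell.join {p q r : ℕ} {x0 a b c : ℝ} (h1 : TCell p q r x0 a b)
    (h2 : TCell p q r x0 b c) : TCell p q r x0 a c := by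
  obtain ⟨C1, h1⟩ := h1
  obtain ⟨C2, h2⟩ := h2
  refine ⟨max C1 C2, fun w hw ha hc => ?_⟩
  rcases le_total (xw w).im b with h | h
  · obtain ⟨R, hR⟩ := h1 w hw ha h
    exact ⟨R, tcert_mono (le_max_left _ _) hR⟩
  · obtain ⟨R, hR⟩ := h2 w hw h hc
    exact ⟨R, tcert_mono (le_max_right _ _) hR⟩

/-- chaining of cells: `l` lists the end points -/
def Chn (P : ℝ → ℝ → Prop) : ℝ → List ℝ → Prop
  | _, [] => True
  | a, b :: l => P a b ∧ Chn P b l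

theorem TCell.chain {p q r : ℕ} {x0 : ℝ} : ∀ (l : List ℝ) (a b : ℝ),
    Chn (TCell p q r x0) a (b :: l) → TCell p q r x0 a ((b :: l).getLast (List.cons_ne_nil _ _)) := by
  intro l
  induction l with
  | nil =>
    intro a b h
    exact h.1
  | cons c l ih =>
    intro a b h
    have h1 := ih b c h.2
    rw [List.getLast_cons (List.cons_ne_nil _ _)]
    exact h.1.join h1

theorem TCell.cellX {p q r : ℕ} (hp : 3 ≤ p) (hq : 3 ≤ q) (hr : 3 ≤ r) {x0 a b : ℝ}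
    (h : TCell p q r x0 a b) : CellX V0 e0 p q r Y0 (liveT p q r) x0 a b := by
  obtain ⟨C, h⟩ := h
  refine ⟨C, fun w hw ha hb => ?_⟩
  obtain ⟨R, hR⟩ := h w hw ha hb
  exact ⟨_, hR.pcert hp hq hr⟩

/-- THE QUARTER of the critical line for the labelling `p q r` -/
def QX (p q r : ℕ) (x0 : ℝ) : Prop :=
  ∃ A : ℝ, ∀ C, A ≤ C → ∀ w ∈ Frt x0, 0 ≤ w.im → 0 ≤ w.re →
    ∃ R, GCert V0 e0 p q r Y0 (liveT p q r) C w R

theorem qx_of_cells {p q r : ℕ} (hp : 3 ≤ p) (hq : 3 ≤ q) (hr : 3 ≤ r) {x0 b : ℝ}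
    (hx : -2 < x0) (hx2 : x0 ≤ 2) (hb : 0 ≤ b) (h1 : TCell p q r x0 0 b) (h2 : Far p q r x0 b) :
    QX p q r x0 := by
  obtain ⟨A1, A2, hA⟩ := parts_of_cells hx hx2 hb (h1.cellX hp hq hr) h2
  exact gcert_of_parts hp hq hr hx (by positivity : (0 : ℝ) < 2 / (4 + b)) A1 A2
    (hA _ _ le_rfl le_rfl)

/-- rotation of the labels -/
theorem QX.rot {p q r : ℕ} {x0 : ℝ} (h : QX r p q x0) : QX p q r x0 := by
  obtain ⟨A, hA⟩ := h
  refine ⟨A, fun C hC w hw hi hr => ?_⟩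
  obtain ⟨R, hR⟩ := hA C hC w hw hi hr
  exact ⟨_, hR.rl (rle_rot p q r w) (Y0_rel _) (liveT_rl (mmOK_rot p q r))⟩

theorem QX.rot2 {p q r : ℕ} {x0 : ℝ} (h : QX q r p x0) : QX p q r x0 := h.rot.rot

/-- the closure condition of the reference vectors -/
theorem clo_V0 {p q r : ℕ} (hp : 3 ≤ p) (hpq : p ≤ q) (hqr : q ≤ r) {x0 : ℝ} (hx : -2 < x0)
    (hA : xA p q r ≤ x0) : Clo V0 p q r Y0 (liveT p q r) x0 :=
  clo_sorted hp hpq hqr hx hA (by norm_num [V0]) (by norm_num [V0]) (by norm_num [V0])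
    (by norm_num [V0]) (fun _ => by norm_num [V0]) _

/-- ZERO FREENESS from the two quarters -/
theorem zf_of_qx {p q r : ℕ} (hp : 3 ≤ p) (hpq : p ≤ q) (hqr : q ≤ r)
    (hne : ¬ (p = 3 ∧ q = 3 ∧ r = 3)) {x0 : ℝ} (hx : -2 < x0) (hA : xA p q r ≤ x0)
    (h1 : QX p q r x0) (h2 : QX q p r x0) : ZF p q r x0 := by
  have hq : 3 ≤ q := hp.trans hpq
  have hr : 3 ≤ r := hq.trans hqr
  obtain ⟨A, hA'⟩ := h1
  obtain ⟨B, hB'⟩ := h2
  exact zf_of_quarter hp hq hr hne hx (by norm_num [e0]) (clo_V0 hp hpq hqr hx hA) (Y0_rel _)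
    (liveT_rl (mmOK_02 p q r)) (max A B) (hA' _ (le_max_left _ _)) (hB' _ (le_max_right _ _))

/-! ### classes -/

/-- an arc of a class of type A: threshold `xA` of the last (largest) label -/
def ArcA (l1 l2 l3 : Lab) : Prop := ∀ a b c : ℕ, l1.has a → l2.has b → l3.has c → 3 ≤ a → 3 ≤ b →
  a ≤ c → b ≤ c → ¬ (a = 3 ∧ b = 3 ∧ c = 3) → QX a b c (xA a b c)

/-- a class of type A from its two arcs -/
theorem cls_A {l1 l2 l3 : Lab} (h1 : ArcA l1 l2 l3) (h2 : ArcA l2 l1 l3) :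
    Cls.Cert ⟨l1, l2, l3⟩ := by
  intro p q r hc hp hpq hqr hne
  obtain ⟨c1, c2, c3⟩ := hc
  have hq : 3 ≤ q := hp.trans hpq
  refine certA hp hpq hqr (zf_of_qx hp hpq hqr hne (xA_gt hp hq hqr) le_rfl
    (h1 p q r c1 c2 c3 hp hq (hpq.trans hqr) hqr hne) ?_)
  have h := h2 q p r c2 c1 c3 hq hp hqr (hpq.trans hqr) (fun h => hne ⟨h.2.1, h.1, h.2.2⟩)
  rw [xA_swap] at h
  exact h

/-- two equal labels in the first places -/
theorem cls_A2 {l1 l3 : Lab} (h1 : ArcA l1 l1 l3) : Cls.Cert ⟨l1, l1, l3⟩ := cls_A h1 h1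

/-- two equal exact orders in the last places -/
theorem cls_A3 {l1 : Lab} {n : ℕ} (h1 : ArcA l1 (Lab.ex n) (Lab.ex n)) :
    Cls.Cert ⟨l1, Lab.ex n, Lab.ex n⟩ := by
  intro p q r hc hp hpq hqr hne
  obtain ⟨c1, c2, c3⟩ := hc
  have hq' : q = n := c2
  have hr' : r = n := c3
  have hq : 3 ≤ q := hp.trans hpq
  have h := h1 p q r c1 c2 c3 hp hq (hpq.trans hqr) hqr hne
  refine certA hp hpq hqr (zf_of_qx hp hpq hqr hne (xA_gt hp hq hqr) le_rfl h ?_)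
  have hqr' : q = r := hq'.trans hr'.symm
  subst hqr'
  exact h.rot.rot

/-- an arc of a class of type B -/
def ArcB (l1 l2 l3 : Lab) : Prop := ∀ a b c : ℕ, l1.has a → l2.has b → l3.has c → 3 ≤ a → 3 ≤ b →
  a ≤ c → b ≤ c → ¬ (a = 3 ∧ b = 3 ∧ c = 3) → ∀ x0 : ℝ, Thr a b c x0 → QX a b c x0

/-- a class from its two arcs, threshold by the two inequalities -/
theorem cls_B {l1 l2 l3 : Lab} (h1 : ArcB l1 l2 l3) (h2 : ArcB l2 l1 l3) :
    Cls.Cert ⟨l1, l2, l3⟩ := by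
  intro p q r hc hp hpq hqr hne
  obtain ⟨c1, c2, c3⟩ := hc
  have hq : 3 ≤ q := hp.trans hpq
  refine certT hp hpq hqr (fun x0 hT => zf_of_qx hp hpq hqr hne hT.gt hT.A1
    (h1 p q r c1 c2 c3 hp hq (hpq.trans hqr) hqr hne x0 hT) ?_)
  exact h2 q p r c2 c1 c3 hq hp hqr (hpq.trans hqr) (fun h => hne ⟨h.2.1, h.1, h.2.2⟩) x0 hT.swap

end Pool.Agent.Helper6.MONO.QTR
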