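import Pool.Agent.Helper6.MONO.Stmts

/-!
The complex line (MP_c75db0): group level definitions and statements.

Window coordinates: Gram data with real weights `c n = κ (n, n+1)` and one phase `z` (any nonzero
complex number) on the edge `2 0`; the numbers game `gact (wG c z) w` is then an analytic family,
equal up to phases to the action of a `(p,q,r)` triangle group when `‖z‖ = 1`.
-/

set_option autoImplicit false
noncomputable section
namespace Pool.Agent.Helper6.MONO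

open Polynomial

/-! ### window coordinates -/

/-- the Gram data with phase `z` on the edge `2 0` -/
def wG (c : Fin 3 → ℝ) (z : ℂ) : Fin 3 → Fin 3 → ℂ :=
  !![0, (c 0 : ℂ), (c 2 : ℂ) * z⁻¹; (c 0 : ℂ), 0, (c 1 : ℂ); (c 2 : ℂ) * z, (c 1 : ℂ), 0]

/-- the weights -/
def cw (p q r : ℕ) : Fin 3 → ℝ := ![kk p q r 0 1, kk p q r 1 2, kk p q r 2 0]

/-- vectors with real polynomial entries, evaluated at `z` -/
def evv (F : Fin 3 → ℝ[X]) (z : ℂ) : V3 := fun j => aeval z (F j)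

/-- `x = z + 1/z` has real part larger than `x0` -/
def InX (x0 : ℝ) (z : ℂ) : Prop := z ≠ 0 ∧ x0 < (z + z⁻¹).re

/-! ### canonical words -/

/-- the state after a run of `m` letters: state `(n, a, b)` = wall `n` (to be crossed next),
in-star `a`, out-star `b` (the run goes around the vertex opposite to the wall `b`) -/
def nxD (m : ℕ) (n a b : Fin 3) : Fin 3 × Fin 3 × Fin 3 := if m % 2 = 0 then (a, b, n) else (n, b, a)

/-- the word of a list of runs: a run of `m` letters crosses `m - 1` walls, its last letter is the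
first one of the next run -/
def dw : (Fin 3 × Fin 3 × Fin 3) → List ℕ → List (Fin 3)
  | _, [] => []
  | (n, a, b), m :: ms => alt n a (m - 1) ++ dw (nxD m n a b) ms

/-- the final state -/
def sD : (Fin 3 × Fin 3 × Fin 3) → List ℕ → (Fin 3 × Fin 3 × Fin 3)
  | t, [] => t
  | (n, a, b), m :: ms => sD (nxD m n a b) ms

/-- canonical lists of runs; the flag says that the last run was full (then the next run has at
least three letters) -/
def okD (p q r : ℕ) : Bool → (Fin 3 × Fin 3 × Fin 3) → List ℕ → Prop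
  | _, _, [] => True
  | f, (n, a, b), m :: ms => 2 ≤ m ∧ m ≤ mm p q r n a ∧ (f = true → 3 ≤ m) ∧
      okD p q r (decide (m = mm p q r n a)) (nxD m n a b) ms

/-- every group element has a canonical word up to short ends -/
def ST_CAN : Prop := ∀ (p q r : ℕ), 3 ≤ p → 3 ≤ q → 3 ≤ r → ∃ B : ℕ, ∀ w : List (Fin 3),
  ∃ (h t : List (Fin 3)) (n a b : Fin 3) (ms : List ℕ), Dist n a b ∧ h.length ≤ B ∧
    t.length ≤ B ∧ okD p q r false (n, a, b) ms ∧
    Eqv p q r w (h ++ dw (n, a, b) ms ++ t)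

/-! ### what the certificate provides -/

/-- ZERO FREE: for every start state there are three start vectors (real polynomials in `z`) in
general position such that, along every canonical word, the coordinate at the out-star is nonzero
for all complex `z` with `Re (z + 1/z) > x0`, and dominates the vector for `‖z‖ = 1` -/
def ZF (p q r : ℕ) (x0 : ℝ) : Prop :=
  ∃ (F : (Fin 3 × Fin 3 × Fin 3) → Fin 3 → Fin 3 → ℝ[X]) (B : ℝ),
    (∀ (n a b : Fin 3), Dist n a b → ∀ z : ℂ, ‖z‖ = 1 → x0 ≤ 2 * z.re →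
      LinearIndependent ℂ (fun i => evv (F (n, a, b) i) z)) ∧
    ∀ (n a b : Fin 3), Dist n a b → ∀ ms : List ℕ, okD p q r false (n, a, b) ms → ∀ i : Fin 3,
      (∀ z : ℂ, InX x0 z → gact (wG (cw p q r) z) (dw (n, a, b) ms) (evv (F (n, a, b) i) z)
        (sD (n, a, b) ms).2.2 ≠ 0) ∧
      (∀ z : ℂ, ‖z‖ = 1 → x0 < 2 * z.re →
        ‖gact (wG (cw p q r) z) (dw (n, a, b) ms) (evv (F (n, a, b) i) z)‖ ≤
          B * ‖gact (wG (cw p q r) z) (dw (n, a, b) ms) (evv (F (n, a, b) i) z)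
            (sD (n, a, b) ms).2.2‖)

/-! ### statements -/

/-- passing to window coordinates -/
def ST_WGA : Prop := ∀ (p q r : ℕ), 3 ≤ p → 3 ≤ q → 3 ≤ r → ∀ e : Fin 3 → V3, IsTri p q r e →
  ∃ z : ℂ, ‖z‖ = 1 ∧ -trip e = (‖trip e‖ : ℂ) * z ∧
    ∀ w : List (Fin 3), nrm (gact (gram e) w) = nrm (gact (wG (cw p q r) z) w)

/-- window data with `‖z‖ = 1`, `z ≠ -1` are Gram data -/
def ST_WIG : Prop := ∀ (p q r : ℕ), 3 ≤ p → 3 ≤ q → 3 ≤ r → ∀ z : ℂ, ‖z‖ = 1 → z ≠ -1 →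
  ∃ τ : ℝ, IsG p q r τ (wG (cw p q r) z)

/-- the coordinates are Laurent polynomials with real coefficients -/
def ST_LAU : Prop := ∀ (c : Fin 3 → ℝ) (F : Fin 3 → ℝ[X]) (w : List (Fin 3)) (j : Fin 3),
  ∃ (k : ℕ) (P : ℝ[X]), ∀ z : ℂ, z ≠ 0 → z ^ k * gact (wG c z) w (evv F z) j = aeval z P

/-- symmetric products are polynomials in `z + 1/z` -/
def ST_SYM : Prop := ∀ P : ℝ[X], ∃ T : ℝ[X], ∀ z : ℂ, z ≠ 0 →
  aeval (z + z⁻¹) T = aeval z P * aeval z⁻¹ P

/-- real polynomials without zeros in a right half plane are monotone in absolute value -/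
def ST_R3X : Prop := ∀ (x0 : ℝ) (T : ℝ[X]), (∀ x : ℂ, x0 < x.re → aeval x T ≠ 0) →
  ∀ x x' : ℝ, x0 ≤ x → x ≤ x' → |T.eval x| ≤ |T.eval x'|

/-- monotonicity of zero free coordinates -/
def ST_MON : Prop := ∀ (c : Fin 3 → ℝ) (F : Fin 3 → ℝ[X]) (w : List (Fin 3)) (j : Fin 3) (x0 : ℝ),
  (∀ z : ℂ, InX x0 z → gact (wG c z) w (evv F z) j ≠ 0) →
  ∀ z z' : ℂ, ‖z‖ = 1 → ‖z'‖ = 1 → x0 ≤ 2 * z.re → z.re ≤ z'.re →
    ‖gact (wG c z) w (evv F z) j‖ ≤ ‖gact (wG c z') w (evv F z') j‖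

def ST_MON' : Prop := ST_LAU → ST_SYM → ST_R3X → ST_MON

/-- norms of all words are comparable -/
def ST_NRZ : Prop := ∀ (p q r : ℕ), 3 ≤ p → 3 ≤ q → 3 ≤ r → ∀ x0 : ℝ, -2 < x0 → ZF p q r x0 →
  ∀ z z' : ℂ, ‖z‖ = 1 → ‖z'‖ = 1 → x0 ≤ 2 * z.re → z.re ≤ z'.re →
    ∃ C : ℝ, ∀ w : List (Fin 3),
      nrm (gact (wG (cw p q r) z) w) ≤ C * nrm (gact (wG (cw p q r) z') w)

def ST_NRZ' : Prop := ST_CAN → ST_MON → ST_WIG → ST_INV → ST_NRZ

/-- comparison of all word norms gives comparison of translation lengths -/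
def ST_TLW : Prop := ∀ (e e' : Fin 3 → V3), (∀ i, hf (e i) (e i) = 1) → LinearIndependent ℂ e →
  (∀ i, hf (e' i) (e' i) = 1) → LinearIndependent ℂ e' →
  (∃ C : ℝ, ∀ w : List (Fin 3), nrm (gact (gram e') w) ≤ C * nrm (gact (gram e) w)) →
  ∀ w : List (Fin 3), tl (act e' w) ≤ tl (act e w)

def ST_TLW' : Prop := ST_TLE → ST_CNJ → ST_ACT → ST_TLW

/-- order two: all configurations are equivalent -/
def ST_P2 : Prop := ∀ (q r : ℕ) (e e' : Fin 3 → V3), IsTri 2 q r e → IsTri 2 q r e' →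
  ∀ w : List (Fin 3), nrm (gact (gram e') w) = nrm (gact (gram e) w)

/-- elliptic (or trivial) isometries: a point of the complex hyperbolic plane is fixed -/
def Ell (g : V3 → V3) : Prop := ∃ x : V3, Neg x ∧ ∃ μ : ℂ, g x = μ • x

/-- `2 cos` of the phase at which `I₁ I₂ I₃ I₂` stops being loxodromic -/
def xA (p q r : ℕ) : ℝ :=
  (4 - kk p q r 2 0 ^ 2 - kk p q r 0 1 ^ 2 * kk p q r 1 2 ^ 2) /
    (kk p q r 0 1 * kk p q r 1 2 * kk p q r 2 0)

/-- below the threshold `W_A` is elliptic -/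
def ST_THA : Prop := ∀ (p q r : ℕ), 3 ≤ p → 3 ≤ q → 3 ≤ r → ∀ e : Fin 3 → V3, IsTri p q r e →
  ∀ z : ℂ, ‖z‖ = 1 → -trip e = (‖trip e‖ : ℂ) * z → 2 * z.re < xA p q r →
  Ell (act e [0, 1, 2, 1])

/-- existence of configurations with smaller phase -/
def ST_EXZ : Prop := ∀ (p q r : ℕ), 3 ≤ p → 3 ≤ q → 3 ≤ r → ∀ e : Fin 3 → V3, IsTri p q r e →
  ∀ z z' : ℂ, ‖z‖ = 1 → ‖z'‖ = 1 → -trip e = (‖trip e‖ : ℂ) * z → z.re ≤ z'.re →
    ∃ e' : Fin 3 → V3, IsTri p q r e' ∧ -trip e' = (‖trip e'‖ : ℂ) * z'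

end Pool.Agent.Helper6.MONO
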