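import Pool.Agent.Helper12.CX.ARC
import Pool.Agent.Helper6.CX.ARC

/-!
The cells in terms of `z` and of `ε = 1/z`.
-/

set_option autoImplicit false
noncomputable section
namespace Pool.Agent.Helper6.MONO.QTR

open Complex
open Pool.Agent.Helper6.MONO
open Pool.Agent.Helper21.SUP (GS DG SSt Ty std Modes srl)
open Pool.Agent.Helper39.SLT (T4)

/-- cells in terms of `z` -/
theorem tcell_of_z {p q r : ℕ} {x0 a b : ℝ} (hx : -2 < x0) (hx2 : x0 ≤ 2) (C : ℝ)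
    (h : ∀ (z : ℂ) (y : ℝ), 0 ≤ y → a ≤ y → y ≤ b → z ≠ 0 → 1 ≤ ‖z‖ → 0 ≤ z.im → (z⁻¹).im ≤ 0 →
      z + z⁻¹ = (x0 : ℂ) + (y : ℂ) * Complex.I → ∃ R : GS → T4 → Set V3, TCert V0 e0 p q r C (zw z) R) :
    TCell p q r x0 a b := by
  refine ⟨C, fun w hw ha hb => ?_⟩
  have hz := hw.z hx hx2
  have h1 : 1 - w ≠ 0 := fun h' => hw.ne (by linear_combination -h')
  have h2 := h (wz w) (xw w).im hz.im ha hb hz.z0 hz.one hz.zim hz.uim (by
    rw [hz.x_eq]
    apply Complex.ext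
    · simp [hz.re]
    · simp)
  rwa [zw_wz h1] at h2

/-- the far cell in terms of `ε = 1/z` -/
theorem far_of_eps {p q r : ℕ} {x0 b : ℝ} (hx : -2 < x0) (hx2 : x0 ≤ 2) (C : ℝ)
    (h : ∀ ε : ℂ, (ε = 0 ∨ ∃ y : ℝ, b ≤ y ∧ ε ≠ 0 ∧ ‖ε‖ ≤ 1 ∧ ε.im ≤ 0 ∧
        ε⁻¹ + ε = (x0 : ℂ) + (y : ℂ) * Complex.I) →
      ∃ R, GCert V0 e0 p q r Y0 (liveT p q r) C ((1 - ε) / (1 + ε)) R) : Far p q r x0 b := by
  refine ⟨C, fun w hw hi hr hb => ?_⟩
  by_cases hw1 : w = 1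
  · have h6 := h 0 (Or.inl rfl)
    rw [hw1]
    simpa using h6
  · have hq : Qt x0 w := ⟨hw, hi, hr, hw1⟩
    have hz := hq.z hx hx2
    have h1 : 1 - w ≠ 0 := fun h' => hw1 (by linear_combination -h')
    have h2 : 1 + w ≠ 0 := by
      intro h'
      have := congrArg Complex.re h'
      simp at this
      linarith
    rcases hb with hb | hb
    · exact absurd hb hw1
    · have h3 := h (wz w)⁻¹ (Or.inr ⟨(xw w).im, hb, inv_ne_zero hz.z0, by
        rw [norm_inv]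
        exact inv_le_one_of_one_le₀ hz.one, hz.uim, by
        rw [inv_inv, hz.x_eq]
        apply Complex.ext
        · simp [hz.re]
        · simp⟩)
      have e1 : (1 - (wz w)⁻¹) / (1 + (wz w)⁻¹) = w := by
        rw [wz, inv_div]
        field_simp
        ring
      rwa [e1] at h3

end Pool.Agent.Helper6.MONO.QTR
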