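import Pool.Agent.Helper12.CX.Defs
import Pool.Agent.Helper2.MONO.NRM

set_option autoImplicit false
noncomputable section
namespace Pool.Agent.Helper6.MONO

open Polynomial Filter Topology

/-! continuity and conjugation of the numbers game in window coordinates -/

theorem nrz_cont_fire (c : Fin 3 → ℝ) (i : Fin 3) (x : ℂ → V3) (s : Set ℂ)
    (hs : ∀ z ∈ s, z ≠ 0) (hx : ContinuousOn x s) :
    ContinuousOn (fun z => fire (wG c z) i (x z)) s := by
  have hinv : ContinuousOn (fun z : ℂ => z⁻¹) s := continuousOn_id.inv₀ hs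
  have hG : ∀ j k : Fin 3, ContinuousOn (fun z => wG c z j k) s := by
    intro j k
    fin_cases j <;> fin_cases k <;>
      simp only [wG, Matrix.of_apply, Matrix.cons_val', Matrix.cons_val_zero, Matrix.cons_val_one,
        Matrix.cons_val_fin_one, Fin.zero_eta, Fin.mk_one, Fin.reduceFinMk, Matrix.cons_val] <;>
      first
        | exact continuousOn_const
        | exact continuousOn_const.mul hinv
        | exact continuousOn_const.mul continuousOn_id
  rw [continuousOn_pi]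
  intro k
  by_cases hk : k = i
  · simp only [fire, hk, if_true]
    refine (continuousOn_pi.1 hx i).neg.add ?_
    refine continuousOn_finsetSum _ (fun j _ => ?_)
    by_cases hj : j = i
    · simp only [hj, if_true]
      exact continuousOn_const
    · simp only [hj, if_false]
      exact (hG j i).mul (continuousOn_pi.1 hx j)
  · simp only [fire, hk, if_false]
    exact continuousOn_pi.1 hx k

theorem nrz_cont (c : Fin 3 → ℝ) (w : List (Fin 3)) (x : ℂ → V3) (s : Set ℂ)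
    (hs : ∀ z ∈ s, z ≠ 0) (hx : ContinuousOn x s) :
    ContinuousOn (fun z => gact (wG c z) w (x z)) s := by
  induction w generalizing x with
  | nil => exact hx
  | cons i w ih => exact ih _ (nrz_cont_fire c i x s hs hx)

theorem nrz_conj_fire (c : Fin 3 → ℝ) (i : Fin 3) (z : ℂ) (x : V3) :
    fire (wG c (star z)) i (star x) = star (fire (wG c z) i x) := by
  have hG : ∀ j k : Fin 3, wG c (star z) j k = star (wG c z j k) := by
    intro j k
    fin_cases j <;> fin_cases k <;> simp [wG]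
  funext k
  by_cases hk : k = i
  · simp only [fire, hk, if_true, Pi.star_apply, star_add, star_neg, star_sum]
    congr 1
    refine Finset.sum_congr rfl (fun j _ => ?_)
    split_ifs
    · simp
    · rw [hG, star_mul']
  · simp only [fire, hk, if_false, Pi.star_apply]

theorem nrz_conj (c : Fin 3 → ℝ) (w : List (Fin 3)) (z : ℂ) (x : V3) :
    gact (wG c (star z)) w (star x) = star (gact (wG c z) w x) := by
  induction w generalizing x with
  | nil => rfl
  | cons i w ih => rw [nrm_gact_cons, nrm_gact_cons, nrz_conj_fire, ih]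

theorem nrz_nrm_conj (c : Fin 3 → ℝ) (w : List (Fin 3)) (z : ℂ) :
    nrm (gact (wG c (star z)) w) = nrm (gact (wG c z) w) := by
  unfold nrm
  refine Finset.sum_congr rfl (fun i _ => ?_)
  have h : (Pi.single i 1 : V3) = star (Pi.single i 1 : V3) := by
    funext k
    by_cases hk : k = i
    · subst hk; simp
    · simp [hk]
  rw [h, nrz_conj, norm_star, ← h]

/-- points of the unit circle with the same real part -/
theorem nrz_same (z z' : ℂ) (hz : ‖z‖ = 1) (hz' : ‖z'‖ = 1) (h : z.re = z'.re) :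
    z' = z ∨ z' = star z := by
  have e : ∀ u : ℂ, ‖u‖ = 1 → u.im * u.im = 1 - u.re * u.re := by
    intro u hu
    have := Complex.normSq_apply u
    rw [Complex.normSq_eq_norm_sq, hu] at this
    linarith
  have h1 := e z hz
  have h2 := e z' hz'
  rw [← h] at h2
  have h3 : z'.im * z'.im = z.im * z.im := by rw [h1, h2]
  rcases mul_self_eq_mul_self_iff.1 h3 with h4 | h4
  · left
    exact Complex.ext h.symm h4
  · right
    refine Complex.ext (by simpa using h.symm) (by simpa using h4)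

/-- a point of the circle with given real part, on the side of `z` -/
def nrzP (σ ρ : ℝ) : ℂ := ⟨ρ, σ * Real.sqrt (1 - ρ ^ 2)⟩

theorem nrz_P_norm (σ ρ : ℝ) (hσ : σ ^ 2 = 1) (h1 : -1 ≤ ρ) (h2 : ρ ≤ 1) : ‖nrzP σ ρ‖ = 1 := by
  have h3 : 0 ≤ 1 - ρ ^ 2 := by nlinarith
  have : ‖nrzP σ ρ‖ ^ 2 = 1 := by
    rw [← Complex.normSq_eq_norm_sq, Complex.normSq_apply]
    show ρ * ρ + (σ * Real.sqrt (1 - ρ ^ 2)) * (σ * Real.sqrt (1 - ρ ^ 2)) = 1
    have h4 := Real.mul_self_sqrt h3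
    calc ρ * ρ + (σ * Real.sqrt (1 - ρ ^ 2)) * (σ * Real.sqrt (1 - ρ ^ 2))
        = ρ * ρ + σ ^ 2 * (Real.sqrt (1 - ρ ^ 2) * Real.sqrt (1 - ρ ^ 2)) := by ring
      _ = 1 := by rw [h4, hσ]; ring
  have h5 : 0 ≤ ‖nrzP σ ρ‖ := norm_nonneg _
  nlinarith

theorem nrz_P_self (z : ℂ) (hz : ‖z‖ = 1) : ∃ σ : ℝ, σ ^ 2 = 1 ∧ nrzP σ z.re = z := by
  have h1 : z.im ^ 2 = 1 - z.re ^ 2 := by
    have := Complex.normSq_apply z
    rw [Complex.normSq_eq_norm_sq, hz] at this
    linarith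
  rcases le_total 0 z.im with h | h
  · refine ⟨1, by norm_num, Complex.ext rfl ?_⟩
    show 1 * Real.sqrt (1 - z.re ^ 2) = z.im
    rw [← h1, Real.sqrt_sq h, one_mul]
  · refine ⟨-1, by norm_num, Complex.ext rfl ?_⟩
    show -1 * Real.sqrt (1 - z.re ^ 2) = z.im
    rw [← h1, Real.sqrt_sq_eq_abs, abs_of_nonpos h]
    ring

theorem nrz_P_cont (σ : ℝ) : Continuous (nrzP σ) := by
  have h : nrzP σ = fun ρ : ℝ => (ρ : ℂ) + ((σ * Real.sqrt (1 - ρ ^ 2) : ℝ) : ℂ) * Complex.I := by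
    funext ρ
    refine Complex.ext ?_ ?_ <;> simp [nrzP]
  rw [h]
  have h2 : Continuous fun ρ : ℝ => σ * Real.sqrt (1 - ρ ^ 2) :=
    continuous_const.mul (Real.continuous_sqrt.comp (continuous_const.sub (continuous_pow 2)))
  exact Complex.continuous_ofReal.add
    ((Complex.continuous_ofReal.comp h2).mul continuous_const)

/-- the domination extends to the closed arc -/
theorem nrz_closed (c : Fin 3 → ℝ) (F : Fin 3 → ℝ[X]) (w : List (Fin 3)) (j : Fin 3) (x0 B : ℝ)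
    (h : ∀ z : ℂ, ‖z‖ = 1 → x0 < 2 * z.re →
      ‖gact (wG c z) w (evv F z)‖ ≤ B * ‖gact (wG c z) w (evv F z) j‖)
    (z : ℂ) (hz : ‖z‖ = 1) (hx : x0 ≤ 2 * z.re) (h1 : z.re < 1) :
    ‖gact (wG c z) w (evv F z)‖ ≤ B * ‖gact (wG c z) w (evv F z) j‖ := by
  obtain ⟨σ, hσ, hP⟩ := nrz_P_self z hz
  have hm1 : -1 ≤ z.re := by
    have := Complex.abs_re_le_norm z
    rw [hz, abs_le] at this
    exact this.1
  have hF : Continuous (fun z : ℂ => evv F z) := by
    refine continuous_pi (fun j => ?_)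
    exact Polynomial.continuous_aeval (F j)
  have hcont : ContinuousOn (fun ρ : ℝ => gact (wG c (nrzP σ ρ)) w (evv F (nrzP σ ρ)))
      (Set.Icc z.re 1) := by
    have h2 : ContinuousOn (fun z => gact (wG c z) w (evv F z)) {z : ℂ | z ≠ 0} :=
      nrz_cont c w _ _ (fun z hz => hz) hF.continuousOn
    refine h2.comp (nrz_P_cont σ).continuousOn ?_
    intro ρ hρ h0
    have := nrz_P_norm σ ρ hσ (hm1.trans hρ.1) hρ.2
    rw [h0, norm_zero] at this
    exact zero_ne_one this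
  have hmem : z.re ∈ Set.Icc z.re 1 := ⟨le_rfl, h1.le⟩
  have ht : Tendsto (fun ρ : ℝ => gact (wG c (nrzP σ ρ)) w (evv F (nrzP σ ρ)))
      (𝓝[Set.Ioo z.re 1] z.re) (𝓝 (gact (wG c z) w (evv F z))) := by
    have := (hcont z.re hmem).mono_left (nhdsWithin_mono z.re Set.Ioo_subset_Icc_self)
    beta_reduce at this
    rwa [hP] at this
  have hne : (𝓝[Set.Ioo z.re 1] z.re).NeBot := left_nhdsWithin_Ioo_neBot h1
  have t1 := ht.norm
  have t2 : Tendsto (fun ρ : ℝ => B * ‖gact (wG c (nrzP σ ρ)) w (evv F (nrzP σ ρ)) j‖)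
      (𝓝[Set.Ioo z.re 1] z.re) (𝓝 (B * ‖gact (wG c z) w (evv F z) j‖)) :=
    (((continuous_apply j).tendsto _).comp ht).norm.const_mul B
  refine le_of_tendsto_of_tendsto t1 t2 ?_
  filter_upwards [self_mem_nhdsWithin] with ρ hρ
  refine h _ (nrz_P_norm σ ρ hσ (hm1.trans hρ.1.le) hρ.2.le) ?_
  show x0 < 2 * ρ
  linarith [hρ.1]

/-- comparison for one start state -/
theorem nrz_star (hMON : ST_MON) (p q r : ℕ) (x0 : ℝ)
    (F : (Fin 3 × Fin 3 × Fin 3) → Fin 3 → Fin 3 → ℝ[X]) (B : ℝ) (z z' : ℂ) (hz : ‖z‖ = 1)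
    (hz' : ‖z'‖ = 1) (hx : x0 ≤ 2 * z.re) (hzz : z.re < z'.re) (n a b : Fin 3)
    (hli : LinearIndependent ℂ (fun i => evv (F (n, a, b) i) z))
    (hF : ∀ ms : List ℕ, okD p q r false (n, a, b) ms → ∀ i : Fin 3,
      (∀ z : ℂ, InX x0 z → gact (wG (cw p q r) z) (dw (n, a, b) ms) (evv (F (n, a, b) i) z)
        (sD (n, a, b) ms).2.2 ≠ 0) ∧
      (∀ z : ℂ, ‖z‖ = 1 → x0 < 2 * z.re →
        ‖gact (wG (cw p q r) z) (dw (n, a, b) ms) (evv (F (n, a, b) i) z)‖ ≤
          B * ‖gact (wG (cw p q r) z) (dw (n, a, b) ms) (evv (F (n, a, b) i) z)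
            (sD (n, a, b) ms).2.2‖)) :
    ∃ C : ℝ, 0 ≤ C ∧ ∀ ms : List ℕ, okD p q r false (n, a, b) ms → ∀ A : ℝ, 0 ≤ A →
      (∀ x : V3, ‖gact (wG (cw p q r) z') (dw (n, a, b) ms) x‖ ≤ A * ‖x‖) →
      nrm (gact (wG (cw p q r) z) (dw (n, a, b) ms)) ≤ C * A := by
  have hz1 : z.re < 1 := by
    have := Complex.abs_re_le_norm z'
    rw [hz', abs_le] at this
    linarith [this.2]
  obtain ⟨Cb, hCb, hbas⟩ := nrm_basis _ hli
  set S : ℝ := ∑ i, ‖evv (F (n, a, b) i) z'‖ with hS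
  have hS0 : 0 ≤ S := Finset.sum_nonneg (fun _ _ => norm_nonneg _)
  refine ⟨Cb * (|B| * S), by positivity, ?_⟩
  intro ms hok A hA hgA
  rw [mul_assoc]
  refine hbas (nrm_lin (wG (cw p q r) z) (dw (n, a, b) ms)) (|B| * S * A) ?_
  intro i
  rw [nrm_lin_apply]
  obtain ⟨k1, k2⟩ := hF ms hok i
  have e1 := nrz_closed (cw p q r) (F (n, a, b) i) (dw (n, a, b) ms) (sD (n, a, b) ms).2.2 x0 B k2
    z hz hx hz1
  have e2 := hMON (cw p q r) (F (n, a, b) i) (dw (n, a, b) ms) (sD (n, a, b) ms).2.2 x0 k1 z z' hz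
    hz' hx hzz.le
  have e3 := norm_le_pi_norm
    (gact (wG (cw p q r) z') (dw (n, a, b) ms) (evv (F (n, a, b) i) z')) (sD (n, a, b) ms).2.2
  have e4 := hgA (evv (F (n, a, b) i) z')
  have e5 : ‖evv (F (n, a, b) i) z'‖ ≤ S :=
    Finset.single_le_sum (f := fun i => ‖evv (F (n, a, b) i) z'‖) (fun _ _ => norm_nonneg _)
      (Finset.mem_univ i)
  calc ‖gact (wG (cw p q r) z) (dw (n, a, b) ms) (evv (F (n, a, b) i) z)‖
      ≤ B * ‖gact (wG (cw p q r) z) (dw (n, a, b) ms) (evv (F (n, a, b) i) z)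
            (sD (n, a, b) ms).2.2‖ := e1
    _ ≤ |B| * ‖gact (wG (cw p q r) z) (dw (n, a, b) ms) (evv (F (n, a, b) i) z)
            (sD (n, a, b) ms).2.2‖ :=
        mul_le_mul_of_nonneg_right (le_abs_self B) (norm_nonneg _)
    _ ≤ |B| * (A * S) := by
        refine mul_le_mul_of_nonneg_left (e2.trans (e3.trans (e4.trans ?_))) (abs_nonneg B)
        exact mul_le_mul_of_nonneg_left e5 hA
    _ = |B| * S * A := by ring

theorem st_NRZ : ST_NRZ' := by
  intro hCAN hMON hWIG hINV p q r hp hq hr x0 hx0 hZF z z' hz hz' hx hzz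
  rcases hzz.lt_or_eq with hlt | heq
  swap
  · refine ⟨1, fun w => ?_⟩
    rcases nrz_same z z' hz hz' heq with h | h
    · rw [h, one_mul]
    · rw [h, nrz_nrm_conj, one_mul]
  have hne : ∀ u : ℂ, x0 ≤ 2 * u.re → u ≠ -1 := by
    rintro u hu rfl
    simp at hu
    linarith
  obtain ⟨τ, hG⟩ := hWIG p q r hp hq hr z hz (hne z hx)
  obtain ⟨τ', hG'⟩ := hWIG p q r hp hq hr z' hz' (hne z' (by linarith))
  obtain ⟨F, BF, hli, hF⟩ := hZF
  obtain ⟨B, hB⟩ := hCAN p q r hp hq hr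
  classical
  have hst : ∀ t : Fin 3 × Fin 3 × Fin 3, ∃ C : ℝ, 0 ≤ C ∧ (Dist t.1 t.2.1 t.2.2 →
      ∀ ms : List ℕ, okD p q r false t ms →
      ∀ A : ℝ, 0 ≤ A → (∀ x : V3, ‖gact (wG (cw p q r) z') (dw t ms) x‖ ≤ A * ‖x‖) →
      nrm (gact (wG (cw p q r) z) (dw t ms)) ≤ C * A) := by
    rintro ⟨n, a, b⟩
    by_cases hD : Dist n a b
    · obtain ⟨C, hC, h⟩ := nrz_star hMON p q r x0 F BF z z' hz hz' hx hlt n a b
        (hli n a b hD z hz hx) (hF n a b hD)
      exact ⟨C, hC, fun _ => h⟩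
    · exact ⟨0, le_rfl, fun h => absurd h hD⟩
  choose Ct hCt0 hCt using hst
  set CS : ℝ := ∑ t, Ct t with hCS
  have hCS0 : 0 ≤ CS := Finset.sum_nonneg (fun t _ => hCt0 t)
  set G := wG (cw p q r) z with hGd
  set G' := wG (cw p q r) z' with hGd'
  have hK := nrm_K_one G
  have hK' := nrm_K_one G'
  refine ⟨3 * (nrm_K G ^ B * (CS * (nrm_K G' ^ B * nrm_K G' ^ B)) * nrm_K G ^ B), ?_⟩
  intro w
  obtain ⟨h, t, n, a, b, ms, hD, hlh, hlt', hok, hEq⟩ := hB w
  have hN := nrm_nonneg (gact G' w)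
  have h1 : ∀ x : V3, ‖gact G' (dw (n, a, b) ms) x‖ ≤
      (nrm_K G' ^ B * nrm_K G' ^ B * nrm (gact G' w)) * ‖x‖ := by
    intro x
    have e1 : gact G' h (gact G' h.reverse x) = x := by
      have := nrm_inv hINV p q r hp hq hr τ' G' hG' h.reverse x
      rwa [List.reverse_reverse] at this
    have e2 : gact G' (dw (n, a, b) ms) x = gact G' t.reverse (gact G' w (gact G' h.reverse x)) := by
      rw [hEq τ' G' hG', nrm_gact_app, nrm_gact_app, e1,
        nrm_inv hINV p q r hp hq hr τ' G' hG' t]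
    rw [e2]
    calc ‖gact G' t.reverse (gact G' w (gact G' h.reverse x))‖
        ≤ nrm_K G' ^ B * ‖gact G' w (gact G' h.reverse x)‖ :=
          nrm_word_bound' G' t.reverse B (by rwa [List.length_reverse]) _
      _ ≤ nrm_K G' ^ B * (nrm (gact G' w) * ‖gact G' h.reverse x‖) :=
          mul_le_mul_of_nonneg_left (nrm_gact_bound G' w _) (by positivity)
      _ ≤ nrm_K G' ^ B * (nrm (gact G' w) * (nrm_K G' ^ B * ‖x‖)) := by
          refine mul_le_mul_of_nonneg_left (mul_le_mul_of_nonneg_left ?_ hN) (by positivity)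
          exact nrm_word_bound' G' h.reverse B (by rwa [List.length_reverse]) x
      _ = _ := by ring
  have h2 := hCt (n, a, b) hD ms hok _ (by positivity) h1
  have h3 : Ct (n, a, b) ≤ CS :=
    Finset.single_le_sum (f := Ct) (fun t _ => hCt0 t) (Finset.mem_univ _)
  have h4 : nrm (gact G (dw (n, a, b) ms)) ≤
      CS * (nrm_K G' ^ B * nrm_K G' ^ B * nrm (gact G' w)) :=
    h2.trans (mul_le_mul_of_nonneg_right h3 (by positivity))
  have h5 : ∀ i : Fin 3, ‖gact G w (Pi.single i 1)‖ ≤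
      nrm_K G ^ B * (CS * (nrm_K G' ^ B * nrm_K G' ^ B * nrm (gact G' w)) * nrm_K G ^ B) := by
    intro i
    rw [hEq τ G hG, nrm_gact_app, nrm_gact_app]
    have hs : ‖(Pi.single i 1 : V3)‖ = 1 := by
      rw [Pi.norm_single, norm_one]
    refine (nrm_word_bound' G t B hlt' _).trans (mul_le_mul_of_nonneg_left ?_ (by positivity))
    calc ‖gact G (dw (n, a, b) ms) (gact G h (Pi.single i 1))‖
        ≤ nrm (gact G (dw (n, a, b) ms)) * ‖gact G h (Pi.single i 1)‖ := nrm_gact_bound G _ _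
      _ ≤ CS * (nrm_K G' ^ B * nrm_K G' ^ B * nrm (gact G' w)) * nrm_K G ^ B := by
          refine mul_le_mul h4 ?_ (norm_nonneg _) (by positivity)
          have := nrm_word_bound' G h B hlh (Pi.single i 1)
          rwa [hs, mul_one] at this
  calc nrm (gact G w) = ∑ i : Fin 3, ‖gact G w (Pi.single i 1)‖ := rfl
    _ ≤ ∑ _i : Fin 3, nrm_K G ^ B *
          (CS * (nrm_K G' ^ B * nrm_K G' ^ B * nrm (gact G' w)) * nrm_K G ^ B) :=
        Finset.sum_le_sum (fun i _ => h5 i)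
    _ = 3 * (nrm_K G ^ B * (CS * (nrm_K G' ^ B * nrm_K G' ^ B)) * nrm_K G ^ B)
          * nrm (gact G' w) := by
        rw [Finset.sum_const, Finset.card_univ, Fintype.card_fin, nsmul_eq_mul]
        push_cast
        ring

end Pool.Agent.Helper6.MONO
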