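import Pool.Agent.Helper12.CX.Defs2
import Pool.Agent.Helper12.CX.NRZ

set_option autoImplicit false
noncomputable section
namespace Pool.Agent.Helper6.MONO

theorem fin_trip (p q r : ℕ) (hp : 3 ≤ p) (hq : 3 ≤ q) (hr : 3 ≤ r) (e : Fin 3 → V3)
    (he : IsTri p q r e) : 0 < ‖trip e‖ := by
  have h : ∀ m : ℕ, 3 ≤ m → 0 < Real.cos (Real.pi / m) := by
    intro m hm
    have hm' : (3 : ℝ) ≤ m := by exact_mod_cast hm
    have pp := Real.pi_pos
    refine Real.cos_pos_of_mem_Ioo ⟨?_, ?_⟩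
    · have : 0 < Real.pi / m := by positivity
      linarith
    · rw [div_lt_div_iff₀ (by linarith) (by norm_num)]
      nlinarith
  unfold trip
  rw [norm_mul, norm_mul, he.ang1, he.ang2, he.ang3]
  exact mul_pos (mul_pos (h p hp) (h q hq)) (h r hr)

theorem fin_re (e : Fin 3 → V3) (z : ℂ) (hz : ‖z‖ = 1) (h : -trip e = (‖trip e‖ : ℂ) * z)
    (ht : 0 < ‖trip e‖) : z.re = Real.cos |Complex.arg (-trip e)| := by
  rw [h, Real.cos_abs, Complex.arg_real_mul z ht, Complex.cos_arg (by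
    intro h0; rw [h0, norm_zero] at hz; exact zero_ne_one hz), hz, div_one]

theorem fin_re_le (e e' : Fin 3 → V3) (z z' : ℂ) (hz : ‖z‖ = 1) (hz' : ‖z'‖ = 1)
    (h : -trip e = (‖trip e‖ : ℂ) * z) (h' : -trip e' = (‖trip e'‖ : ℂ) * z')
    (ht : 0 < ‖trip e‖) (ht' : 0 < ‖trip e'‖)
    (hle : |Complex.arg (-trip e)| ≤ |Complex.arg (-trip e')|) : z'.re ≤ z.re := by
  rw [fin_re e z hz h ht, fin_re e' z' hz' h' ht']
  exact Real.cos_le_cos_of_nonneg_of_le_pi (abs_nonneg _) (Complex.abs_arg_le_pi _) hle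

theorem fin_arg_le (e e' : Fin 3 → V3) (z z' : ℂ) (hz : ‖z‖ = 1) (hz' : ‖z'‖ = 1)
    (h : -trip e = (‖trip e‖ : ℂ) * z) (h' : -trip e' = (‖trip e'‖ : ℂ) * z')
    (ht : 0 < ‖trip e‖) (ht' : 0 < ‖trip e'‖) (hle : z'.re ≤ z.re) :
    |Complex.arg (-trip e)| ≤ |Complex.arg (-trip e')| := by
  by_contra hc
  push Not at hc
  have := Real.cos_lt_cos_of_nonneg_of_le_pi (abs_nonneg (Complex.arg (-trip e')))
    (Complex.abs_arg_le_pi (-trip e)) hc
  rw [← fin_re e z hz h ht, ← fin_re e' z' hz' h' ht'] at this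
  linarith

theorem st_FIN : ST_FIN' := by
  intro hCERT hNRZ hWGA hTLW hP2 hTHA hTHB hEXZ p q r hp hpq hqr hyp e e' he he' harg hell w
  rcases Nat.lt_or_ge p 3 with h2 | h3
  · have hp2 : p = 2 := by omega
    subst hp2
    refine hTLW e e' he.unit he.indep he'.unit he'.indep ⟨1, fun u => ?_⟩ w
    rw [one_mul]
    exact (hP2 q r e e' he he' u).le
  have q3 : 3 ≤ q := h3.trans hpq
  have r3 : 3 ≤ r := q3.trans hqr
  obtain ⟨x0, hx0, hthr, hZF⟩ := hCERT p q r h3 hpq hqr hyp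
  obtain ⟨z, hz, ez, nz⟩ := hWGA p q r h3 q3 r3 e he
  obtain ⟨z', hz', ez', nz'⟩ := hWGA p q r h3 q3 r3 e' he'
  have t0 := fin_trip p q r h3 q3 r3 e he
  have t0' := fin_trip p q r h3 q3 r3 e' he'
  have hre := fin_re_le e e' z z' hz hz' ez ez' t0 t0' harg
  have hm1 : -1 ≤ z'.re := by
    have := Complex.abs_re_le_norm z'
    rw [hz', abs_le] at this
    exact this.1
  have key : x0 ≤ 2 * z'.re := by
    by_contra hc
    push Not at hc
    obtain ⟨x, hx1, hx2, hx3, hx4⟩ := hthr (2 * z'.re) hc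
    set z'' : ℂ := nrzP 1 (x / 2) with hz''d
    have hz'' : ‖z''‖ = 1 := nrz_P_norm 1 (x / 2) (by norm_num) (by linarith) (by linarith)
    have hr'' : z''.re = x / 2 := rfl
    obtain ⟨e'', he'', ez''⟩ := hEXZ p q r h3 q3 r3 e' he' z' z'' hz' hz'' ez'
      (by rw [hr'']; linarith)
    have t0'' := fin_trip p q r h3 q3 r3 e'' he''
    have ha := fin_arg_le e'' e' z'' z' hz'' hz' ez'' ez' t0'' t0' (by rw [hr'']; linarith)
    obtain ⟨nA, nB⟩ := hell e'' he'' ha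
    rcases hx4 with hA | hB
    · exact nA (hTHA p q r h3 q3 r3 e'' he'' z'' hz'' ez'' (by rw [hr'']; linarith))
    · refine nB (hTHB p q r h3 q3 r3 e'' he'' z'' hz'' ez'' ?_)
      rw [hr'']
      have : 2 * (x / 2) = x := by ring
      rw [this]
      exact hB
  obtain ⟨C, hC⟩ := hNRZ p q r h3 q3 r3 x0 hx0 hZF z' z hz' hz key hre
  refine hTLW e e' he.unit he.indep he'.unit he'.indep ⟨C, fun u => ?_⟩ w
  rw [nz', nz]
  exact hC u

end Pool.Agent.Helper6.MONO
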