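import Pool.Agent.Helper12.CX.Defs2

/-!
The exact threshold from numeric bounds.
-/

set_option autoImplicit false
noncomputable section
namespace Pool.Agent.Helper6.MONO

theorem thx_cont (p q r : ℕ) : Continuous (fB p q r) := by
  unfold fB fBx
  fun_prop

/-- if `lo` is below the threshold and `hi` is not, the exact threshold `x0` lies between them: it
satisfies both inequalities, and points arbitrarily close below it violate one of them -/
theorem st_THX (p q r : ℕ) (lo hi : ℝ) (hlh : lo ≤ hi) (h2 : hi ≤ 2)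
    (hlo : lo < xA p q r ∨ fB p q r lo < 0) (hA : xA p q r ≤ hi) (hB : 0 ≤ fB p q r hi) :
    ∃ x0 : ℝ, lo ≤ x0 ∧ x0 ≤ hi ∧ xA p q r ≤ x0 ∧ 0 ≤ fB p q r x0 ∧
      ∀ x1 : ℝ, x1 < x0 → ∃ x : ℝ, x1 ≤ x ∧ x ≤ x0 ∧ x ≤ 2 ∧
        (x < xA p q r ∨ fB p q r x < 0) := by
  set S : Set ℝ := {x | lo ≤ x ∧ x ≤ hi ∧ (x < xA p q r ∨ fB p q r x < 0)} with hS
  have hloS : lo ∈ S := ⟨le_rfl, hlh, hlo⟩
  have hbd : BddAbove S := ⟨hi, fun x hx => hx.2.1⟩
  have hne : S.Nonempty := ⟨lo, hloS⟩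
  set x0 := sSup S with hx0
  have h1 : lo ≤ x0 := le_csSup hbd hloS
  have h3 : x0 ≤ hi := csSup_le hne fun x hx => hx.2.1
  refine ⟨x0, h1, h3, ?_, ?_, ?_⟩
  · by_contra hc
    push Not at hc
    -- a point between `x0` and `xA`
    have hm : (x0 + xA p q r) / 2 ∈ S :=
      ⟨by linarith, by linarith, Or.inl (by linarith)⟩
    have := le_csSup hbd hm
    linarith
  · by_contra hc
    push Not at hc
    have hlt : x0 < hi := by
      rcases h3.lt_or_eq with h | h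
      · exact h
      · rw [h] at hc
        exact absurd hB (not_le.2 hc)
    have hopen : IsOpen {x : ℝ | fB p q r x < 0} := isOpen_lt (thx_cont p q r) continuous_const
    obtain ⟨ε, hε, hball⟩ := Metric.isOpen_iff.1 hopen x0 hc
    set y := min hi (x0 + ε / 2) with hy
    have hy1 : x0 < y := lt_min hlt (by linarith)
    have hy2 : y ∈ S := by
      refine ⟨h1.trans hy1.le, min_le_left _ _, Or.inr (hball ?_)⟩
      rw [Metric.mem_ball, Real.dist_eq, abs_lt]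
      have : y ≤ x0 + ε / 2 := min_le_right _ _
      constructor <;> linarith
    have := le_csSup hbd hy2
    linarith
  · intro x1 hx1
    obtain ⟨x, hx, hlt⟩ := exists_lt_of_lt_csSup hne hx1
    exact ⟨x, hlt.le, le_csSup hbd hx, hx.2.1.trans h2, hx.2.2⟩

/-- zero freeness is monotone in the bound -/
theorem ZF_mono {p q r : ℕ} {x0 x1 : ℝ} (h : x0 ≤ x1) (hZ : ZF p q r x0) : ZF p q r x1 := by
  obtain ⟨F, B, h1, h2⟩ := hZ
  refine ⟨F, B, fun n a b hD z hz hx => h1 n a b hD z hz (h.trans hx), ?_⟩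
  intro n a b hD ms hms i
  obtain ⟨k1, k2⟩ := h2 n a b hD ms hms i
  exact ⟨fun z hz => k1 z ⟨hz.1, lt_of_le_of_lt h hz.2⟩,
    fun z hz hx => k2 z hz (lt_of_le_of_lt h hx)⟩

/-- what a class of triples has to provide -/
theorem cert_of (p q r : ℕ) (lo hi : ℝ) (hm2 : -2 < lo) (hlh : lo ≤ hi) (h2 : hi ≤ 2)
    (hlo : lo < xA p q r ∨ fB p q r lo < 0) (hA : xA p q r ≤ hi) (hB : 0 ≤ fB p q r hi)
    (hZ : ∀ x0 : ℝ, lo ≤ x0 → x0 ≤ hi → xA p q r ≤ x0 → 0 ≤ fB p q r x0 → ZF p q r x0) :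
    ∃ x0 : ℝ, -2 < x0 ∧ (∀ x1 : ℝ, x1 < x0 → ∃ x : ℝ, x1 ≤ x ∧ x ≤ x0 ∧ x ≤ 2 ∧
      (x < xA p q r ∨ fB p q r x < 0)) ∧ ZF p q r x0 := by
  obtain ⟨x0, h1, h3, h4, h5, h6⟩ := st_THX p q r lo hi hlh h2 hlo hA hB
  exact ⟨x0, by linarith, h6, hZ x0 h1 h3 h4 h5⟩

end Pool.Agent.Helper6.MONO
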