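import Pool.Agent.Helper12.CX.Defs

set_option autoImplicit false
noncomputable section
namespace Pool.Agent.Helper6.MONO

theorem tlw_nn (f : V3 → V3) : 0 ≤ nrm f :=
  Finset.sum_nonneg fun _ _ => norm_nonneg _

theorem tlw_lin (f : E3) (x : V3) : ‖f x‖ ≤ ‖x‖ * nrm f := by
  have hx : x = ∑ i, x i • (Pi.single i 1 : V3) := by
    funext j
    simp [Finset.sum_apply, Pi.single_apply]
  calc ‖f x‖ = ‖∑ i, x i • f (Pi.single i 1)‖ := by
        conv_lhs => rw [hx, map_sum]
        simp only [map_smul]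
    _ ≤ ∑ i, ‖x i • f (Pi.single i 1)‖ := norm_sum_le _ _
    _ ≤ ∑ i, ‖x‖ * ‖f (Pi.single i 1)‖ := by
        refine Finset.sum_le_sum fun i _ => ?_
        rw [norm_smul]
        exact mul_le_mul_of_nonneg_right (norm_le_pi_norm x i) (norm_nonneg _)
    _ = ‖x‖ * nrm f := by rw [nrm, Finset.mul_sum]

/-- norms of conjugate maps are comparable -/
theorem tlw_conj (E : V3 ≃ₗ[ℂ] V3) : ∃ C : ℝ, 0 < C ∧ ∀ f F : E3, (∀ x, f (E x) = E (F x)) →
    nrm f ≤ C * nrm F := by
  refine ⟨nrm E * nrm E.symm + 1, ?_, ?_⟩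
  · have h1 := tlw_nn E
    have h2 := tlw_nn E.symm
    positivity
  · intro f F h
    have e1 : ∀ i : Fin 3, ‖f (Pi.single i 1)‖ ≤ nrm E * ‖E.symm (Pi.single i 1)‖ * nrm F := by
      intro i
      have a : f (Pi.single i 1) = E (F (E.symm (Pi.single i 1))) := by
        rw [← h, LinearEquiv.apply_symm_apply]
      rw [a]
      have b := tlw_lin (E : E3) (F (E.symm (Pi.single i 1)))
      have c := tlw_lin F (E.symm (Pi.single i 1))
      have d := tlw_nn E
      calc ‖E (F (E.symm (Pi.single i 1)))‖ ≤ ‖F (E.symm (Pi.single i 1))‖ * nrm E := b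
        _ ≤ (‖E.symm (Pi.single i 1)‖ * nrm F) * nrm E := mul_le_mul_of_nonneg_right c d
        _ = _ := by ring
    calc nrm f ≤ ∑ i : Fin 3, nrm E * ‖E.symm (Pi.single i 1)‖ * nrm F :=
          Finset.sum_le_sum fun i _ => e1 i
      _ = nrm E * nrm E.symm * nrm F := by
          rw [← Finset.sum_mul, ← Finset.mul_sum]; rfl
      _ ≤ (nrm E * nrm E.symm + 1) * nrm F := by
          have := tlw_nn F
          nlinarith

/-- the coordinates as a linear isomorphism -/
theorem tlw_eq (e : Fin 3 → V3) (h : LinearIndependent ℂ e) :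
    ∃ E : V3 ≃ₗ[ℂ] V3, ∀ x, E x = ecomb e x := by
  have hc : Fintype.card (Fin 3) = Module.finrank ℂ V3 := by simp
  let b := basisOfLinearIndependentOfCardEqFinrank h hc
  refine ⟨b.equivFun.symm, fun x => ?_⟩
  rw [Module.Basis.equivFun_symm_apply]
  simp [b, ecomb]

theorem tlw_app (e : Fin 3 → V3) (u v : List (Fin 3)) (x : V3) :
    act e (u ++ v) x = act e u (act e v x) := by
  induction u with
  | nil => rfl
  | cons a u ih => simp only [List.cons_append, act, ih]

/-- powers of a word -/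
def tlwW (w : List (Fin 3)) : ℕ → List (Fin 3)
  | 0 => []
  | n + 1 => w ++ tlwW w n

theorem tlw_pow (e : Fin 3 → V3) (w : List (Fin 3)) (g : E3) (hg : ∀ x, g x = act e w x) (n : ℕ)
    (x : V3) : (g ^ n : E3) x = act e (tlwW w n) x := by
  induction n with
  | zero => simp [tlwW, act]
  | succ n ih =>
    rw [pow_succ', tlwW, tlw_app]
    simp only [Module.End.mul_apply, ih, hg]

theorem st_TLW : ST_TLW' := by
  intro hTLE hCNJ hACT e e' he li he' li' hC0 w
  obtain ⟨C, hC⟩ := hC0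
  obtain ⟨g, hg, Pg⟩ := hACT e he w
  obtain ⟨g', hg', Pg'⟩ := hACT e' he' w
  have ht1 : tl (act e w) = tl g := by
    have : act e w = g := by funext x; exact (hg x).symm
    rw [this]
  have ht2 : tl (act e' w) = tl g' := by
    have : act e' w = g' := by funext x; exact (hg' x).symm
    rw [this]
  rw [ht1, ht2]
  refine hTLE g g' Pg Pg' ?_
  obtain ⟨E, hE⟩ := tlw_eq e li
  obtain ⟨E', hE'⟩ := tlw_eq e' li'
  obtain ⟨C1, hC1, k1⟩ := tlw_conj E.symm
  obtain ⟨C2, hC2, k2⟩ := tlw_conj E'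
  refine ⟨C2 * |C| * C1, fun n => ?_⟩
  -- the maps in coordinates
  let F : E3 := (E.symm : E3) ∘ₗ (g ^ n : E3) ∘ₗ (E : E3)
  let F' : E3 := (E'.symm : E3) ∘ₗ (g' ^ n : E3) ∘ₗ (E' : E3)
  have f1 : ∀ x, F x = gact (gram e) (tlwW w n).reverse x := by
    intro x
    apply E.injective
    show E (E.symm ((g ^ n : E3) (E x))) = _
    rw [LinearEquiv.apply_symm_apply, tlw_pow e w g hg, hE, hE, hCNJ e he]
  have f2 : ∀ x, F' x = gact (gram e') (tlwW w n).reverse x := by
    intro x
    apply E'.injective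
    show E' (E'.symm ((g' ^ n : E3) (E' x))) = _
    rw [LinearEquiv.apply_symm_apply, tlw_pow e' w g' hg', hE', hE', hCNJ e' he']
  have n1 : nrm (gact (gram e) (tlwW w n).reverse) = nrm F := by
    unfold nrm; simp only [f1]
  have n2 : nrm (gact (gram e') (tlwW w n).reverse) = nrm F' := by
    unfold nrm; simp only [f2]
  have a1 : nrm F ≤ C1 * nrm (g ^ n : E3) := by
    apply k1
    intro x
    show E.symm ((g ^ n : E3) (E (E.symm x))) = _
    rw [LinearEquiv.apply_symm_apply]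
  have a2 : nrm (g' ^ n : E3) ≤ C2 * nrm F' := by
    apply k2
    intro x
    show (g' ^ n : E3) (E' x) = E' (E'.symm ((g' ^ n : E3) (E' x)))
    rw [LinearEquiv.apply_symm_apply]
  have a3 := hC (tlwW w n).reverse
  rw [n1, n2] at a3
  have p1 := tlw_nn F
  have p2 := tlw_nn (g ^ n : E3)
  have p3' : C * nrm F ≤ |C| * nrm F := mul_le_mul_of_nonneg_right (le_abs_self C) p1
  calc nrm (g' ^ n : E3) ≤ C2 * nrm F' := a2
    _ ≤ C2 * (|C| * nrm F) := mul_le_mul_of_nonneg_left (a3.trans p3') hC2.le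
    _ ≤ C2 * (|C| * (C1 * nrm (g ^ n : E3))) := by
        have := abs_nonneg C
        gcongr
    _ = C2 * |C| * C1 * nrm (g ^ n : E3) := by ring

end Pool.Agent.Helper6.MONO
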