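import Pool.Agent.Helper12.CX.FIN
import Pool.Agent.Helper12.CX.TLW
import Pool.Agent.Helper12.CX.THX
import Pool.Agent.Helper29.CX.MON
import Pool.Agent.Helper29.CX.LAU
import Pool.Agent.Helper29.CX.SYM
import Pool.Agent.Helper29.CX.R3X
import Pool.Agent.Helper90.CX.WGA
import Pool.Agent.Helper90.CX.WIG
import Pool.Agent.Helper42.CX.EXZ
import Pool.Agent.Helper42.CX.THA
import Pool.Agent.Helper21.CX.CAN

/-!
The final statement triple by triple.
-/

set_option autoImplicit false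
noncomputable section
namespace Pool.Agent.Helper6.MONO

/-- the clause of the certificate for one triple -/
def CertAt (p q r : ℕ) : Prop :=
  ∃ x0 : ℝ, -2 < x0 ∧ (∀ x1 : ℝ, x1 < x0 → ∃ x : ℝ, x1 ≤ x ∧ x ≤ x0 ∧ x ≤ 2 ∧
    (x < xA p q r ∨ fB p q r x < 0)) ∧ ZF p q r x0

/-- the final statement for one triple -/
def FinAt (p q r : ℕ) : Prop :=
  ∀ e e' : Fin 3 → V3, IsTri p q r e → IsTri p q r e' →
    |Complex.arg (-trip e)| ≤ |Complex.arg (-trip e')| →
    (∀ e'' : Fin 3 → V3, IsTri p q r e'' →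
      |Complex.arg (-trip e'')| ≤ |Complex.arg (-trip e')| →
      ¬ Ell (act e'' [0, 1, 2, 1]) ∧ ¬ Ell (act e'' [0, 1, 2])) →
    ∀ w : List (Fin 3), tl (act e' w) ≤ tl (act e w)

theorem fin_at (hNRZ : ST_NRZ) (hWGA : ST_WGA) (hTLW : ST_TLW) (hTHA : ST_THA) (hTHB : ST_THB)
    (hEXZ : ST_EXZ) (p q r : ℕ) (h3 : 3 ≤ p) (q3 : 3 ≤ q) (r3 : 3 ≤ r)
    (hC : CertAt p q r) : FinAt p q r := by
  intro e e' he he' harg hell w
  obtain ⟨x0, hx0, hthr, hZF⟩ := hC
  obtain ⟨z, hz, ez, nz⟩ := hWGA p q r h3 q3 r3 e he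
  obtain ⟨z', hz', ez', nz'⟩ := hWGA p q r h3 q3 r3 e' he'
  have t0 := fin_trip p q r h3 q3 r3 e he
  have t0' := fin_trip p q r h3 q3 r3 e' he'
  have hre := fin_re_le e e' z z' hz hz' ez ez' t0 t0' harg
  have key : x0 ≤ 2 * z'.re := by
    by_contra hc
    push Not at hc
    have hm1 : -1 ≤ z'.re := by
      have := Complex.abs_re_le_norm z'
      rw [hz', abs_le] at this
      exact this.1
    obtain ⟨x, hx1, hx2, hx3, hx4⟩ := hthr (2 * z'.re) hc
    set z'' : ℂ := nrzP 1 (x / 2) with hz''d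
    have hz'' : ‖z''‖ = 1 := nrz_P_norm 1 (x / 2) (by norm_num) (by linarith) (by linarith)
    have hr'' : z''.re = x / 2 := rfl
    obtain ⟨e'', he'', ez''⟩ := hEXZ p q r h3 q3 r3 e' he' z' z'' hz' hz'' ez'
      (by rw [hr'']; linarith)
    have t0'' := fin_trip p q r h3 q3 r3 e'' he''
    have ha := fin_arg_le e'' e' z'' z' hz'' hz' ez'' ez' t0'' t0' (by rw [hr'']; linarith)
    obtain ⟨nA, nB⟩ := hell e'' he'' ha
    rcases hx4 with hA | hB
    · exact nA (hTHA p q r h3 q3 r3 e'' he'' z'' hz'' ez'' (by rw [hr'']; linarith))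
    · refine nB (hTHB p q r h3 q3 r3 e'' he'' z'' hz'' ez'' ?_)
      rw [hr'']
      have : 2 * (x / 2) = x := by ring
      rw [this]
      exact hB
  obtain ⟨C, hC⟩ := hNRZ p q r h3 q3 r3 x0 hx0 hZF z' z hz' hz key hre
  refine hTLW e e' he.unit he.indep he'.unit he'.indep ⟨C, fun u => ?_⟩ w
  rw [nz', nz]
  exact hC u

end Pool.Agent.Helper6.MONO
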