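import Pool.Agent.Helper12.CX.TOP
import Pool.Agent.Helper42.CX.EXZ

/-!
The statement of the hand-in (MP_c75db0): the family contains the real group, its phases form a
symmetric interval, translation lengths decrease.
-/

set_option autoImplicit false
noncomputable section
namespace Pool.Agent.Helper6.MONO

/-- the statement for one triple -/
def FULLAt (p q r : ℕ) : Prop :=
  (∃ e : Fin 3 → Fin 3 → ℂ, IsTri p q r e ∧ Complex.arg (-trip e) = 0) ∧
  (∀ e : Fin 3 → Fin 3 → ℂ, IsTri p q r e → ∀ θ : ℝ, -Real.pi < θ →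
    |θ| ≤ |Complex.arg (-trip e)| →
    ∃ e' : Fin 3 → Fin 3 → ℂ, IsTri p q r e' ∧ Complex.arg (-trip e') = θ) ∧
  ∀ e e' : Fin 3 → Fin 3 → ℂ, IsTri p q r e → IsTri p q r e' →
    |Complex.arg (-trip e)| ≤ |Complex.arg (-trip e')| →
    (∀ e'' : Fin 3 → Fin 3 → ℂ, IsTri p q r e'' →
      |Complex.arg (-trip e'')| ≤ |Complex.arg (-trip e')| →
      ¬ Ell (act e'' [0, 1, 2, 1]) ∧ ¬ Ell (act e'' [0, 1, 2])) →
    ∀ w : List (Fin 3), tl (act e' w) ≤ tl (act e w)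

/-- the full statement -/
def FULL : Prop := ∀ p q r : ℕ, 2 ≤ p → p ≤ q → q ≤ r → (1 : ℝ) / p + 1 / q + 1 / r < 1 →
  FULLAt p q r

theorem frs_det {p q r : ℕ} (hp : 2 ≤ p) (hpq : p ≤ q) (hqr : q ≤ r)
    (hy : (1 : ℝ) / p + 1 / q + 1 / r < 1) :
    0 < Real.cos (Real.pi / p) ^ 2 + Real.cos (Real.pi / q) ^ 2 + Real.cos (Real.pi / r) ^ 2 - 1 +
      2 * Real.cos (Real.pi / p) * Real.cos (Real.pi / q) * Real.cos (Real.pi / r) := by
  have hpi := Real.pi_pos
  have hp' : (2 : ℝ) ≤ p := by exact_mod_cast hp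
  have hq' : (2 : ℝ) ≤ q := by exact_mod_cast hp.trans hpq
  have hr' : (2 : ℝ) ≤ r := by exact_mod_cast hp.trans (hpq.trans hqr)
  have hs : Real.pi / p + Real.pi / q + Real.pi / r < Real.pi := by
    have : Real.pi / p + Real.pi / q + Real.pi / r = Real.pi * (1 / p + 1 / q + 1 / r) := by
      ring
    rw [this]
    nlinarith
  have a1 : Real.pi / p ≤ Real.pi / 2 := div_le_div_of_nonneg_left hpi.le (by norm_num) hp'
  have b1 : Real.pi / q ≤ Real.pi / 2 := div_le_div_of_nonneg_left hpi.le (by norm_num) hq'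
  have c1 : Real.pi / r ≤ Real.pi / 2 := div_le_div_of_nonneg_left hpi.le (by norm_num) hr'
  have a0 : 0 < Real.pi / p := by positivity
  have b0 : 0 < Real.pi / q := by positivity
  have c0 : 0 < Real.pi / r := by positivity
  set α := Real.pi / p
  set β := Real.pi / q
  set γ := Real.pi / r
  have ca : 0 ≤ Real.cos α := Real.cos_nonneg_of_mem_Icc ⟨by linarith, by linarith⟩
  have cd : 0 < Real.cos (β - γ) := Real.cos_pos_of_mem_Ioo ⟨by linarith, by linarith⟩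
  have cs : -Real.cos α < Real.cos (β + γ) := by
    rw [← Real.cos_pi_sub]
    exact Real.cos_lt_cos_of_nonneg_of_le_pi (by linarith) (by linarith) (by linarith)
  have e : Real.cos α ^ 2 + Real.cos β ^ 2 + Real.cos γ ^ 2 - 1 +
      2 * Real.cos α * Real.cos β * Real.cos γ =
      (Real.cos α + Real.cos (β - γ)) * (Real.cos α + Real.cos (β + γ)) := by
    rw [Real.cos_sub, Real.cos_add]
    have h1 := Real.sin_sq_add_cos_sq β
    have h2 := Real.sin_sq_add_cos_sq γ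
    have h3 : (Real.sin β * Real.sin γ) ^ 2 = (1 - Real.cos β ^ 2) * (1 - Real.cos γ ^ 2) := by
      rw [mul_pow]
      have e1 : Real.sin β ^ 2 = 1 - Real.cos β ^ 2 := by linarith
      have e2 : Real.sin γ ^ 2 = 1 - Real.cos γ ^ 2 := by linarith
      rw [e1, e2]
    linear_combination h3
  rw [e]
  exact mul_pos (by linarith) (by linarith)

/-- the real configuration -/
theorem frs_real {p q r : ℕ} (hp : 2 ≤ p) (hpq : p ≤ q) (hqr : q ≤ r)
    (hy : (1 : ℝ) / p + 1 / q + 1 / r < 1) :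
    ∃ e : Fin 3 → Fin 3 → ℂ, IsTri p q r e ∧ Complex.arg (-trip e) = 0 := by
  have hdet := frs_det hp hpq hqr hy
  have hpi := Real.pi_pos
  have key : ∀ n : ℕ, 2 ≤ n → 0 ≤ Real.cos (Real.pi / n) ∧ 0 < Real.sin (Real.pi / n) := by
    intro n hn
    have hn' : (2 : ℝ) ≤ n := by exact_mod_cast hn
    have a1 : Real.pi / n ≤ Real.pi / 2 := div_le_div_of_nonneg_left hpi.le (by norm_num) hn'
    have a0 : 0 < Real.pi / n := by positivity
    exact ⟨Real.cos_nonneg_of_mem_Icc ⟨by linarith, by linarith⟩,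
      Real.sin_pos_of_pos_of_lt_pi a0 (by linarith)⟩
  obtain ⟨hc1p, hs1⟩ := key p hp
  obtain ⟨hc2p, -⟩ := key q (hp.trans hpq)
  obtain ⟨hc3p, -⟩ := key r (hp.trans (hpq.trans hqr))
  have hss := Real.sin_sq_add_cos_sq (Real.pi / p)
  set c1 := Real.cos (Real.pi / p) with hc1d
  set c2 := Real.cos (Real.pi / q) with hc2d
  set c3 := Real.cos (Real.pi / r) with hc3d
  set s := Real.sin (Real.pi / p) with hsd
  set X : ℝ := -c3 with hX
  set Y : ℝ := (-c2 + c1 * X) / s with hY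
  have hs0 : s ≠ 0 := hs1.ne'
  have hYs : Y * s = -c2 + c1 * X := by
    rw [hY]
    field_simp
  have hw : 0 < X ^ 2 + Y ^ 2 - 1 := by
    have e : (X ^ 2 + Y ^ 2 - 1) * s ^ 2 = c1 ^ 2 + c2 ^ 2 + c3 ^ 2 - 1 + 2 * c1 * c2 * c3 := by
      have h1 : Y ^ 2 * s ^ 2 = (-c2 + c1 * X) ^ 2 := by rw [← mul_pow, hYs]
      have h2 : s ^ 2 = 1 - c1 ^ 2 := by linarith
      rw [sub_mul, add_mul, h1, h2, hX]
      ring
    by_contra hc
    push Not at hc
    have : (X ^ 2 + Y ^ 2 - 1) * s ^ 2 ≤ 0 := mul_nonpos_of_nonpos_of_nonneg hc (sq_nonneg s)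
    linarith
  set W := Real.sqrt (X ^ 2 + Y ^ 2 - 1) with hW
  have hWp : 0 < W := Real.sqrt_pos.2 hw
  have hWW : W ^ 2 = X ^ 2 + Y ^ 2 - 1 := Real.sq_sqrt hw.le
  have hsC : (s : ℂ) ≠ 0 := by exact_mod_cast hs0
  have hWC : (W : ℂ) ≠ 0 := by exact_mod_cast hWp.ne'
  have hst : ∀ x : ℝ, star (x : ℂ) = (x : ℂ) := fun x => Complex.conj_ofReal x
  have h01 : hf ![1, 0, 0] ![-(c1 : ℂ), (s : ℂ), 0] = -(c1 : ℂ) := by
    rw [exi_hf, star_neg, hst]; ring
  have h20 : hf ![(X : ℂ), (Y : ℂ), (W : ℂ)] ![1, 0, 0] = -(c3 : ℂ) := by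
    rw [exi_hf, star_one, star_zero, hX]
    push_cast
    ring
  have h12 : hf ![-(c1 : ℂ), (s : ℂ), 0] ![(X : ℂ), (Y : ℂ), (W : ℂ)] = -(c2 : ℂ) := by
    rw [exi_hf, hst, hst, hst]
    have h := congrArg (fun x : ℝ => (x : ℂ)) hYs
    push_cast at h
    linear_combination h
  refine ⟨![![1, 0, 0], ![-(c1 : ℂ), (s : ℂ), 0], ![(X : ℂ), (Y : ℂ), (W : ℂ)]],
    ⟨?_, ?_, ?_, ?_, exi_indep _ _ _ _ _ hsC hWC⟩, ?_⟩
  · intro i
    fin_cases i
    · change hf ![1, 0, 0] ![1, 0, 0] = 1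
      rw [exi_hf, star_one, star_zero]; ring
    · exact exi_unit1 c1 s (by linarith)
    · exact exi_unit2 (X : ℂ) (Y : ℂ) W (by
        rw [Complex.norm_real, Complex.norm_real, Real.norm_eq_abs, Real.norm_eq_abs, sq_abs,
          sq_abs]
        linarith)
  · change ‖hf ![1, 0, 0] ![-(c1 : ℂ), (s : ℂ), 0]‖ = c1
    rw [h01, norm_neg, Complex.norm_real, Real.norm_of_nonneg hc1p]
  · change ‖hf ![-(c1 : ℂ), (s : ℂ), 0] ![(X : ℂ), (Y : ℂ), (W : ℂ)]‖ = c2
    rw [h12, norm_neg, Complex.norm_real, Real.norm_of_nonneg hc2p]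
  · change ‖hf ![(X : ℂ), (Y : ℂ), (W : ℂ)] ![1, 0, 0]‖ = c3
    rw [h20, norm_neg, Complex.norm_real, Real.norm_of_nonneg hc3p]
  · have h3 : -trip ![![1, 0, 0], ![-(c1 : ℂ), (s : ℂ), 0], ![(X : ℂ), (Y : ℂ), (W : ℂ)]]
        = ((c1 * c2 * c3 : ℝ) : ℂ) := by
      change -(hf ![1, 0, 0] ![-(c1 : ℂ), (s : ℂ), 0] *
        hf ![-(c1 : ℂ), (s : ℂ), 0] ![(X : ℂ), (Y : ℂ), (W : ℂ)] *
        hf ![(X : ℂ), (Y : ℂ), (W : ℂ)] ![1, 0, 0]) = _
      rw [h01, h12, h20]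
      push_cast
      ring
    rw [h3]
    exact Complex.arg_ofReal_of_nonneg (by positivity)

/-- all smaller phases occur -/
theorem frs_int {p q r : ℕ} (hp : 2 ≤ p) (hpq : p ≤ q) (hqr : q ≤ r) (e : Fin 3 → Fin 3 → ℂ)
    (he : IsTri p q r e) (θ : ℝ) (h1 : -Real.pi < θ) (h2 : |θ| ≤ |Complex.arg (-trip e)|) :
    ∃ e' : Fin 3 → Fin 3 → ℂ, IsTri p q r e' ∧ Complex.arg (-trip e') = θ := by
  rcases Nat.lt_or_ge p 3 with h | h
  · have hp2 : p = 2 := by omega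
    subst hp2
    have h0 : hf (e 0) (e 1) = 0 := by
      have := he.ang1
      rw [show Real.pi / ((2 : ℕ) : ℝ) = Real.pi / 2 by norm_num, Real.cos_pi_div_two] at this
      exact norm_eq_zero.1 this
    have ht : trip e = 0 := by
      unfold trip
      rw [h0, zero_mul, zero_mul]
    rw [ht, neg_zero, Complex.arg_zero, abs_zero] at h2
    have h3 : θ = 0 := abs_eq_zero.1 (le_antisymm h2 (abs_nonneg θ))
    exact ⟨e, he, by rw [ht, neg_zero, Complex.arg_zero, h3]⟩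
  · have hq : 3 ≤ q := h.trans hpq
    have hr : 3 ≤ r := hq.trans hqr
    have ha : |Complex.arg (-trip e)| ≤ Real.pi := Complex.abs_arg_le_pi _
    have hθ : θ ≤ Real.pi := (le_abs_self θ).trans (h2.trans ha)
    set z : ℂ := Complex.exp (Complex.arg (-trip e) * Complex.I) with hz
    set z' : ℂ := Complex.exp (θ * Complex.I) with hz'
    have n1 : ‖z‖ = 1 := Complex.norm_exp_ofReal_mul_I _
    have n2 : ‖z'‖ = 1 := Complex.norm_exp_ofReal_mul_I _
    have r1 : z.re = Real.cos |Complex.arg (-trip e)| := by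
      rw [Real.cos_abs, hz, Complex.exp_ofReal_mul_I_re]
    have r2 : z'.re = Real.cos |θ| := by
      rw [Real.cos_abs, hz', Complex.exp_ofReal_mul_I_re]
    have hre : z.re ≤ z'.re := by
      rw [r1, r2]
      exact Real.cos_le_cos_of_nonneg_of_le_pi (abs_nonneg _) ha h2
    have htr : -trip e = (‖trip e‖ : ℂ) * z := by
      have := Complex.norm_mul_exp_arg_mul_I (-trip e)
      rw [norm_neg] at this
      rw [hz]
      exact this.symm
    obtain ⟨e', he', ht'⟩ := st_EXZ p q r h hq hr e he z z' n1 n2 htr hre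
    refine ⟨e', he', ?_⟩
    have hpos : 0 < ‖trip e'‖ := by
      obtain ⟨c1, -⟩ := exz_cos p h
      obtain ⟨c2, -⟩ := exz_cos q hq
      obtain ⟨c3, -⟩ := exz_cos r hr
      unfold trip
      rw [norm_mul, norm_mul, he'.ang1, he'.ang2, he'.ang3]
      positivity
    rw [ht', hz', Complex.arg_real_mul _ hpos, Complex.arg_exp_mul_I, toIocMod_eq_self]
    exact ⟨h1, by linarith⟩

/-- one triple -/
theorem full_at {p q r : ℕ} (hp : 2 ≤ p) (hpq : p ≤ q) (hqr : q ≤ r)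
    (hy : (1 : ℝ) / p + 1 / q + 1 / r < 1) (h : FinAt p q r) : FULLAt p q r :=
  ⟨frs_real hp hpq hqr hy, fun e he θ h1 h2 => frs_int hp hpq hqr e he θ h1 h2, h⟩

/-- THE STATEMENT OF THE HAND-IN -/
theorem full_of_fin (h : ST_FIN) : FULL := fun p q r hp hpq hqr hy =>
  ⟨frs_real hp hpq hqr hy, fun e he θ h1 h2 => frs_int hp hpq hqr e he θ h1 h2,
    h p q r hp hpq hqr hy⟩

end Pool.Agent.Helper6.MONO
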