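import Pool.Agent.Helper12.CX.FINP
import Pool.Agent.Helper27.MONO.TL2
import Pool.Agent.Helper38.MONO.TL3
import Pool.Agent.Helper48.MONO.TLE
import Pool.Agent.Helper58.MONO.CNJ
import Pool.Agent.Helper41.MONO.ACT
import Pool.Agent.Helper61.MONO.INV
import Pool.Agent.Helper61.MONO.TL1

/-!
The group level: everything except the certificates, `THB` and order two.
-/

set_option autoImplicit false
noncomputable section
namespace Pool.Agent.Helper6.MONO

theorem g_TLE : ST_TLE := st_TLE' st_TL1 (st_TL2 st_TL1) st_TL3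
theorem g_TLW : ST_TLW := st_TLW g_TLE st_CNJ st_ACT
theorem g_MON : ST_MON := st_MON st_LAU st_SYM st_R3X
theorem g_NRZ : ST_NRZ := st_NRZ st_CAN g_MON st_WIG st_INV

/-- one triple at a time -/
theorem g_FIN (hTHB : ST_THB) (p q r : ℕ) (hp : 3 ≤ p) (hq : 3 ≤ q) (hr : 3 ≤ r)
    (hC : CertAt p q r) : FinAt p q r :=
  fin_at g_NRZ st_WGA g_TLW st_THA hTHB st_EXZ p q r hp hq hr hC

end Pool.Agent.Helper6.MONO
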