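import Pool.Agent.Helper12.CX.GRP
import Pool.Agent.Helper7.CX.THB

/-!
Group level: comparison down to a given bound, without thresholds.
-/

set_option autoImplicit false
noncomputable section
namespace Pool.Agent.Helper6.MONO

/-- zero freeness down to `x1` gives monotonicity for all phases `θ` with `2 cos θ ≥ x1` -/
theorem g_TO (p q r : ℕ) (h3 : 3 ≤ p) (q3 : 3 ≤ q) (r3 : 3 ≤ r) (x1 : ℝ) (hx1 : -2 < x1)
    (hZF : ZF p q r x1) (e e' : Fin 3 → V3) (he : IsTri p q r e) (he' : IsTri p q r e')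
    (harg : |Complex.arg (-trip e)| ≤ |Complex.arg (-trip e')|)
    (hx : x1 ≤ 2 * Real.cos (Complex.arg (-trip e'))) (w : List (Fin 3)) :
    tl (act e' w) ≤ tl (act e w) := by
  obtain ⟨z, hz, ez, nz⟩ := st_WGA p q r h3 q3 r3 e he
  obtain ⟨z', hz', ez', nz'⟩ := st_WGA p q r h3 q3 r3 e' he'
  have t0 := fin_trip p q r h3 q3 r3 e he
  have t0' := fin_trip p q r h3 q3 r3 e' he'
  have hre := fin_re_le e e' z z' hz hz' ez ez' t0 t0' harg
  have hre' := fin_re e' z' hz' ez' t0'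
  rw [Real.cos_abs] at hre'
  obtain ⟨C, hC⟩ := g_NRZ p q r h3 q3 r3 x1 hx1 hZF z' z hz' hz (by rw [hre']; exact hx) hre
  refine g_TLW e e' he.unit he.indep he'.unit he'.indep ⟨C, fun u => ?_⟩ w
  rw [nz', nz]
  exact hC u

/-- one triple at a time, exact threshold -/
theorem g_FIN' (p q r : ℕ) (hp : 3 ≤ p) (hq : 3 ≤ q) (hr : 3 ≤ r)
    (hC : CertAt p q r) : FinAt p q r := g_FIN st_THB p q r hp hq hr hC

end Pool.Agent.Helper6.MONO
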