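import Pool.Agent.Helper12.CX.KAP

/-!
Enclosures of `Kp 14`, `Kp 15` with 48 bits, tails from 15 on.
-/

set_option autoImplicit false
noncomputable section
namespace Pool.Agent.Helper6.MONO

theorem kap15_of (f : ℝ → ℝ) (hf : ∀ x y, (1.9 : ℝ) ≤ x → x < y → f x < f y) (x s : ℝ)
    (hx : (1.9 : ℝ) ≤ x) (hs : (1.9 : ℝ) ≤ (s - 1) / 2 ^ 48)
    (h1 : f ((s - 1) / 2 ^ 48) ≤ f x) (h2 : f x ≤ f ((s + 1) / 2 ^ 48)) :
    |x - s / 2 ^ 48| ≤ 1 / 2 ^ 48 := by
  have hs' : (1.9 : ℝ) ≤ (s + 1) / 2 ^ 48 := hs.trans (by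
    apply div_le_div_of_nonneg_right _ (by positivity)
    linarith)
  have c1 : (s - 1) / 2 ^ 48 ≤ x := by
    by_contra h
    push Not at h
    exact absurd (hf x _ hx h) (not_lt.2 h1)
  have c2 : x ≤ (s + 1) / 2 ^ 48 := by
    by_contra h
    push Not at h
    exact absurd (hf _ x hs' h) (not_lt.2 h2)
  have e3 : (s - 1) / 2 ^ 48 = s / 2 ^ 48 - 1 / 2 ^ 48 := by ring
  have e4 : (s + 1) / 2 ^ 48 = s / 2 ^ 48 + 1 / 2 ^ 48 := by ring
  rw [abs_le]
  constructor <;> linarith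

theorem kap15_lo {M : ℕ} (h : 10 ≤ M) : (1.9 : ℝ) ≤ Kp M := by
  have h1 := kap_enc 10 (by norm_num) (by norm_num)
  have h2 := kap_mono (M := 10) (N := M) (by norm_num) h
  rw [abs_le] at h1
  simp only [kb] at h1
  push_cast at h1
  linarith [h1.1]

theorem kap_14 : |Kp 14 - 548835622751895 / 2 ^ 48| ≤ 1 / 2 ^ 48 := by
  have h := Kp_double 7 (by norm_num)
  have e : (2 * 7 : ℕ) = 14 := rfl
  rw [e] at h
  have h7 := kap_enc 7 (by norm_num) (by norm_num)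
  rw [abs_le] at h7
  simp only [kb] at h7
  push_cast at h7
  refine kap15_of (fun x => x ^ 2 - 2) (fun x y hx hxy => by nlinarith) _ _
    (kap15_lo (by norm_num)) (by norm_num) ?_ ?_
  · show _ ≤ Kp 14 ^ 2 - 2
    rw [h]
    norm_num at h7 ⊢
    linarith [h7.1]
  · show Kp 14 ^ 2 - 2 ≤ _
    rw [h]
    norm_num at h7 ⊢
    linarith [h7.2]

theorem kap_15 : |Kp 15 - 550648146272264 / 2 ^ 48| ≤ 1 / 2 ^ 48 := by
  have h := Kp_triple 5 (by norm_num)
  have e : (3 * 5 : ℕ) = 15 := rfl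
  rw [e] at h
  have h5 := kap_enc 5 (by norm_num) (by norm_num)
  rw [abs_le] at h5
  simp only [kb] at h5
  push_cast at h5
  refine kap15_of (fun x => x ^ 3 - 3 * x) (fun x y hx hxy => ?_) _ _
    (kap15_lo (by norm_num)) (by norm_num) ?_ ?_
  · have e : (y ^ 3 - 3 * y) - (x ^ 3 - 3 * x) = (y - x) * (x ^ 2 + x * y + y ^ 2 - 3) := by ring
    have h1 : 0 < x ^ 2 + x * y + y ^ 2 - 3 := by nlinarith
    have h2 := mul_pos (sub_pos.2 hxy) h1
    show x ^ 3 - 3 * x < y ^ 3 - 3 * y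
    linarith
  · show _ ≤ Kp 15 ^ 3 - 3 * Kp 15
    rw [h]
    norm_num at h5 ⊢
    linarith [h5.1]
  · show Kp 15 ^ 3 - 3 * Kp 15 ≤ _
    rw [h]
    norm_num at h5 ⊢
    linarith [h5.2]

/-- the narrow tail box `10, ..., 14` -/
theorem kap_1014 (M : ℕ) (h1 : 10 ≤ M) (h2 : M ≤ 14) :
    (535397221549391 : ℝ) / 2 ^ 48 ≤ Kp M ∧ Kp M ≤ 548835622751896 / 2 ^ 48 := by
  have a := kap_enc 10 (by norm_num) (by norm_num)
  have b := kap_14
  have c := kap_mono (M := 10) (N := M) (by norm_num) h1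
  have d := kap_mono (M := M) (N := 14) (by omega) h2
  rw [abs_le] at a b
  simp only [kb] at a
  push_cast at a
  constructor
  · linarith [a.1]
  · linarith [b.2]

/-- the tail from 15 on -/
theorem kap_15t (M : ℕ) (h : 15 ≤ M) : (550648146272263 : ℝ) / 2 ^ 48 ≤ Kp M ∧ Kp M ≤ 2 := by
  have b := kap_15
  have c := kap_mono (M := 15) (N := M) (by norm_num) h
  rw [abs_le] at b
  exact ⟨by linarith [b.1], kap_le2 M⟩

end Pool.Agent.Helper6.MONO
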