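import Pool.Agent.Helper12.CX.KAP
import Pool.Agent.Helper86.CX.RC

/-!
Row KVR: the packed constants of `RC.lean` are the packed forms `B^T E B` of the rounded run
parameters, with enclosures of the run parameters.
-/

set_option autoImplicit false
noncomputable section
namespace Pool.Agent.Helper6.MONO

/-! ### `2 cos (π/M)` with 72 bits -/

theorem kve_sq (x : ℝ) (hx : 0 < x) (n : ℕ) (s D : ℝ) (hs : 1 < s) (hD : 0 < D)
    (h : x ^ 2 = n) (h1 : ((s - 1) / D) ^ 2 ≤ n) (h2 : (n : ℝ) ≤ ((s + 1) / D) ^ 2) :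
    (s - 1) / D ≤ x ∧ x ≤ (s + 1) / D := by
  rw [← h] at h1 h2
  have hs' : 0 < s - 1 := by linarith
  exact ⟨le_of_sq_le_sq h1 hx.le, le_of_sq_le_sq h2 (by positivity)⟩

theorem kve_of (f : ℝ → ℝ) (Q : ℝ → ℝ → ℝ) (hf : ∀ x a, f x - f a = (x - a) * Q x a)
    (x s D lo : ℝ) (h0 : f x = 0) (hD : 0 < D)
    (hQ : ∀ a, lo ≤ a → 0 < Q x a) (hs : lo ≤ (s - 1) / D)
    (h1 : f ((s - 1) / D) ≤ 0) (h2 : 0 ≤ f ((s + 1) / D)) :
    (s - 1) / D ≤ x ∧ x ≤ (s + 1) / D := by
  have e1 := hf x ((s - 1) / D)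
  have e2 := hf x ((s + 1) / D)
  rw [h0] at e1 e2
  have hs' : lo ≤ (s + 1) / D := hs.trans (by
    apply div_le_div_of_nonneg_right _ hD.le
    linarith)
  have q1 := hQ _ hs
  have q2 := hQ _ hs'
  constructor
  · by_contra h
    push Not at h
    nlinarith
  · by_contra h
    push Not at h
    nlinarith

theorem kve_lo6 (N : ℕ) (hN : 6 ≤ N) : (1.7 : ℝ) ≤ Kp N := by
  have h6 : (1.7 : ℝ) ≤ Kp 6 := by
    rw [kap_6]
    exact le_trans (by norm_num) kap_73
  exact h6.trans (kap_mono (by norm_num) hN)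

theorem kve_3 : ((4722366482869645213696 : ℝ) - 1) / 2 ^ 72 ≤ Kp 3 ∧ Kp 3 ≤ ((4722366482869645213696 : ℝ) + 1) / 2 ^ 72 := by
  rw [Kp3]
  norm_num

theorem kve_4 : ((6678434726570384492723 : ℝ) - 1) / 2 ^ 72 ≤ Kp 4 ∧ Kp 4 ≤ ((6678434726570384492723 : ℝ) + 1) / 2 ^ 72 := by
  refine kve_sq _ (by linarith [Kp_ge1 (M := 4) (by norm_num)]) 2 _ _ (by norm_num) (by norm_num) ?_ ?_ ?_
  · rw [Kp4_sq]; norm_num
  · norm_num
  · norm_num

theorem kve_5 : ((7640949476616384026100 : ℝ) - 1) / 2 ^ 72 ≤ Kp 5 ∧ Kp 5 ≤ ((7640949476616384026100 : ℝ) + 1) / 2 ^ 72 := by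
  refine kve_of (fun x => x ^ 2 - x - 1) (fun x a => x + a - 1) (fun x a => by ring)
      _ _ _ 1 Kp5_eq (by norm_num) (fun a ha => ?_) ?_ ?_ ?_
  · show 0 < Kp 5 + a - 1
    linarith [Kp_ge1 (M := 5) (by norm_num)]
  · norm_num
  · norm_num
  · norm_num

theorem kve_6 : ((8179378680290567732005 : ℝ) - 1) / 2 ^ 72 ≤ Kp 6 ∧ Kp 6 ≤ ((8179378680290567732005 : ℝ) + 1) / 2 ^ 72 := by
  refine kve_sq _ (by linarith [Kp_ge1 (M := 6) (by norm_num)]) 3 _ _ (by norm_num) (by norm_num) ?_ ?_ ?_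
  · rw [Kp6_sq]; norm_num
  · norm_num
  · norm_num

theorem kve_7 : ((8509410367782785984227 : ℝ) - 1) / 2 ^ 72 ≤ Kp 7 ∧ Kp 7 ≤ ((8509410367782785984227 : ℝ) + 1) / 2 ^ 72 := by
  refine kve_of (fun x => x ^ 3 - x ^ 2 - 2 * x + 1)
      (fun x a => x ^ 2 + a * x + a ^ 2 - (x + a) - 2) (fun x a => by ring)
      _ _ _ 1.7 Kp7_eq (by norm_num) (fun a ha => ?_) ?_ ?_ ?_
  · show 0 < Kp 7 ^ 2 + a * Kp 7 + a ^ 2 - (Kp 7 + a) - 2
    nlinarith [kve_lo6 7 (by norm_num)]
  · norm_num
  · norm_num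
  · norm_num

theorem kve_8 : ((8725795477081154554621 : ℝ) - 1) / 2 ^ 72 ≤ Kp 8 ∧ Kp 8 ≤ ((8725795477081154554621 : ℝ) + 1) / 2 ^ 72 := by
  refine kve_of (fun x => x ^ 4 - 4 * x ^ 2 + 2)
      (fun x a => (x + a) * (x ^ 2 + a ^ 2 - 4)) (fun x a => by ring)
      _ _ _ 1.7 Kp8_eq (by norm_num) (fun a ha => ?_) ?_ ?_ ?_
  · have := kve_lo6 8 (by norm_num)
    refine mul_pos (by linarith) (by nlinarith)
  · norm_num
  · norm_num
  · norm_num

theorem kve_9 : ((8875145873198618881584 : ℝ) - 1) / 2 ^ 72 ≤ Kp 9 ∧ Kp 9 ≤ ((8875145873198618881584 : ℝ) + 1) / 2 ^ 72 := by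
  refine kve_of (fun x => x ^ 3 - 3 * x - 1)
      (fun x a => x ^ 2 + a * x + a ^ 2 - 3) (fun x a => by ring)
      _ _ _ 1.7 Kp9_eq (by norm_num) (fun a ha => ?_) ?_ ?_ ?_
  · show 0 < Kp 9 ^ 2 + a * Kp 9 + a ^ 2 - 3
    nlinarith [kve_lo6 9 (by norm_num)]
  · norm_num
  · norm_num
  · norm_num

/-! ### the run parameters -/

theorem kvr_S {k l h s t : ℝ} (hl : 0 < l) (h1 : l ≤ k) (h2 : k ≤ h) (e1 : (s + 1) * h ^ 2 ≤ 4)
    (e2 : 4 ≤ (t + 1) * l ^ 2) (hs : -1 ≤ s) (ht : -1 ≤ t) : s ≤ SbP k ∧ SbP k ≤ t := by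
  have hk : 0 < k := hl.trans_le h1
  have e : SbP k = (4 - k ^ 2) / k ^ 2 := by
    unfold SbP
    field_simp
    ring
  rw [e]
  have g1 : k ^ 2 ≤ h ^ 2 := by nlinarith
  have g2 : l ^ 2 ≤ k ^ 2 := by nlinarith
  constructor
  · rw [le_div_iff₀ (by positivity)]
    nlinarith
  · rw [div_le_iff₀ (by positivity)]
    nlinarith

theorem kvr_one {M : ℕ} (hM : 3 ≤ M) {l h a b : ℝ} (hl : 0 < l) (h1 : l ≤ Kp M) (h2 : Kp M ≤ h)
    (ha : 1 ≤ a) (e1 : (a - 1) * h ≤ 2) (e2 : 2 ≤ (b - 1) * l) :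
    a ≤ Rb M 1 ∧ Rb M 1 ≤ b := by
  have hk : 0 < Kp M := hl.trans_le h1
  rw [RJ_one M hM]
  have g : a - 1 ≤ 2 / Kp M := by
    rw [le_div_iff₀ hk]
    nlinarith
  have g' : 2 / Kp M ≤ b - 1 := by
    rw [div_le_iff₀ hk]
    nlinarith
  constructor <;> linarith

theorem kvr_step {M : ℕ} (j : ℕ) (hM : 3 ≤ M) (hj : 1 ≤ j) (hjM : j + 1 ≤ M)
    {a1 b1 a b s t lo hi : ℝ} (h1 : a1 ≤ Rb M 1 ∧ Rb M 1 ≤ b1) (h : a ≤ Rb M j ∧ Rb M j ≤ b)
    (hS : s ≤ SbP (Kp M) ∧ SbP (Kp M) ≤ t) (hl : lo ≤ a) (hl1 : lo ≤ a1) (hh : hi ≤ a)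
    (hh1 : hi ≤ b1) (e1 : lo * (a1 + a) ≤ a1 * a - t) (e2 : b1 * b - s ≤ hi * (b1 + b)) :
    lo ≤ Rb M (j + 1) ∧ Rb M (j + 1) ≤ hi := by
  have p1 := (RJ_pos M 1 hM le_rfl (by omega)).2 (by omega)
  have p2 := (RJ_pos M j hM hj (by omega)).2 (by omega)
  rw [RJ_succ M j hM hj hjM]
  obtain ⟨h1a, h1b⟩ := h1
  obtain ⟨ha, hb⟩ := h
  obtain ⟨hs, ht⟩ := hS
  generalize Rb M 1 = x at *
  generalize Rb M j = y at *
  generalize SbP (Kp M) = S at *
  constructor
  · rw [le_div_iff₀ (by linarith)]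
    nlinarith [mul_nonneg (sub_nonneg.2 h1a) (sub_nonneg.2 (hl.trans ha)),
      mul_nonneg (sub_nonneg.2 ha) (sub_nonneg.2 hl1)]
  · rw [div_le_iff₀ (by linarith)]
    nlinarith [mul_nonneg (sub_nonneg.2 h1b) (sub_nonneg.2 (hh.trans ha)),
      mul_nonneg (sub_nonneg.2 hb) (sub_nonneg.2 hh1)]

/-- enclosures of the run parameters by integers over `2 ^ 48` -/
structure VRin (M j : ℕ) (R A W T : ℤ) : Prop where
  R : |(R : ℝ) / 2 ^ 48 - Rb M j| ≤ 1 / 2 ^ 48
  A : |(A : ℝ) / 2 ^ 48 - (Rb M j ^ 2 - SbP (Kp M))| ≤ 1 / 2 ^ 48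
  W : |(W : ℝ) / 2 ^ 48 - (Rb M j ^ 2 + SbP (Kp M))| ≤ 1 / 2 ^ 48
  T : |(T : ℝ) / 2 ^ 48 - 2 * SbP (Kp M) * Rb M j| ≤ 1 / 2 ^ 48

theorem kvr_abs {x r lo hi e : ℝ} (h1 : lo ≤ r) (h2 : r ≤ hi) (e1 : x - e ≤ lo)
    (e2 : hi ≤ x + e) : |x - r| ≤ e := by
  rw [abs_le]
  constructor <;> linarith

theorem vrin_of {M j : ℕ} {a b s t : ℝ} (h : a ≤ Rb M j ∧ Rb M j ≤ b)
    (hS : s ≤ SbP (Kp M) ∧ SbP (Kp M) ≤ t) (ha : 0 ≤ a) (hs : 0 ≤ s) (R A W T : ℤ)
    (r1 : (R : ℝ) / 2 ^ 48 - 1 / 2 ^ 48 ≤ a) (r2 : b ≤ (R : ℝ) / 2 ^ 48 + 1 / 2 ^ 48)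
    (a1 : (A : ℝ) / 2 ^ 48 - 1 / 2 ^ 48 ≤ a ^ 2 - t)
    (a2 : b ^ 2 - s ≤ (A : ℝ) / 2 ^ 48 + 1 / 2 ^ 48)
    (w1 : (W : ℝ) / 2 ^ 48 - 1 / 2 ^ 48 ≤ a ^ 2 + s)
    (w2 : b ^ 2 + t ≤ (W : ℝ) / 2 ^ 48 + 1 / 2 ^ 48)
    (t1 : (T : ℝ) / 2 ^ 48 - 1 / 2 ^ 48 ≤ 2 * s * a)
    (t2 : 2 * t * b ≤ (T : ℝ) / 2 ^ 48 + 1 / 2 ^ 48) : VRin M j R A W T := by
  obtain ⟨ha', hb⟩ := h
  obtain ⟨hs', ht⟩ := hS
  have g1 : a ^ 2 ≤ Rb M j ^ 2 := by nlinarith
  have g2 : Rb M j ^ 2 ≤ b ^ 2 := by nlinarith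
  refine ⟨kvr_abs ha' hb r1 r2, kvr_abs (lo := a ^ 2 - t) (hi := b ^ 2 - s) (by linarith)
    (by linarith) a1 a2, kvr_abs (lo := a ^ 2 + s) (hi := b ^ 2 + t) (by linarith)
    (by linarith) w1 w2, kvr_abs (lo := 2 * s * a) (hi := 2 * t * b) ?_ ?_ t1 t2⟩
  · have := mul_le_mul hs' ha' ha (hs.trans hs')
    nlinarith
  · have := mul_le_mul ht hb (ha.trans ha') (hs.trans (hs'.trans ht))
    nlinarith

theorem kvr_S3 : (885443715538058477565 : ℝ) / 2 ^ 68 ≤ SbP (Kp 3) ∧ SbP (Kp 3) ≤ (885443715538058477571 : ℝ) / 2 ^ 68 :=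
  kvr_S (by norm_num) kve_3.1 kve_3.2 (by norm_num) (by norm_num) (by norm_num) (by norm_num)

theorem kvr_3_1 : (885443715538058477565 : ℝ) / 2 ^ 68 ≤ Rb 3 1 ∧ Rb 3 1 ≤ (885443715538058477571 : ℝ) / 2 ^ 68 :=
  kvr_one (by norm_num) (by norm_num) kve_3.1 kve_3.2 (by norm_num) (by norm_num) (by norm_num)

theorem kvr_3_2 : (295147905179352825851 : ℝ) / 2 ^ 68 ≤ Rb 3 2 ∧ Rb 3 2 ≤ (295147905179352825861 : ℝ) / 2 ^ 68 :=
  kvr_step 1 (by norm_num) (by norm_num) (by norm_num) kvr_3_1 kvr_3_1 kvr_S3 (by norm_num)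
    (by norm_num) (by norm_num) (by norm_num) (by norm_num) (by norm_num)

theorem vrin_3_1 : VRin 3 1 844424930131968 (1688849860263936) 3377699720527872 5066549580791808 :=
  vrin_of kvr_3_1 kvr_S3 (by norm_num) (by norm_num) _ _ _ _ (by norm_num) (by norm_num)
    (by norm_num) (by norm_num) (by norm_num) (by norm_num) (by norm_num) (by norm_num)

theorem vrin_3_2 : VRin 3 2 281474976710656 (-562949953421312) 1125899906842624 1688849860263936 :=
  vrin_of kvr_3_2 kvr_S3 (by norm_num) (by norm_num) _ _ _ _ (by norm_num) (by norm_num)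
    (by norm_num) (by norm_num) (by norm_num) (by norm_num) (by norm_num) (by norm_num)

theorem kvr_S4 : (295147905179352825853 : ℝ) / 2 ^ 68 ≤ SbP (Kp 4) ∧ SbP (Kp 4) ≤ (295147905179352825859 : ℝ) / 2 ^ 68 :=
  kvr_S (by norm_num) kve_4.1 kve_4.2 (by norm_num) (by norm_num) (by norm_num) (by norm_num)

theorem kvr_4_1 : (712550075590001856649 : ℝ) / 2 ^ 68 ≤ Rb 4 1 ∧ Rb 4 1 ≤ (712550075590001856654 : ℝ) / 2 ^ 68 :=
  kvr_one (by norm_num) (by norm_num) kve_4.1 kve_4.2 (by norm_num) (by norm_num) (by norm_num)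

theorem kvr_4_2 : (295147905179352825852 : ℝ) / 2 ^ 68 ≤ Rb 4 2 ∧ Rb 4 2 ≤ (295147905179352825861 : ℝ) / 2 ^ 68 :=
  kvr_step 1 (by norm_num) (by norm_num) (by norm_num) kvr_4_1 kvr_4_1 kvr_S4 (by norm_num)
    (by norm_num) (by norm_num) (by norm_num) (by norm_num) (by norm_num)

theorem kvr_4_3 : (122254265231296204933 : ℝ) / 2 ^ 68 ≤ Rb 4 3 ∧ Rb 4 3 ≤ (122254265231296204946 : ℝ) / 2 ^ 68 :=
  kvr_step 2 (by norm_num) (by norm_num) (by norm_num) kvr_4_1 kvr_4_2 kvr_S4 (by norm_num)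
    (by norm_num) (by norm_num) (by norm_num) (by norm_num) (by norm_num)

theorem vrin_4_1 : VRin 4 1 679540706243517 (1359081412487034) 1922031365908346 1359081412487034 :=
  vrin_of kvr_4_1 kvr_S4 (by norm_num) (by norm_num) _ _ _ _ (by norm_num) (by norm_num)
    (by norm_num) (by norm_num) (by norm_num) (by norm_num) (by norm_num) (by norm_num)

theorem vrin_4_2 : VRin 4 2 281474976710656 (0) 562949953421312 562949953421312 :=
  vrin_of kvr_4_2 kvr_S4 (by norm_num) (by norm_num) _ _ _ _ (by norm_num) (by norm_num)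
    (by norm_num) (by norm_num) (by norm_num) (by norm_num) (by norm_num) (by norm_num)

theorem vrin_4_3 : VRin 4 3 116590752822205 (-233181505644410) 329768447776902 233181505644410 :=
  vrin_of kvr_4_3 kvr_S4 (by norm_num) (by norm_num) _ _ _ _ (by norm_num) (by norm_num)
    (by norm_num) (by norm_num) (by norm_num) (by norm_num) (by norm_num) (by norm_num)

theorem kvr_S5 : (155797967101373774464 : ℝ) / 2 ^ 68 ≤ SbP (Kp 5) ∧ SbP (Kp 5) ≤ (155797967101373774470 : ℝ) / 2 ^ 68 :=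
  kvr_S (by norm_num) kve_5.1 kve_5.2 (by norm_num) (by norm_num) (by norm_num) (by norm_num)

theorem kvr_5_1 : (659970779397695177404 : ℝ) / 2 ^ 68 ≤ Rb 5 1 ∧ Rb 5 1 ≤ (659970779397695177409 : ℝ) / 2 ^ 68 :=
  kvr_one (by norm_num) (by norm_num) kve_5.1 kve_5.2 (by norm_num) (by norm_num) (by norm_num)

theorem kvr_5_2 : (295147905179352825851 : ℝ) / 2 ^ 68 ≤ Rb 5 2 ∧ Rb 5 2 ≤ (295147905179352825861 : ℝ) / 2 ^ 68 :=
  kvr_step 1 (by norm_num) (by norm_num) (by norm_num) kvr_5_1 kvr_5_1 kvr_S5 (by norm_num)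
    (by norm_num) (by norm_num) (by norm_num) (by norm_num) (by norm_num)

theorem kvr_5_3 : (155797967101373774461 : ℝ) / 2 ^ 68 ≤ Rb 5 3 ∧ Rb 5 3 ≤ (155797967101373774474 : ℝ) / 2 ^ 68 :=
  kvr_step 2 (by norm_num) (by norm_num) (by norm_num) kvr_5_1 kvr_5_2 kvr_S5 (by norm_num)
    (by norm_num) (by norm_num) (by norm_num) (by norm_num) (by norm_num)

theorem kvr_5_4 : (69674969038989525686 : ℝ) / 2 ^ 68 ≤ Rb 5 4 ∧ Rb 5 4 ≤ (69674969038989525703 : ℝ) / 2 ^ 68 :=
  kvr_step 3 (by norm_num) (by norm_num) (by norm_num) kvr_5_1 kvr_5_3 kvr_S5 (by norm_num)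
    (by norm_num) (by norm_num) (by norm_num) (by norm_num) (by norm_num)

theorem vrin_5_1 : VRin 5 1 629397181890197 (1258794363780394) 1555955403326166 664472284688850 :=
  vrin_of kvr_5_1 kvr_S5 (by norm_num) (by norm_num) _ _ _ _ (by norm_num) (by norm_num)
    (by norm_num) (by norm_num) (by norm_num) (by norm_num) (by norm_num) (by norm_num)

theorem vrin_5_2 : VRin 5 2 281474976710656 (132894456937770) 430055496483542 297161039545772 :=
  vrin_of kvr_5_2 kvr_S5 (by norm_num) (by norm_num) _ _ _ _ (by norm_num) (by norm_num)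
    (by norm_num) (by norm_num) (by norm_num) (by norm_num) (by norm_num) (by norm_num)

theorem vrin_5_3 : VRin 5 3 148580519772886 (-70150205597305) 227010833948467 156860628351161 :=
  vrin_of kvr_5_3 kvr_S5 (by norm_num) (by norm_num) _ _ _ _ (by norm_num) (by norm_num)
    (by norm_num) (by norm_num) (by norm_num) (by norm_num) (by norm_num) (by norm_num)

theorem vrin_5_4 : VRin 5 4 66447228468885 (-132894456937770) 164266582608002 70150205597305 :=
  vrin_of kvr_5_4 kvr_S5 (by norm_num) (by norm_num) _ _ _ _ (by norm_num) (by norm_num)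
    (by norm_num) (by norm_num) (by norm_num) (by norm_num) (by norm_num) (by norm_num)

theorem kvr_S6 : (98382635059784275283 : ℝ) / 2 ^ 68 ≤ SbP (Kp 6) ∧ SbP (Kp 6) ≤ (98382635059784275288 : ℝ) / 2 ^ 68 :=
  kvr_S (by norm_num) kve_6.1 kve_6.2 (by norm_num) (by norm_num) (by norm_num) (by norm_num)

theorem kvr_6_1 : (635955350191459814687 : ℝ) / 2 ^ 68 ≤ Rb 6 1 ∧ Rb 6 1 ≤ (635955350191459814692 : ℝ) / 2 ^ 68 :=
  kvr_one (by norm_num) (by norm_num) kve_6.1 kve_6.2 (by norm_num) (by norm_num) (by norm_num)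

theorem kvr_6_2 : (295147905179352825852 : ℝ) / 2 ^ 68 ≤ Rb 6 2 ∧ Rb 6 2 ≤ (295147905179352825860 : ℝ) / 2 ^ 68 :=
  kvr_step 1 (by norm_num) (by norm_num) (by norm_num) kvr_6_1 kvr_6_1 kvr_S6 (by norm_num)
    (by norm_num) (by norm_num) (by norm_num) (by norm_num) (by norm_num)

theorem kvr_6_3 : (170403722506053494411 : ℝ) / 2 ^ 68 ≤ Rb 6 3 ∧ Rb 6 3 ≤ (170403722506053494422 : ℝ) / 2 ^ 68 :=
  kvr_step 2 (by norm_num) (by norm_num) (by norm_num) kvr_6_1 kvr_6_2 kvr_S6 (by norm_num)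
    (by norm_num) (by norm_num) (by norm_num) (by norm_num) (by norm_num)

theorem kvr_6_4 : (98382635059784275278 : ℝ) / 2 ^ 68 ≤ Rb 6 4 ∧ Rb 6 4 ≤ (98382635059784275292 : ℝ) / 2 ^ 68 :=
  kvr_step 3 (by norm_num) (by norm_num) (by norm_num) kvr_6_1 kvr_6_3 kvr_S6 (by norm_num)
    (by norm_num) (by norm_num) (by norm_num) (by norm_num) (by norm_num)

theorem kvr_6_5 : (45659539832754162968 : ℝ) / 2 ^ 68 ≤ Rb 6 5 ∧ Rb 6 5 ≤ (45659539832754162987 : ℝ) / 2 ^ 68 :=
  kvr_step 4 (by norm_num) (by norm_num) (by norm_num) kvr_6_1 kvr_6_4 kvr_S6 (by norm_num)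
    (by norm_num) (by norm_num) (by norm_num) (by norm_num) (by norm_num)

theorem vrin_6_1 : VRin 6 1 606494283858738 (1212988567717476) 1400638552191246 404329522572492 :=
  vrin_of kvr_6_1 kvr_S6 (by norm_num) (by norm_num) _ _ _ _ (by norm_num) (by norm_num)
    (by norm_num) (by norm_num) (by norm_num) (by norm_num) (by norm_num) (by norm_num)

theorem vrin_6_2 : VRin 6 2 281474976710656 (187649984473771) 375299968947541 187649984473771 :=
  vrin_of kvr_6_2 kvr_S6 (by norm_num) (by norm_num) _ _ _ _ (by norm_num) (by norm_num)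
    (by norm_num) (by norm_num) (by norm_num) (by norm_num) (by norm_num) (by norm_num)

theorem vrin_6_3 : VRin 6 3 162509653574041 (0) 187649984473771 108339769049361 :=
  vrin_of kvr_6_3 kvr_S6 (by norm_num) (by norm_num) _ _ _ _ (by norm_num) (by norm_num)
    (by norm_num) (by norm_num) (by norm_num) (by norm_num) (by norm_num) (by norm_num)

theorem vrin_6_4 : VRin 6 4 93824992236885 (-62549994824590) 125099989649180 62549994824590 :=
  vrin_of kvr_6_4 kvr_S6 (by norm_num) (by norm_num) _ _ _ _ (by norm_num) (by norm_num)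
    (by norm_num) (by norm_num) (by norm_num) (by norm_num) (by norm_num) (by norm_num)

theorem vrin_6_5 : VRin 6 5 43544330437426 (-87088660874852) 100561323598919 29029553624951 :=
  vrin_of kvr_6_5 kvr_S6 (by norm_num) (by norm_num) _ _ _ _ (by norm_num) (by norm_num)
    (by norm_num) (by norm_num) (by norm_num) (by norm_num) (by norm_num) (by norm_num)

theorem kvr_S7 : (68448964775035528127 : ℝ) / 2 ^ 68 ≤ SbP (Kp 7) ∧ SbP (Kp 7) ≤ (68448964775035528132 : ℝ) / 2 ^ 68 :=
  kvr_S (by norm_num) kve_7.1 kve_7.2 (by norm_num) (by norm_num) (by norm_num) (by norm_num)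

theorem kvr_7_1 : (622737365475021212508 : ℝ) / 2 ^ 68 ≤ Rb 7 1 ∧ Rb 7 1 ≤ (622737365475021212513 : ℝ) / 2 ^ 68 :=
  kvr_one (by norm_num) (by norm_num) kve_7.1 kve_7.2 (by norm_num) (by norm_num) (by norm_num)

theorem kvr_7_2 : (295147905179352825852 : ℝ) / 2 ^ 68 ≤ Rb 7 2 ∧ Rb 7 2 ≤ (295147905179352825860 : ℝ) / 2 ^ 68 :=
  kvr_step 1 (by norm_num) (by norm_num) (by norm_num) kvr_7_1 kvr_7_1 kvr_S7 (by norm_num)
    (by norm_num) (by norm_num) (by norm_num) (by norm_num) (by norm_num)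

theorem kvr_7_3 : (178232580434789770455 : ℝ) / 2 ^ 68 ≤ Rb 7 3 ∧ Rb 7 3 ≤ (178232580434789770466 : ℝ) / 2 ^ 68 :=
  kvr_step 2 (by norm_num) (by norm_num) (by norm_num) kvr_7_1 kvr_7_2 kvr_S7 (by norm_num)
    (by norm_num) (by norm_num) (by norm_num) (by norm_num) (by norm_num)

theorem kvr_7_4 : (113349470202158648856 : ℝ) / 2 ^ 68 ≤ Rb 7 4 ∧ Rb 7 4 ≤ (113349470202158648870 : ℝ) / 2 ^ 68 :=
  kvr_step 3 (by norm_num) (by norm_num) (by norm_num) kvr_7_1 kvr_7_3 kvr_S7 (by norm_num)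
    (by norm_num) (by norm_num) (by norm_num) (by norm_num) (by norm_num)

theorem kvr_7_5 : (68448964775035528120 : ℝ) / 2 ^ 68 ≤ Rb 7 5 ∧ Rb 7 5 ≤ (68448964775035528138 : ℝ) / 2 ^ 68 :=
  kvr_step 4 (by norm_num) (by norm_num) (by norm_num) kvr_7_1 kvr_7_4 kvr_S7 (by norm_num)
    (by norm_num) (by norm_num) (by norm_num) (by norm_num) (by norm_num)

theorem kvr_7_6 : (32441555116315560787 : ℝ) / 2 ^ 68 ≤ Rb 7 6 ∧ Rb 7 6 ≤ (32441555116315560810 : ℝ) / 2 ^ 68 :=
  kvr_step 5 (by norm_num) (by norm_num) (by norm_num) kvr_7_1 kvr_7_5 kvr_S7 (by norm_num)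
    (by norm_num) (by norm_num) (by norm_num) (by norm_num) (by norm_num)

theorem vrin_7_1 : VRin 7 1 593888631320020 (1187777262640040) 1318333302021135 275462310876410 :=
  vrin_of kvr_7_1 kvr_S7 (by norm_num) (by norm_num) _ _ _ _ (by norm_num) (by norm_num)
    (by norm_num) (by norm_num) (by norm_num) (by norm_num) (by norm_num) (by norm_num)

theorem vrin_7_2 : VRin 7 2 281474976710656 (216196957020109) 346752996401203 130556039381095 :=
  vrin_of kvr_7_2 kvr_S7 (by norm_num) (by norm_num) _ _ _ _ (by norm_num) (by norm_num)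
    (by norm_num) (by norm_num) (by norm_num) (by norm_num) (by norm_num) (by norm_num)

theorem vrin_7_3 : VRin 7 3 169975834307470 (37366217414124) 167922256795219 78839589852750 :=
  vrin_of kvr_7_3 kvr_S7 (by norm_num) (by norm_num) _ _ _ _ (by norm_num) (by norm_num)
    (by norm_num) (by norm_num) (by norm_num) (by norm_num) (by norm_num) (by norm_num)

theorem vrin_7_4 : VRin 7 4 108098478510054 (-23763561841598) 106792477539497 50139125624309 :=
  vrin_of kvr_7_4 kvr_S7 (by norm_num) (by norm_num) _ _ _ _ (by norm_num) (by norm_num)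
    (by norm_num) (by norm_num) (by norm_num) (by norm_num) (by norm_num) (by norm_num)

theorem vrin_7_5 : VRin 7 5 65278019690547 (-50139125624309) 80416913756786 30277788132477 :=
  vrin_of kvr_7_5 kvr_S7 (by norm_num) (by norm_num) _ _ _ _ (by norm_num) (by norm_num)
    (by norm_num) (by norm_num) (by norm_num) (by norm_num) (by norm_num) (by norm_num)

theorem vrin_7_6 : VRin 7 6 30938677898708 (-61877355797416) 68678683583679 14350232114221 :=
  vrin_of kvr_7_6 kvr_S7 (by norm_num) (by norm_num) _ _ _ _ (by norm_num) (by norm_num)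
    (by norm_num) (by norm_num) (by norm_num) (by norm_num) (by norm_num) (by norm_num)

theorem kvr_S8 : (50639374716760415975 : ℝ) / 2 ^ 68 ≤ SbP (Kp 8) ∧ SbP (Kp 8) ≤ (50639374716760415980 : ℝ) / 2 ^ 68 :=
  kvr_S (by norm_num) kve_8.1 kve_8.2 (by norm_num) (by norm_num) (by norm_num) (by norm_num)

theorem kvr_8_1 : (614613695678123392986 : ℝ) / 2 ^ 68 ≤ Rb 8 1 ∧ Rb 8 1 ≤ (614613695678123392991 : ℝ) / 2 ^ 68 :=
  kvr_one (by norm_num) (by norm_num) kve_8.1 kve_8.2 (by norm_num) (by norm_num) (by norm_num)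

theorem kvr_8_2 : (295147905179352825852 : ℝ) / 2 ^ 68 ≤ Rb 8 2 ∧ Rb 8 2 ≤ (295147905179352825860 : ℝ) / 2 ^ 68 :=
  kvr_step 1 (by norm_num) (by norm_num) (by norm_num) kvr_8_1 kvr_8_1 kvr_S8 (by norm_num)
    (by norm_num) (by norm_num) (by norm_num) (by norm_num) (by norm_num)

theorem kvr_8_3 : (182966437855593033902 : ℝ) / 2 ^ 68 ≤ Rb 8 3 ∧ Rb 8 3 ≤ (182966437855593033913 : ℝ) / 2 ^ 68 :=
  kvr_step 2 (by norm_num) (by norm_num) (by norm_num) kvr_8_1 kvr_8_2 kvr_S8 (by norm_num)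
    (by norm_num) (by norm_num) (by norm_num) (by norm_num) (by norm_num)

theorem kvr_8_4 : (122254265231296204932 : ℝ) / 2 ^ 68 ≤ Rb 8 4 ∧ Rb 8 4 ≤ (122254265231296204947 : ℝ) / 2 ^ 68 :=
  kvr_step 3 (by norm_num) (by norm_num) (by norm_num) kvr_8_1 kvr_8_3 kvr_S8 (by norm_num)
    (by norm_num) (by norm_num) (by norm_num) (by norm_num) (by norm_num)

theorem kvr_8_5 : (81687688422072201943 : ℝ) / 2 ^ 68 ≤ Rb 8 5 ∧ Rb 8 5 ≤ (81687688422072201961 : ℝ) / 2 ^ 68 :=
  kvr_step 4 (by norm_num) (by norm_num) (by norm_num) kvr_8_1 kvr_8_4 kvr_S8 (by norm_num)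
    (by norm_num) (by norm_num) (by norm_num) (by norm_num) (by norm_num)

theorem kvr_8_6 : (50639374716760415967 : ℝ) / 2 ^ 68 ≤ Rb 8 6 ∧ Rb 8 6 ≤ (50639374716760415989 : ℝ) / 2 ^ 68 :=
  kvr_step 5 (by norm_num) (by norm_num) (by norm_num) kvr_8_1 kvr_8_5 kvr_S8 (by norm_num)
    (by norm_num) (by norm_num) (by norm_num) (by norm_num) (by norm_num)

theorem kvr_8_7 : (24317885319417741264 : ℝ) / 2 ^ 68 ≤ Rb 8 7 ∧ Rb 8 7 ≤ (24317885319417741291 : ℝ) / 2 ^ 68 :=
  kvr_step 6 (by norm_num) (by norm_num) (by norm_num) kvr_8_1 kvr_8_6 kvr_S8 (by norm_num)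
    (by norm_num) (by norm_num) (by norm_num) (by norm_num) (by norm_num)

theorem vrin_8_1 : VRin 8 1 586141296079753 (1172282592159507) 1268869534291999 201131894946796 :=
  vrin_of kvr_8_1 kvr_S8 (by norm_num) (by norm_num) _ _ _ _ (by norm_num) (by norm_num)
    (by norm_num) (by norm_num) (by norm_num) (by norm_num) (by norm_num) (by norm_num)

theorem vrin_8_2 : VRin 8 2 281474976710656 (233181505644410) 329768447776902 96586942132493 :=
  vrin_of kvr_8_2 kvr_S8 (by norm_num) (by norm_num) _ _ _ _ (by norm_num) (by norm_num)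
    (by norm_num) (by norm_num) (by norm_num) (by norm_num) (by norm_num) (by norm_num)

theorem vrin_8_3 : VRin 8 3 174490392547219 (59875636706985) 156462578839478 59875636706985 :=
  vrin_of kvr_8_3 kvr_S8 (by norm_num) (by norm_num) _ _ _ _ (by norm_num) (by norm_num)
    (by norm_num) (by norm_num) (by norm_num) (by norm_num) (by norm_num) (by norm_num)

theorem vrin_8_4 : VRin 8 4 116590752822205 (0) 96586942132493 40007621379424 :=
  vrin_of kvr_8_4 kvr_S8 (by norm_num) (by norm_num) _ _ _ _ (by norm_num) (by norm_num)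
    (by norm_num) (by norm_num) (by norm_num) (by norm_num) (by norm_num) (by norm_num)

theorem vrin_8_5 : VRin 8 5 77903450414726 (-26732237959694) 69854704172798 26732237959694 :=
  vrin_of kvr_8_5 kvr_S8 (by norm_num) (by norm_num) _ _ _ _ (by norm_num) (by norm_num)
    (by norm_num) (by norm_num) (by norm_num) (by norm_num) (by norm_num) (by norm_num)

theorem vrin_8_6 : VRin 8 6 48293471066246 (-40007621379424) 56579320753069 16571699373645 :=
  vrin_of kvr_8_6 kvr_S8 (by norm_num) (by norm_num) _ _ _ _ (by norm_num) (by norm_num)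
    (by norm_num) (by norm_num) (by norm_num) (by norm_num) (by norm_num) (by norm_num)

theorem vrin_8_7 : VRin 8 7 23191342658441 (-46382685316883) 50204256815610 7958010681810 :=
  vrin_of kvr_8_7 kvr_S8 (by norm_num) (by norm_num) _ _ _ _ (by norm_num) (by norm_num)
    (by norm_num) (by norm_num) (by norm_num) (by norm_num) (by norm_num) (by norm_num)

theorem kvr_S9 : (39099521412129362353 : ℝ) / 2 ^ 68 ≤ SbP (Kp 9) ∧ SbP (Kp 9) ≤ (39099521412129362358 : ℝ) / 2 ^ 68 :=
  kvr_S (by norm_num) kve_9.1 kve_9.2 (by norm_num) (by norm_num) (by norm_num) (by norm_num)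

theorem kvr_9_1 : (609237745464048247884 : ℝ) / 2 ^ 68 ≤ Rb 9 1 ∧ Rb 9 1 ≤ (609237745464048247889 : ℝ) / 2 ^ 68 :=
  kvr_one (by norm_num) (by norm_num) kve_9.1 kve_9.2 (by norm_num) (by norm_num) (by norm_num)

theorem kvr_9_2 : (295147905179352825852 : ℝ) / 2 ^ 68 ≤ Rb 9 2 ∧ Rb 9 2 ≤ (295147905179352825860 : ℝ) / 2 ^ 68 :=
  kvr_step 1 (by norm_num) (by norm_num) (by norm_num) kvr_9_1 kvr_9_1 kvr_S9 (by norm_num)
    (by norm_num) (by norm_num) (by norm_num) (by norm_num) (by norm_num)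

theorem kvr_9_3 : (186065648401083690275 : ℝ) / 2 ^ 68 ≤ Rb 9 3 ∧ Rb 9 3 ≤ (186065648401083690286 : ℝ) / 2 ^ 68 :=
  kvr_step 2 (by norm_num) (by norm_num) (by norm_num) kvr_9_1 kvr_9_2 kvr_S9 (by norm_num)
    (by norm_num) (by norm_num) (by norm_num) (by norm_num) (by norm_num)

theorem kvr_9_4 : (128024191883611731743 : ℝ) / 2 ^ 68 ≤ Rb 9 4 ∧ Rb 9 4 ≤ (128024191883611731757 : ℝ) / 2 ^ 68 :=
  kvr_step 3 (by norm_num) (by norm_num) (by norm_num) kvr_9_1 kvr_9_3 kvr_S9 (by norm_num)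
    (by norm_num) (by norm_num) (by norm_num) (by norm_num) (by norm_num)

theorem kvr_9_5 : (90140321672926539392 : ℝ) / 2 ^ 68 ≤ Rb 9 5 ∧ Rb 9 5 ≤ (90140321672926539409 : ℝ) / 2 ^ 68 :=
  kvr_step 4 (by norm_num) (by norm_num) (by norm_num) kvr_9_1 kvr_9_4 kvr_S9 (by norm_num)
    (by norm_num) (by norm_num) (by norm_num) (by norm_num) (by norm_num)

theorem kvr_9_6 : (62021882800361230083 : ℝ) / 2 ^ 68 ≤ Rb 9 6 ∧ Rb 9 6 ≤ (62021882800361230104 : ℝ) / 2 ^ 68 :=
  kvr_step 5 (by norm_num) (by norm_num) (by norm_num) kvr_9_1 kvr_9_5 kvr_S9 (by norm_num)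
    (by norm_num) (by norm_num) (by norm_num) (by norm_num) (by norm_num)

theorem kvr_9_7 : (39099521412129362343 : ℝ) / 2 ^ 68 ≤ Rb 9 7 ∧ Rb 9 7 ≤ (39099521412129362368 : ℝ) / 2 ^ 68 :=
  kvr_step 6 (by norm_num) (by norm_num) (by norm_num) kvr_9_1 kvr_9_6 kvr_S9 (by norm_num)
    (by norm_num) (by norm_num) (by norm_num) (by norm_num) (by norm_num)

theorem kvr_9_8 : (18941935105342596160 : ℝ) / 2 ^ 68 ≤ Rb 9 8 ∧ Rb 9 8 ≤ (18941935105342596190 : ℝ) / 2 ^ 68 :=
  kvr_step 7 (by norm_num) (by norm_num) (by norm_num) kvr_9_1 kvr_9_7 kvr_S9 (by norm_num)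
    (by norm_num) (by norm_num) (by norm_num) (by norm_num) (by norm_num)

theorem vrin_9_1 : VRin 9 1 581014390434311 (1162028780868622) 1236605199577670 153938985850074 :=
  vrin_of kvr_9_1 kvr_S9 (by norm_num) (by norm_num) _ _ _ _ (by norm_num) (by norm_num)
    (by norm_num) (by norm_num) (by norm_num) (by norm_num) (by norm_num) (by norm_num)

theorem vrin_9_2 : VRin 9 2 281474976710656 (244186767356132) 318763186065180 74576418709048 :=
  vrin_of kvr_9_2 kvr_S9 (by norm_num) (by norm_num) _ _ _ _ (by norm_num) (by norm_num)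
    (by norm_num) (by norm_num) (by norm_num) (by norm_num) (by norm_num) (by norm_num)

theorem vrin_9_3 : VRin 9 3 177446030045589 (74576418709048) 149152837418096 47014088391031 :=
  vrin_of kvr_9_3 kvr_S9 (by norm_num) (by norm_num) _ _ _ _ (by norm_num) (by norm_num)
    (by norm_num) (by norm_num) (by norm_num) (by norm_num) (by norm_num) (by norm_num)

theorem vrin_9_4 : VRin 9 4 122093383678066 (15671362797010) 90247781506058 32348478749995 :=
  vrin_of kvr_9_4 kvr_S9 (by norm_num) (by norm_num) _ _ _ _ (by norm_num) (by norm_num)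
    (by norm_num) (by norm_num) (by norm_num) (by norm_num) (by norm_num) (by norm_num)

theorem vrin_9_5 : VRin 9 5 85964509652068 (-11034021482908) 63542397226141 22776181886039 :=
  vrin_of kvr_9_5 kvr_S9 (by norm_num) (by norm_num) _ _ _ _ (by norm_num) (by norm_num)
    (by norm_num) (by norm_num) (by norm_num) (by norm_num) (by norm_num) (by norm_num)

theorem vrin_9_6 : VRin 9 6 59148676681863 (-24858806236349) 49717612472699 15671362797010 :=
  vrin_of kvr_9_6 kvr_S9 (by norm_num) (by norm_num) _ _ _ _ (by norm_num) (by norm_num)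
    (by norm_num) (by norm_num) (by norm_num) (by norm_num) (by norm_num) (by norm_num)

theorem vrin_9_7 : VRin 9 7 37288209354524 (-32348478749995) 42227939959053 9879461209059 :=
  vrin_of kvr_9_7 kvr_S9 (by norm_num) (by norm_num) _ _ _ _ (by norm_num) (by norm_num)
    (by norm_num) (by norm_num) (by norm_num) (by norm_num) (by norm_num) (by norm_num)

theorem vrin_9_8 : VRin 9 8 18064437012999 (-36128874025998) 38447544683050 4786148431978 :=
  vrin_of kvr_9_8 kvr_S9 (by norm_num) (by norm_num) _ _ _ _ (by norm_num) (by norm_num)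
    (by norm_num) (by norm_num) (by norm_num) (by norm_num) (by norm_num) (by norm_num)

/-! ### the packed constants -/

/-- nine slots of 256 bits, modulo `2 ^ 2304` -/
def pk9 (a b c d e f g h i : ℤ) : ℕ :=
  ((a + 2 ^ 256 * (b + 2 ^ 256 * (c + 2 ^ 256 * (d + 2 ^ 256 * (e + 2 ^ 256 * (f + 2 ^ 256 *
    (g + 2 ^ 256 * (h + 2 ^ 256 * i)))))))) % 2 ^ 2304).toNat

/-- the packed form `B^T E B` for the nine unit forms -/
def vrec (R A W T : ℤ) : Pool.Agent.Helper86.CX.VR :=
  ⟨pk9 (2 ^ 96) (4 * R * R) (A * A) (2 * R * 2 ^ 48) 0 (A * 2 ^ 48) 0 (2 * R * A) 0,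
   pk9 (R * R) (A * A) (T * T) (R * A) 0 (-R * T) 0 (-A * T) 0,
   pk9 (W * W) 0 0 0 0 0 0 0 0,
   pk9 (2 * R * 2 ^ 48) (4 * R * A) (-2 * A * T) (A * 2 ^ 48 + 2 * R * R) 0 (R * A - 2 ^ 48 * T) 0
     (A * A - 2 * R * T) 0,
   pk9 0 0 0 0 (2 ^ 48 * A - 2 * R * R) 0 (-(2 ^ 48 * T + R * A)) 0 (-(2 * R * T + A * A)),
   pk9 (2 * 2 ^ 48 * W) 0 0 (2 * R * W) 0 (W * A) 0 0 0,
   pk9 0 0 0 0 (-2 * R * W) 0 (-W * A) 0 0,
   pk9 (2 * R * W) 0 0 (W * A) 0 (-W * T) 0 0 0,
   pk9 0 0 0 0 (-W * A) 0 (W * T) 0 0⟩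

theorem VR_ext {x y : Pool.Agent.Helper86.CX.VR} (h1 : x.a = y.a) (h2 : x.b = y.b)
    (h3 : x.c = y.c) (h4 : x.d = y.d) (h5 : x.e = y.e) (h6 : x.f = y.f) (h7 : x.g = y.g)
    (h8 : x.h = y.h) (h9 : x.i = y.i) : x = y := by
  cases x
  cases y
  simp only [Pool.Agent.Helper86.CX.VR.mk.injEq]
  exact ⟨h1, h2, h3, h4, h5, h6, h7, h8, h9⟩

theorem vr_3_1 : Pool.Agent.Helper86.CX.V3_1 = vrec 844424930131968 (1688849860263936) 3377699720527872 5066549580791808 :=
  VR_ext (by decide +kernel) (by decide +kernel) (by decide +kernel) (by decide +kernel) (by decide +kernel) (by decide +kernel) (by decide +kernel) (by decide +kernel) (by decide +kernel)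

theorem vr_3_2 : Pool.Agent.Helper86.CX.V3_2 = vrec 281474976710656 (-562949953421312) 1125899906842624 1688849860263936 :=
  VR_ext (by decide +kernel) (by decide +kernel) (by decide +kernel) (by decide +kernel) (by decide +kernel) (by decide +kernel) (by decide +kernel) (by decide +kernel) (by decide +kernel)

theorem vr_4_1 : Pool.Agent.Helper86.CX.V4_1 = vrec 679540706243517 (1359081412487034) 1922031365908346 1359081412487034 :=
  VR_ext (by decide +kernel) (by decide +kernel) (by decide +kernel) (by decide +kernel) (by decide +kernel) (by decide +kernel) (by decide +kernel) (by decide +kernel) (by decide +kernel)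

theorem vr_4_2 : Pool.Agent.Helper86.CX.V4_2 = vrec 281474976710656 (0) 562949953421312 562949953421312 :=
  VR_ext (by decide +kernel) (by decide +kernel) (by decide +kernel) (by decide +kernel) (by decide +kernel) (by decide +kernel) (by decide +kernel) (by decide +kernel) (by decide +kernel)

theorem vr_4_3 : Pool.Agent.Helper86.CX.V4_3 = vrec 116590752822205 (-233181505644410) 329768447776902 233181505644410 :=
  VR_ext (by decide +kernel) (by decide +kernel) (by decide +kernel) (by decide +kernel) (by decide +kernel) (by decide +kernel) (by decide +kernel) (by decide +kernel) (by decide +kernel)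

theorem vr_5_1 : Pool.Agent.Helper86.CX.V5_1 = vrec 629397181890197 (1258794363780394) 1555955403326166 664472284688850 :=
  VR_ext (by decide +kernel) (by decide +kernel) (by decide +kernel) (by decide +kernel) (by decide +kernel) (by decide +kernel) (by decide +kernel) (by decide +kernel) (by decide +kernel)

theorem vr_5_2 : Pool.Agent.Helper86.CX.V5_2 = vrec 281474976710656 (132894456937770) 430055496483542 297161039545772 :=
  VR_ext (by decide +kernel) (by decide +kernel) (by decide +kernel) (by decide +kernel) (by decide +kernel) (by decide +kernel) (by decide +kernel) (by decide +kernel) (by decide +kernel)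

theorem vr_5_3 : Pool.Agent.Helper86.CX.V5_3 = vrec 148580519772886 (-70150205597305) 227010833948467 156860628351161 :=
  VR_ext (by decide +kernel) (by decide +kernel) (by decide +kernel) (by decide +kernel) (by decide +kernel) (by decide +kernel) (by decide +kernel) (by decide +kernel) (by decide +kernel)

theorem vr_5_4 : Pool.Agent.Helper86.CX.V5_4 = vrec 66447228468885 (-132894456937770) 164266582608002 70150205597305 :=
  VR_ext (by decide +kernel) (by decide +kernel) (by decide +kernel) (by decide +kernel) (by decide +kernel) (by decide +kernel) (by decide +kernel) (by decide +kernel) (by decide +kernel)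

theorem vr_6_1 : Pool.Agent.Helper86.CX.V6_1 = vrec 606494283858738 (1212988567717476) 1400638552191246 404329522572492 :=
  VR_ext (by decide +kernel) (by decide +kernel) (by decide +kernel) (by decide +kernel) (by decide +kernel) (by decide +kernel) (by decide +kernel) (by decide +kernel) (by decide +kernel)

theorem vr_6_2 : Pool.Agent.Helper86.CX.V6_2 = vrec 281474976710656 (187649984473771) 375299968947541 187649984473771 :=
  VR_ext (by decide +kernel) (by decide +kernel) (by decide +kernel) (by decide +kernel) (by decide +kernel) (by decide +kernel) (by decide +kernel) (by decide +kernel) (by decide +kernel)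

theorem vr_6_3 : Pool.Agent.Helper86.CX.V6_3 = vrec 162509653574041 (0) 187649984473771 108339769049361 :=
  VR_ext (by decide +kernel) (by decide +kernel) (by decide +kernel) (by decide +kernel) (by decide +kernel) (by decide +kernel) (by decide +kernel) (by decide +kernel) (by decide +kernel)

theorem vr_6_4 : Pool.Agent.Helper86.CX.V6_4 = vrec 93824992236885 (-62549994824590) 125099989649180 62549994824590 :=
  VR_ext (by decide +kernel) (by decide +kernel) (by decide +kernel) (by decide +kernel) (by decide +kernel) (by decide +kernel) (by decide +kernel) (by decide +kernel) (by decide +kernel)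

theorem vr_6_5 : Pool.Agent.Helper86.CX.V6_5 = vrec 43544330437426 (-87088660874852) 100561323598919 29029553624951 :=
  VR_ext (by decide +kernel) (by decide +kernel) (by decide +kernel) (by decide +kernel) (by decide +kernel) (by decide +kernel) (by decide +kernel) (by decide +kernel) (by decide +kernel)

theorem vr_7_1 : Pool.Agent.Helper86.CX.V7_1 = vrec 593888631320020 (1187777262640040) 1318333302021135 275462310876410 :=
  VR_ext (by decide +kernel) (by decide +kernel) (by decide +kernel) (by decide +kernel) (by decide +kernel) (by decide +kernel) (by decide +kernel) (by decide +kernel) (by decide +kernel)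

theorem vr_7_2 : Pool.Agent.Helper86.CX.V7_2 = vrec 281474976710656 (216196957020109) 346752996401203 130556039381095 :=
  VR_ext (by decide +kernel) (by decide +kernel) (by decide +kernel) (by decide +kernel) (by decide +kernel) (by decide +kernel) (by decide +kernel) (by decide +kernel) (by decide +kernel)

theorem vr_7_3 : Pool.Agent.Helper86.CX.V7_3 = vrec 169975834307470 (37366217414124) 167922256795219 78839589852750 :=
  VR_ext (by decide +kernel) (by decide +kernel) (by decide +kernel) (by decide +kernel) (by decide +kernel) (by decide +kernel) (by decide +kernel) (by decide +kernel) (by decide +kernel)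

theorem vr_7_4 : Pool.Agent.Helper86.CX.V7_4 = vrec 108098478510054 (-23763561841598) 106792477539497 50139125624309 :=
  VR_ext (by decide +kernel) (by decide +kernel) (by decide +kernel) (by decide +kernel) (by decide +kernel) (by decide +kernel) (by decide +kernel) (by decide +kernel) (by decide +kernel)

theorem vr_7_5 : Pool.Agent.Helper86.CX.V7_5 = vrec 65278019690547 (-50139125624309) 80416913756786 30277788132477 :=
  VR_ext (by decide +kernel) (by decide +kernel) (by decide +kernel) (by decide +kernel) (by decide +kernel) (by decide +kernel) (by decide +kernel) (by decide +kernel) (by decide +kernel)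

theorem vr_7_6 : Pool.Agent.Helper86.CX.V7_6 = vrec 30938677898708 (-61877355797416) 68678683583679 14350232114221 :=
  VR_ext (by decide +kernel) (by decide +kernel) (by decide +kernel) (by decide +kernel) (by decide +kernel) (by decide +kernel) (by decide +kernel) (by decide +kernel) (by decide +kernel)

theorem vr_8_1 : Pool.Agent.Helper86.CX.V8_1 = vrec 586141296079753 (1172282592159507) 1268869534291999 201131894946796 :=
  VR_ext (by decide +kernel) (by decide +kernel) (by decide +kernel) (by decide +kernel) (by decide +kernel) (by decide +kernel) (by decide +kernel) (by decide +kernel) (by decide +kernel)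

theorem vr_8_2 : Pool.Agent.Helper86.CX.V8_2 = vrec 281474976710656 (233181505644410) 329768447776902 96586942132493 :=
  VR_ext (by decide +kernel) (by decide +kernel) (by decide +kernel) (by decide +kernel) (by decide +kernel) (by decide +kernel) (by decide +kernel) (by decide +kernel) (by decide +kernel)

theorem vr_8_3 : Pool.Agent.Helper86.CX.V8_3 = vrec 174490392547219 (59875636706985) 156462578839478 59875636706985 :=
  VR_ext (by decide +kernel) (by decide +kernel) (by decide +kernel) (by decide +kernel) (by decide +kernel) (by decide +kernel) (by decide +kernel) (by decide +kernel) (by decide +kernel)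

theorem vr_8_4 : Pool.Agent.Helper86.CX.V8_4 = vrec 116590752822205 (0) 96586942132493 40007621379424 :=
  VR_ext (by decide +kernel) (by decide +kernel) (by decide +kernel) (by decide +kernel) (by decide +kernel) (by decide +kernel) (by decide +kernel) (by decide +kernel) (by decide +kernel)

theorem vr_8_5 : Pool.Agent.Helper86.CX.V8_5 = vrec 77903450414726 (-26732237959694) 69854704172798 26732237959694 :=
  VR_ext (by decide +kernel) (by decide +kernel) (by decide +kernel) (by decide +kernel) (by decide +kernel) (by decide +kernel) (by decide +kernel) (by decide +kernel) (by decide +kernel)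

theorem vr_8_6 : Pool.Agent.Helper86.CX.V8_6 = vrec 48293471066246 (-40007621379424) 56579320753069 16571699373645 :=
  VR_ext (by decide +kernel) (by decide +kernel) (by decide +kernel) (by decide +kernel) (by decide +kernel) (by decide +kernel) (by decide +kernel) (by decide +kernel) (by decide +kernel)

theorem vr_8_7 : Pool.Agent.Helper86.CX.V8_7 = vrec 23191342658441 (-46382685316883) 50204256815610 7958010681810 :=
  VR_ext (by decide +kernel) (by decide +kernel) (by decide +kernel) (by decide +kernel) (by decide +kernel) (by decide +kernel) (by decide +kernel) (by decide +kernel) (by decide +kernel)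

theorem vr_9_1 : Pool.Agent.Helper86.CX.V9_1 = vrec 581014390434311 (1162028780868622) 1236605199577670 153938985850074 :=
  VR_ext (by decide +kernel) (by decide +kernel) (by decide +kernel) (by decide +kernel) (by decide +kernel) (by decide +kernel) (by decide +kernel) (by decide +kernel) (by decide +kernel)

theorem vr_9_2 : Pool.Agent.Helper86.CX.V9_2 = vrec 281474976710656 (244186767356132) 318763186065180 74576418709048 :=
  VR_ext (by decide +kernel) (by decide +kernel) (by decide +kernel) (by decide +kernel) (by decide +kernel) (by decide +kernel) (by decide +kernel) (by decide +kernel) (by decide +kernel)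

theorem vr_9_3 : Pool.Agent.Helper86.CX.V9_3 = vrec 177446030045589 (74576418709048) 149152837418096 47014088391031 :=
  VR_ext (by decide +kernel) (by decide +kernel) (by decide +kernel) (by decide +kernel) (by decide +kernel) (by decide +kernel) (by decide +kernel) (by decide +kernel) (by decide +kernel)

theorem vr_9_4 : Pool.Agent.Helper86.CX.V9_4 = vrec 122093383678066 (15671362797010) 90247781506058 32348478749995 :=
  VR_ext (by decide +kernel) (by decide +kernel) (by decide +kernel) (by decide +kernel) (by decide +kernel) (by decide +kernel) (by decide +kernel) (by decide +kernel) (by decide +kernel)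

theorem vr_9_5 : Pool.Agent.Helper86.CX.V9_5 = vrec 85964509652068 (-11034021482908) 63542397226141 22776181886039 :=
  VR_ext (by decide +kernel) (by decide +kernel) (by decide +kernel) (by decide +kernel) (by decide +kernel) (by decide +kernel) (by decide +kernel) (by decide +kernel) (by decide +kernel)

theorem vr_9_6 : Pool.Agent.Helper86.CX.V9_6 = vrec 59148676681863 (-24858806236349) 49717612472699 15671362797010 :=
  VR_ext (by decide +kernel) (by decide +kernel) (by decide +kernel) (by decide +kernel) (by decide +kernel) (by decide +kernel) (by decide +kernel) (by decide +kernel) (by decide +kernel)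

theorem vr_9_7 : Pool.Agent.Helper86.CX.V9_7 = vrec 37288209354524 (-32348478749995) 42227939959053 9879461209059 :=
  VR_ext (by decide +kernel) (by decide +kernel) (by decide +kernel) (by decide +kernel) (by decide +kernel) (by decide +kernel) (by decide +kernel) (by decide +kernel) (by decide +kernel)

theorem vr_9_8 : Pool.Agent.Helper86.CX.V9_8 = vrec 18064437012999 (-36128874025998) 38447544683050 4786148431978 :=
  VR_ext (by decide +kernel) (by decide +kernel) (by decide +kernel) (by decide +kernel) (by decide +kernel) (by decide +kernel) (by decide +kernel) (by decide +kernel) (by decide +kernel)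

/-- the constants -/
def VV : ℕ → ℕ → Pool.Agent.Helper86.CX.VR
  | 3, 1 => Pool.Agent.Helper86.CX.V3_1
  | 3, 2 => Pool.Agent.Helper86.CX.V3_2
  | 4, 1 => Pool.Agent.Helper86.CX.V4_1
  | 4, 2 => Pool.Agent.Helper86.CX.V4_2
  | 4, 3 => Pool.Agent.Helper86.CX.V4_3
  | 5, 1 => Pool.Agent.Helper86.CX.V5_1
  | 5, 2 => Pool.Agent.Helper86.CX.V5_2
  | 5, 3 => Pool.Agent.Helper86.CX.V5_3
  | 5, 4 => Pool.Agent.Helper86.CX.V5_4
  | 6, 1 => Pool.Agent.Helper86.CX.V6_1
  | 6, 2 => Pool.Agent.Helper86.CX.V6_2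
  | 6, 3 => Pool.Agent.Helper86.CX.V6_3
  | 6, 4 => Pool.Agent.Helper86.CX.V6_4
  | 6, 5 => Pool.Agent.Helper86.CX.V6_5
  | 7, 1 => Pool.Agent.Helper86.CX.V7_1
  | 7, 2 => Pool.Agent.Helper86.CX.V7_2
  | 7, 3 => Pool.Agent.Helper86.CX.V7_3
  | 7, 4 => Pool.Agent.Helper86.CX.V7_4
  | 7, 5 => Pool.Agent.Helper86.CX.V7_5
  | 7, 6 => Pool.Agent.Helper86.CX.V7_6
  | 8, 1 => Pool.Agent.Helper86.CX.V8_1
  | 8, 2 => Pool.Agent.Helper86.CX.V8_2
  | 8, 3 => Pool.Agent.Helper86.CX.V8_3
  | 8, 4 => Pool.Agent.Helper86.CX.V8_4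
  | 8, 5 => Pool.Agent.Helper86.CX.V8_5
  | 8, 6 => Pool.Agent.Helper86.CX.V8_6
  | 8, 7 => Pool.Agent.Helper86.CX.V8_7
  | 9, 1 => Pool.Agent.Helper86.CX.V9_1
  | 9, 2 => Pool.Agent.Helper86.CX.V9_2
  | 9, 3 => Pool.Agent.Helper86.CX.V9_3
  | 9, 4 => Pool.Agent.Helper86.CX.V9_4
  | 9, 5 => Pool.Agent.Helper86.CX.V9_5
  | 9, 6 => Pool.Agent.Helper86.CX.V9_6
  | 9, 7 => Pool.Agent.Helper86.CX.V9_7
  | 9, 8 => Pool.Agent.Helper86.CX.V9_8
  | _, _ => vrec 0 0 0 0

/-- ROW KVR -/
theorem vv_ok (M j : ℕ) (h3 : 3 ≤ M) (h9 : M ≤ 9) (hj : 1 ≤ j) (hjM : j < M) :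
    ∃ R A W T : ℤ, VV M j = vrec R A W T ∧ VRin M j R A W T ∧
      |R| < 2 ^ 53 ∧ |A| < 2 ^ 53 ∧ |W| < 2 ^ 53 ∧ |T| < 2 ^ 53 := by
  interval_cases M <;> interval_cases j
  · exact ⟨_, _, _, _, vr_3_1, vrin_3_1, by norm_num, by norm_num, by norm_num, by norm_num⟩
  · exact ⟨_, _, _, _, vr_3_2, vrin_3_2, by norm_num, by norm_num, by norm_num, by norm_num⟩
  · exact ⟨_, _, _, _, vr_4_1, vrin_4_1, by norm_num, by norm_num, by norm_num, by norm_num⟩
  · exact ⟨_, _, _, _, vr_4_2, vrin_4_2, by norm_num, by norm_num, by norm_num, by norm_num⟩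
  · exact ⟨_, _, _, _, vr_4_3, vrin_4_3, by norm_num, by norm_num, by norm_num, by norm_num⟩
  · exact ⟨_, _, _, _, vr_5_1, vrin_5_1, by norm_num, by norm_num, by norm_num, by norm_num⟩
  · exact ⟨_, _, _, _, vr_5_2, vrin_5_2, by norm_num, by norm_num, by norm_num, by norm_num⟩
  · exact ⟨_, _, _, _, vr_5_3, vrin_5_3, by norm_num, by norm_num, by norm_num, by norm_num⟩
  · exact ⟨_, _, _, _, vr_5_4, vrin_5_4, by norm_num, by norm_num, by norm_num, by norm_num⟩
  · exact ⟨_, _, _, _, vr_6_1, vrin_6_1, by norm_num, by norm_num, by norm_num, by norm_num⟩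
  · exact ⟨_, _, _, _, vr_6_2, vrin_6_2, by norm_num, by norm_num, by norm_num, by norm_num⟩
  · exact ⟨_, _, _, _, vr_6_3, vrin_6_3, by norm_num, by norm_num, by norm_num, by norm_num⟩
  · exact ⟨_, _, _, _, vr_6_4, vrin_6_4, by norm_num, by norm_num, by norm_num, by norm_num⟩
  · exact ⟨_, _, _, _, vr_6_5, vrin_6_5, by norm_num, by norm_num, by norm_num, by norm_num⟩
  · exact ⟨_, _, _, _, vr_7_1, vrin_7_1, by norm_num, by norm_num, by norm_num, by norm_num⟩
  · exact ⟨_, _, _, _, vr_7_2, vrin_7_2, by norm_num, by norm_num, by norm_num, by norm_num⟩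
  · exact ⟨_, _, _, _, vr_7_3, vrin_7_3, by norm_num, by norm_num, by norm_num, by norm_num⟩
  · exact ⟨_, _, _, _, vr_7_4, vrin_7_4, by norm_num, by norm_num, by norm_num, by norm_num⟩
  · exact ⟨_, _, _, _, vr_7_5, vrin_7_5, by norm_num, by norm_num, by norm_num, by norm_num⟩
  · exact ⟨_, _, _, _, vr_7_6, vrin_7_6, by norm_num, by norm_num, by norm_num, by norm_num⟩
  · exact ⟨_, _, _, _, vr_8_1, vrin_8_1, by norm_num, by norm_num, by norm_num, by norm_num⟩
  · exact ⟨_, _, _, _, vr_8_2, vrin_8_2, by norm_num, by norm_num, by norm_num, by norm_num⟩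
  · exact ⟨_, _, _, _, vr_8_3, vrin_8_3, by norm_num, by norm_num, by norm_num, by norm_num⟩
  · exact ⟨_, _, _, _, vr_8_4, vrin_8_4, by norm_num, by norm_num, by norm_num, by norm_num⟩
  · exact ⟨_, _, _, _, vr_8_5, vrin_8_5, by norm_num, by norm_num, by norm_num, by norm_num⟩
  · exact ⟨_, _, _, _, vr_8_6, vrin_8_6, by norm_num, by norm_num, by norm_num, by norm_num⟩
  · exact ⟨_, _, _, _, vr_8_7, vrin_8_7, by norm_num, by norm_num, by norm_num, by norm_num⟩
  · exact ⟨_, _, _, _, vr_9_1, vrin_9_1, by norm_num, by norm_num, by norm_num, by norm_num⟩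
  · exact ⟨_, _, _, _, vr_9_2, vrin_9_2, by norm_num, by norm_num, by norm_num, by norm_num⟩
  · exact ⟨_, _, _, _, vr_9_3, vrin_9_3, by norm_num, by norm_num, by norm_num, by norm_num⟩
  · exact ⟨_, _, _, _, vr_9_4, vrin_9_4, by norm_num, by norm_num, by norm_num, by norm_num⟩
  · exact ⟨_, _, _, _, vr_9_5, vrin_9_5, by norm_num, by norm_num, by norm_num, by norm_num⟩
  · exact ⟨_, _, _, _, vr_9_6, vrin_9_6, by norm_num, by norm_num, by norm_num, by norm_num⟩
  · exact ⟨_, _, _, _, vr_9_7, vrin_9_7, by norm_num, by norm_num, by norm_num, by norm_num⟩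
  · exact ⟨_, _, _, _, vr_9_8, vrin_9_8, by norm_num, by norm_num, by norm_num, by norm_num⟩

end Pool.Agent.Helper6.MONO
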