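import Pool.Agent.Helper12.CX.XTH

/-!
Nested list polynomials: evaluation and coefficientwise positivity. The innermost variable is
packed in one integer (base `2 ^ 1024`).
-/

set_option autoImplicit false
noncomputable section
namespace Pool.Agent.Helper6.MONO.XTH

/-- operations -/
structure LR (α : Type) where
  zero : α
  add : α → α → α
  mul : α → α → α
  nn : α → Bool

/-- addition of lists -/
def ladd {α : Type} (R : LR α) : List α → List α → List α
  | [], B => B
  | a :: A, B => match B with
    | [] => a :: A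
    | b :: B' => R.add a b :: ladd R A B'

/-- multiplication by a coefficient -/
def lsm {α : Type} (R : LR α) (a : α) : List α → List α
  | [] => []
  | b :: B => R.mul a b :: lsm R a B

/-- multiplication -/
def lmul {α : Type} (R : LR α) : List α → List α → List α
  | [], _ => []
  | a :: A, B => ladd R (lsm R a B) (R.zero :: lmul R A B)

def lall {α : Type} (R : LR α) : List α → Bool
  | [] => true
  | a :: A => R.nn a && lall R A

/-- the next level -/
def LR.up {α : Type} (R : LR α) : LR (List α) := ⟨[], ladd R, lmul R, lall R⟩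

/-- evaluation, as a relation -/
def PRel {α : Type} (Rel : α → ℝ → Prop) (x : ℝ) : List α → ℝ → Prop
  | [], v => v = 0
  | a :: A, v => ∃ u w : ℝ, Rel a u ∧ PRel Rel x A w ∧ v = u + x * w

structure LR.Ok {α : Type} (R : LR α) (Rel : α → ℝ → Prop) : Prop where
  zero : Rel R.zero 0
  add : ∀ a b u v, Rel a u → Rel b v → Rel (R.add a b) (u + v)
  mul : ∀ a b u v, Rel a u → Rel b v → Rel (R.mul a b) (u * v)
  nn : ∀ a u, Rel a u → R.nn a = true → 0 ≤ u

theorem prel_add {α : Type} {R : LR α} {Rel : α → ℝ → Prop} (h : R.Ok Rel) (x : ℝ)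
    (A B : List α) (u v : ℝ) (hA : PRel Rel x A u) (hB : PRel Rel x B v) :
    PRel Rel x (ladd R A B) (u + v) := by
  induction A generalizing B u v with
  | nil =>
    simp only [PRel] at hA
    simpa [ladd, hA] using hB
  | cons a A ih =>
    cases B with
    | nil =>
      simp only [PRel] at hB
      simpa [ladd, hB] using hA
    | cons b B =>
      obtain ⟨u1, w1, h1, h2, rfl⟩ := hA
      obtain ⟨u2, w2, h3, h4, rfl⟩ := hB
      exact ⟨u1 + u2, w1 + w2, h.add _ _ _ _ h1 h3, ih B w1 w2 h2 h4, by ring⟩

theorem prel_sm {α : Type} {R : LR α} {Rel : α → ℝ → Prop} (h : R.Ok Rel) (x : ℝ)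
    (a : α) (B : List α) (u v : ℝ) (ha : Rel a u) (hB : PRel Rel x B v) :
    PRel Rel x (lsm R a B) (u * v) := by
  induction B generalizing v with
  | nil =>
    simp only [PRel] at hB
    simp [lsm, PRel, hB]
  | cons b B ih =>
    obtain ⟨u2, w2, h3, h4, rfl⟩ := hB
    exact ⟨u * u2, u * w2, h.mul _ _ _ _ ha h3, ih w2 h4, by ring⟩

theorem prel_mul {α : Type} {R : LR α} {Rel : α → ℝ → Prop} (h : R.Ok Rel) (x : ℝ)
    (A B : List α) (u v : ℝ) (hA : PRel Rel x A u) (hB : PRel Rel x B v) :
    PRel Rel x (lmul R A B) (u * v) := by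
  induction A generalizing u with
  | nil =>
    simp only [PRel] at hA
    simp [lmul, PRel, hA]
  | cons a A ih =>
    obtain ⟨u1, w1, h1, h2, rfl⟩ := hA
    have e : (u1 + x * w1) * v = u1 * v + (0 + x * (w1 * v)) := by ring
    rw [e]
    exact prel_add h x _ _ _ _ (prel_sm h x a B u1 v h1 hB) ⟨0, w1 * v, h.zero, ih w1 h2, rfl⟩

theorem prel_nn {α : Type} {R : LR α} {Rel : α → ℝ → Prop} (h : R.Ok Rel) {x : ℝ}
    (hx : 0 ≤ x) (A : List α) (u : ℝ) (hA : PRel Rel x A u) (hn : lall R A = true) : 0 ≤ u := by
  induction A generalizing u with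
  | nil =>
    simp only [PRel] at hA
    exact hA.ge
  | cons a A ih =>
    obtain ⟨u1, w1, h1, h2, rfl⟩ := hA
    simp only [lall, Bool.and_eq_true] at hn
    have k1 := h.nn a u1 h1 hn.1
    have k2 := ih w1 h2 hn.2
    positivity

theorem LR.Ok.up {α : Type} {R : LR α} {Rel : α → ℝ → Prop} (h : R.Ok Rel) {x : ℝ}
    (hx : 0 ≤ x) : R.up.Ok (PRel Rel x) :=
  ⟨rfl, prel_add h x, prel_mul h x, fun A u hA hn => prel_nn h hx A u hA hn⟩

/-! ### the packed bottom level -/

/-- the base -/
def WW : ℤ := 2 ^ 1024

/-- digits of `N` in the base `W` are less than `W / 2` -/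
def dig (W : ℤ) : ℕ → ℤ → Bool
  | 0, N => decide (N = 0)
  | n + 1, N => decide (2 * (N % W) < W) && dig W n (N / W)

/-- value of a list in base `W` -/
def lval (W : ℤ) : List ℤ → ℤ
  | [] => 0
  | c :: L => c + W * lval W L

/-- evaluation of a list at `z` -/
def lev (z : ℝ) : List ℤ → ℝ
  | [] => 0
  | c :: L => c + z * lev z L

/-- sum of absolute values -/
def lone : List ℤ → ℕ
  | [] => 0
  | c :: L => c.natAbs + lone L

def lcadd : List ℤ → List ℤ → List ℤ
  | [], B => B
  | a :: A, B => match B with
    | [] => a :: A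
    | b :: B' => (a + b) :: lcadd A B'

def lcmul : List ℤ → List ℤ → List ℤ
  | [], _ => []
  | a :: A, B => lcadd (B.map (fun b => a * b)) (0 :: lcmul A B)

theorem lcadd_val (W : ℤ) (A B : List ℤ) :
    lval W (lcadd A B) = lval W A + lval W B := by
  induction A generalizing B with
  | nil => simp [lcadd, lval]
  | cons a A ih =>
    cases B with
    | nil => simp [lcadd, lval]
    | cons b B =>
      simp only [lcadd, lval, ih]
      ring

theorem lcadd_ev (z : ℝ) (A B : List ℤ) : lev z (lcadd A B) = lev z A + lev z B := by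
  induction A generalizing B with
  | nil => simp [lcadd, lev]
  | cons a A ih =>
    cases B with
    | nil => simp [lcadd, lev]
    | cons b B =>
      simp only [lcadd, lev, ih]
      push_cast
      ring

theorem lcadd_one (A B : List ℤ) : lone (lcadd A B) ≤ lone A + lone B := by
  induction A generalizing B with
  | nil => simp [lcadd, lone]
  | cons a A ih =>
    cases B with
    | nil => simp [lcadd, lone]
    | cons b B =>
      simp only [lcadd, lone]
      have h1 := ih B
      have h2 := Int.natAbs_add_le a b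
      omega

theorem lsm_val (W a : ℤ) (B : List ℤ) :
    lval W (B.map (fun b => a * b)) = a * lval W B := by
  induction B with
  | nil => simp [lval]
  | cons b B ih =>
    simp only [List.map_cons, lval, ih]
    ring

theorem lsm_ev (z : ℝ) (a : ℤ) (B : List ℤ) : lev z (B.map (fun b => a * b)) = a * lev z B := by
  induction B with
  | nil => simp [lev]
  | cons b B ih =>
    simp only [List.map_cons, lev, ih]
    push_cast
    ring

theorem lsm_one (a : ℤ) (B : List ℤ) : lone (B.map (fun b => a * b)) = a.natAbs * lone B := by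
  induction B with
  | nil => simp [lone]
  | cons b B ih =>
    simp only [List.map_cons, lone, ih, Int.natAbs_mul]
    ring

theorem lcmul_val (W : ℤ) (A B : List ℤ) :
    lval W (lcmul A B) = lval W A * lval W B := by
  induction A with
  | nil => simp [lcmul, lval]
  | cons a A ih =>
    simp only [lcmul, lcadd_val, lsm_val, lval, ih]
    ring

theorem lcmul_ev (z : ℝ) (A B : List ℤ) : lev z (lcmul A B) = lev z A * lev z B := by
  induction A with
  | nil => simp [lcmul, lev]
  | cons a A ih =>
    simp only [lcmul, lcadd_ev, lsm_ev, lev, ih]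
    push_cast
    ring

theorem lcmul_one (A B : List ℤ) : lone (lcmul A B) ≤ lone A * lone B := by
  induction A with
  | nil => simp [lcmul, lone]
  | cons a A ih =>
    simp only [lcmul]
    refine (lcadd_one _ _).trans ?_
    rw [lsm_one]
    simp only [lone, Int.natAbs_zero, zero_add]
    nlinarith [ih]

theorem lone_mem {L : List ℤ} {c : ℤ} (h : c ∈ L) : c.natAbs ≤ lone L := by
  induction L with
  | nil => simp at h
  | cons b L ih =>
    simp only [lone]
    rcases List.mem_cons.1 h with rfl | h
    · omega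
    · have := ih h
      omega

theorem dig_sound (W : ℤ) (hWpos : 0 < W) (n : ℕ) (L : List ℤ) (N : ℤ) (hN : lval W L = N)
    (hb : ∀ c ∈ L, 2 * |c| < W) (hd : dig W n N = true) : ∀ c ∈ L, 0 ≤ c := by
  induction L generalizing n N with
  | nil => simp
  | cons c L ih =>
    have hc := hb c (List.mem_cons_self ..)
    simp only [lval] at hN
    have h1 := abs_lt.1 (show |c| < W by
      have := abs_nonneg c
      linarith)
    cases n with
    | zero =>
      have h0 : N = 0 := of_decide_eq_true hd
      rw [h0] at hN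
      have hdiv : W ∣ c := ⟨-lval W L, by linarith⟩
      have hc0 : c = 0 := Int.eq_zero_of_abs_lt_dvd hdiv (by
        have := abs_nonneg c
        linarith)
      rw [hc0, zero_add] at hN
      have hL : lval W L = 0 := by
        rcases mul_eq_zero.1 hN with h | h
        · exact absurd h hWpos.ne'
        · exact h
      intro d hdm
      rcases List.mem_cons.1 hdm with rfl | hdm
      · exact hc0.ge
      · exact ih 0 0 hL (fun d hd => hb d (List.mem_cons_of_mem _ hd)) (by simp [dig]) d hdm
    | succ n =>
      simp only [dig, Bool.and_eq_true, decide_eq_true_eq] at hd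
      obtain ⟨hd1, hd2⟩ := hd
      have hmod : N % W = c % W := by
        rw [← hN, Int.add_mul_emod_self_left]
      have hc0 : 0 ≤ c := by
        by_contra hneg
        push Not at hneg
        have : c % W = c + W := by
          rw [← Int.add_emod_right, Int.emod_eq_of_lt (by linarith) (by linarith)]
        rw [hmod, this] at hd1
        have h2 : |c| = -c := abs_of_neg hneg
        rw [h2] at hc
        linarith
      have hdiv : N / W = lval W L := by
        rw [← hN, Int.add_mul_ediv_left _ _ hWpos.ne', Int.ediv_eq_zero_of_lt hc0 h1.2,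
          zero_add]
      intro d hdm
      rcases List.mem_cons.1 hdm with rfl | hdm
      · exact hc0
      · exact ih n (N / W) hdiv.symm (fun d hd => hb d (List.mem_cons_of_mem _ hd)) hd2
          d hdm

theorem lev_nonneg {z : ℝ} (hz : 0 ≤ z) (L : List ℤ) (h : ∀ c ∈ L, 0 ≤ c) : 0 ≤ lev z L := by
  induction L with
  | nil => simp [lev]
  | cons c L ih =>
    have h1 : (0 : ℝ) ≤ c := by exact_mod_cast h c (List.mem_cons_self ..)
    have h2 := ih (fun d hd => h d (List.mem_cons_of_mem _ hd))
    simp only [lev]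
    positivity

theorem WW_pos : 0 < WW := by
  unfold WW
  positivity

/-- packed polynomial in one variable: value at the base, bound of the sum of coefficients -/
def LZ : LR (ℤ × ℕ) := ⟨(0, 0), fun a b => (a.1 + b.1, a.2 + b.2),
  fun a b => (a.1 * b.1, a.2 * b.2), fun a => decide (2 * (a.2 : ℤ) < WW) && dig WW 11 a.1⟩

def ZRel (z : ℝ) (a : ℤ × ℕ) (v : ℝ) : Prop :=
  ∃ L : List ℤ, lval WW L = a.1 ∧ lone L ≤ a.2 ∧ lev z L = v

theorem LZ_ok {z : ℝ} (hz : 0 ≤ z) : LZ.Ok (ZRel z) := by
  refine ⟨⟨[], rfl, le_rfl, rfl⟩, ?_, ?_, ?_⟩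
  · rintro a b u v ⟨L, h1, h2, h3⟩ ⟨M, k1, k2, k3⟩
    refine ⟨lcadd L M, ?_, ?_, ?_⟩
    · rw [lcadd_val, h1, k1]
      rfl
    · exact (lcadd_one L M).trans (add_le_add h2 k2)
    · rw [lcadd_ev, h3, k3]
  · rintro a b u v ⟨L, h1, h2, h3⟩ ⟨M, k1, k2, k3⟩
    refine ⟨lcmul L M, ?_, ?_, ?_⟩
    · rw [lcmul_val, h1, k1]
      rfl
    · exact (lcmul_one L M).trans (Nat.mul_le_mul h2 k2)
    · rw [lcmul_ev, h3, k3]
  · rintro a u ⟨L, h1, h2, rfl⟩ hn
    simp only [LZ, Bool.and_eq_true, decide_eq_true_eq] at hn
    refine lev_nonneg hz L (dig_sound WW WW_pos 11 L a.1 h1 (fun c hc => ?_) hn.2)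
    have h3 := (lone_mem hc).trans h2
    have h5 : |c| = (c.natAbs : ℤ) := Int.abs_eq_natAbs c
    rw [h5]
    have h6 : (c.natAbs : ℤ) ≤ (a.2 : ℤ) := by exact_mod_cast h3
    linarith [hn.1]

end Pool.Agent.Helper6.MONO.XTH
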