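import Pool.Agent.Helper12.CX.TOP
import Pool.Agent.Helper6.CX.CTH
import Pool.Agent.Helper6.CX.CLI

/-!
The quarter of the critical line by the parameter `y = Im x`, `x = z + 1/z`; cells.
-/

set_option autoImplicit false
noncomputable section
namespace Pool.Agent.Helper6.MONO.QTR

open Complex
open Pool.Agent.Helper6.MONO
open Pool.Agent.Helper21.SUP (GS DG SSt Ty std Modes srl)
open Pool.Agent.Helper21.MIRI

/-- `x = z + 1/z` at the point `w` -/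
def xw (w : ℂ) : ℂ := wz w + (wz w)⁻¹

/-- the points of the quarter, without `w = 1` -/
structure Qt (x0 : ℝ) (w : ℂ) : Prop where
  frt : w ∈ Frt x0
  im : 0 ≤ w.im
  re : 0 ≤ w.re
  ne : w ≠ 1

/-- everything about such a point -/
structure QtZ (x0 : ℝ) (w z x : ℂ) : Prop where
  z_eq : z = wz w
  x_eq : z + z⁻¹ = x
  z0 : z ≠ 0
  re : x.re = x0
  im : 0 ≤ x.im
  one : 1 ≤ ‖z‖
  zim : 0 ≤ z.im
  uim : (z⁻¹).im ≤ 0
  d : 2 ≤ (4 + x.im) * ‖1 - w‖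

theorem wz_norm_im {w : ℂ} (hi : 0 ≤ w.im) (hr : 0 ≤ w.re) (h1 : 1 - w ≠ 0) :
    1 ≤ ‖wz w‖ ∧ 0 ≤ (wz w).im := by
  constructor
  · rw [wz, norm_div, le_div_iff₀ (norm_pos_iff.2 h1), one_mul]
    rw [← sq_le_sq₀ (norm_nonneg _) (norm_nonneg _), ← normSq_eq_norm_sq, ← normSq_eq_norm_sq,
      normSq_apply, normSq_apply]
    simp
    nlinarith
  · have e : (wz w).im = 2 * w.im / normSq (1 - w) := by
      rw [wz, div_im]
      have h : normSq (1 - w) ≠ 0 := fun h => h1 (normSq_eq_zero.1 h)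
      field_simp
      simp
      ring
    rw [e]
    exact div_nonneg (by linarith) (normSq_nonneg _)

theorem Qt.z {x0 : ℝ} (hx : -2 < x0) (hx2 : x0 ≤ 2) {w : ℂ} (h : Qt x0 w) :
    QtZ x0 w (wz w) (xw w) := by
  have h1 : 1 - w ≠ 0 := fun h' => h.ne (by linear_combination -h')
  have h2 : 1 + w ≠ 0 := by
    intro h'
    have := congrArg Complex.re h'
    simp at this
    linarith [h.re]
  obtain ⟨a1, a2⟩ := wz_norm_im h.im h.re h1
  have z0 : wz w ≠ 0 := div_ne_zero h2 h1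
  have hre : (xw w).re = x0 := by
    have h3 := omg_re hx h1 h2
    have h4 : ‖((x0 + 2 : ℝ) : ℂ) * w ^ 2 - (x0 : ℂ)‖ = 2 := h.frt
    rw [h4] at h3
    have : (wz w + (wz w)⁻¹).re - x0 = 0 := by
      rw [h3]
      norm_num
    show (wz w + (wz w)⁻¹).re = x0
    linarith
  have hn : 1 ≤ normSq (wz w) := by
    rw [normSq_eq_norm_sq]
    nlinarith
  have huim : ((wz w)⁻¹).im = -((wz w).im / normSq (wz w)) := by
    rw [inv_im]
    ring
  have h5 : (wz w).im / normSq (wz w) ≤ (wz w).im := div_le_self a2 hn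
  have h6 : 0 ≤ (wz w).im / normSq (wz w) := div_nonneg a2 (normSq_nonneg _)
  have him : 0 ≤ (xw w).im := by
    show 0 ≤ (wz w + (wz w)⁻¹).im
    rw [add_im, huim]
    linarith
  refine ⟨rfl, rfl, z0, hre, him, a1, a2, by rw [huim]; linarith, ?_⟩
  -- distance to `1`
  have e1 : (wz w + 1) * (1 - w) = 2 := by
    rw [wz]
    field_simp
    ring
  have e2 : ‖wz w + 1‖ * ‖1 - w‖ = 2 := by
    rw [← norm_mul, e1]
    simp
  have hxn : ‖xw w‖ ≤ 2 + (xw w).im := by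
    refine (norm_le_abs_re_add_abs_im _).trans ?_
    rw [hre, abs_of_nonneg him]
    have : |x0| ≤ 2 := abs_le.2 ⟨hx.le, hx2⟩
    linarith
  have hzn : ‖wz w‖ ≤ ‖xw w‖ + 1 := by
    have e3 : wz w = xw w - (wz w)⁻¹ := by
      show wz w = wz w + (wz w)⁻¹ - (wz w)⁻¹
      ring
    have h7 : ‖(wz w)⁻¹‖ ≤ 1 := by
      rw [norm_inv]
      exact inv_le_one_of_one_le₀ a1
    calc ‖wz w‖ = ‖xw w - (wz w)⁻¹‖ := by rw [← e3]
      _ ≤ ‖xw w‖ + ‖(wz w)⁻¹‖ := norm_sub_le _ _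
      _ ≤ ‖xw w‖ + 1 := by linarith
  have h8 : ‖wz w + 1‖ ≤ 4 + (xw w).im := by
    refine (norm_add_le _ _).trans ?_
    rw [norm_one]
    linarith
  calc (2 : ℝ) = ‖wz w + 1‖ * ‖1 - w‖ := e2.symm
    _ ≤ (4 + (xw w).im) * ‖1 - w‖ := mul_le_mul_of_nonneg_right h8 (norm_nonneg _)

theorem pcert_mono {V : RV2} {e : ℝ} {p q r : ℕ} {Y : Modes} {live : SSt Ty → Prop} {C C' : ℝ}
    {w : ℂ} {R : SSt Ty → Set V3} (h : C ≤ C') (hR : PCert V e p q r Y live C w R) :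
    PCert V e p q r Y live C' w R :=
  ⟨hR.reg, hR.blk, hR.dead, hR.ref, hR.start, hR.slitA, hR.slitP, hR.slitQ, hR.slitB,
    fun σ v j hv => (hR.bound σ v j hv).trans (mul_le_mul_of_nonneg_right h (norm_nonneg _))⟩

/-- certificates on the cell `a ≤ y ≤ b` -/
def CellX (V : RV2) (e : ℝ) (p q r : ℕ) (Y : Modes) (live : SSt Ty → Prop) (x0 a b : ℝ) : Prop :=
  ∃ C : ℝ, ∀ w, Qt x0 w → a ≤ (xw w).im → (xw w).im ≤ b → ∃ R, PCert V e p q r Y live C w R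

/-- certificates near `w = 1` -/
def FarX (V : RV2) (e : ℝ) (p q r : ℕ) (Y : Modes) (live : SSt Ty → Prop) (x0 b : ℝ) : Prop :=
  ∃ C : ℝ, ∀ w ∈ Frt x0, 0 ≤ w.im → 0 ≤ w.re → (w = 1 ∨ b ≤ (xw w).im) →
    ∃ R, GCert V e p q r Y live C w R

theorem CellX.join {V : RV2} {e : ℝ} {p q r : ℕ} {Y : Modes} {live : SSt Ty → Prop}
    {x0 a b c : ℝ} (h1 : CellX V e p q r Y live x0 a b) (h2 : CellX V e p q r Y live x0 b c) :
    CellX V e p q r Y live x0 a c := by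
  obtain ⟨C1, h1⟩ := h1
  obtain ⟨C2, h2⟩ := h2
  refine ⟨max C1 C2, fun w hw ha hc => ?_⟩
  rcases le_total (xw w).im b with h | h
  · obtain ⟨R, hR⟩ := h1 w hw ha h
    exact ⟨R, pcert_mono (le_max_left _ _) hR⟩
  · obtain ⟨R, hR⟩ := h2 w hw h hc
    exact ⟨R, pcert_mono (le_max_right _ _) hR⟩

/-- smaller cells -/
theorem CellX.sub {V : RV2} {e : ℝ} {p q r : ℕ} {Y : Modes} {live : SSt Ty → Prop}
    {x0 a b a' b' : ℝ} (h1 : CellX V e p q r Y live x0 a b) (ha : a ≤ a') (hb : b' ≤ b) :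
    CellX V e p q r Y live x0 a' b' := by
  obtain ⟨C1, h1⟩ := h1
  exact ⟨C1, fun w hw h h' => h1 w hw (ha.trans h) (h'.trans hb)⟩

/-- from cells to the hypotheses of the class theorem -/
theorem parts_of_cells {V : RV2} {e : ℝ} {p q r : ℕ} {Y : Modes} {live : SSt Ty → Prop}
    {x0 b : ℝ} (hx : -2 < x0) (hx2 : x0 ≤ 2) (hb : 0 ≤ b)
    (h1 : CellX V e p q r Y live x0 0 b) (h2 : FarX V e p q r Y live x0 b) :
    ∃ C₁ C₂ : ℝ, ∀ C₁' C₂' : ℝ, C₁ ≤ C₁' → C₂ ≤ C₂' → ∀ w ∈ Frt x0, 0 ≤ w.im → 0 ≤ w.re →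
      (2 / (4 + b) ≤ ‖1 - w‖ ∧ ∃ R, PCert V e p q r Y live C₁' w R) ∨
        ∃ R, GCert V e p q r Y live C₂' w R := by
  obtain ⟨C1, h1⟩ := h1
  obtain ⟨C2, h2⟩ := h2
  refine ⟨C1, C2, fun C1' C2' e1 e2 w hw hi hr => ?_⟩
  by_cases hw1 : w = 1
  · obtain ⟨R, hR⟩ := h2 w hw hi hr (Or.inl hw1)
    exact Or.inr ⟨R, hR.reg, hR.blk, hR.dead, hR.ref, hR.start, hR.slitA, hR.slitP, hR.slitQ,
      hR.slitB, fun σ v j hv => (hR.bound σ v j hv).trans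
        (mul_le_mul_of_nonneg_right e2 (norm_nonneg _))⟩
  · have hq : Qt x0 w := ⟨hw, hi, hr, hw1⟩
    rcases le_total (xw w).im b with h | h
    · obtain ⟨R, hR⟩ := h1 w hq (hq.z hx hx2).im h
      refine Or.inl ⟨?_, R, pcert_mono e1 hR⟩
      rw [div_le_iff₀ (by linarith)]
      have := (hq.z hx hx2).d
      nlinarith [norm_nonneg (1 - w)]
    · obtain ⟨R, hR⟩ := h2 w hw hi hr (Or.inr h)
      exact Or.inr ⟨R, hR.reg, hR.blk, hR.dead, hR.ref, hR.start, hR.slitA, hR.slitP, hR.slitQ,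
        hR.slitB, fun σ v j hv => (hR.bound σ v j hv).trans
          (mul_le_mul_of_nonneg_right e2 (norm_nonneg _))⟩

/-- THE CLASS THEOREM FROM CELLS -/
theorem zf_of_cells {p q r : ℕ} (hp : 3 ≤ p) (hq : 3 ≤ q) (hr : 3 ≤ r)
    (hne : ¬ (p = 3 ∧ q = 3 ∧ r = 3)) {x0 : ℝ} (hx : -2 < x0) (hx2 : x0 ≤ 2) {Y Y' : Modes}
    {V : RV2} {e : ℝ} (he : e ≠ 0) {live live' : SSt Ty → Prop} (hc : Clo V p q r Y live x0)
    (hZ : SRel (std Y) (std Y') (Equiv.swap 0 2))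
    (hl : ∀ x, live' (srl (Equiv.swap 0 2) x) ↔ live x) {b b' : ℝ} (hb : 0 ≤ b) (hb' : 0 ≤ b')
    (h1 : CellX V e p q r Y live x0 0 b) (h2 : FarX V e p q r Y live x0 b)
    (h1' : CellX V e q p r Y' live' x0 0 b') (h2' : FarX V e q p r Y' live' x0 b') :
    ZF p q r x0 := by
  obtain ⟨A1, A2, hA⟩ := parts_of_cells hx hx2 hb h1 h2
  obtain ⟨B1, B2, hB⟩ := parts_of_cells hx hx2 hb' h1' h2'
  refine zf_of_parts hp hq hr hne hx he hc hZ hl (d := min (2 / (4 + b)) (2 / (4 + b')))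
    (lt_min (by positivity) (by positivity)) (max A1 B1) (max A2 B2) ?_ ?_
  · intro w hw hi hr
    rcases hA _ _ (le_max_left _ B1) (le_max_left _ B2) w hw hi hr with ⟨h, h'⟩ | h
    · exact Or.inl ⟨(min_le_left _ _).trans h, h'⟩
    · exact Or.inr h
  · intro w hw hi hr
    rcases hB _ _ (le_max_right A1 _) (le_max_right A2 _) w hw hi hr with ⟨h, h'⟩ | h
    · exact Or.inl ⟨(min_le_right _ _).trans h, h'⟩
    · exact Or.inr h

end Pool.Agent.Helper6.MONO.QTR
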