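import Pool.Agent.Helper12.CX.KAP

/-!
Run parameters in tail stars: `0 < Rb M j ≤ 2/3` for `3 ≤ j < M`, `≤ 1/2` for `4 ≤ j < M`.
-/

set_option autoImplicit false
noncomputable section
namespace Pool.Agent.Helper6.MONO

theorem RJ_le_of {M : ℕ} (hM : 3 ≤ M) {i j : ℕ} (hi : 1 ≤ i) (hij : i ≤ j) (hj : j ≤ M) :
    Rb M j ≤ Rb M i := by
  induction j, hij using Nat.le_induction with
  | base => exact le_rfl
  | succ j hij ih => exact (RJ_anti M j hM (hi.trans hij) hj).le.trans (ih (by omega))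

theorem Kp_lt2 (M : ℕ) (hM : 3 ≤ M) : Kp M < 2 := by
  have h := (tan_pos' M hM).1
  have h2 := (tan_pos' M hM).2
  have hk := Kp_ge1 hM
  by_contra hc
  push Not at hc
  have : SbP (Kp M) ≤ 0 := by
    unfold SbP
    refine mul_nonpos_of_nonpos_of_nonneg ?_ (by positivity)
    nlinarith
  nlinarith [sq_pos_of_pos h]

theorem RJ_three (M : ℕ) (hM : 3 ≤ M) : Rb M 3 = 1 - 2 / (Kp M * (Kp M + 1)) := by
  have hk := Kp_ge1 hM
  rw [RJ_succ M 2 hM (by norm_num) hM, RJ_two M hM, RJ_one M hM, SbP]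
  have h0 : Kp M ≠ 0 := by linarith
  have h1 : Kp M + 1 ≠ 0 := by linarith
  have h2 : 1 + 2 / Kp M + 1 ≠ 0 := by
    have : 0 < 2 / Kp M := by positivity
    linarith
  rw [div_eq_iff h2]
  field_simp
  ring

theorem RJ_four (M : ℕ) (hM : 4 ≤ M) : Rb M 4 = 1 - 2 / Kp M ^ 2 := by
  have hM3 : 3 ≤ M := by omega
  have hk := Kp_ge1 hM3
  have p1 := (RJ_pos M 3 hM3 (by norm_num) hM3).1
  rw [RJ_succ M 3 hM3 (by norm_num) hM, RJ_one M hM3]
  rw [RJ_three M hM3] at p1 ⊢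
  have h0 : Kp M ≠ 0 := by linarith
  have h1 : Kp M + 1 ≠ 0 := by linarith
  have h2 : 1 + 2 / Kp M + (1 - 2 / (Kp M * (Kp M + 1))) ≠ 0 := by
    have : 0 < 2 / Kp M := by positivity
    linarith
  rw [div_eq_iff h2, SbP]
  field_simp
  ring

/-- ROW RJT -/
theorem RJ_tail3 (M j : ℕ) (hM : 4 ≤ M) (hj : 3 ≤ j) (hjM : j < M) :
    0 < Rb M j ∧ Rb M j ≤ 2 / 3 := by
  have hM3 : 3 ≤ M := by omega
  refine ⟨(RJ_pos M j hM3 (by omega) hjM.le).2 hjM, ?_⟩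
  refine (RJ_le_of hM3 (by norm_num) hj hjM.le).trans ?_
  rw [RJ_three M hM3]
  have hk := Kp_ge1 hM3
  have hk2 := Kp_lt2 M hM3
  have : 1 / 3 ≤ 2 / (Kp M * (Kp M + 1)) := by
    rw [div_le_div_iff₀ (by norm_num) (by positivity)]
    nlinarith
  linarith

theorem RJ_tail4 (M j : ℕ) (hM : 5 ≤ M) (hj : 4 ≤ j) (hjM : j < M) :
    0 < Rb M j ∧ Rb M j ≤ 1 / 2 := by
  have hM3 : 3 ≤ M := by omega
  refine ⟨(RJ_pos M j hM3 (by omega) hjM.le).2 hjM, ?_⟩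
  refine (RJ_le_of hM3 (by norm_num) hj hjM.le).trans ?_
  rw [RJ_four M (by omega)]
  have hk := Kp_ge1 hM3
  have hk2 := Kp_lt2 M hM3
  have : 1 / 2 ≤ 2 / Kp M ^ 2 := by
    rw [div_le_div_iff₀ (by norm_num) (by positivity)]
    nlinarith
  linarith

end Pool.Agent.Helper6.MONO
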