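import Pool.Agent.Helper12.CX.Defs
import Pool.Agent.Helper2.MONO.NRM

/-!
Start states: it is enough to have start vectors at the states whose left star does not have
order three; the other ones are reached by one or two virtual runs of two letters.
-/

set_option autoImplicit false
noncomputable section
namespace Pool.Agent.Helper6.MONO.SV

open Polynomial

/-- `ZF` for the start states in `D` -/
def ZFD (D : (Fin 3 × Fin 3 × Fin 3) → Prop) (p q r : ℕ) (x0 : ℝ) : Prop :=
  ∃ (F : (Fin 3 × Fin 3 × Fin 3) → Fin 3 → Fin 3 → ℝ[X]) (B : ℝ),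
    (∀ (n a b : Fin 3), Dist n a b → D (n, a, b) → ∀ z : ℂ, ‖z‖ = 1 → x0 ≤ 2 * z.re →
      LinearIndependent ℂ (fun i => evv (F (n, a, b) i) z)) ∧
    ∀ (n a b : Fin 3), Dist n a b → D (n, a, b) → ∀ ms : List ℕ,
      okD p q r false (n, a, b) ms → ∀ i : Fin 3,
      (∀ z : ℂ, InX x0 z → gact (wG (cw p q r) z) (dw (n, a, b) ms) (evv (F (n, a, b) i) z)
        (sD (n, a, b) ms).2.2 ≠ 0) ∧
      (∀ z : ℂ, ‖z‖ = 1 → x0 < 2 * z.re →
        ‖gact (wG (cw p q r) z) (dw (n, a, b) ms) (evv (F (n, a, b) i) z)‖ ≤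
          B * ‖gact (wG (cw p q r) z) (dw (n, a, b) ms) (evv (F (n, a, b) i) z)
            (sD (n, a, b) ms).2.2‖)

theorem ZF_of_ZFD_all {D : (Fin 3 × Fin 3 × Fin 3) → Prop} {p q r : ℕ} {x0 : ℝ}
    (hD : ∀ n a b, Dist n a b → D (n, a, b)) (h : ZFD D p q r x0) : ZF p q r x0 := by
  obtain ⟨F, B, h1, h2⟩ := h
  exact ⟨F, B, fun n a b hd => h1 n a b hd (hD n a b hd),
    fun n a b hd => h2 n a b hd (hD n a b hd)⟩

/-- `z * G j i` as a polynomial -/
def GP (c : Fin 3 → ℝ) : Fin 3 → Fin 3 → ℝ[X] :=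
  !![0, C (c 0) * X, C (c 2); C (c 0) * X, 0, C (c 1) * X; C (c 2) * X ^ 2, C (c 1) * X, 0]

/-- `z` times the reflection, on polynomial vectors -/
def PF (c : Fin 3 → ℝ) (i : Fin 3) (F : Fin 3 → ℝ[X]) : Fin 3 → ℝ[X] :=
  fun k => if k = i then -(X * F i) + ∑ j, (if j = i then 0 else GP c j i * F j) else X * F k

theorem GP_eval (c : Fin 3 → ℝ) (z : ℂ) (hz : z ≠ 0) (j i : Fin 3) :
    aeval z (GP c j i) = z * wG c z j i := by
  fin_cases j <;> fin_cases i <;> simp [GP, wG] <;> field_simp

theorem PF_eval (c : Fin 3 → ℝ) (i : Fin 3) (F : Fin 3 → ℝ[X]) (z : ℂ) (hz : z ≠ 0) :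
    evv (PF c i F) z = z • fire (wG c z) i (evv F z) := by
  funext k
  show aeval z (PF c i F k) = z * fire (wG c z) i (evv F z) k
  unfold PF fire
  split_ifs with h
  · rw [map_add, map_neg, map_mul, aeval_X, map_sum, mul_add, mul_neg, Finset.mul_sum]
    congr 1
    refine Finset.sum_congr rfl fun j _ => ?_
    split_ifs with h'
    · simp
    · rw [map_mul, GP_eval c z hz]
      show _ = z * (wG c z j i * evv F z j)
      unfold evv
      ring
  · rw [map_mul, aeval_X]
    rfl

/-- the reflection as a linear map -/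
def fireL (G : Fin 3 → Fin 3 → ℂ) (i : Fin 3) : V3 →ₗ[ℂ] V3 where
  toFun := fire G i
  map_add' x y := by
    funext k
    show fire G i (x + y) k = fire G i x k + fire G i y k
    unfold fire
    split_ifs with h
    · simp only [Pi.add_apply, Fin.sum_univ_three]
      fin_cases i <;> simp <;> ring
    · rfl
  map_smul' c x := by
    funext k
    show fire G i (c • x) k = c * fire G i x k
    unfold fire
    split_ifs with h
    · simp only [Pi.smul_apply, smul_eq_mul, Fin.sum_univ_three]
      fin_cases i <;> simp <;> ring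
    · rfl

theorem fire_fire (G : Fin 3 → Fin 3 → ℂ) (i : Fin 3) (x : V3) : fire G i (fire G i x) = x := by
  funext k
  fin_cases i <;> fin_cases k <;> simp [fire, Fin.sum_univ_three] <;> ring

theorem fireL_ker (G : Fin 3 → Fin 3 → ℂ) (i : Fin 3) : LinearMap.ker (fireL G i) = ⊥ := by
  rw [LinearMap.ker_eq_bot]
  intro x y h
  have h' : fire G i x = fire G i y := h
  rw [← fire_fire G i x, h', fire_fire]

/-- the state before a run of two letters -/
def prevS : Fin 3 × Fin 3 × Fin 3 → Fin 3 × Fin 3 × Fin 3 := fun s => (s.2.2, s.1, s.2.1)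

theorem mm_ge (p q r : ℕ) (hp : 3 ≤ p) (hq : 3 ≤ q) (hr : 3 ≤ r) (i j : Fin 3) (h : i ≠ j) :
    3 ≤ mm p q r i j := by
  fin_cases i <;> fin_cases j <;> simp [mm] at h ⊢ <;> assumption

theorem ZFD_step {D : (Fin 3 × Fin 3 × Fin 3) → Prop} {p q r : ℕ} (hp : 3 ≤ p) (hq : 3 ≤ q)
    (hr : 3 ≤ r) {x0 : ℝ} (h : ZFD D p q r x0) :
    ZFD (fun s => D s ∨ D (prevS s)) p q r x0 := by
  classical
  obtain ⟨F, B, h1, h2⟩ := h
  have hdist : ∀ {n a b : Fin 3}, Dist n a b → Dist b n a := fun h => ⟨h.2.2, h.1, h.2.1⟩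
  refine ⟨fun s i => if D s then F s i else PF (cw p q r) s.2.2 (F (prevS s) i), B, ?_, ?_⟩
  · intro n a b hd hD z hz hx
    by_cases hs : D (n, a, b)
    · simp only [if_pos hs]
      exact h1 n a b hd hs z hz hx
    · simp only [if_neg hs]
      have hD' : D (b, n, a) := by
        rcases hD with h | h
        · exact absurd h hs
        · exact h
      have hz0 : z ≠ 0 := by
        intro h
        rw [h, norm_zero] at hz
        exact zero_ne_one hz
      have hi := h1 b n a (hdist hd) hD' z hz hx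
      have hi' := hi.map' (fireL (wG (cw p q r) z) b) (fireL_ker _ _)
      have hi'' := hi'.units_smul (fun _ : Fin 3 => Units.mk0 z hz0)
      have e : (fun i => evv (PF (cw p q r) b (F (b, n, a) i)) z) =
          ((fun _ : Fin 3 => Units.mk0 z hz0) • (⇑(fireL (wG (cw p q r) z) b) ∘
            fun i => evv (F (b, n, a) i) z)) := by
        funext i
        rw [PF_eval _ _ _ _ hz0]
        rfl
      show LinearIndependent ℂ (fun i => evv (PF (cw p q r) b (F (b, n, a) i)) z)
      rw [e]
      exact hi''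
  · intro n a b hd hD ms hms i
    by_cases hs : D (n, a, b)
    · simp only [if_pos hs]
      exact h2 n a b hd hs ms hms i
    · simp only [if_neg hs]
      have hD' : D (b, n, a) := by
        rcases hD with h | h
        · exact absurd h hs
        · exact h
      have hmm := mm_ge p q r hp hq hr b n hd.2.2
      have hok : okD p q r false (b, n, a) (2 :: ms) := by
        refine ⟨le_rfl, by omega, fun h => absurd h (by simp), ?_⟩
        have hd2 : decide (2 = mm p q r b n) = false := by
          rw [decide_eq_false_iff_not]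
          omega
        rw [hd2]
        exact hms
      obtain ⟨k1, k2⟩ := h2 b n a (hdist hd) hD' (2 :: ms) hok i
      have hw : dw (b, n, a) (2 :: ms) = b :: dw (n, a, b) ms := rfl
      have hsd : sD (b, n, a) (2 :: ms) = sD (n, a, b) ms := rfl
      have key : ∀ z : ℂ, z ≠ 0 →
          gact (wG (cw p q r) z) (dw (n, a, b) ms)
            (evv (PF (cw p q r) b (F (b, n, a) i)) z) =
          z • gact (wG (cw p q r) z) (dw (b, n, a) (2 :: ms)) (evv (F (b, n, a) i) z) := by
        intro z hz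
        rw [PF_eval _ _ _ _ hz, nrm_gact_smul, hw]
        rfl
      refine ⟨fun z hz => ?_, fun z hz hx => ?_⟩
      · have hz0 := hz.1
        show gact (wG (cw p q r) z) (dw (n, a, b) ms)
            (evv (PF (cw p q r) b (F (b, n, a) i)) z) (sD (n, a, b) ms).2.2 ≠ 0
        rw [key z hz0, Pi.smul_apply, smul_eq_mul]
        refine mul_ne_zero hz0 ?_
        have := k1 z hz
        rwa [hsd] at this
      · have hz0 : z ≠ 0 := by
          intro h
          rw [h, norm_zero] at hz
          exact zero_ne_one hz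
        show ‖gact (wG (cw p q r) z) (dw (n, a, b) ms)
            (evv (PF (cw p q r) b (F (b, n, a) i)) z)‖ ≤ B *
          ‖gact (wG (cw p q r) z) (dw (n, a, b) ms)
            (evv (PF (cw p q r) b (F (b, n, a) i)) z) (sD (n, a, b) ms).2.2‖
        rw [key z hz0, Pi.smul_apply, norm_smul, norm_smul, hz, one_mul, one_mul]
        have := k2 z hz hx
        rwa [hsd] at this

/-- the left star does not have order three -/
def D4 (p q r : ℕ) (s : Fin 3 × Fin 3 × Fin 3) : Prop := mm p q r s.1 s.2.2 ≠ 3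

/-- start vectors are only needed at states whose left star has order at least four -/
theorem ZF_of_ZFD {p q r : ℕ} (hp : 3 ≤ p) (hq : 3 ≤ q) (hr : 3 ≤ r)
    (hne : ¬ (p = 3 ∧ q = 3 ∧ r = 3)) {x0 : ℝ} (h : ZFD (D4 p q r) p q r x0) :
    ZF p q r x0 := by
  refine ZF_of_ZFD_all (D := _) ?_ (ZFD_step hp hq hr (ZFD_step hp hq hr h))
  intro n a b hd
  show (D4 p q r (n, a, b) ∨ D4 p q r (b, n, a)) ∨ (D4 p q r (b, n, a) ∨ D4 p q r (a, b, n))
  unfold D4
  obtain ⟨h1, h2, h3⟩ := hd
  fin_cases n <;> fin_cases a <;> fin_cases b <;> simp [mm] at h1 h2 h3 hne ⊢ <;> omega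

end Pool.Agent.Helper6.MONO.SV
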