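import Pool.Agent.Helper12.CX.STA
import Pool.Agent.Helper6.CX.LNK

/-!
Start vectors: real polynomial vectors which in the chart `TSv` are multiples of
`(1, α om, β om t)`, `om = 1/(2 (1 + lam zo))`, `t = 1/2 - om`.
-/

set_option autoImplicit false
noncomputable section
namespace Pool.Agent.Helper6.MONO.SV

open Polynomial

/-- `lam_n = 2 h/(k h')` -/
def lamS (κ : Fin 3 → Fin 3 → ℝ) (n a b : Fin 3) : ℝ := 2 * κ a b / (κ n a * κ n b)

/-- `om = 1/(2 (1 + lam zo))` -/
def omz (l : ℝ) (zo : ℂ) : ℂ := 1 / (2 * (1 + (l : ℂ) * zo))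

/-- orientation: `zo = z` if `b = n + 1` -/
def oriS (n b : Fin 3) : Prop := b = n + 1

instance (n b : Fin 3) : Decidable (oriS n b) := inferInstanceAs (Decidable (b = n + 1))

/-- the phase of the state -/
def zoS (n b : Fin 3) (z : ℂ) : ℂ := if oriS n b then z else z⁻¹

theorem cw_kk (p q r : ℕ) : cw p q r 0 = kk p q r 0 1 ∧ cw p q r 1 = kk p q r 1 2 ∧
    cw p q r 2 = kk p q r 2 0 := ⟨rfl, rfl, rfl⟩

theorem kk_symm (p q r : ℕ) (i j : Fin 3) : kk p q r i j = kk p q r j i := by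
  fin_cases i <;> fin_cases j <;> rfl

theorem Kp_pos' (M : ℕ) (hM : 3 ≤ M) : 0 < Kp M := by
  unfold Kp
  have hM' : (3 : ℝ) ≤ M := by exact_mod_cast hM
  have hpi := Real.pi_pos
  have h1 : 0 < Real.pi / M := by positivity
  have h2 : Real.pi / M ≤ Real.pi / 3 := div_le_div_of_nonneg_left hpi.le (by norm_num) hM'
  have : 0 < Real.cos (Real.pi / M) := Real.cos_pos_of_mem_Ioo ⟨by linarith, by linarith⟩
  linarith

theorem kk_pos' (p q r : ℕ) (hp : 3 ≤ p) (hq : 3 ≤ q) (hr : 3 ≤ r) (i j : Fin 3) (h : i ≠ j) :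
    0 < kk p q r i j := Kp_pos' _ (mm_ge p q r hp hq hr i j h)

theorem wG_ne (c : Fin 3 → ℝ) (h0 : c 0 ≠ 0) (h1 : c 1 ≠ 0) (h2 : c 2 ≠ 0) (z : ℂ) (hz : z ≠ 0)
    (i j : Fin 3) (h : i ≠ j) : wG c z i j ≠ 0 := by
  have e0 : (c 0 : ℂ) ≠ 0 := by exact_mod_cast h0
  have e1 : (c 1 : ℂ) ≠ 0 := by exact_mod_cast h1
  have e2 : (c 2 : ℂ) ≠ 0 := by exact_mod_cast h2
  fin_cases i <;> fin_cases j <;> simp [wG, e0, e1, e2, hz] at h ⊢

/-- the phase -/
theorem zoG_wG (p q r : ℕ) (hp : 3 ≤ p) (hq : 3 ≤ q) (hr : 3 ≤ r) {n a b : Fin 3}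
    (hd : Dist n a b) (z : ℂ) (hz : z ≠ 0) :
    zoG (kk p q r) (wG (cw p q r) z) n a b = zoS n b z := by
  have e0 : (kk p q r 0 1 : ℂ) ≠ 0 := by
    exact_mod_cast (kk_pos' p q r hp hq hr 0 1 (by decide)).ne'
  have e1 : (kk p q r 1 2 : ℂ) ≠ 0 := by
    exact_mod_cast (kk_pos' p q r hp hq hr 1 2 (by decide)).ne'
  have e2 : (kk p q r 2 0 : ℂ) ≠ 0 := by
    exact_mod_cast (kk_pos' p q r hp hq hr 2 0 (by decide)).ne'
  have s1 := kk_symm p q r 1 0
  have s2 := kk_symm p q r 2 1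
  have s3 := kk_symm p q r 0 2
  obtain ⟨h1, h2, h3⟩ := hd
  unfold zoG zoS oriS
  fin_cases n <;> fin_cases a <;> fin_cases b <;> simp at h1 h2 h3 <;>
    simp [wG, cw, s1, s2, s3] <;> field_simp

/-- `z / G j i` as a polynomial -/
def IGP (c : Fin 3 → ℝ) : Fin 3 → Fin 3 → ℝ[X] :=
  !![0, C (c 0)⁻¹ * X, C (c 2)⁻¹ * X ^ 2; C (c 0)⁻¹ * X, 0, C (c 1)⁻¹ * X;
    C (c 2)⁻¹, C (c 1)⁻¹ * X, 0]

theorem IGP_eval (c : Fin 3 → ℝ) (h0 : c 0 ≠ 0) (h1 : c 1 ≠ 0) (h2 : c 2 ≠ 0) (z : ℂ)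
    (hz : z ≠ 0) (j i : Fin 3) (h : j ≠ i) :
    aeval z (IGP c j i) = z / wG c z j i := by
  have e0 : (c 0 : ℂ) ≠ 0 := by exact_mod_cast h0
  have e1 : (c 1 : ℂ) ≠ 0 := by exact_mod_cast h1
  have e2 : (c 2 : ℂ) ≠ 0 := by exact_mod_cast h2
  fin_cases j <;> fin_cases i <;> simp [IGP, wG] at h ⊢ <;> field_simp

/-- the denominator `2 (1 + lam zo)`, made polynomial -/
def LPo (l : ℝ) (o : Prop) [Decidable o] : ℝ[X] := if o then 2 * (1 + C l * X) else 2 * (X + C l)
/-- the same times `t = 1/2 - om` -/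
def MPo (l : ℝ) (o : Prop) [Decidable o] : ℝ[X] := if o then C l * X else C l

/-- the start vectors -/
def FSt (p q r : ℕ) (al be : ℝ) (n a b : Fin 3) : Fin 3 → ℝ[X] := fun j =>
  if j = b then LPo (lamS (kk p q r) n a b) (oriS n b) * IGP (cw p q r) b n
  else if j = a then C be * MPo (lamS (kk p q r) n a b) (oriS n b) * IGP (cw p q r) a n
  else C (1 / 2) * (C be * MPo (lamS (kk p q r) n a b) (oriS n b) +
    C (1 - al) * LPo (lamS (kk p q r) n a b) (oriS n b)) * X

theorem LPo_eval (l : ℝ) (n b : Fin 3) (z : ℂ) (hz : z ≠ 0) :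
    ∃ e : ℂ, e ≠ 0 ∧ aeval z (LPo l (oriS n b)) = e * (2 * (1 + (l : ℂ) * zoS n b z)) ∧
      aeval z (MPo l (oriS n b)) = e * ((l : ℂ) * zoS n b z) := by
  unfold LPo MPo zoS
  by_cases ho : oriS n b
  · simp only [if_pos ho]
    refine ⟨1, one_ne_zero, ?_, ?_⟩
    · simp only [map_mul, map_add, map_one, aeval_X, aeval_C, Complex.coe_algebraMap, map_ofNat,
        one_mul]
    · simp only [map_mul, aeval_X, aeval_C, Complex.coe_algebraMap, one_mul]
  · simp only [if_neg ho]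
    refine ⟨z, hz, ?_, ?_⟩
    · simp only [map_mul, map_add, aeval_X, aeval_C, Complex.coe_algebraMap, map_ofNat]
      field_simp
    · simp only [aeval_C, Complex.coe_algebraMap]
      field_simp

theorem FSt_eval (p q r : ℕ) (hp : 3 ≤ p) (hq : 3 ≤ q) (hr : 3 ≤ r) (al be : ℝ)
    {n a b : Fin 3} (hd : Dist n a b) (z : ℂ) (hz : z ≠ 0)
    (hL : 1 + (lamS (kk p q r) n a b : ℂ) * zoS n b z ≠ 0) :
    ∃ f : ℂ, f ≠ 0 ∧ TSv (kk p q r) (wG (cw p q r) z) n a b (evv (FSt p q r al be n a b) z) =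
      f • ![1, (al : ℂ) * omz (lamS (kk p q r) n a b) (zoS n b z),
        (be : ℂ) * (omz (lamS (kk p q r) n a b) (zoS n b z) *
          (1 / 2 - omz (lamS (kk p q r) n a b) (zoS n b z)))] := by
  have c0 : cw p q r 0 ≠ 0 := (kk_pos' p q r hp hq hr 0 1 (by decide)).ne'
  have c1 : cw p q r 1 ≠ 0 := (kk_pos' p q r hp hq hr 1 2 (by decide)).ne'
  have c2 : cw p q r 2 ≠ 0 := (kk_pos' p q r hp hq hr 2 0 (by decide)).ne'
  have hna : n ≠ a := hd.1
  have hab : a ≠ b := hd.2.1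
  have hbn : b ≠ n := hd.2.2
  have g1 := wG_ne (cw p q r) c0 c1 c2 z hz b n hbn
  have g2 := wG_ne (cw p q r) c0 c1 c2 z hz a n hna.symm
  have hk := kk_pos' p q r hp hq hr n a hna
  have hh := kk_pos' p q r hp hq hr a b hab
  have hh' := kk_pos' p q r hp hq hr n b hbn.symm
  have ck : (kk p q r n a : ℂ) ≠ 0 := by exact_mod_cast hk.ne'
  have ch : (kk p q r a b : ℂ) ≠ 0 := by exact_mod_cast hh.ne'
  have ch' : (kk p q r n b : ℂ) ≠ 0 := by exact_mod_cast hh'.ne'
  obtain ⟨e, he, eL, eP⟩ := LPo_eval (lamS (kk p q r) n a b) n b z hz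
  set l := lamS (kk p q r) n a b with hl
  set zo := zoS n b z with hzo
  set L := aeval z (LPo l (oriS n b)) with hLdef
  set P := aeval z (MPo l (oriS n b)) with hPdef
  set G := wG (cw p q r) z with hG
  -- the entries
  have fb : evv (FSt p q r al be n a b) z b = L * (z / G b n) := by
    show aeval z (FSt p q r al be n a b b) = _
    unfold FSt
    rw [if_pos rfl, map_mul, IGP_eval _ c0 c1 c2 z hz b n hbn]
  have fa : evv (FSt p q r al be n a b) z a = be * P * (z / G a n) := by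
    show aeval z (FSt p q r al be n a b a) = _
    unfold FSt
    rw [if_neg hab, if_pos rfl, map_mul, map_mul, IGP_eval _ c0 c1 c2 z hz a n hna.symm, aeval_C]
    rfl
  have fn : evv (FSt p q r al be n a b) z n = 1 / 2 * (be * P + (1 - al) * L) * z := by
    show aeval z (FSt p q r al be n a b n) = _
    unfold FSt
    rw [if_neg hbn.symm, if_neg hna, map_mul, map_mul, map_add, map_mul, map_mul, aeval_C,
      aeval_C, aeval_C, aeval_X]
    simp only [Complex.coe_algebraMap]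
    push_cast
    ring
  have hGh : (kk p q r n a : ℂ) * GhP (kk p q r n a) (kk p q r a b) (kk p q r n b) zo =
      (kk p q r n b : ℂ) * (2 * (1 + (l : ℂ) * zo)) := by
    rw [hl]
    unfold GhP lamS
    push_cast
    field_simp
    ring
  have hLne : L ≠ 0 := by
    rw [eL]
    exact mul_ne_zero he (mul_ne_zero two_ne_zero hL)
  have hom : 1 / 2 - omz l zo = (l : ℂ) * zo / (2 * (1 + (l : ℂ) * zo)) := by
    unfold omz
    field_simp
    ring
  have hLP : L * (1 / 2 - omz l zo) = P := by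
    rw [hom, eL, eP]
    field_simp
  refine ⟨L * z / (kk p q r n b : ℂ), div_ne_zero (mul_ne_zero hLne hz) ch', ?_⟩
  have hz' : zoG (kk p q r) G n a b = zo := zoG_wG p q r hp hq hr hd z hz
  unfold TSv
  rw [hz', fb, fa, fn, hGh]
  funext j
  fin_cases j
  · show G b n / (kk p q r n b : ℂ) * (L * (z / G b n)) = L * z / (kk p q r n b : ℂ) * 1
    field_simp
  · show (-2 * (1 / 2 * (be * P + (1 - al) * L) * z) + G a n * (be * P * (z / G a n)) +
        G b n * (L * (z / G b n))) / ((kk p q r n b : ℂ) * (2 * (1 + (l : ℂ) * zo))) =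
      L * z / (kk p q r n b : ℂ) * ((al : ℂ) * omz l zo)
    have e1 : G a n * (be * P * (z / G a n)) = be * P * z := by field_simp
    have e2 : G b n * (L * (z / G b n)) = L * z := by field_simp
    rw [e1, e2]
    unfold omz
    have e3 : -2 * (1 / 2 * (be * P + (1 - al) * L) * z) + be * P * z + L * z =
        (al : ℂ) * L * z := by ring
    rw [e3, div_mul_eq_div_div]
    ring
  · show G a n / (kk p q r n a : ℂ) * (be * P * (z / G a n)) /
        GhP (kk p q r n a) (kk p q r a b) (kk p q r n b) zo =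
      L * z / (kk p q r n b : ℂ) * ((be : ℂ) * (omz l zo * (1 / 2 - omz l zo)))
    have e1 : G a n / (kk p q r n a : ℂ) * (be * P * (z / G a n)) =
        be * P * z / (kk p q r n a : ℂ) := by field_simp
    rw [e1, div_div, hGh]
    have e2 : L * z / (kk p q r n b : ℂ) * ((be : ℂ) * (omz l zo * (1 / 2 - omz l zo))) =
        (be : ℂ) * (L * (1 / 2 - omz l zo)) * z / (kk p q r n b : ℂ) * omz l zo := by ring
    rw [e2, hLP]
    unfold omz
    rw [div_mul_eq_div_div]
    ring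

theorem no_neg {z : ℂ} (hx : -2 < (z + z⁻¹).re) (t : ℝ) (ht : 0 < t) : z ≠ -(t : ℂ) := by
  intro h
  rw [h] at hx
  have e : (-(t : ℂ) + (-(t : ℂ))⁻¹) = ((-(t + t⁻¹) : ℝ) : ℂ) := by
    push_cast
    rw [inv_neg]
    ring
  rw [e, Complex.ofReal_re] at hx
  have h2 : 2 ≤ t + t⁻¹ := by
    have : 0 ≤ (t - 1) ^ 2 / t := by positivity
    have e2 : (t - 1) ^ 2 / t = t + t⁻¹ - 2 := by field_simp; ring
    linarith
  linarith

theorem lamS_pos {p q r : ℕ} (hp : 3 ≤ p) (hq : 3 ≤ q) (hr : 3 ≤ r) {n a b : Fin 3}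
    (hd : Dist n a b) : 0 < lamS (kk p q r) n a b := by
  have hk := kk_pos' p q r hp hq hr n a hd.1
  have hh := kk_pos' p q r hp hq hr a b hd.2.1
  have hh' := kk_pos' p q r hp hq hr n b hd.2.2.symm
  unfold lamS
  positivity

/-- the denominator of `om` has no zero on the domain -/
theorem om_den_ne {l : ℝ} (hl : 0 < l) (n b : Fin 3) (z : ℂ) (hx : -2 < (z + z⁻¹).re) :
    1 + (l : ℂ) * zoS n b z ≠ 0 := by
  have hl' : (l : ℂ) ≠ 0 := by exact_mod_cast hl.ne'
  intro h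
  unfold zoS at h
  split_ifs at h with ho
  · refine no_neg hx l⁻¹ (inv_pos.2 hl) ?_
    push_cast
    field_simp
    linear_combination h
  · have hz : z ≠ 0 := by
      intro h0
      rw [h0, inv_zero, mul_zero, add_zero] at h
      exact one_ne_zero h
    refine no_neg hx l hl ?_
    field_simp at h
    linear_combination h

/-- independence of three start vectors -/
theorem FSt_indep (p q r : ℕ) (hp : 3 ≤ p) (hq : 3 ≤ q) (hr : 3 ≤ r) (al be e : ℝ) (he : e ≠ 0)
    {n a b : Fin 3} (hd : Dist n a b) (z : ℂ) (hz : z ≠ 0) (hx : -2 < (z + z⁻¹).re) :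
    LinearIndependent ℂ (fun i : Fin 3 => evv (FSt p q r (![al, al + e, al] i)
      (![be, be, be + e] i) n a b) z) := by
  have hl := lamS_pos hp hq hr hd
  have hden := om_den_ne hl n b z hx
  have ho : omz (lamS (kk p q r) n a b) (zoS n b z) ≠ 0 := by
    unfold omz
    exact div_ne_zero one_ne_zero (mul_ne_zero two_ne_zero hden)
  have ht : 1 / 2 - omz (lamS (kk p q r) n a b) (zoS n b z) ≠ 0 := by
    have hz0 : zoS n b z ≠ 0 := by
      unfold zoS
      split_ifs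
      · exact hz
      · exact inv_ne_zero hz
    have hl' : (lamS (kk p q r) n a b : ℂ) ≠ 0 := by exact_mod_cast hl.ne'
    have e1 : 1 / 2 - omz (lamS (kk p q r) n a b) (zoS n b z) =
        (lamS (kk p q r) n a b : ℂ) * zoS n b z /
          (2 * (1 + (lamS (kk p q r) n a b : ℂ) * zoS n b z)) := by
      unfold omz
      field_simp
      ring
    rw [e1]
    exact div_ne_zero (mul_ne_zero hl' hz0) (mul_ne_zero two_ne_zero hden)
  obtain ⟨f0, hf0, e0⟩ := FSt_eval p q r hp hq hr al be hd z hz hden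
  obtain ⟨f1, hf1, e1⟩ := FSt_eval p q r hp hq hr (al + e) be hd z hz hden
  obtain ⟨f2, hf2, e2⟩ := FSt_eval p q r hp hq hr al (be + e) hd z hz hden
  set om := omz (lamS (kk p q r) n a b) (zoS n b z)
  set κ := kk p q r
  set G := wG (cw p q r) z
  have he' : (e : ℂ) ≠ 0 := by exact_mod_cast he
  -- linearity of the chart
  have hlin : ∀ (c0 c1 c2 : ℂ) (X0 X1 X2 : V3), TSv κ G n a b (c0 • X0 + c1 • X1 + c2 • X2) =
      c0 • TSv κ G n a b X0 + c1 • TSv κ G n a b X1 + c2 • TSv κ G n a b X2 := by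
    intro c0 c1 c2 X0 X1 X2
    funext j
    fin_cases j
    · simp [TSv]; ring
    · simp [TSv]; ring
    · simp [TSv]; ring
  rw [Fintype.linearIndependent_iff]
  intro g hg
  rw [Fin.sum_univ_three] at hg
  have h1 := congrArg (TSv κ G n a b) hg
  rw [hlin] at h1
  have hz0 : TSv κ G n a b 0 = 0 := by
    funext j
    fin_cases j <;> simp [TSv]
  rw [hz0] at h1
  simp only [Matrix.cons_val_zero, Matrix.cons_val_one, Matrix.cons_val] at h1
  rw [e0, e1, e2] at h1
  have k0 := congrFun h1 0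
  have k1 := congrFun h1 1
  have k2 := congrFun h1 2
  simp only [Pi.add_apply, Pi.smul_apply, smul_eq_mul, Matrix.cons_val_zero, Matrix.cons_val_one,
    Matrix.cons_val, Pi.zero_apply, mul_one] at k0 k1 k2
  push_cast at k1 k2
  have m1 : g 1 * f1 * (e * om) = 0 := by linear_combination k1 - (al : ℂ) * om * k0
  have m2 : g 2 * f2 * (e * (om * (1 / 2 - om))) = 0 := by
    linear_combination k2 - (be : ℂ) * (om * (1 / 2 - om)) * k0
  have g1 : g 1 = 0 := by
    rcases mul_eq_zero.1 m1 with h | h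
    · exact (mul_eq_zero.1 h).resolve_right hf1
    · exact absurd h (mul_ne_zero he' ho)
  have g2 : g 2 = 0 := by
    rcases mul_eq_zero.1 m2 with h | h
    · exact (mul_eq_zero.1 h).resolve_right hf2
    · exact absurd h (mul_ne_zero he' (mul_ne_zero ho ht))
  have g0 : g 0 = 0 := by
    rw [g1, g2, zero_mul, zero_mul, add_zero, add_zero] at k0
    exact (mul_eq_zero.1 k0).resolve_right hf0
  intro i
  fin_cases i
  · exact g0
  · exact g1
  · exact g2

end Pool.Agent.Helper6.MONO.SV
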