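import Pool.Agent.Helper12.CX.STV
import Pool.Agent.Helper6.CX.LNI
import Pool.Agent.Helper21.CX.CLS

/-!
Start vectors in the charts `TM`; certificate theorems with restricted start states.
-/

set_option autoImplicit false
noncomputable section
namespace Pool.Agent.Helper6.MONO.SV

open Polynomial Filter Topology Complex
open Pool.Agent.Helper39.C75
open Pool.Agent.Helper21.MIR
open Pool.Agent.Helper21.SUP (GS Sch gM fD SBlk SSt DG DG_nx)

theorem oriT_iff {n a b : Fin 3} (h : Dist n a b) : oriS n b ↔ oriZ (n, a, b) = true := by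
  obtain ⟨h1, h2, h3⟩ := h
  unfold oriS oriZ
  fin_cases n <;> fin_cases a <;> fin_cases b <;> simp at h1 h2 h3 ⊢

/-- the start vectors in the chart `TM` -/
theorem fst_TM {p q r : ℕ} (hp : 3 ≤ p) (hq : 3 ≤ q) (hr : 3 ≤ r) {x0 : ℝ} (hx : -2 < x0)
    {s : GS} (h : DG s) {z : ℂ} (hz : InX x0 z) (al be : ℝ) :
    ∃ f : ℂ, f ≠ 0 ∧ (TM p q r s (zw z)).mulVec (evv (FSt p q r al be s.1 s.2.1 s.2.2) z) =
      f • ![1, (al : ℂ) * omS p q r s (zw z),
        (be : ℂ) * (omS p q r s (zw z) * (1 / 2 - omS p q r s (zw z)))] := by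
  obtain ⟨n, a, b⟩ := s
  have hd : Dist n a b := h
  have hl := lamS_pos hp hq hr hd
  have hx' : -2 < (z + z⁻¹).re := hx.trans hz.2
  have hden := om_den_ne hl n b z hx'
  obtain ⟨f, hf, e⟩ := FSt_eval p q r hp hq hr al be hd z hz.1 hden
  obtain ⟨k1, k2⟩ := LNI_om hx hz (oriZ (n, a, b)) (lamS (kk p q r) n a b) hl
  have hzo : zoS n b z = if oriZ (n, a, b) = true then z else z⁻¹ := by
    unfold zoS
    by_cases ho : oriS n b
    · rw [if_pos ho, if_pos ((oriT_iff hd).1 ho)]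
    · rw [if_neg ho, if_neg (fun h => ho ((oriT_iff hd).2 h))]
  have hom : omS p q r (n, a, b) (zw z) = omz (lamS (kk p q r) n a b) (zoS n b z) := by
    rw [hzo]
    unfold omz
    rw [← k2]
    rfl
  refine ⟨f, hf, ?_⟩
  rw [TM_mulVec h, wz_zw hx hz]
  show TSv (kk p q r) (wG (cw p q r) z) n a b (evv (FSt p q r al be n a b) z) = _
  rw [e, hom]

/-- helper39's theorem with restricted start states -/
theorem zfd_of_regions {D : (Fin 3 × Fin 3 × Fin 3) → Prop} {p q r : ℕ} {x0 : ℝ} {S B : Type}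
    {src tgt : B → S}
    {M : B → ℂ → Matrix (Fin 3) (Fin 3) ℂ} {T : S → ℂ → Matrix (Fin 3) (Fin 3) ℂ}
    {st : S → Fin 3 × Fin 3 × Fin 3} {runs : B → List ℕ}
    (L : Link p q r x0 src tgt M T st runs) (Start : S → (ℂ → Fin 3 → ℂ) → Prop)
    {Ω : Set ℂ} (hΩ : IsOpen Ω) (hb : Bornology.IsBounded Ω)
    (hsub : ∀ z, InX x0 z → zw z ∈ Ω)
    (hM : ∀ b i j, ContinuousOn (fun w => M b w i j) (closure Ω) ∧
      DifferentiableOn ℂ (fun w => M b w i j) Ω)
    (hstart : ∀ s v, Start s v → Reg Ω v ∧ ∀ w ∈ closure Ω, v w 0 ≠ 0)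
    (rk : B → ℕ) (htreat : ∀ b, RTreat src tgt M Start Ω rk b)
    (C : ℝ) (hC : ∀ s j, ∀ w ∈ frontier Ω, ∃ R, RCert src tgt M Start w R ∧
      ∀ v ∈ R s, ‖v j‖ ≤ C * ‖v 0‖)
    (s0 : (Fin 3 × Fin 3 × Fin 3) → S) (hs0 : ∀ t, st (s0 t) = t)
    (F : (Fin 3 × Fin 3 × Fin 3) → Fin 3 → Fin 3 → ℝ[X])
    (hLI : ∀ (n a b : Fin 3), Dist n a b → D (n, a, b) → ∀ z : ℂ, ‖z‖ = 1 → x0 ≤ 2 * z.re →
      LinearIndependent ℂ (fun i => evv (F (n, a, b) i) z))
    (hF : ∀ (n a b : Fin 3), Dist n a b → D (n, a, b) → ∀ i : Fin 3,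
      ∃ v, Start (s0 (n, a, b)) v ∧ ∀ z, InX x0 z → ∃ f : ℂ, f ≠ 0 ∧
        v (zw z) = f • (T (s0 (n, a, b)) (zw z)).mulVec (evv (F (n, a, b) i) z))
    (parse : ∀ (n a b : Fin 3), Dist n a b → D (n, a, b) → ∀ ms : List ℕ,
      okD p q r false (n, a, b) ms →
      ∃ (bs : List B) (s' : S), BPath src tgt (s0 (n, a, b)) bs s' ∧
        (bs.map runs).flatten = ms) : ZFD D p q r x0 := by
  obtain ⟨K, hK⟩ := L.bound
  refine ⟨F, |K| * (|C| + 1) * |K|, hLI, fun n a b hd hD ms hms i => ?_⟩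
  obtain ⟨bs, s', hp, hbs⟩ := parse n a b hd hD ms hms
  obtain ⟨v, hv, hvz⟩ := hF n a b hd hD i
  obtain ⟨v', hv', hX'⟩ := cer_path_chain L Start hp v (fun z => evv (F (n, a, b) i) z)
    (Chain.start hv) hvz
  have hst' : (sD (n, a, b) ms) = st s' := by
    rw [bpath_sD st runs L.hst hp, hs0, hbs]
  rw [hs0, hbs] at hX'
  have hzf := Pool.Agent.Helper39.C75.zeroFree_of_regions src tgt M Start hΩ hb hM hstart rk
    htreat s' v' hv'
  refine ⟨fun z hz h0 => ?_, fun z hz1 hz2 => ?_⟩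
  · obtain ⟨f, hf, hfv⟩ := hX' z hz
    obtain ⟨g, hg, hgT⟩ := L.first s' z hz
    apply hzf (zw z) (subset_closure (hsub z hz))
    rw [hfv, Pi.smul_apply, smul_eq_mul, hgT, ← hst', h0, mul_zero, mul_zero]
  · have hz := inX_of_norm hz1 hz2
    obtain ⟨f, hf, hfv⟩ := hX' z hz
    set Y : V3 := gact (wG (cw p q r) z) (dw (n, a, b) ms) (evv (F (n, a, b) i) z) with hY
    obtain ⟨hK1, hK2⟩ := hK s' z hz1 hz2 Y
    have hbd : ∀ j, ‖v' (zw z) j‖ ≤ C * ‖v' (zw z) 0‖ := fun j =>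
      bound_of_regions src tgt M Start hΩ hb hM hstart rk htreat s' C j (hC s' j) v' hv' (zw z)
        (subset_closure (hsub z hz))
    have hfp : 0 < ‖f‖ := norm_pos_iff.2 hf
    have hTY : ‖(T s' (zw z)).mulVec Y‖ ≤ (|C| + 1) * ‖(T s' (zw z)).mulVec Y 0‖ := by
      rw [pi_norm_le_iff_of_nonneg (by positivity)]
      intro j
      have h1 := hbd j
      rw [hfv, Pi.smul_apply, Pi.smul_apply, smul_eq_mul, smul_eq_mul, norm_mul, norm_mul] at h1
      have h2 : ‖f‖ * ‖(T s' (zw z)).mulVec Y j‖ ≤ ‖f‖ * (C * ‖(T s' (zw z)).mulVec Y 0‖) := by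
        calc ‖f‖ * ‖(T s' (zw z)).mulVec Y j‖ ≤ C * (‖f‖ * ‖(T s' (zw z)).mulVec Y 0‖) := h1
          _ = ‖f‖ * (C * ‖(T s' (zw z)).mulVec Y 0‖) := by ring
      have h3 := le_of_mul_le_mul_left h2 hfp
      refine h3.trans ?_
      have h4 : C ≤ |C| + 1 := by linarith [le_abs_self C]
      exact mul_le_mul_of_nonneg_right h4 (norm_nonneg _)
    rw [hst']
    have hK0 : K ≤ |K| := le_abs_self K
    calc ‖Y‖ ≤ K * ‖(T s' (zw z)).mulVec Y‖ := hK1
      _ ≤ |K| * ‖(T s' (zw z)).mulVec Y‖ := mul_le_mul_of_nonneg_right hK0 (norm_nonneg _)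
      _ ≤ |K| * ((|C| + 1) * ‖(T s' (zw z)).mulVec Y 0‖) :=
        mul_le_mul_of_nonneg_left hTY (abs_nonneg _)
      _ ≤ |K| * ((|C| + 1) * (|K| * ‖Y (st s').2.2‖)) := by
        refine mul_le_mul_of_nonneg_left (mul_le_mul_of_nonneg_left ?_ (by positivity))
          (abs_nonneg _)
        exact hK2.trans (mul_le_mul_of_nonneg_right hK0 (norm_nonneg _))
      _ = |K| * (|C| + 1) * |K| * ‖Y (st s').2.2‖ := by ring

/-- helper21's class theorem with restricted start states -/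
theorem zfd_of_pt {D : (Fin 3 × Fin 3 × Fin 3) → Prop} {p q r : ℕ} {x0 : ℝ} (hx : -2 < x0)
    {S B : Type} {src tgt : B → S} {M : B → ℂ → Mt} {T : S → ℂ → Mt}
    {st : S → Fin 3 × Fin 3 × Fin 3} {runs : B → List ℕ}
    (L : Link p q r x0 src tgt M T st runs) (Start : S → (ℂ → V) → Prop)
    (hM : ∀ b i j, ContinuousOn (fun w => M b w i j) (closure (Omg x0)) ∧
      DifferentiableOn ℂ (fun w => M b w i j) (Omg x0))
    (hstart : ∀ s v, Start s v → Reg (Omg x0) v ∧ ∀ w ∈ closure (Omg x0), v w 0 ≠ 0)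
    (K : B → TR B) (rk : B → ℕ) (hK : ∀ b, (K b).ok src M (Omg x0) rk b)
    (hc : ConjOK M Start K x0) (C : ℝ)
    (hpt : ∀ w ∈ Frt x0, 0 ≤ w.im → PT src tgt M Start K C w)
    (s0 : (Fin 3 × Fin 3 × Fin 3) → S) (hs0 : ∀ t, st (s0 t) = t)
    (F : (Fin 3 × Fin 3 × Fin 3) → Fin 3 → Fin 3 → ℝ[X])
    (hLI : ∀ (n a b : Fin 3), Dist n a b → D (n, a, b) → ∀ z : ℂ, ‖z‖ = 1 → x0 ≤ 2 * z.re →
      LinearIndependent ℂ (fun i => evv (F (n, a, b) i) z))
    (hF : ∀ (n a b : Fin 3), Dist n a b → D (n, a, b) → ∀ i : Fin 3,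
      ∃ v, Start (s0 (n, a, b)) v ∧ ∀ z, InX x0 z → ∃ f : ℂ, f ≠ 0 ∧
        v (zw z) = f • (T (s0 (n, a, b)) (zw z)).mulVec (evv (F (n, a, b) i) z))
    (parse : ∀ (n a b : Fin 3), Dist n a b → D (n, a, b) → ∀ ms : List ℕ,
      okD p q r false (n, a, b) ms →
      ∃ (bs : List B) (s' : S), BPath src tgt (s0 (n, a, b)) bs s' ∧
        (bs.map runs).flatten = ms) : ZFD D p q r x0 := by
  have hall : ∀ w ∈ frontier (Omg x0), PT src tgt M Start K C w := by
    intro w hw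
    have hw' : w ∈ Frt x0 := omg_frontier hw
    rcases le_total 0 w.im with hi | hi
    · exact hpt w hw' hi
    · have h1 := hc.pt (frt_conj hw') (hpt (starRingEnd ℂ w) (frt_conj hw') (by
        rw [Complex.conj_im]
        linarith))
      rw [Complex.conj_conj] at h1
      exact h1
  obtain ⟨h1, h2⟩ := pt_all (omg_open x0) hK hall
  exact zfd_of_regions L Start (omg_open x0) (omg_bounded hx) (fun z hz => zw_mem hx hz) hM hstart
    rk h1 C h2 s0 hs0 F hLI hF parse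

/-- the start functions in the `Y` chart `(v0, v1/om, v2/(om (1/2 - om)))` -/
def UY (al be e : ℝ) (i : Fin 3) : Fin 3 → ℂ :=
  ![1, ((![al, al + e, al] i : ℝ) : ℂ), ((![be, be, be + e] i : ℝ) : ℂ)]

/-- start clause of the class theorem: constant vectors in the `Y` chart at the states
`(s, false, none)` whose left star does not have order three -/
def StartY (p q r : ℕ) (al be e : ℝ) {τ : Type} (S : SSt τ) (v : ℂ → Fin 3 → ℂ) : Prop :=
  DG S.1 ∧ D4 p q r S.1 ∧ S.2.1 = false ∧ S.2.2 = none ∧ ∃ i, v = fun _ => UY al be e i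

/-- THE CLASS THEOREM for the standard blocks. The gauge `E` of the states `(s, false, none)` is the
`Y` chart. -/
theorem zf_class {p q r : ℕ} (hp : 3 ≤ p) (hq : 3 ≤ q) (hr : 3 ≤ r)
    (hne : ¬ (p = 3 ∧ q = 3 ∧ r = 3)) {x0 : ℝ} (hx : -2 < x0)
    {τ : Type} (Z : Sch τ) (E : SSt τ → ℂ → Mt) (M : SBlk Z p q r → ℂ → Mt)
    (L : Link p q r x0 SBlk.src SBlk.tgt M (fun s w => E s w * TM p q r s.1 w) (fun s => s.1)
      SBlk.runs)
    (al be e : ℝ) (he : e ≠ 0)
    (hE : ∀ s : GS, DG s → D4 p q r s → ∀ z : ℂ, InX x0 z → ∀ v : V3,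
      (E (s, false, none) (zw z)).mulVec v = ![v 0, v 1 / omS p q r s (zw z),
        v 2 / (omS p q r s (zw z) * (1 / 2 - omS p q r s (zw z)))])
    (hM : ∀ b i j, ContinuousOn (fun w => M b w i j) (closure (Omg x0)) ∧
      DifferentiableOn ℂ (fun w => M b w i j) (Omg x0))
    (K : SBlk Z p q r → TR (SBlk Z p q r)) (rk : SBlk Z p q r → ℕ)
    (hK : ∀ b, (K b).ok SBlk.src M (Omg x0) rk b)
    (hcm : ∀ b, ∀ w ∈ Frt x0, ∀ i j, M b (starRingEnd ℂ w) i j = starRingEnd ℂ (M b w i j))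
    (hck : ∀ b, ∀ w ∈ Frt x0, (K b).conjOK w (starRingEnd ℂ w)) (C : ℝ)
    (hpt : ∀ w ∈ Frt x0, 0 ≤ w.im →
      PT SBlk.src SBlk.tgt M (StartY p q r al be e) K C w) : ZF p q r x0 := by
  have hst : ∀ (S : SSt τ) v, StartY p q r al be e S v → ∃ i, v = fun _ => UY al be e i :=
    fun S v h => h.2.2.2.2
  refine ZF_of_ZFD hp hq hr hne (zfd_of_pt (D := D4 p q r) hx L (StartY p q r al be e) hM ?_ K rk
    hK ⟨hcm, hck, ?_⟩ C hpt (fun t => (t, false, none)) (fun t => rfl)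
    (fun s i => FSt p q r (![al, al + e, al] i) (![be, be, be + e] i) s.1 s.2.1 s.2.2)
    ?_ ?_ ?_)
  · intro S v hv
    obtain ⟨i, rfl⟩ := hst S v hv
    refine ⟨fun j => ⟨continuousOn_const, differentiableOn_const _⟩, fun w _ => ?_⟩
    simp [UY]
  · intro S v hv w _
    obtain ⟨i, rfl⟩ := hst S v hv
    funext j
    show UY al be e i j = starRingEnd ℂ (UY al be e i j)
    fin_cases j <;> simp [UY]
  · intro n a b hd _ z hz hxz
    have hz0 : z ≠ 0 := by
      intro h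
      rw [h, norm_zero] at hz
      exact zero_ne_one hz
    refine FSt_indep p q r hp hq hr al be e he hd z hz0 ?_
    have h3 : z⁻¹ = star z := by
      rw [Complex.inv_def, Complex.normSq_eq_norm_sq, hz]
      simp
    rw [h3, Complex.add_re]
    have h4 : (star z).re = z.re := rfl
    rw [h4]
    linarith
  · intro n a b hd hD i
    refine ⟨fun _ => UY al be e i, ⟨hd, hD, rfl, rfl, i, rfl⟩, fun z hz => ?_⟩
    obtain ⟨f, hf, e1⟩ := fst_TM hp hq hr hx (s := (n, a, b)) hd hz (![al, al + e, al] i)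
      (![be, be, be + e] i)
    have hl := lamS_pos hp hq hr hd
    obtain ⟨g1, g2, g3⟩ := LNI_Gh hp hq hr hx hz (s := (n, a, b)) hd
    have ht : 1 / 2 - omS p q r (n, a, b) (zw z) ≠ 0 := by
      obtain ⟨k1, k2⟩ := LNI_om hx hz (oriZ (n, a, b)) (lamS (kk p q r) n a b) hl
      have k2' : omS p q r (n, a, b) (zw z) = _ := k2
      rw [k2']
      have hl' : (lamS (kk p q r) n a b : ℂ) ≠ 0 := by exact_mod_cast hl.ne'
      have hu : (if oriZ (n, a, b) = true then z else z⁻¹) ≠ 0 := by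
        split_ifs
        · exact hz.1
        · exact inv_ne_zero hz.1
      generalize (if oriZ (n, a, b) = true then z else z⁻¹) = u at k1 hu
      have e3 : 1 / 2 - 1 / (2 * (1 + (lamS (kk p q r) n a b : ℂ) * u)) =
          (lamS (kk p q r) n a b : ℂ) * u / (2 * (1 + (lamS (kk p q r) n a b : ℂ) * u)) := by
        field_simp
        ring
      rw [e3]
      exact div_ne_zero (mul_ne_zero hl' hu) (mul_ne_zero two_ne_zero k1)
    refine ⟨f⁻¹, inv_ne_zero hf, ?_⟩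
    show UY al be e i = f⁻¹ • (E ((n, a, b), false, none) (zw z) *
      TM p q r (n, a, b) (zw z)).mulVec _
    rw [← Matrix.mulVec_mulVec, e1, hE (n, a, b) hd hD z hz]
    funext j
    fin_cases j
    · simp [UY, hf]
    · simp [UY]
      field_simp
    · have h6 : 1 - omS p q r (n, a, b) (zw z) * 2 ≠ 0 := by
        intro h
        apply ht
        linear_combination h / 2
      simp [UY]
      field_simp
  · intro n a b hd _ ms hok
    exact Pool.Agent.Helper21.SUP.parse_sblk Z p q r n a b hd ms hok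

end Pool.Agent.Helper6.MONO.SV
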