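import Pool.Agent.Helper12.CX.LPL

/-!
Row XTB: the threshold `xB` as a model: quadratic controls in the three variables `κ`;
sign of the discriminant at `Q + e` as a polynomial in `ρ = t / (1 - t)`.
-/

set_option autoImplicit false
noncomputable section
namespace Pool.Agent.Helper6.MONO.XTH

abbrev P3 : Type := List (List (ℤ × ℕ))
def L3 : LR P3 := LZ.up.up

def pa (A B : P3) : P3 := L3.add A B
def pm (A B : P3) : P3 := L3.mul A B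
def mz (L : List ℤ) : ℤ × ℕ := (lval WW L, lone L)
def pc (c : ℤ) : P3 := [[mz [c]]]

/-- the three factors `1 + ρ` -/
def pE0 : P3 := [[mz [1]], [mz [1]]]
def pE1 : P3 := [[mz [1], mz [1]]]
def pE2 : P3 := [[mz [1, 1]]]
def pD (A : P3) : P3 := pm pE0 (pm pE1 (pm pE2 A))

/-- evaluation -/
def R3 (x y z : ℝ) : P3 → ℝ → Prop := PRel (PRel (ZRel z) y) x

theorem L3_ok {x y z : ℝ} (hx : 0 ≤ x) (hy : 0 ≤ y) (hz : 0 ≤ z) : L3.Ok (R3 x y z) :=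
  ((LZ_ok hz).up hy).up hx

theorem mz_rel (z : ℝ) (L : List ℤ) : ZRel z (mz L) (lev z L) := ⟨L, rfl, le_rfl, rfl⟩

theorem pc_rel (x y z : ℝ) (c : ℤ) : R3 x y z (pc c) (c : ℝ) := by
  refine ⟨c, 0, ⟨c, 0, ?_, rfl, by ring⟩, rfl, by ring⟩
  have := mz_rel z [c]
  simpa [lev] using this

/-- a product of linear factors -/
theorem lin0_rel (x y z : ℝ) (a b : ℤ) : R3 x y z [[mz [a]], [mz [b]]] (a + b * x) := by
  refine ⟨a, b, ⟨a, 0, ?_, rfl, by ring⟩, ⟨b, 0, ⟨b, 0, ?_, rfl, by ring⟩, rfl, by ring⟩,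
    by ring⟩
  · have := mz_rel z [a]
    simpa [lev] using this
  · have := mz_rel z [b]
    simpa [lev] using this

theorem lin1_rel (x y z : ℝ) (a b : ℤ) : R3 x y z [[mz [a], mz [b]]] (a + b * y) := by
  refine ⟨a + b * y, 0, ⟨a, b, ?_, ⟨b, 0, ?_, rfl, by ring⟩, by ring⟩, rfl, by ring⟩
  · have := mz_rel z [a]
    simpa [lev] using this
  · have := mz_rel z [b]
    simpa [lev] using this

theorem lin2_rel (x y z : ℝ) (a b : ℤ) : R3 x y z [[mz [a, b]]] (a + b * z) := by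
  refine ⟨a + b * z, 0, ⟨a + b * z, 0, ?_, rfl, by ring⟩, rfl, by ring⟩
  have := mz_rel z [a, b]
  have e : lev z [a, b] = a + b * z := by
    simp only [lev]
    ring
  rwa [e] at this

section
variable {x y z : ℝ} (hx : 0 ≤ x) (hy : 0 ≤ y) (hz : 0 ≤ z)

include hx hy hz in
theorem R3.add {A B : P3} {u v : ℝ} (hA : R3 x y z A u) (hB : R3 x y z B v) :
    R3 x y z (pa A B) (u + v) := (L3_ok hx hy hz).add A B u v hA hB

include hx hy hz in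
theorem R3.mul {A B : P3} {u v : ℝ} (hA : R3 x y z A u) (hB : R3 x y z B v) :
    R3 x y z (pm A B) (u * v) := (L3_ok hx hy hz).mul A B u v hA hB

include hx hy hz in
theorem R3.D {A : P3} {u : ℝ} (hA : R3 x y z A u) :
    R3 x y z (pD A) ((1 + x) * (1 + y) * (1 + z) * u) := by
  have e0 := lin0_rel x y z 1 1
  have e1 := lin1_rel x y z 1 1
  have e2 := lin2_rel x y z 1 1
  have h := R3.mul hx hy hz e0 (R3.mul hx hy hz e1 (R3.mul hx hy hz e2 hA))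
  have e : (1 + x) * (1 + y) * (1 + z) * u =
      (((1 : ℤ) : ℝ) + ((1 : ℤ) : ℝ) * x) * ((((1 : ℤ) : ℝ) + ((1 : ℤ) : ℝ) * y) *
        ((((1 : ℤ) : ℝ) + ((1 : ℤ) : ℝ) * z) * u)) := by
    push_cast
    ring
  rw [e]
  exact h

end

/-- `2^144 D κ₀κ₁κ₂` -/
def pA (l h : Fin 3 → ℤ) : P3 :=
  pm [[mz [l 0]], [mz [h 0]]] (pm [[mz [l 1], mz [h 1]]] [[mz [l 2, h 2]]])

/-- `2^96 D² S` -/
def pS (l h : Fin 3 → ℤ) : P3 :=
  let a0 : P3 := pm [[mz [l 0]], [mz [h 0]]] (pm pE1 pE2)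
  let a1 : P3 := pm [[mz [l 1], mz [h 1]]] (pm pE0 pE2)
  let a2 : P3 := pm [[mz [l 2, h 2]]] (pm pE0 pE1)
  let d : P3 := pD (pc 1)
  pa (pa (pm a0 a0) (pm a1 a1)) (pa (pm a2 a2) (pm (pc (-3 * 2 ^ 96)) (pm d d)))

/-- `2^48 D² Q` -/
def pQ (X : Fin 3 → Fin 3 → Fin 3 → ℤ) : P3 :=
  [[mz [X 0 0 0, 2 * X 0 0 1, X 0 0 2], mz [2 * X 0 1 0, 4 * X 0 1 1, 2 * X 0 1 2],
    mz [X 0 2 0, 2 * X 0 2 1, X 0 2 2]],
   [mz [2 * X 1 0 0, 4 * X 1 0 1, 2 * X 1 0 2], mz [4 * X 1 1 0, 8 * X 1 1 1, 4 * X 1 1 2],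
    mz [2 * X 1 2 0, 4 * X 1 2 1, 2 * X 1 2 2]],
   [mz [X 2 0 0, 2 * X 2 0 1, X 2 0 2], mz [2 * X 2 1 0, 4 * X 2 1 1, 2 * X 2 1 2],
    mz [X 2 2 0, 2 * X 2 2 1, X 2 2 2]]]

/-- the discriminant, Horner scheme in `D` -/
def pF (S Y A2 : P3) : P3 :=
  let S2 := pm S S
  let SA2 := pm S A2
  let Y2 := pm Y Y
  let P := pa (pD (pm (pc (2 ^ 96)) S2)) (pa (pD (pD (pD A2))) (pm S Y))
  let T := pD (pD (pD (pD (pc (-27 * 2 ^ 576)))))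
  let T := pD (pa T (pm (pc (-24 * 2 ^ 192)) SA2))
  let T := pD (pa T (pa (pm (pc (-12 * 2 ^ 96)) (pm A2 Y)) (pm (pc (18 * 2 ^ 288)) P)))
  let T := pD (pa T (pm (pc (8 * 2 ^ 288)) (pm S S2)))
  let T := pD (pa T (pm (pc (12 * 2 ^ 192)) (pm S2 Y)))
  let T := pD (pa T (pm (pc (12 * 2 ^ 96)) (pm S Y2)))
  let T := pD (pa T (pm (pc 4) (pm Y Y2)))
  pa T (pm P P)

/-- quadratic monomials in `ρ` -/
def Mq (x : ℝ) : Fin 3 → ℝ := ![1, 2 * x, x ^ 2]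

/-- the value of `pQ` -/
def qv (X : Fin 3 → Fin 3 → Fin 3 → ℤ) (x y z : ℝ) : ℝ :=
  ∑ a, ∑ b, ∑ c, Mq x a * Mq y b * Mq z c * (X a b c : ℝ)

theorem pQ_rel (x y z : ℝ) (X : Fin 3 → Fin 3 → Fin 3 → ℤ) : R3 x y z (pQ X) (qv X x y z) := by
  have m := fun L => mz_rel z L
  refine ⟨_, _, ⟨_, _, m _, ⟨_, _, m _, ⟨_, _, m _, rfl, rfl⟩, rfl⟩, rfl⟩,
    ⟨_, _, ⟨_, _, m _, ⟨_, _, m _, ⟨_, _, m _, rfl, rfl⟩, rfl⟩, rfl⟩,
    ⟨_, _, ⟨_, _, m _, ⟨_, _, m _, ⟨_, _, m _, rfl, rfl⟩, rfl⟩, rfl⟩, rfl, rfl⟩, rfl⟩, ?_⟩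
  simp only [lev, qv, Mq, Fin.sum_univ_three, Matrix.cons_val_zero, Matrix.cons_val_one,
    Matrix.cons_val]
  push_cast
  ring

theorem pE0_rel (x y z : ℝ) : R3 x y z pE0 (1 + x) := by
  have := lin0_rel x y z 1 1
  simpa [pE0] using this

theorem pE1_rel (x y z : ℝ) : R3 x y z pE1 (1 + y) := by
  have := lin1_rel x y z 1 1
  simpa [pE1] using this

theorem pE2_rel (x y z : ℝ) : R3 x y z pE2 (1 + z) := by
  have := lin2_rel x y z 1 1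
  simpa [pE2] using this

def isPos (P : P3) : Bool := L3.nn P

theorem isPos_sound {x y z : ℝ} (hx : 0 ≤ x) (hy : 0 ≤ y) (hz : 0 ≤ z) {P : P3} {v : ℝ}
    (h : R3 x y z P v) (hP : isPos P = true) : 0 ≤ v := (L3_ok hx hy hz).nn P v h hP

/-- `f (Q - r) < 0` (strict from the constant term) and `f (Q + r) ≥ 0` -/
def chkB (l h : Fin 3 → ℤ) (X : Fin 3 → Fin 3 → Fin 3 → ℤ) (r : ℤ) : Bool :=
  let S := pS l h
  let A := pA l h
  let A2 := pm A A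
  let d : P3 := pD (pc 1)
  let d2 := pm (pc r) (pm d d)
  let q := pQ X
  let Y1 := pm A (pa q d2)
  let Y0 := pm A (pa q (pm (pc (-1)) d2))
  isPos (pF S Y1 A2) && isPos (pa (pc (-1)) (pm (pc (-1)) (pF S Y0 A2)))

/-! ### soundness -/

/-- value of the Horner scheme; `u = 2^48` -/
def vF (u D S Y A2 : ℝ) : ℝ :=
  D * (D * (D * (D * (D * (D * (D * (D * (D * (D * (-27 * u ^ 12)))) + -24 * u ^ 4 * (S * A2)) +
    (-12 * u ^ 2 * (A2 * Y) + 18 * u ^ 6 * (D * (u ^ 2 * (S * S)) +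
      (D * (D * (D * A2)) + S * Y)))) + 8 * u ^ 6 * (S * (S * S))) +
    12 * u ^ 4 * (S * S * Y)) + 12 * u ^ 2 * (S * (Y * Y))) + 4 * (Y * (Y * Y))) +
    (D * (u ^ 2 * (S * S)) + (D * (D * (D * A2)) + S * Y)) *
      (D * (u ^ 2 * (S * S)) + (D * (D * (D * A2)) + S * Y))

theorem vF_eq (u D S K Q : ℝ) : vF u D (u ^ 2 * D ^ 2 * S) (u ^ 3 * D * K * (u * D ^ 2 * Q))
    (u ^ 3 * D * K * (u ^ 3 * D * K)) = u ^ 12 * D ^ 10 * fBx S K Q := by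
  unfold vF fBx
  ring

attribute [local irreducible] pa pm pD pc mz R3

theorem pcv_rel (x y z : ℝ) (c : ℤ) (v : ℝ) (h : (c : ℝ) = v) : R3 x y z (pc c) v := by
  rw [← h]
  exact pc_rel x y z c

section
variable {x y z : ℝ} (hx : 0 ≤ x) (hy : 0 ≤ y) (hz : 0 ≤ z)

include hx hy hz in
theorem pF_rel {S Y A2 : P3} {s v a : ℝ} (hS : R3 x y z S s) (hY : R3 x y z Y v)
    (hA : R3 x y z A2 a) :
    R3 x y z (pF S Y A2) (vF (2 ^ 48) ((1 + x) * (1 + y) * (1 + z)) s v a) := by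
  have c := pcv_rel x y z
  have k1 := R3.mul hx hy hz hS hS
  have k2 := R3.mul hx hy hz hS hA
  have k3 := R3.mul hx hy hz hY hY
  have kP := R3.add hx hy hz (R3.D hx hy hz (R3.mul hx hy hz
      (c (2 ^ 96) (((2 : ℝ) ^ 48) ^ 2) (by norm_num)) k1))
    (R3.add hx hy hz (R3.D hx hy hz (R3.D hx hy hz (R3.D hx hy hz hA))) (R3.mul hx hy hz hS hY))
  have T0 := R3.D hx hy hz (R3.D hx hy hz (R3.D hx hy hz (R3.D hx hy hz
    (c (-27 * 2 ^ 576) (-27 * ((2 : ℝ) ^ 48) ^ 12) (by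
      push_cast
      rw [← pow_mul])))))
  have T1 := R3.D hx hy hz (R3.add hx hy hz T0 (R3.mul hx hy hz
    (c (-24 * 2 ^ 192) (-24 * ((2 : ℝ) ^ 48) ^ 4) (by norm_num)) k2))
  have T2 := R3.D hx hy hz (R3.add hx hy hz T1 (R3.add hx hy hz
    (R3.mul hx hy hz (c (-12 * 2 ^ 96) (-12 * ((2 : ℝ) ^ 48) ^ 2) (by norm_num))
      (R3.mul hx hy hz hA hY))
    (R3.mul hx hy hz (c (18 * 2 ^ 288) (18 * ((2 : ℝ) ^ 48) ^ 6) (by
      push_cast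
      rw [← pow_mul])) kP)))
  have T3 := R3.D hx hy hz (R3.add hx hy hz T2
    (R3.mul hx hy hz (c (8 * 2 ^ 288) (8 * ((2 : ℝ) ^ 48) ^ 6) (by
      push_cast
      rw [← pow_mul])) (R3.mul hx hy hz hS k1)))
  have T4 := R3.D hx hy hz (R3.add hx hy hz T3
    (R3.mul hx hy hz (c (12 * 2 ^ 192) (12 * ((2 : ℝ) ^ 48) ^ 4) (by norm_num))
      (R3.mul hx hy hz k1 hY)))
  have T5 := R3.D hx hy hz (R3.add hx hy hz T4
    (R3.mul hx hy hz (c (12 * 2 ^ 96) (12 * ((2 : ℝ) ^ 48) ^ 2) (by norm_num))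
      (R3.mul hx hy hz hS k3)))
  have T6 := R3.D hx hy hz (R3.add hx hy hz T5
    (R3.mul hx hy hz (c 4 4 (by norm_num)) (R3.mul hx hy hz hY k3)))
  have T7 := R3.add hx hy hz T6 (R3.mul hx hy hz kP kP)
  unfold pF vF
  exact T7

include hx hy hz in
theorem pA_rel (l h : Fin 3 → ℤ) : R3 x y z (pA l h)
    ((l 0 + h 0 * x) * ((l 1 + h 1 * y) * (l 2 + h 2 * z))) :=
  R3.mul hx hy hz (lin0_rel x y z _ _) (R3.mul hx hy hz (lin1_rel x y z _ _)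
    (lin2_rel x y z _ _))

include hx hy hz in
theorem pS_rel (l h : Fin 3 → ℤ) : R3 x y z (pS l h)
    (((l 0 + h 0 * x) * ((1 + y) * (1 + z)) * ((l 0 + h 0 * x) * ((1 + y) * (1 + z))) +
      (l 1 + h 1 * y) * ((1 + x) * (1 + z)) * ((l 1 + h 1 * y) * ((1 + x) * (1 + z)))) +
      ((l 2 + h 2 * z) * ((1 + x) * (1 + y)) * ((l 2 + h 2 * z) * ((1 + x) * (1 + y))) +
      -3 * (2 ^ 48) ^ 2 * (((1 + x) * (1 + y) * (1 + z) * 1) *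
        ((1 + x) * (1 + y) * (1 + z) * 1)))) := by
  have e0 := pE0_rel x y z
  have e1 := pE1_rel x y z
  have e2 := pE2_rel x y z
  have a0 := R3.mul hx hy hz (lin0_rel x y z (l 0) (h 0)) (R3.mul hx hy hz e1 e2)
  have a1 := R3.mul hx hy hz (lin1_rel x y z (l 1) (h 1)) (R3.mul hx hy hz e0 e2)
  have a2 := R3.mul hx hy hz (lin2_rel x y z (l 2) (h 2)) (R3.mul hx hy hz e0 e1)
  have d := R3.D hx hy hz (pcv_rel x y z 1 1 (by norm_num))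
  exact R3.add hx hy hz (R3.add hx hy hz (R3.mul hx hy hz a0 a0) (R3.mul hx hy hz a1 a1))
    (R3.add hx hy hz (R3.mul hx hy hz a2 a2) (R3.mul hx hy hz
      (pcv_rel x y z (-3 * 2 ^ 96) (-3 * (2 ^ 48) ^ 2) (by norm_num)) (R3.mul hx hy hz d d)))

end

/-- the sum of squares, scaled -/
theorem eS_of {c0 c1 c2 x y z a0 a1 a2 : ℝ} (h0 : a0 = 2 ^ 48 * c0 * (1 + x))
    (h1 : a1 = 2 ^ 48 * c1 * (1 + y)) (h2 : a2 = 2 ^ 48 * c2 * (1 + z)) :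
    (a0 * ((1 + y) * (1 + z)) * (a0 * ((1 + y) * (1 + z))) +
      a1 * ((1 + x) * (1 + z)) * (a1 * ((1 + x) * (1 + z)))) +
      (a2 * ((1 + x) * (1 + y)) * (a2 * ((1 + x) * (1 + y))) +
      -3 * (2 ^ 48) ^ 2 * (((1 + x) * (1 + y) * (1 + z) * 1) *
        ((1 + x) * (1 + y) * (1 + z) * 1))) =
    (2 ^ 48) ^ 2 * ((1 + x) * (1 + y) * (1 + z)) ^ 2 * (c0 ^ 2 + c1 ^ 2 + c2 ^ 2 - 3) := by
  subst h0 h1 h2
  generalize (2 : ℝ) ^ 48 = u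
  ring

theorem eA_of {c0 c1 c2 x y z a0 a1 a2 : ℝ} (h0 : a0 = 2 ^ 48 * c0 * (1 + x))
    (h1 : a1 = 2 ^ 48 * c1 * (1 + y)) (h2 : a2 = 2 ^ 48 * c2 * (1 + z)) :
    a0 * (a1 * a2) = (2 ^ 48) ^ 3 * ((1 + x) * (1 + y) * (1 + z)) * (c0 * c1 * c2) := by
  subst h0 h1 h2
  generalize (2 : ℝ) ^ 48 = u
  ring

theorem vF_pos {D S K Q a s k : ℝ} (hD : 0 < D) (hs : s = (2 ^ 48) ^ 2 * D ^ 2 * S)
    (ha : a = (2 ^ 48) ^ 3 * D * K) (hk : k = 2 ^ 48 * D ^ 2 * Q)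
    (h : 0 ≤ vF (2 ^ 48) D s (a * k) (a * a)) : 0 ≤ fBx S K Q := by
  subst hs ha hk
  rw [vF_eq] at h
  exact nonneg_of_mul_nonneg_right h (by positivity)

theorem vF_neg {D S K Q a s k : ℝ} (hD : 0 < D) (hs : s = (2 ^ 48) ^ 2 * D ^ 2 * S)
    (ha : a = (2 ^ 48) ^ 3 * D * K) (hk : k = 2 ^ 48 * D ^ 2 * Q)
    (h : 0 ≤ -1 + -1 * vF (2 ^ 48) D s (a * k) (a * a)) : fBx S K Q < 0 := by
  subst hs ha hk
  rw [vF_eq] at h
  by_contra hn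
  push Not at hn
  have := mul_nonneg (show (0 : ℝ) ≤ (2 ^ 48) ^ 12 * D ^ 10 by positivity) hn
  linarith

/-- SOUNDNESS, in the variable `ρ` -/
theorem chkB_rho {l h : Fin 3 → ℤ} {X : Fin 3 → Fin 3 → Fin 3 → ℤ} {r : ℤ}
    (hc : chkB l h X r = true) {x y z : ℝ} (hx : 0 ≤ x) (hy : 0 ≤ y) (hz : 0 ≤ z)
    {c0 c1 c2 Q : ℝ} (h0 : l 0 + h 0 * x = 2 ^ 48 * c0 * (1 + x))
    (h1 : l 1 + h 1 * y = 2 ^ 48 * c1 * (1 + y)) (h2 : l 2 + h 2 * z = 2 ^ 48 * c2 * (1 + z))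
    (hQ : R3 x y z (pQ X) (2 ^ 48 * ((1 + x) * (1 + y) * (1 + z)) ^ 2 * Q)) :
    0 ≤ fBx (c0 ^ 2 + c1 ^ 2 + c2 ^ 2 - 3) (c0 * c1 * c2) (Q + r / 2 ^ 48) ∧
      fBx (c0 ^ 2 + c1 ^ 2 + c2 ^ 2 - 3) (c0 * c1 * c2) (Q - r / 2 ^ 48) < 0 := by
  unfold chkB at hc
  obtain ⟨k1, k2⟩ := (Bool.and_eq_true _ _).mp hc
  have hS := pS_rel hx hy hz l h
  have hA := pA_rel hx hy hz l h
  have d := R3.D hx hy hz (pcv_rel x y z 1 1 (by norm_num))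
  have d2 := R3.mul hx hy hz (pcv_rel x y z r (r : ℝ) rfl) (R3.mul hx hy hz d d)
  have hDp : 0 < (1 + x) * (1 + y) * (1 + z) := by positivity
  constructor
  · have F := isPos_sound hx hy hz (pF_rel hx hy hz hS
      (R3.mul hx hy hz hA (R3.add hx hy hz hQ d2)) (R3.mul hx hy hz hA hA)) k1
    refine vF_pos hDp (eS_of h0 h1 h2) (eA_of h0 h1 h2) ?_ F
    generalize (1 + x) * (1 + y) * (1 + z) = D
    ring
  · have F := isPos_sound hx hy hz (R3.add hx hy hz (pcv_rel x y z (-1) (-1 : ℝ) (by norm_num))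
      (R3.mul hx hy hz (pcv_rel x y z (-1) (-1 : ℝ) (by norm_num))
        (pF_rel hx hy hz hS (R3.mul hx hy hz hA (R3.add hx hy hz hQ
          (R3.mul hx hy hz (pcv_rel x y z (-1) (-1 : ℝ) (by norm_num)) d2)))
          (R3.mul hx hy hz hA hA)))) k2
    refine vF_neg hDp (eS_of h0 h1 h2) (eA_of h0 h1 h2) ?_ F
    generalize (1 + x) * (1 + y) * (1 + z) = D
    ring

theorem Mq_eq {t : ℝ} (h : 1 - t ≠ 0) (a : Fin 3) :
    (1 / (1 - t)) ^ 2 * Bq t a = Mq (t / (1 - t)) a := by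
  fin_cases a <;> simp [Bq, Mq] <;> field_simp

theorem pQ_val (X : Fin 3 → Fin 3 → Fin 3 → ℤ) {t u v : ℝ} (ht : 1 - t ≠ 0) (hu : 1 - u ≠ 0)
    (hv : 1 - v ≠ 0) : R3 (t / (1 - t)) (u / (1 - u)) (v / (1 - v)) (pQ X)
    (2 ^ 48 * ((1 + t / (1 - t)) * (1 + u / (1 - u)) * (1 + v / (1 - v))) ^ 2 *
      (Qf X t u v / 2 ^ 48)) := by
  have et : 1 + t / (1 - t) = 1 / (1 - t) := by
    field_simp
    ring
  have eu : 1 + u / (1 - u) = 1 / (1 - u) := by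
    field_simp
    ring
  have ev : 1 + v / (1 - v) = 1 / (1 - v) := by
    field_simp
    ring
  have e : 2 ^ 48 * ((1 + t / (1 - t)) * (1 + u / (1 - u)) * (1 + v / (1 - v))) ^ 2 *
      (Qf X t u v / 2 ^ 48) = ∑ a, ∑ b, ∑ c, Mq (t / (1 - t)) a * Mq (u / (1 - u)) b *
      Mq (v / (1 - v)) c * (X a b c : ℝ) := by
    rw [et, eu, ev]
    simp only [Qf, Finset.mul_sum, Finset.sum_div]
    refine Finset.sum_congr rfl fun a _ => Finset.sum_congr rfl fun b _ =>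
      Finset.sum_congr rfl fun c _ => ?_
    rw [← Mq_eq ht a, ← Mq_eq hu b, ← Mq_eq hv c]
    ring
  rw [e]
  exact pQ_rel (t / (1 - t)) (u / (1 - u)) (v / (1 - v)) X

/-- SOUNDNESS -/
theorem chkB_sound {l h : Fin 3 → ℤ} {X : Fin 3 → Fin 3 → Fin 3 → ℤ} {r : ℤ}
    (hc : chkB l h X r = true) {t u v c0 c1 c2 : ℝ} (ht : 0 ≤ t ∧ t < 1) (hu : 0 ≤ u ∧ u < 1)
    (hv : 0 ≤ v ∧ v < 1) (h0 : c0 = ((1 - t) * l 0 + t * h 0) / 2 ^ 48)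
    (h1 : c1 = ((1 - u) * l 1 + u * h 1) / 2 ^ 48)
    (h2 : c2 = ((1 - v) * l 2 + v * h 2) / 2 ^ 48) :
    0 ≤ fBx (c0 ^ 2 + c1 ^ 2 + c2 ^ 2 - 3) (c0 * c1 * c2)
        (Qf X t u v / 2 ^ 48 + r / 2 ^ 48) ∧
      fBx (c0 ^ 2 + c1 ^ 2 + c2 ^ 2 - 3) (c0 * c1 * c2)
        (Qf X t u v / 2 ^ 48 - r / 2 ^ 48) < 0 := by
  have t1 : 0 < 1 - t := by linarith [ht.2]
  have u1 : 0 < 1 - u := by linarith [hu.2]
  have v1 : 0 < 1 - v := by linarith [hv.2]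
  have et : 1 + t / (1 - t) = 1 / (1 - t) := by
    field_simp
    ring
  have eu : 1 + u / (1 - u) = 1 / (1 - u) := by
    field_simp
    ring
  have ev : 1 + v / (1 - v) = 1 / (1 - v) := by
    field_simp
    ring
  refine chkB_rho hc (x := t / (1 - t)) (y := u / (1 - u)) (z := v / (1 - v))
    (div_nonneg ht.1 t1.le) (div_nonneg hu.1 u1.le) (div_nonneg hv.1 v1.le) ?_ ?_ ?_
    (pQ_val X t1.ne' u1.ne' v1.ne')
  · rw [et, h0]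
    field_simp
  · rw [eu, h1]
    field_simp
  · rw [ev, h2]
    field_simp

end Pool.Agent.Helper6.MONO.XTH
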