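import Pool.Agent.Helper12.CX.XTB
import Pool.Agent.Helper12.CX.THR

/-!
Row XTC: boxes with both kinds of thresholds. The discriminant is convex to the right of `Q - r`,
so that `Q + r < xA` gives the threshold `xA` and otherwise the threshold lies in `[Q - r, Q + r]`.
-/

set_option autoImplicit false
noncomputable section
namespace Pool.Agent.Helper6.MONO

/-- convexity of the cubic -/
theorem fBx_right {S K a b : ℝ} (hK : 0 < K) (hI : 0 ≤ 12 * K * a + S ^ 2 + 12 * S)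
    (hab : a < b) (ha : fBx S K a < 0) (hb : 0 ≤ fBx S K b) {x : ℝ} (hx : b ≤ x) :
    0 ≤ fBx S K x := by
  rcases hx.eq_or_lt with rfl | hx
  · exact hb
  have e : (b - a) * fBx S K x = (x - a) * fBx S K b - (x - b) * fBx S K a +
      (b - a) * (x - a) * (x - b) * (K ^ 2 * (4 * K * (a + b + x) + S ^ 2 + 12 * S)) := by
    unfold fBx
    ring
  have h1 : 0 ≤ 4 * K * (a + b + x) + S ^ 2 + 12 * S := by nlinarith
  have h2 : 0 ≤ (b - a) * (x - a) * (x - b) * (K ^ 2 * (4 * K * (a + b + x) + S ^ 2 + 12 * S)) :=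
    mul_nonneg (mul_nonneg (mul_nonneg (by linarith) (by linarith)) (by linarith))
      (mul_nonneg (by positivity) h1)
  have h3 : 0 ≤ (x - a) * fBx S K b := mul_nonneg (by linarith) hb
  have h4 : 0 ≤ -((x - b) * fBx S K a) := by
    have := mul_pos_of_neg_of_neg (neg_neg_of_pos (sub_pos.2 hx)) ha
    nlinarith
  have h5 : 0 ≤ (b - a) * fBx S K x := by
    rw [e]
    linarith
  exact nonneg_of_mul_nonneg_right h5 (by linarith)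

/-- one triple with numbers: threshold `xA` if `b < xA`, otherwise in `[a, b]` -/
theorem cert_box {p q r : ℕ} (hp : 3 ≤ p) (hpq : p ≤ q) (hqr : q ≤ r) {a b : ℝ} (hab : a < b)
    (h2 : -2 < a) (hb2 : b ≤ 2)
    (hI : 0 ≤ 12 * (Kp p * Kp q * Kp r) * a + (Kp p ^ 2 + Kp q ^ 2 + Kp r ^ 2 - 3) ^ 2 +
      12 * (Kp p ^ 2 + Kp q ^ 2 + Kp r ^ 2 - 3))
    (ha : fB p q r a < 0) (hb : 0 ≤ fB p q r b)
    (hA : b < xA p q r → Thr p q r (xA p q r) → ZF p q r (xA p q r))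
    (hB : ∀ x0 : ℝ, a ≤ x0 → x0 ≤ b → Thr p q r x0 → ZF p q r x0) : CertAt p q r := by
  have hq : 3 ≤ q := hp.trans hpq
  have hr : 3 ≤ r := hq.trans hqr
  rcases le_or_gt (xA p q r) b with h | h
  · exact certB hp hpq hqr a b h2 hab.le hb2 (Or.inr ha) h hb hB
  · refine certA hp hpq hqr (hA h ?_)
    obtain ⟨k1, k2⟩ := xA_max' hp hpq hqr
    refine ⟨xA_gt hp hq hqr, xA_le2 hp hq hr, le_rfl, k2, k1, ?_, Or.inl rfl⟩
    have hK : 0 < Kp p * Kp q * Kp r := by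
      have h1 := Kp_ge1 hp
      have h2 := Kp_ge1 hq
      have h3 := Kp_ge1 hr
      positivity
    rw [fB_eq] at ha hb ⊢
    exact fBx_right hK hI hab ha hb h.le

namespace XTH

/-- test of convexity: `12 K (Q - r) + S² + 12 S ≥ 0` -/
def chkI (l h : Fin 3 → ℤ) (X : Fin 3 → Fin 3 → Fin 3 → ℤ) (r : ℤ) : Bool :=
  let S := pS l h
  let d : P3 := pD (pc 1)
  let d2 := pm (pc (-r)) (pm d d)
  let Y := pm (pA l h) (pa (pQ X) d2)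
  isPos (pa (pD (pm (pc 12) Y)) (pa (pm S S) (pm (pc (12 * 2 ^ 96)) (pD (pD S)))))

attribute [local irreducible] pa pm pD pc mz R3

theorem chkI_rho {l h : Fin 3 → ℤ} {X : Fin 3 → Fin 3 → Fin 3 → ℤ} {r : ℤ}
    (hc : chkI l h X r = true) {x y z : ℝ} (hx : 0 ≤ x) (hy : 0 ≤ y) (hz : 0 ≤ z)
    {c0 c1 c2 Q : ℝ} (h0 : l 0 + h 0 * x = 2 ^ 48 * c0 * (1 + x))
    (h1 : l 1 + h 1 * y = 2 ^ 48 * c1 * (1 + y)) (h2 : l 2 + h 2 * z = 2 ^ 48 * c2 * (1 + z))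
    (hQ : R3 x y z (pQ X) (2 ^ 48 * ((1 + x) * (1 + y) * (1 + z)) ^ 2 * Q)) :
    0 ≤ 12 * (c0 * c1 * c2) * (Q - r / 2 ^ 48) + (c0 ^ 2 + c1 ^ 2 + c2 ^ 2 - 3) ^ 2 +
      12 * (c0 ^ 2 + c1 ^ 2 + c2 ^ 2 - 3) := by
  unfold chkI at hc
  have hS := pS_rel hx hy hz l h
  have hA := pA_rel hx hy hz l h
  have d := R3.D hx hy hz (pcv_rel x y z 1 1 (by norm_num))
  have d2 := R3.mul hx hy hz (pcv_rel x y z (-r) (-(r : ℝ)) (by push_cast; ring))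
    (R3.mul hx hy hz d d)
  have hY := R3.mul hx hy hz hA (R3.add hx hy hz hQ d2)
  have hT := isPos_sound hx hy hz (R3.add hx hy hz
    (R3.D hx hy hz (R3.mul hx hy hz (pcv_rel x y z 12 12 (by norm_num)) hY))
    (R3.add hx hy hz (R3.mul hx hy hz hS hS)
      (R3.mul hx hy hz (pcv_rel x y z (12 * 2 ^ 96) (12 * (2 ^ 48) ^ 2) (by norm_num))
        (R3.D hx hy hz (R3.D hx hy hz hS))))) hc
  rw [h0, h1, h2] at hT
  have hDp : 0 < (1 + x) * (1 + y) * (1 + z) := by positivity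
  generalize hD : (1 + x) * (1 + y) * (1 + z) = D at hT hDp
  have eS : 2 ^ 48 * c0 * (1 + x) * ((1 + y) * (1 + z)) *
      (2 ^ 48 * c0 * (1 + x) * ((1 + y) * (1 + z))) +
      2 ^ 48 * c1 * (1 + y) * ((1 + x) * (1 + z)) *
      (2 ^ 48 * c1 * (1 + y) * ((1 + x) * (1 + z))) +
      (2 ^ 48 * c2 * (1 + z) * ((1 + x) * (1 + y)) *
      (2 ^ 48 * c2 * (1 + z) * ((1 + x) * (1 + y))) + -3 * (2 ^ 48) ^ 2 * (D * 1 * (D * 1))) =
      (2 ^ 48) ^ 2 * D ^ 2 * (c0 ^ 2 + c1 ^ 2 + c2 ^ 2 - 3) := by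
    rw [← hD]
    ring
  have eA : 2 ^ 48 * c0 * (1 + x) * (2 ^ 48 * c1 * (1 + y) * (2 ^ 48 * c2 * (1 + z))) =
      (2 ^ 48) ^ 3 * D * (c0 * c1 * c2) := by
    rw [← hD]
    ring
  rw [eS, eA] at hT
  generalize c0 ^ 2 + c1 ^ 2 + c2 ^ 2 - 3 = S at hT ⊢
  generalize c0 * c1 * c2 = K at hT ⊢
  have e : D * (12 * ((2 ^ 48) ^ 3 * D * K * (2 ^ 48 * D ^ 2 * Q + -(r : ℝ) * (D * 1 * (D * 1))))) +
      ((2 ^ 48) ^ 2 * D ^ 2 * S * ((2 ^ 48) ^ 2 * D ^ 2 * S) +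
        12 * (2 ^ 48) ^ 2 * (D * (D * ((2 ^ 48) ^ 2 * D ^ 2 * S)))) =
      ((2 ^ 48) ^ 4 * D ^ 4) * (12 * K * (Q - r / 2 ^ 48) + S ^ 2 + 12 * S) := by
    ring
  rw [e] at hT
  exact nonneg_of_mul_nonneg_right hT (by positivity)

/-- bounds of the controls -/
def chkR (X : Fin 3 → Fin 3 → Fin 3 → ℤ) (r : ℤ) : Bool :=
  decide (0 < r ∧ ∀ a b c : Fin 3, -(2 ^ 49) < X a b c - r ∧ X a b c + r ≤ 2 ^ 49)

theorem Bq_nonneg {t : ℝ} (h0 : 0 ≤ t) (h1 : t ≤ 1) (a : Fin 3) : 0 ≤ Bq t a := by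
  have h : 0 ≤ 1 - t := by linarith
  fin_cases a <;> simp [Bq] <;> positivity

theorem Qf_le {X : Fin 3 → Fin 3 → Fin 3 → ℤ} {m : ℝ} (hX : ∀ a b c, (X a b c : ℝ) ≤ m)
    {t u v : ℝ} (ht : 0 ≤ t ∧ t ≤ 1) (hu : 0 ≤ u ∧ u ≤ 1) (hv : 0 ≤ v ∧ v ≤ 1) :
    Qf X t u v ≤ m := by
  have e : (∑ a, ∑ b, ∑ c, Bq t a * Bq u b * Bq v c * m) = m := by
    have : (∑ a, ∑ b, ∑ c, Bq t a * Bq u b * Bq v c * m) =
        (∑ a, Bq t a) * (∑ b, Bq u b) * (∑ c, Bq v c) * m := by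
      simp only [Fin.sum_univ_three]
      ring
    rw [this, Bq_sum, Bq_sum, Bq_sum]
    ring
  calc Qf X t u v ≤ ∑ a, ∑ b, ∑ c, Bq t a * Bq u b * Bq v c * m := by
        unfold Qf
        refine Finset.sum_le_sum fun a _ => Finset.sum_le_sum fun b _ =>
          Finset.sum_le_sum fun c _ => mul_le_mul_of_nonneg_left (hX a b c) ?_
        exact mul_nonneg (mul_nonneg (Bq_nonneg ht.1 ht.2 a) (Bq_nonneg hu.1 hu.2 b))
          (Bq_nonneg hv.1 hv.2 c)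
    _ = m := e

theorem Qf_neg (X : Fin 3 → Fin 3 → Fin 3 → ℤ) (t u v : ℝ) :
    Qf (fun a b c => -X a b c) t u v = -Qf X t u v := by
  unfold Qf
  simp only [Int.cast_neg, mul_neg, Finset.sum_neg_distrib]

/-- ALL NUMBERS OF A BOX -/
theorem box_num {l h : Fin 3 → ℤ} {X : Fin 3 → Fin 3 → Fin 3 → ℤ} {r : ℤ}
    (hB : chkB l h X r = true) (hI : chkI l h X r = true) (hR : chkR X r = true)
    {t u v c0 c1 c2 : ℝ} (ht : 0 ≤ t ∧ t < 1) (hu : 0 ≤ u ∧ u < 1)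
    (hv : 0 ≤ v ∧ v < 1) (h0 : c0 = ((1 - t) * l 0 + t * h 0) / 2 ^ 48)
    (h1 : c1 = ((1 - u) * l 1 + u * h 1) / 2 ^ 48)
    (h2 : c2 = ((1 - v) * l 2 + v * h 2) / 2 ^ 48) :
    -2 < Qf X t u v / 2 ^ 48 - r / 2 ^ 48 ∧ Qf X t u v / 2 ^ 48 + r / 2 ^ 48 ≤ 2 ∧
    Qf X t u v / 2 ^ 48 - r / 2 ^ 48 < Qf X t u v / 2 ^ 48 + r / 2 ^ 48 ∧
    0 ≤ 12 * (c0 * c1 * c2) * (Qf X t u v / 2 ^ 48 - r / 2 ^ 48) +
      (c0 ^ 2 + c1 ^ 2 + c2 ^ 2 - 3) ^ 2 + 12 * (c0 ^ 2 + c1 ^ 2 + c2 ^ 2 - 3) ∧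
    fBx (c0 ^ 2 + c1 ^ 2 + c2 ^ 2 - 3) (c0 * c1 * c2)
        (Qf X t u v / 2 ^ 48 - r / 2 ^ 48) < 0 ∧
    0 ≤ fBx (c0 ^ 2 + c1 ^ 2 + c2 ^ 2 - 3) (c0 * c1 * c2)
        (Qf X t u v / 2 ^ 48 + r / 2 ^ 48) := by
  have t1 : 0 < 1 - t := by linarith [ht.2]
  have u1 : 0 < 1 - u := by linarith [hu.2]
  have v1 : 0 < 1 - v := by linarith [hv.2]
  obtain ⟨r0, hX⟩ := of_decide_eq_true hR
  have r0' : (0 : ℝ) < r := by exact_mod_cast r0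
  have b1 : Qf X t u v ≤ 2 ^ 49 - r := Qf_le (fun a b c => by
    have := (hX a b c).2
    have h : (X a b c : ℝ) + r ≤ 2 ^ 49 := by exact_mod_cast this
    linarith) ⟨ht.1, ht.2.le⟩ ⟨hu.1, hu.2.le⟩ ⟨hv.1, hv.2.le⟩
  have b2 : Qf (fun a b c => -X a b c) t u v ≤ 2 ^ 49 - 1 - r := Qf_le (fun a b c => by
    have := (hX a b c).1
    have h' : -(2 ^ 49) + 1 ≤ X a b c - r := by linarith
    have h : (-(2 ^ 49) : ℝ) + 1 ≤ X a b c - r := by exact_mod_cast h'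
    push_cast
    linarith) ⟨ht.1, ht.2.le⟩ ⟨hu.1, hu.2.le⟩ ⟨hv.1, hv.2.le⟩
  rw [Qf_neg] at b2
  obtain ⟨k1, k2⟩ := chkB_sound hB ht hu hv h0 h1 h2
  have e : ∀ w : ℝ, 1 - w ≠ 0 → 1 + w / (1 - w) = 1 / (1 - w) := fun w hw => by
    field_simp
    ring
  refine ⟨?_, ?_, ?_, ?_, k2, k1⟩
  · rw [← sub_div, lt_div_iff₀ (by positivity)]
    linarith
  · rw [← add_div, div_le_iff₀ (by positivity)]
    linarith
  · have : 0 < (r : ℝ) / 2 ^ 48 := by positivity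
    linarith
  · refine chkI_rho hI (x := t / (1 - t)) (y := u / (1 - u)) (z := v / (1 - v))
      (div_nonneg ht.1 t1.le) (div_nonneg hu.1 u1.le) (div_nonneg hv.1 v1.le) ?_ ?_ ?_
      (pQ_val X t1.ne' u1.ne' v1.ne')
    · rw [e t t1.ne', h0]
      field_simp
    · rw [e u u1.ne', h1]
      field_simp
    · rw [e v v1.ne', h2]
      field_simp

end XTH

end Pool.Agent.Helper6.MONO
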