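import Pool.Agent.Helper12.CX.XTH

/-!
Enclosures of `xA` for the exact classes (orders `3, ..., 9`).
-/

set_option autoImplicit false
noncomputable section
namespace Pool.Agent.Helper6.MONO.XTH

theorem exists_t {c : ℝ} {l h : ℤ} (hlh : l < h) (h1 : (l : ℝ) / 2 ^ 48 ≤ c)
    (h2 : c ≤ (h : ℝ) / 2 ^ 48) :
    ∃ t : ℝ, (0 ≤ t ∧ t ≤ 1) ∧ c = ((1 - t) * l + t * h) / 2 ^ 48 := by
  have hd : (0 : ℝ) < (h : ℝ) - l := by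
    have : (l : ℝ) < h := by exact_mod_cast hlh
    linarith
  rw [div_le_iff₀ (by positivity)] at h1
  rw [le_div_iff₀ (by positivity)] at h2
  refine ⟨(c * 2 ^ 48 - l) / (h - l), ⟨div_nonneg (by linarith) hd.le, ?_⟩, ?_⟩
  · rw [div_le_one hd]
    linarith
  · field_simp
    ring

/-- constant controls -/
theorem Qf_const (x : ℤ) (t u v : ℝ) : Qf (fun _ _ _ => x) t u v = x := by
  have e : Qf (fun _ _ _ => x) t u v =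
      (∑ a, Bq t a) * (∑ b, Bq u b) * (∑ c, Bq v c) * x := by
    simp only [Qf, Fin.sum_univ_three]
    ring
  rw [e, Bq_sum, Bq_sum, Bq_sum]
  ring

/-- `2^48 xA`, rounded -/
def XA : ℕ → ℕ → ℕ → ℤ
  | 3, 3, 4 => 199032864766430
  | 3, 3, 5 => 66447228468885
  | 3, 3, 6 => 0
  | 3, 3, 7 => -38579900305673
  | 3, 3, 8 => -63098460740486
  | 3, 3, 9 => -79690796516295
  | 3, 4, 4 => 0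
  | 3, 4, 5 => -76023789462515
  | 3, 4, 6 => -114911678050481
  | 3, 4, 7 => -137735015978419
  | 3, 4, 8 => -152333159684549
  | 3, 4, 9 => -162253077953149
  | 3, 5, 5 => -132894456937770
  | 3, 5, 6 => -162509653574041
  | 3, 5, 7 => -180050516976170
  | 3, 5, 8 => -191330153059970
  | 3, 5, 9 => -199021327699450
  | 3, 6, 6 => -187649984473771
  | 3, 6, 7 => -202646223414020
  | 3, 6, 8 => -212329094794732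
  | 3, 6, 9 => -218948663966874
  | 3, 7, 7 => -216196957020109
  | 3, 7, 8 => -224973347006597
  | 3, 7, 9 => -230984825290681
  | 3, 8, 8 => -233181505644410
  | 3, 8, 9 => -238811900538218
  | 3, 9, 9 => -244186767356132
  | 4, 4, 4 => -199032864766430
  | 4, 4, 5 => -227718039650213
  | 4, 4, 6 => -243764480361061
  | 4, 4, 7 => -253600191109860
  | 4, 4, 8 => -260048969897066
  | 4, 4, 9 => -264499958550889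
  | 4, 5, 5 => -293003436449231
  | 4, 5, 6 => -300842678840444
  | 4, 5, 7 => -306034735025226
  | 4, 5, 8 => -309578690723751
  | 4, 5, 9 => -312084267630972
  | 4, 6, 6 => -331721441277384
  | 4, 6, 7 => -334606029375659
  | 4, 6, 8 => -336708598839083
  | 4, 6, 9 => -338249765391556
  | 4, 7, 7 => -351907199147246
  | 4, 7, 8 => -353177362419326
  | 4, 7, 9 => -354161864297905
  | 4, 8, 8 => -363917088654882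
  | 4, 8, 9 => -364549066544677
  | 4, 9, 9 => -371698983839973
  | 5, 5, 5 => -363608268014657
  | 5, 5, 6 => -363382632391497
  | 5, 5, 7 => -364025295037024
  | 5, 5, 8 => -364728767647046
  | 5, 5, 9 => -365334421191936
  | 5, 6, 6 => -397449045103836
  | 5, 6, 7 => -395800415142516
  | 5, 6, 8 => -395075369634784
  | 5, 6, 9 => -394726457842290
  | 5, 7, 7 => -415092044413383
  | 5, 7, 8 => -413536043862874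
  | 5, 7, 9 => -412632159389853
  | 5, 8, 8 => -425589072746777
  | 5, 8, 9 => -424332204970294
  | 5, 9, 9 => -432390698539709
  | 6, 6, 6 => -433359076197442
  | 6, 6, 7 => -429411506247710
  | 6, 6, 8 => -427254579405625
  | 6, 6, 9 => -425949483803639
  | 6, 7, 7 => -449840678481619
  | 6, 7, 8 => -446847795298155
  | 6, 7, 9 => -444984751528164
  | 6, 8, 8 => -459646712201924
  | 6, 8, 9 => -457428017766819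
  | 6, 9, 9 => -466000603013689
  | 7, 7, 7 => -470973814345890
  | 7, 7, 8 => -467140291205242
  | 7, 7, 9 => -464716383757115
  | 7, 8, 8 => -480399527724779
  | 7, 8, 9 => -477617663708772
  | 7, 9, 9 => -486506987207450
  | 8, 8, 8 => -493961701590557
  | 8, 8, 9 => -490820126778252
  | 8, 9, 9 => -499917706310029
  | 9, 9, 9 => -509159275316521
  | _, _, _ => 0

/-- test for constant models -/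
def chkE (l0 l1 l2 h0 h1 h2 x r : ℤ) : Bool :=
  decide (0 < l0) && decide (0 < l1) && decide (0 < l2) &&
  decide (4 * 2 ^ 192 - 2 ^ 96 * (l2 * l2) - l0 * l0 * (l1 * l1) ≤ (x + r) * (l0 * l1 * l2)) &&
  decide (4 * 2 ^ 192 - 2 ^ 96 * (l2 * l2) - l0 * l0 * (l1 * l1) ≤ (x + r) * (h0 * h1 * h2)) &&
  decide ((x - r) * (l0 * l1 * l2) ≤ 4 * 2 ^ 192 - 2 ^ 96 * (h2 * h2) - h0 * h0 * (h1 * h1)) &&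
  decide ((x - r) * (h0 * h1 * h2) ≤ 4 * 2 ^ 192 - 2 ^ 96 * (h2 * h2) - h0 * h0 * (h1 * h1))

theorem chkE_sound {l0 l1 l2 h0 h1 h2 x r : ℤ} (hc : chkE l0 l1 l2 h0 h1 h2 x r = true)
    {c0 c1 c2 : ℝ} (a0 : (l0 : ℝ) ≤ c0 * 2 ^ 48 ∧ c0 * 2 ^ 48 ≤ h0)
    (a1 : (l1 : ℝ) ≤ c1 * 2 ^ 48 ∧ c1 * 2 ^ 48 ≤ h1)
    (a2 : (l2 : ℝ) ≤ c2 * 2 ^ 48 ∧ c2 * 2 ^ 48 ≤ h2) :
    |(4 - c2 ^ 2 - c0 ^ 2 * c1 ^ 2) / (c0 * c1 * c2) - (x : ℝ) / 2 ^ 48| ≤ (r : ℝ) / 2 ^ 48 := by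
  simp only [chkE, Bool.and_eq_true, decide_eq_true_eq] at hc
  obtain ⟨⟨⟨⟨⟨⟨p0, p1⟩, p2⟩, e1⟩, e2⟩, e3⟩, e4⟩ := hc
  have p0' : (0 : ℝ) < l0 := by exact_mod_cast p0
  have p1' : (0 : ℝ) < l1 := by exact_mod_cast p1
  have p2' : (0 : ℝ) < l2 := by exact_mod_cast p2
  have e1' : (4 * 2 ^ 192 - 2 ^ 96 * (l2 * l2) - l0 * l0 * (l1 * l1) : ℝ) ≤
    (x + r) * (l0 * l1 * l2) := by exact_mod_cast e1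
  have e2' : (4 * 2 ^ 192 - 2 ^ 96 * (l2 * l2) - l0 * l0 * (l1 * l1) : ℝ) ≤
    (x + r) * (h0 * h1 * h2) := by exact_mod_cast e2
  have e3' : ((x - r) * (l0 * l1 * l2) : ℝ) ≤
    4 * 2 ^ 192 - 2 ^ 96 * (h2 * h2) - h0 * h0 * (h1 * h1) := by exact_mod_cast e3
  have e4' : ((x - r) * (h0 * h1 * h2) : ℝ) ≤
    4 * 2 ^ 192 - 2 ^ 96 * (h2 * h2) - h0 * h0 * (h1 * h1) := by exact_mod_cast e4
  obtain ⟨C0, hC0⟩ : ∃ C0, C0 = c0 * 2 ^ 48 := ⟨_, rfl⟩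
  obtain ⟨C1, hC1⟩ : ∃ C1, C1 = c1 * 2 ^ 48 := ⟨_, rfl⟩
  obtain ⟨C2, hC2⟩ : ∃ C2, C2 = c2 * 2 ^ 48 := ⟨_, rfl⟩
  rw [← hC0] at a0
  rw [← hC1] at a1
  rw [← hC2] at a2
  have q0 : 0 < C0 := p0'.trans_le a0.1
  have q1 : 0 < C1 := p1'.trans_le a1.1
  have q2 : 0 < C2 := p2'.trans_le a2.1
  have hc0 : c0 = C0 / 2 ^ 48 := by rw [hC0]; field_simp
  have hc1 : c1 = C1 / 2 ^ 48 := by rw [hC1]; field_simp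
  have hc2 : c2 = C2 / 2 ^ 48 := by rw [hC2]; field_simp
  have D1 : (l0 * l1 * l2 : ℝ) ≤ C0 * C1 * C2 :=
    mul_le_mul (mul_le_mul a0.1 a1.1 p1'.le q0.le) a2.1 p2'.le (by positivity)
  have D2 : C0 * C1 * C2 ≤ (h0 * h1 * h2 : ℝ) :=
    mul_le_mul (mul_le_mul a0.2 a1.2 q1.le (q0.le.trans a0.2)) a2.2 q2.le
      (mul_nonneg (q0.le.trans a0.2) (q1.le.trans a1.2))
  have S2 : (l2 * l2 : ℝ) ≤ C2 * C2 := mul_le_mul a2.1 a2.1 p2'.le q2.le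
  have S2' : C2 * C2 ≤ (h2 * h2 : ℝ) := mul_le_mul a2.2 a2.2 q2.le (q2.le.trans a2.2)
  have S0 : (l0 * l0 : ℝ) ≤ C0 * C0 := mul_le_mul a0.1 a0.1 p0'.le q0.le
  have S0' : C0 * C0 ≤ (h0 * h0 : ℝ) := mul_le_mul a0.2 a0.2 q0.le (q0.le.trans a0.2)
  have S1 : (l1 * l1 : ℝ) ≤ C1 * C1 := mul_le_mul a1.1 a1.1 p1'.le q1.le
  have S1' : C1 * C1 ≤ (h1 * h1 : ℝ) := mul_le_mul a1.2 a1.2 q1.le (q1.le.trans a1.2)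
  have T1 : (l0 * l0 * (l1 * l1) : ℝ) ≤ C0 * C0 * (C1 * C1) :=
    mul_le_mul S0 S1 (by positivity) (by positivity)
  have T2 : C0 * C0 * (C1 * C1) ≤ (h0 * h0 * (h1 * h1) : ℝ) :=
    mul_le_mul S0' S1' (mul_self_nonneg _) (mul_self_nonneg _)
  have U1 : 4 * 2 ^ 192 - 2 ^ 96 * (C2 * C2) - C0 * C0 * (C1 * C1) ≤
      ((x : ℝ) + r) * (C0 * C1 * C2) := by
    rcases le_total 0 ((x : ℝ) + r) with h | h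
    · have := mul_le_mul_of_nonneg_left D1 h
      linarith
    · have := mul_le_mul_of_nonpos_left D2 h
      linarith
  have U2 : ((x : ℝ) - r) * (C0 * C1 * C2) ≤
      4 * 2 ^ 192 - 2 ^ 96 * (C2 * C2) - C0 * C0 * (C1 * C1) := by
    rcases le_total 0 ((x : ℝ) - r) with h | h
    · have := mul_le_mul_of_nonneg_left D2 h
      linarith
    · have := mul_le_mul_of_nonpos_left D1 h
      linarith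
  have hD : 0 < C0 * C1 * C2 := by positivity
  have e : (4 - c2 ^ 2 - c0 ^ 2 * c1 ^ 2) / (c0 * c1 * c2) =
      (4 * 2 ^ 192 - 2 ^ 96 * (C2 * C2) - C0 * C0 * (C1 * C1)) / (C0 * C1 * C2) / 2 ^ 48 := by
    rw [hc0, hc1, hc2]
    field_simp
  rw [e, ← sub_div, abs_div, abs_of_pos (by positivity : (0 : ℝ) < 2 ^ 48)]
  refine div_le_div_of_nonneg_right ?_ (by positivity)
  rw [abs_le]
  constructor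
  · have : (x : ℝ) - r ≤ (4 * 2 ^ 192 - 2 ^ 96 * (C2 * C2) - C0 * C0 * (C1 * C1)) /
        (C0 * C1 * C2) := by
      rw [le_div_iff₀ hD]
      exact U2
    linarith
  · have : (4 * 2 ^ 192 - 2 ^ 96 * (C2 * C2) - C0 * C0 * (C1 * C1)) /
        (C0 * C1 * C2) ≤ (x : ℝ) + r := by
      rw [div_le_iff₀ hD]
      exact U1
    linarith

theorem xA_enc_of (p q r : ℕ) (hp : 3 ≤ p ∧ p ≤ 9) (hq : 3 ≤ q ∧ q ≤ 9) (hr : 3 ≤ r ∧ r ≤ 9)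
    (x : ℤ) (hc : chkE ((kb p : ℤ) - 1) ((kb q : ℤ) - 1) ((kb r : ℤ) - 1)
      ((kb p : ℤ) + 1) ((kb q : ℤ) + 1) ((kb r : ℤ) + 1) x 32 = true) :
    |xA p q r - (x : ℝ) / 2 ^ 48| ≤ 32 / 2 ^ 48 := by
  have hk : ∀ M : ℕ, 3 ≤ M ∧ M ≤ 9 → (((kb M : ℤ) - 1 : ℤ) : ℝ) ≤ Kp M * 2 ^ 48 ∧
      Kp M * 2 ^ 48 ≤ (((kb M : ℤ) + 1 : ℤ) : ℝ) := by
    intro M hM
    have h1 := kap_enc M hM.1 (by omega)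
    rw [abs_le] at h1
    have e : (kb M : ℝ) / 2 ^ 48 * 2 ^ 48 = kb M := by field_simp
    have e' : (1 : ℝ) / 2 ^ 48 * 2 ^ 48 = 1 := by field_simp
    push_cast
    constructor
    · have := mul_le_mul_of_nonneg_right h1.1 (by positivity : (0 : ℝ) ≤ 2 ^ 48)
      linarith
    · have := mul_le_mul_of_nonneg_right h1.2 (by positivity : (0 : ℝ) ≤ 2 ^ 48)
      linarith
  have h := chkE_sound hc (hk p hp) (hk q hq) (hk r hr)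
  rw [xA_eq]
  have e : ((32 : ℤ) : ℝ) = 32 := by norm_num
  rw [e] at h
  exact h

theorem xa_3_3_4 : chkE ((kb 3 : ℤ) - 1) ((kb 3 : ℤ) - 1) ((kb 4 : ℤ) - 1)
    ((kb 3 : ℤ) + 1) ((kb 3 : ℤ) + 1) ((kb 4 : ℤ) + 1) (XA 3 3 4) 32 = true := by decide +kernel
theorem xa_3_3_5 : chkE ((kb 3 : ℤ) - 1) ((kb 3 : ℤ) - 1) ((kb 5 : ℤ) - 1)
    ((kb 3 : ℤ) + 1) ((kb 3 : ℤ) + 1) ((kb 5 : ℤ) + 1) (XA 3 3 5) 32 = true := by decide +kernel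
theorem xa_3_3_6 : chkE ((kb 3 : ℤ) - 1) ((kb 3 : ℤ) - 1) ((kb 6 : ℤ) - 1)
    ((kb 3 : ℤ) + 1) ((kb 3 : ℤ) + 1) ((kb 6 : ℤ) + 1) (XA 3 3 6) 32 = true := by decide +kernel
theorem xa_3_3_7 : chkE ((kb 3 : ℤ) - 1) ((kb 3 : ℤ) - 1) ((kb 7 : ℤ) - 1)
    ((kb 3 : ℤ) + 1) ((kb 3 : ℤ) + 1) ((kb 7 : ℤ) + 1) (XA 3 3 7) 32 = true := by decide +kernel
theorem xa_3_3_8 : chkE ((kb 3 : ℤ) - 1) ((kb 3 : ℤ) - 1) ((kb 8 : ℤ) - 1)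
    ((kb 3 : ℤ) + 1) ((kb 3 : ℤ) + 1) ((kb 8 : ℤ) + 1) (XA 3 3 8) 32 = true := by decide +kernel
theorem xa_3_3_9 : chkE ((kb 3 : ℤ) - 1) ((kb 3 : ℤ) - 1) ((kb 9 : ℤ) - 1)
    ((kb 3 : ℤ) + 1) ((kb 3 : ℤ) + 1) ((kb 9 : ℤ) + 1) (XA 3 3 9) 32 = true := by decide +kernel
theorem xa_3_4_4 : chkE ((kb 3 : ℤ) - 1) ((kb 4 : ℤ) - 1) ((kb 4 : ℤ) - 1)
    ((kb 3 : ℤ) + 1) ((kb 4 : ℤ) + 1) ((kb 4 : ℤ) + 1) (XA 3 4 4) 32 = true := by decide +kernel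
theorem xa_3_4_5 : chkE ((kb 3 : ℤ) - 1) ((kb 4 : ℤ) - 1) ((kb 5 : ℤ) - 1)
    ((kb 3 : ℤ) + 1) ((kb 4 : ℤ) + 1) ((kb 5 : ℤ) + 1) (XA 3 4 5) 32 = true := by decide +kernel
theorem xa_3_4_6 : chkE ((kb 3 : ℤ) - 1) ((kb 4 : ℤ) - 1) ((kb 6 : ℤ) - 1)
    ((kb 3 : ℤ) + 1) ((kb 4 : ℤ) + 1) ((kb 6 : ℤ) + 1) (XA 3 4 6) 32 = true := by decide +kernel
theorem xa_3_4_7 : chkE ((kb 3 : ℤ) - 1) ((kb 4 : ℤ) - 1) ((kb 7 : ℤ) - 1)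
    ((kb 3 : ℤ) + 1) ((kb 4 : ℤ) + 1) ((kb 7 : ℤ) + 1) (XA 3 4 7) 32 = true := by decide +kernel
theorem xa_3_4_8 : chkE ((kb 3 : ℤ) - 1) ((kb 4 : ℤ) - 1) ((kb 8 : ℤ) - 1)
    ((kb 3 : ℤ) + 1) ((kb 4 : ℤ) + 1) ((kb 8 : ℤ) + 1) (XA 3 4 8) 32 = true := by decide +kernel
theorem xa_3_4_9 : chkE ((kb 3 : ℤ) - 1) ((kb 4 : ℤ) - 1) ((kb 9 : ℤ) - 1)
    ((kb 3 : ℤ) + 1) ((kb 4 : ℤ) + 1) ((kb 9 : ℤ) + 1) (XA 3 4 9) 32 = true := by decide +kernel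
theorem xa_3_5_5 : chkE ((kb 3 : ℤ) - 1) ((kb 5 : ℤ) - 1) ((kb 5 : ℤ) - 1)
    ((kb 3 : ℤ) + 1) ((kb 5 : ℤ) + 1) ((kb 5 : ℤ) + 1) (XA 3 5 5) 32 = true := by decide +kernel
theorem xa_3_5_6 : chkE ((kb 3 : ℤ) - 1) ((kb 5 : ℤ) - 1) ((kb 6 : ℤ) - 1)
    ((kb 3 : ℤ) + 1) ((kb 5 : ℤ) + 1) ((kb 6 : ℤ) + 1) (XA 3 5 6) 32 = true := by decide +kernel
theorem xa_3_5_7 : chkE ((kb 3 : ℤ) - 1) ((kb 5 : ℤ) - 1) ((kb 7 : ℤ) - 1)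
    ((kb 3 : ℤ) + 1) ((kb 5 : ℤ) + 1) ((kb 7 : ℤ) + 1) (XA 3 5 7) 32 = true := by decide +kernel
theorem xa_3_5_8 : chkE ((kb 3 : ℤ) - 1) ((kb 5 : ℤ) - 1) ((kb 8 : ℤ) - 1)
    ((kb 3 : ℤ) + 1) ((kb 5 : ℤ) + 1) ((kb 8 : ℤ) + 1) (XA 3 5 8) 32 = true := by decide +kernel
theorem xa_3_5_9 : chkE ((kb 3 : ℤ) - 1) ((kb 5 : ℤ) - 1) ((kb 9 : ℤ) - 1)
    ((kb 3 : ℤ) + 1) ((kb 5 : ℤ) + 1) ((kb 9 : ℤ) + 1) (XA 3 5 9) 32 = true := by decide +kernel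
theorem xa_3_6_6 : chkE ((kb 3 : ℤ) - 1) ((kb 6 : ℤ) - 1) ((kb 6 : ℤ) - 1)
    ((kb 3 : ℤ) + 1) ((kb 6 : ℤ) + 1) ((kb 6 : ℤ) + 1) (XA 3 6 6) 32 = true := by decide +kernel
theorem xa_3_6_7 : chkE ((kb 3 : ℤ) - 1) ((kb 6 : ℤ) - 1) ((kb 7 : ℤ) - 1)
    ((kb 3 : ℤ) + 1) ((kb 6 : ℤ) + 1) ((kb 7 : ℤ) + 1) (XA 3 6 7) 32 = true := by decide +kernel
theorem xa_3_6_8 : chkE ((kb 3 : ℤ) - 1) ((kb 6 : ℤ) - 1) ((kb 8 : ℤ) - 1)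
    ((kb 3 : ℤ) + 1) ((kb 6 : ℤ) + 1) ((kb 8 : ℤ) + 1) (XA 3 6 8) 32 = true := by decide +kernel
theorem xa_3_6_9 : chkE ((kb 3 : ℤ) - 1) ((kb 6 : ℤ) - 1) ((kb 9 : ℤ) - 1)
    ((kb 3 : ℤ) + 1) ((kb 6 : ℤ) + 1) ((kb 9 : ℤ) + 1) (XA 3 6 9) 32 = true := by decide +kernel
theorem xa_3_7_7 : chkE ((kb 3 : ℤ) - 1) ((kb 7 : ℤ) - 1) ((kb 7 : ℤ) - 1)
    ((kb 3 : ℤ) + 1) ((kb 7 : ℤ) + 1) ((kb 7 : ℤ) + 1) (XA 3 7 7) 32 = true := by decide +kernel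
theorem xa_3_7_8 : chkE ((kb 3 : ℤ) - 1) ((kb 7 : ℤ) - 1) ((kb 8 : ℤ) - 1)
    ((kb 3 : ℤ) + 1) ((kb 7 : ℤ) + 1) ((kb 8 : ℤ) + 1) (XA 3 7 8) 32 = true := by decide +kernel
theorem xa_3_7_9 : chkE ((kb 3 : ℤ) - 1) ((kb 7 : ℤ) - 1) ((kb 9 : ℤ) - 1)
    ((kb 3 : ℤ) + 1) ((kb 7 : ℤ) + 1) ((kb 9 : ℤ) + 1) (XA 3 7 9) 32 = true := by decide +kernel
theorem xa_3_8_8 : chkE ((kb 3 : ℤ) - 1) ((kb 8 : ℤ) - 1) ((kb 8 : ℤ) - 1)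
    ((kb 3 : ℤ) + 1) ((kb 8 : ℤ) + 1) ((kb 8 : ℤ) + 1) (XA 3 8 8) 32 = true := by decide +kernel
theorem xa_3_8_9 : chkE ((kb 3 : ℤ) - 1) ((kb 8 : ℤ) - 1) ((kb 9 : ℤ) - 1)
    ((kb 3 : ℤ) + 1) ((kb 8 : ℤ) + 1) ((kb 9 : ℤ) + 1) (XA 3 8 9) 32 = true := by decide +kernel
theorem xa_3_9_9 : chkE ((kb 3 : ℤ) - 1) ((kb 9 : ℤ) - 1) ((kb 9 : ℤ) - 1)
    ((kb 3 : ℤ) + 1) ((kb 9 : ℤ) + 1) ((kb 9 : ℤ) + 1) (XA 3 9 9) 32 = true := by decide +kernel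
theorem xa_4_4_4 : chkE ((kb 4 : ℤ) - 1) ((kb 4 : ℤ) - 1) ((kb 4 : ℤ) - 1)
    ((kb 4 : ℤ) + 1) ((kb 4 : ℤ) + 1) ((kb 4 : ℤ) + 1) (XA 4 4 4) 32 = true := by decide +kernel
theorem xa_4_4_5 : chkE ((kb 4 : ℤ) - 1) ((kb 4 : ℤ) - 1) ((kb 5 : ℤ) - 1)
    ((kb 4 : ℤ) + 1) ((kb 4 : ℤ) + 1) ((kb 5 : ℤ) + 1) (XA 4 4 5) 32 = true := by decide +kernel
theorem xa_4_4_6 : chkE ((kb 4 : ℤ) - 1) ((kb 4 : ℤ) - 1) ((kb 6 : ℤ) - 1)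
    ((kb 4 : ℤ) + 1) ((kb 4 : ℤ) + 1) ((kb 6 : ℤ) + 1) (XA 4 4 6) 32 = true := by decide +kernel
theorem xa_4_4_7 : chkE ((kb 4 : ℤ) - 1) ((kb 4 : ℤ) - 1) ((kb 7 : ℤ) - 1)
    ((kb 4 : ℤ) + 1) ((kb 4 : ℤ) + 1) ((kb 7 : ℤ) + 1) (XA 4 4 7) 32 = true := by decide +kernel
theorem xa_4_4_8 : chkE ((kb 4 : ℤ) - 1) ((kb 4 : ℤ) - 1) ((kb 8 : ℤ) - 1)
    ((kb 4 : ℤ) + 1) ((kb 4 : ℤ) + 1) ((kb 8 : ℤ) + 1) (XA 4 4 8) 32 = true := by decide +kernel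
theorem xa_4_4_9 : chkE ((kb 4 : ℤ) - 1) ((kb 4 : ℤ) - 1) ((kb 9 : ℤ) - 1)
    ((kb 4 : ℤ) + 1) ((kb 4 : ℤ) + 1) ((kb 9 : ℤ) + 1) (XA 4 4 9) 32 = true := by decide +kernel
theorem xa_4_5_5 : chkE ((kb 4 : ℤ) - 1) ((kb 5 : ℤ) - 1) ((kb 5 : ℤ) - 1)
    ((kb 4 : ℤ) + 1) ((kb 5 : ℤ) + 1) ((kb 5 : ℤ) + 1) (XA 4 5 5) 32 = true := by decide +kernel
theorem xa_4_5_6 : chkE ((kb 4 : ℤ) - 1) ((kb 5 : ℤ) - 1) ((kb 6 : ℤ) - 1)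
    ((kb 4 : ℤ) + 1) ((kb 5 : ℤ) + 1) ((kb 6 : ℤ) + 1) (XA 4 5 6) 32 = true := by decide +kernel
theorem xa_4_5_7 : chkE ((kb 4 : ℤ) - 1) ((kb 5 : ℤ) - 1) ((kb 7 : ℤ) - 1)
    ((kb 4 : ℤ) + 1) ((kb 5 : ℤ) + 1) ((kb 7 : ℤ) + 1) (XA 4 5 7) 32 = true := by decide +kernel
theorem xa_4_5_8 : chkE ((kb 4 : ℤ) - 1) ((kb 5 : ℤ) - 1) ((kb 8 : ℤ) - 1)
    ((kb 4 : ℤ) + 1) ((kb 5 : ℤ) + 1) ((kb 8 : ℤ) + 1) (XA 4 5 8) 32 = true := by decide +kernel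
theorem xa_4_5_9 : chkE ((kb 4 : ℤ) - 1) ((kb 5 : ℤ) - 1) ((kb 9 : ℤ) - 1)
    ((kb 4 : ℤ) + 1) ((kb 5 : ℤ) + 1) ((kb 9 : ℤ) + 1) (XA 4 5 9) 32 = true := by decide +kernel
theorem xa_4_6_6 : chkE ((kb 4 : ℤ) - 1) ((kb 6 : ℤ) - 1) ((kb 6 : ℤ) - 1)
    ((kb 4 : ℤ) + 1) ((kb 6 : ℤ) + 1) ((kb 6 : ℤ) + 1) (XA 4 6 6) 32 = true := by decide +kernel
theorem xa_4_6_7 : chkE ((kb 4 : ℤ) - 1) ((kb 6 : ℤ) - 1) ((kb 7 : ℤ) - 1)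
    ((kb 4 : ℤ) + 1) ((kb 6 : ℤ) + 1) ((kb 7 : ℤ) + 1) (XA 4 6 7) 32 = true := by decide +kernel
theorem xa_4_6_8 : chkE ((kb 4 : ℤ) - 1) ((kb 6 : ℤ) - 1) ((kb 8 : ℤ) - 1)
    ((kb 4 : ℤ) + 1) ((kb 6 : ℤ) + 1) ((kb 8 : ℤ) + 1) (XA 4 6 8) 32 = true := by decide +kernel
theorem xa_4_6_9 : chkE ((kb 4 : ℤ) - 1) ((kb 6 : ℤ) - 1) ((kb 9 : ℤ) - 1)
    ((kb 4 : ℤ) + 1) ((kb 6 : ℤ) + 1) ((kb 9 : ℤ) + 1) (XA 4 6 9) 32 = true := by decide +kernel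
theorem xa_4_7_7 : chkE ((kb 4 : ℤ) - 1) ((kb 7 : ℤ) - 1) ((kb 7 : ℤ) - 1)
    ((kb 4 : ℤ) + 1) ((kb 7 : ℤ) + 1) ((kb 7 : ℤ) + 1) (XA 4 7 7) 32 = true := by decide +kernel
theorem xa_4_7_8 : chkE ((kb 4 : ℤ) - 1) ((kb 7 : ℤ) - 1) ((kb 8 : ℤ) - 1)
    ((kb 4 : ℤ) + 1) ((kb 7 : ℤ) + 1) ((kb 8 : ℤ) + 1) (XA 4 7 8) 32 = true := by decide +kernel
theorem xa_4_7_9 : chkE ((kb 4 : ℤ) - 1) ((kb 7 : ℤ) - 1) ((kb 9 : ℤ) - 1)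
    ((kb 4 : ℤ) + 1) ((kb 7 : ℤ) + 1) ((kb 9 : ℤ) + 1) (XA 4 7 9) 32 = true := by decide +kernel
theorem xa_4_8_8 : chkE ((kb 4 : ℤ) - 1) ((kb 8 : ℤ) - 1) ((kb 8 : ℤ) - 1)
    ((kb 4 : ℤ) + 1) ((kb 8 : ℤ) + 1) ((kb 8 : ℤ) + 1) (XA 4 8 8) 32 = true := by decide +kernel
theorem xa_4_8_9 : chkE ((kb 4 : ℤ) - 1) ((kb 8 : ℤ) - 1) ((kb 9 : ℤ) - 1)
    ((kb 4 : ℤ) + 1) ((kb 8 : ℤ) + 1) ((kb 9 : ℤ) + 1) (XA 4 8 9) 32 = true := by decide +kernel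
theorem xa_4_9_9 : chkE ((kb 4 : ℤ) - 1) ((kb 9 : ℤ) - 1) ((kb 9 : ℤ) - 1)
    ((kb 4 : ℤ) + 1) ((kb 9 : ℤ) + 1) ((kb 9 : ℤ) + 1) (XA 4 9 9) 32 = true := by decide +kernel
theorem xa_5_5_5 : chkE ((kb 5 : ℤ) - 1) ((kb 5 : ℤ) - 1) ((kb 5 : ℤ) - 1)
    ((kb 5 : ℤ) + 1) ((kb 5 : ℤ) + 1) ((kb 5 : ℤ) + 1) (XA 5 5 5) 32 = true := by decide +kernel
theorem xa_5_5_6 : chkE ((kb 5 : ℤ) - 1) ((kb 5 : ℤ) - 1) ((kb 6 : ℤ) - 1)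
    ((kb 5 : ℤ) + 1) ((kb 5 : ℤ) + 1) ((kb 6 : ℤ) + 1) (XA 5 5 6) 32 = true := by decide +kernel
theorem xa_5_5_7 : chkE ((kb 5 : ℤ) - 1) ((kb 5 : ℤ) - 1) ((kb 7 : ℤ) - 1)
    ((kb 5 : ℤ) + 1) ((kb 5 : ℤ) + 1) ((kb 7 : ℤ) + 1) (XA 5 5 7) 32 = true := by decide +kernel
theorem xa_5_5_8 : chkE ((kb 5 : ℤ) - 1) ((kb 5 : ℤ) - 1) ((kb 8 : ℤ) - 1)
    ((kb 5 : ℤ) + 1) ((kb 5 : ℤ) + 1) ((kb 8 : ℤ) + 1) (XA 5 5 8) 32 = true := by decide +kernel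
theorem xa_5_5_9 : chkE ((kb 5 : ℤ) - 1) ((kb 5 : ℤ) - 1) ((kb 9 : ℤ) - 1)
    ((kb 5 : ℤ) + 1) ((kb 5 : ℤ) + 1) ((kb 9 : ℤ) + 1) (XA 5 5 9) 32 = true := by decide +kernel
theorem xa_5_6_6 : chkE ((kb 5 : ℤ) - 1) ((kb 6 : ℤ) - 1) ((kb 6 : ℤ) - 1)
    ((kb 5 : ℤ) + 1) ((kb 6 : ℤ) + 1) ((kb 6 : ℤ) + 1) (XA 5 6 6) 32 = true := by decide +kernel
theorem xa_5_6_7 : chkE ((kb 5 : ℤ) - 1) ((kb 6 : ℤ) - 1) ((kb 7 : ℤ) - 1)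
    ((kb 5 : ℤ) + 1) ((kb 6 : ℤ) + 1) ((kb 7 : ℤ) + 1) (XA 5 6 7) 32 = true := by decide +kernel
theorem xa_5_6_8 : chkE ((kb 5 : ℤ) - 1) ((kb 6 : ℤ) - 1) ((kb 8 : ℤ) - 1)
    ((kb 5 : ℤ) + 1) ((kb 6 : ℤ) + 1) ((kb 8 : ℤ) + 1) (XA 5 6 8) 32 = true := by decide +kernel
theorem xa_5_6_9 : chkE ((kb 5 : ℤ) - 1) ((kb 6 : ℤ) - 1) ((kb 9 : ℤ) - 1)
    ((kb 5 : ℤ) + 1) ((kb 6 : ℤ) + 1) ((kb 9 : ℤ) + 1) (XA 5 6 9) 32 = true := by decide +kernel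
theorem xa_5_7_7 : chkE ((kb 5 : ℤ) - 1) ((kb 7 : ℤ) - 1) ((kb 7 : ℤ) - 1)
    ((kb 5 : ℤ) + 1) ((kb 7 : ℤ) + 1) ((kb 7 : ℤ) + 1) (XA 5 7 7) 32 = true := by decide +kernel
theorem xa_5_7_8 : chkE ((kb 5 : ℤ) - 1) ((kb 7 : ℤ) - 1) ((kb 8 : ℤ) - 1)
    ((kb 5 : ℤ) + 1) ((kb 7 : ℤ) + 1) ((kb 8 : ℤ) + 1) (XA 5 7 8) 32 = true := by decide +kernel
theorem xa_5_7_9 : chkE ((kb 5 : ℤ) - 1) ((kb 7 : ℤ) - 1) ((kb 9 : ℤ) - 1)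
    ((kb 5 : ℤ) + 1) ((kb 7 : ℤ) + 1) ((kb 9 : ℤ) + 1) (XA 5 7 9) 32 = true := by decide +kernel
theorem xa_5_8_8 : chkE ((kb 5 : ℤ) - 1) ((kb 8 : ℤ) - 1) ((kb 8 : ℤ) - 1)
    ((kb 5 : ℤ) + 1) ((kb 8 : ℤ) + 1) ((kb 8 : ℤ) + 1) (XA 5 8 8) 32 = true := by decide +kernel
theorem xa_5_8_9 : chkE ((kb 5 : ℤ) - 1) ((kb 8 : ℤ) - 1) ((kb 9 : ℤ) - 1)
    ((kb 5 : ℤ) + 1) ((kb 8 : ℤ) + 1) ((kb 9 : ℤ) + 1) (XA 5 8 9) 32 = true := by decide +kernel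
theorem xa_5_9_9 : chkE ((kb 5 : ℤ) - 1) ((kb 9 : ℤ) - 1) ((kb 9 : ℤ) - 1)
    ((kb 5 : ℤ) + 1) ((kb 9 : ℤ) + 1) ((kb 9 : ℤ) + 1) (XA 5 9 9) 32 = true := by decide +kernel
theorem xa_6_6_6 : chkE ((kb 6 : ℤ) - 1) ((kb 6 : ℤ) - 1) ((kb 6 : ℤ) - 1)
    ((kb 6 : ℤ) + 1) ((kb 6 : ℤ) + 1) ((kb 6 : ℤ) + 1) (XA 6 6 6) 32 = true := by decide +kernel
theorem xa_6_6_7 : chkE ((kb 6 : ℤ) - 1) ((kb 6 : ℤ) - 1) ((kb 7 : ℤ) - 1)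
    ((kb 6 : ℤ) + 1) ((kb 6 : ℤ) + 1) ((kb 7 : ℤ) + 1) (XA 6 6 7) 32 = true := by decide +kernel
theorem xa_6_6_8 : chkE ((kb 6 : ℤ) - 1) ((kb 6 : ℤ) - 1) ((kb 8 : ℤ) - 1)
    ((kb 6 : ℤ) + 1) ((kb 6 : ℤ) + 1) ((kb 8 : ℤ) + 1) (XA 6 6 8) 32 = true := by decide +kernel
theorem xa_6_6_9 : chkE ((kb 6 : ℤ) - 1) ((kb 6 : ℤ) - 1) ((kb 9 : ℤ) - 1)
    ((kb 6 : ℤ) + 1) ((kb 6 : ℤ) + 1) ((kb 9 : ℤ) + 1) (XA 6 6 9) 32 = true := by decide +kernel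
theorem xa_6_7_7 : chkE ((kb 6 : ℤ) - 1) ((kb 7 : ℤ) - 1) ((kb 7 : ℤ) - 1)
    ((kb 6 : ℤ) + 1) ((kb 7 : ℤ) + 1) ((kb 7 : ℤ) + 1) (XA 6 7 7) 32 = true := by decide +kernel
theorem xa_6_7_8 : chkE ((kb 6 : ℤ) - 1) ((kb 7 : ℤ) - 1) ((kb 8 : ℤ) - 1)
    ((kb 6 : ℤ) + 1) ((kb 7 : ℤ) + 1) ((kb 8 : ℤ) + 1) (XA 6 7 8) 32 = true := by decide +kernel
theorem xa_6_7_9 : chkE ((kb 6 : ℤ) - 1) ((kb 7 : ℤ) - 1) ((kb 9 : ℤ) - 1)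
    ((kb 6 : ℤ) + 1) ((kb 7 : ℤ) + 1) ((kb 9 : ℤ) + 1) (XA 6 7 9) 32 = true := by decide +kernel
theorem xa_6_8_8 : chkE ((kb 6 : ℤ) - 1) ((kb 8 : ℤ) - 1) ((kb 8 : ℤ) - 1)
    ((kb 6 : ℤ) + 1) ((kb 8 : ℤ) + 1) ((kb 8 : ℤ) + 1) (XA 6 8 8) 32 = true := by decide +kernel
theorem xa_6_8_9 : chkE ((kb 6 : ℤ) - 1) ((kb 8 : ℤ) - 1) ((kb 9 : ℤ) - 1)
    ((kb 6 : ℤ) + 1) ((kb 8 : ℤ) + 1) ((kb 9 : ℤ) + 1) (XA 6 8 9) 32 = true := by decide +kernel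
theorem xa_6_9_9 : chkE ((kb 6 : ℤ) - 1) ((kb 9 : ℤ) - 1) ((kb 9 : ℤ) - 1)
    ((kb 6 : ℤ) + 1) ((kb 9 : ℤ) + 1) ((kb 9 : ℤ) + 1) (XA 6 9 9) 32 = true := by decide +kernel
theorem xa_7_7_7 : chkE ((kb 7 : ℤ) - 1) ((kb 7 : ℤ) - 1) ((kb 7 : ℤ) - 1)
    ((kb 7 : ℤ) + 1) ((kb 7 : ℤ) + 1) ((kb 7 : ℤ) + 1) (XA 7 7 7) 32 = true := by decide +kernel
theorem xa_7_7_8 : chkE ((kb 7 : ℤ) - 1) ((kb 7 : ℤ) - 1) ((kb 8 : ℤ) - 1)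
    ((kb 7 : ℤ) + 1) ((kb 7 : ℤ) + 1) ((kb 8 : ℤ) + 1) (XA 7 7 8) 32 = true := by decide +kernel
theorem xa_7_7_9 : chkE ((kb 7 : ℤ) - 1) ((kb 7 : ℤ) - 1) ((kb 9 : ℤ) - 1)
    ((kb 7 : ℤ) + 1) ((kb 7 : ℤ) + 1) ((kb 9 : ℤ) + 1) (XA 7 7 9) 32 = true := by decide +kernel
theorem xa_7_8_8 : chkE ((kb 7 : ℤ) - 1) ((kb 8 : ℤ) - 1) ((kb 8 : ℤ) - 1)
    ((kb 7 : ℤ) + 1) ((kb 8 : ℤ) + 1) ((kb 8 : ℤ) + 1) (XA 7 8 8) 32 = true := by decide +kernel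
theorem xa_7_8_9 : chkE ((kb 7 : ℤ) - 1) ((kb 8 : ℤ) - 1) ((kb 9 : ℤ) - 1)
    ((kb 7 : ℤ) + 1) ((kb 8 : ℤ) + 1) ((kb 9 : ℤ) + 1) (XA 7 8 9) 32 = true := by decide +kernel
theorem xa_7_9_9 : chkE ((kb 7 : ℤ) - 1) ((kb 9 : ℤ) - 1) ((kb 9 : ℤ) - 1)
    ((kb 7 : ℤ) + 1) ((kb 9 : ℤ) + 1) ((kb 9 : ℤ) + 1) (XA 7 9 9) 32 = true := by decide +kernel
theorem xa_8_8_8 : chkE ((kb 8 : ℤ) - 1) ((kb 8 : ℤ) - 1) ((kb 8 : ℤ) - 1)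
    ((kb 8 : ℤ) + 1) ((kb 8 : ℤ) + 1) ((kb 8 : ℤ) + 1) (XA 8 8 8) 32 = true := by decide +kernel
theorem xa_8_8_9 : chkE ((kb 8 : ℤ) - 1) ((kb 8 : ℤ) - 1) ((kb 9 : ℤ) - 1)
    ((kb 8 : ℤ) + 1) ((kb 8 : ℤ) + 1) ((kb 9 : ℤ) + 1) (XA 8 8 9) 32 = true := by decide +kernel
theorem xa_8_9_9 : chkE ((kb 8 : ℤ) - 1) ((kb 9 : ℤ) - 1) ((kb 9 : ℤ) - 1)
    ((kb 8 : ℤ) + 1) ((kb 9 : ℤ) + 1) ((kb 9 : ℤ) + 1) (XA 8 9 9) 32 = true := by decide +kernel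
theorem xa_9_9_9 : chkE ((kb 9 : ℤ) - 1) ((kb 9 : ℤ) - 1) ((kb 9 : ℤ) - 1)
    ((kb 9 : ℤ) + 1) ((kb 9 : ℤ) + 1) ((kb 9 : ℤ) + 1) (XA 9 9 9) 32 = true := by decide +kernel

/-- ROW XTH, exact classes -/
theorem xA_enc (p q r : ℕ) (hp : 3 ≤ p) (hpq : p ≤ q) (hqr : q ≤ r) (hr : r ≤ 9)
    (hne : ¬ (p = 3 ∧ q = 3 ∧ r = 3)) : |xA p q r - (XA p q r : ℝ) / 2 ^ 48| ≤ 32 / 2 ^ 48 := by
  have hp9 : p ≤ 9 := by omega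
  have hq9 : q ≤ 9 := by omega
  have hq3 : 3 ≤ q := by omega
  have hr3 : 3 ≤ r := by omega
  refine xA_enc_of p q r ⟨hp, hp9⟩ ⟨hq3, hq9⟩ ⟨hr3, hr⟩ _ ?_
  interval_cases p <;> interval_cases q <;> interval_cases r <;> first | (exfalso; omega) | skip
  · exact xa_3_3_4
  · exact xa_3_3_5
  · exact xa_3_3_6
  · exact xa_3_3_7
  · exact xa_3_3_8
  · exact xa_3_3_9
  · exact xa_3_4_4
  · exact xa_3_4_5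
  · exact xa_3_4_6
  · exact xa_3_4_7
  · exact xa_3_4_8
  · exact xa_3_4_9
  · exact xa_3_5_5
  · exact xa_3_5_6
  · exact xa_3_5_7
  · exact xa_3_5_8
  · exact xa_3_5_9
  · exact xa_3_6_6
  · exact xa_3_6_7
  · exact xa_3_6_8
  · exact xa_3_6_9
  · exact xa_3_7_7
  · exact xa_3_7_8
  · exact xa_3_7_9
  · exact xa_3_8_8
  · exact xa_3_8_9
  · exact xa_3_9_9
  · exact xa_4_4_4
  · exact xa_4_4_5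
  · exact xa_4_4_6
  · exact xa_4_4_7
  · exact xa_4_4_8
  · exact xa_4_4_9
  · exact xa_4_5_5
  · exact xa_4_5_6
  · exact xa_4_5_7
  · exact xa_4_5_8
  · exact xa_4_5_9
  · exact xa_4_6_6
  · exact xa_4_6_7
  · exact xa_4_6_8
  · exact xa_4_6_9
  · exact xa_4_7_7
  · exact xa_4_7_8
  · exact xa_4_7_9
  · exact xa_4_8_8
  · exact xa_4_8_9
  · exact xa_4_9_9
  · exact xa_5_5_5
  · exact xa_5_5_6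
  · exact xa_5_5_7
  · exact xa_5_5_8
  · exact xa_5_5_9
  · exact xa_5_6_6
  · exact xa_5_6_7
  · exact xa_5_6_8
  · exact xa_5_6_9
  · exact xa_5_7_7
  · exact xa_5_7_8
  · exact xa_5_7_9
  · exact xa_5_8_8
  · exact xa_5_8_9
  · exact xa_5_9_9
  · exact xa_6_6_6
  · exact xa_6_6_7
  · exact xa_6_6_8
  · exact xa_6_6_9
  · exact xa_6_7_7
  · exact xa_6_7_8
  · exact xa_6_7_9
  · exact xa_6_8_8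
  · exact xa_6_8_9
  · exact xa_6_9_9
  · exact xa_7_7_7
  · exact xa_7_7_8
  · exact xa_7_7_9
  · exact xa_7_8_8
  · exact xa_7_8_9
  · exact xa_7_9_9
  · exact xa_8_8_8
  · exact xa_8_8_9
  · exact xa_8_9_9
  · exact xa_9_9_9

end Pool.Agent.Helper6.MONO.XTH
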