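import Pool.Agent.Helper12.CX.THR

/-!
Row XTH: the threshold `xA` as a model: quadratic controls in the three variables
`κ`, by Bernstein positivity of integers.
-/

set_option autoImplicit false
noncomputable section
namespace Pool.Agent.Helper6.MONO.XTH

/-- quadratic Bernstein basis -/
def Bq (t : ℝ) : Fin 3 → ℝ := ![(1 - t) ^ 2, 2 * t * (1 - t), t ^ 2]
/-- cubic monomials `t^i (1-t)^(3-i)` -/
def Bt (t : ℝ) : Fin 4 → ℝ := ![(1 - t) ^ 3, t * (1 - t) ^ 2, t ^ 2 * (1 - t), t ^ 3]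

/-- multiplication by the linear function with ends `l`, `h` -/
def Wm (l h : ℤ) : Fin 4 → Fin 3 → ℤ :=
  ![![l, 0, 0], ![h, 2 * l, 0], ![0, 2 * h, l], ![0, 0, h]]
/-- coefficients of the constant one -/
def On : Fin 4 → ℤ := ![1, 3, 3, 1]
/-- coefficients of the square of the linear function -/
def Sq (l h : ℤ) : Fin 4 → ℤ := ![l * l, 2 * l * h + l * l, h * h + 2 * l * h, h * h]

theorem Wm_sum (l h : ℤ) (t : ℝ) (a : Fin 3) :
    ∑ i, (Wm l h i a : ℝ) * Bt t i = Bq t a * ((1 - t) * l + t * h) := by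
  fin_cases a <;> simp [Wm, Bt, Bq, Fin.sum_univ_four] <;> ring

theorem On_sum (t : ℝ) : ∑ i, (On i : ℝ) * Bt t i = 1 := by
  simp [On, Bt, Fin.sum_univ_four]
  ring

theorem Sq_sum (l h : ℤ) (t : ℝ) :
    ∑ i, (Sq l h i : ℝ) * Bt t i = ((1 - t) * l + t * h) ^ 2 := by
  simp [Sq, Bt, Fin.sum_univ_four]
  ring

/-- the three dimensional sums -/
def S3 (f : Fin 4 → Fin 4 → Fin 4 → ℝ) (t u v : ℝ) : ℝ :=
  ∑ i, ∑ j, ∑ k, f i j k * (Bt t i * Bt u j * Bt v k)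

theorem S3_nonneg {f : Fin 4 → Fin 4 → Fin 4 → ℝ} (hf : ∀ i j k, 0 ≤ f i j k) {t u v : ℝ}
    (ht : 0 ≤ t ∧ t ≤ 1) (hu : 0 ≤ u ∧ u ≤ 1) (hv : 0 ≤ v ∧ v ≤ 1) : 0 ≤ S3 f t u v := by
  have hB : ∀ (s : ℝ), 0 ≤ s ∧ s ≤ 1 → ∀ i, 0 ≤ Bt s i := by
    intro s hs i
    have h1 : 0 ≤ 1 - s := by linarith [hs.2]
    have h0 := hs.1
    fin_cases i <;> simp [Bt] <;> positivity
  refine Finset.sum_nonneg fun i _ => Finset.sum_nonneg fun j _ => Finset.sum_nonneg fun k _ => ?_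
  exact mul_nonneg (hf i j k) (mul_nonneg (mul_nonneg (hB t ht i) (hB u hu j)) (hB v hv k))

theorem S3_prod (a b c : Fin 4 → ℝ) (t u v : ℝ) :
    S3 (fun i j k => a i * b j * c k) t u v =
      (∑ i, a i * Bt t i) * (∑ j, b j * Bt u j) * (∑ k, c k * Bt v k) := by
  simp only [S3, Fin.sum_univ_four]
  ring

theorem S3_add (f g : Fin 4 → Fin 4 → Fin 4 → ℝ) (t u v : ℝ) :
    S3 (fun i j k => f i j k + g i j k) t u v = S3 f t u v + S3 g t u v := by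
  simp only [S3, ← Finset.sum_add_distrib]
  refine Finset.sum_congr rfl fun i _ => Finset.sum_congr rfl fun j _ =>
    Finset.sum_congr rfl fun k _ => ?_
  ring

theorem S3_sub (f g : Fin 4 → Fin 4 → Fin 4 → ℝ) (t u v : ℝ) :
    S3 (fun i j k => f i j k - g i j k) t u v = S3 f t u v - S3 g t u v := by
  simp only [S3, ← Finset.sum_sub_distrib]
  refine Finset.sum_congr rfl fun i _ => Finset.sum_congr rfl fun j _ =>
    Finset.sum_congr rfl fun k _ => ?_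
  ring

theorem S3_sum {ι : Type} (s : Finset ι) (f : ι → Fin 4 → Fin 4 → Fin 4 → ℝ) (t u v : ℝ) :
    S3 (fun i j k => ∑ a ∈ s, f a i j k) t u v = ∑ a ∈ s, S3 (f a) t u v := by
  classical
  induction s using Finset.induction_on with
  | empty => simp [S3]
  | insert a s ha ih =>
    simp only [Finset.sum_insert ha]
    rw [S3_add, ih]

/-- controls of `Q c₀ c₁ c₂` -/
def CX (l h : Fin 3 → ℤ) (X : Fin 3 → Fin 3 → Fin 3 → ℤ) (i j k : Fin 4) : ℤ :=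
  ∑ a, ∑ b, ∑ c, Wm (l 0) (h 0) i a * Wm (l 1) (h 1) j b * Wm (l 2) (h 2) k c * X a b c

/-- the function with quadratic controls -/
def Qf (X : Fin 3 → Fin 3 → Fin 3 → ℤ) (t u v : ℝ) : ℝ :=
  ∑ a, ∑ b, ∑ c, Bq t a * Bq u b * Bq v c * (X a b c : ℝ)

theorem CX_sum (l h : Fin 3 → ℤ) (X : Fin 3 → Fin 3 → Fin 3 → ℤ) (t u v : ℝ) :
    S3 (fun i j k => (CX l h X i j k : ℝ)) t u v =
      Qf X t u v * (((1 - t) * l 0 + t * h 0) * ((1 - u) * l 1 + u * h 1) *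
        ((1 - v) * l 2 + v * h 2)) := by
  have e : (fun i j k => (CX l h X i j k : ℝ)) = fun i j k => ∑ a, ∑ b, ∑ c,
      (Wm (l 0) (h 0) i a * X a b c : ℝ) * (Wm (l 1) (h 1) j b) * (Wm (l 2) (h 2) k c) := by
    funext i j k
    simp only [CX]
    push_cast
    refine Finset.sum_congr rfl fun a _ => Finset.sum_congr rfl fun b _ =>
      Finset.sum_congr rfl fun c _ => ?_
    ring
  rw [e, S3_sum, Qf, Finset.sum_mul]
  refine Finset.sum_congr rfl fun a _ => ?_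
  rw [S3_sum, Finset.sum_mul]
  refine Finset.sum_congr rfl fun b _ => ?_
  rw [S3_sum, Finset.sum_mul]
  refine Finset.sum_congr rfl fun c _ => ?_
  rw [S3_prod (fun i => (Wm (l 0) (h 0) i a * X a b c : ℝ)) (fun j => (Wm (l 1) (h 1) j b : ℝ))
    (fun k => (Wm (l 2) (h 2) k c : ℝ))]
  have e1 : ∑ i, (Wm (l 0) (h 0) i a * X a b c : ℝ) * Bt t i =
      (X a b c : ℝ) * (Bq t a * ((1 - t) * l 0 + t * h 0)) := by
    rw [← Wm_sum, Finset.mul_sum]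
    refine Finset.sum_congr rfl fun i _ => ?_
    ring
  rw [e1, Wm_sum, Wm_sum]
  ring

/-- controls of `4 - c₂² - c₀² c₁²`, unit `2 ^ (-192)` -/
def CN (l h : Fin 3 → ℤ) (i j k : Fin 4) : ℤ :=
  4 * 2 ^ 192 * (On i * On j * On k) - 2 ^ 96 * (On i * On j * Sq (l 2) (h 2) k) -
    Sq (l 0) (h 0) i * Sq (l 1) (h 1) j * On k

theorem CN_sum (l h : Fin 3 → ℤ) (t u v : ℝ) :
    S3 (fun i j k => (CN l h i j k : ℝ)) t u v =
      4 * 2 ^ 192 - 2 ^ 96 * ((1 - v) * l 2 + v * h 2) ^ 2 -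
        ((1 - t) * l 0 + t * h 0) ^ 2 * ((1 - u) * l 1 + u * h 1) ^ 2 := by
  have e : (fun i j k => (CN l h i j k : ℝ)) = fun i j k =>
      ((4 * 2 ^ 192 * On i : ℝ) * On j * On k - (2 ^ 96 * On i : ℝ) * On j * Sq (l 2) (h 2) k) -
        (Sq (l 0) (h 0) i : ℝ) * Sq (l 1) (h 1) j * On k := by
    funext i j k
    simp only [CN]
    push_cast
    ring
  rw [e, S3_sub, S3_sub, S3_prod (fun i => (4 * 2 ^ 192 * On i : ℝ)) (fun j => (On j : ℝ))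
    (fun k => (On k : ℝ)), S3_prod (fun i => (2 ^ 96 * On i : ℝ)) (fun j => (On j : ℝ))
    (fun k => (Sq (l 2) (h 2) k : ℝ)), S3_prod (fun i => (Sq (l 0) (h 0) i : ℝ))
    (fun j => (Sq (l 1) (h 1) j : ℝ)) (fun k => (On k : ℝ))]
  have e1 : ∑ i, (4 * 2 ^ 192 * On i : ℝ) * Bt t i = 4 * 2 ^ 192 := by
    have : ∑ i, (4 * 2 ^ 192 * On i : ℝ) * Bt t i = 4 * 2 ^ 192 * ∑ i, (On i : ℝ) * Bt t i := by
      rw [Finset.mul_sum]
      refine Finset.sum_congr rfl fun i _ => ?_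
      ring
    rw [this, On_sum, mul_one]
  have e2 : ∑ i, (2 ^ 96 * On i : ℝ) * Bt t i = 2 ^ 96 := by
    have : ∑ i, (2 ^ 96 * On i : ℝ) * Bt t i = 2 ^ 96 * ∑ i, (On i : ℝ) * Bt t i := by
      rw [Finset.mul_sum]
      refine Finset.sum_congr rfl fun i _ => ?_
      ring
    rw [this, On_sum, mul_one]
  rw [e1, e2, On_sum, On_sum, Sq_sum, Sq_sum, Sq_sum]
  ring

/-- shift of all controls -/
def shX (X : Fin 3 → Fin 3 → Fin 3 → ℤ) (r : ℤ) : Fin 3 → Fin 3 → Fin 3 → ℤ :=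
  fun a b c => X a b c + r

theorem Bq_sum (t : ℝ) : ∑ a, Bq t a = 1 := by
  simp [Bq, Fin.sum_univ_three]
  ring

theorem Qf_sh (X : Fin 3 → Fin 3 → Fin 3 → ℤ) (r : ℤ) (t u v : ℝ) :
    Qf (shX X r) t u v = Qf X t u v + (r : ℝ) := by
  have e : Qf (shX X r) t u v = Qf X t u v +
      (∑ a, Bq t a) * (∑ b, Bq u b) * (∑ c, Bq v c) * r := by
    simp only [Qf, shX, Fin.sum_univ_three]
    push_cast
    ring
  rw [e, Bq_sum, Bq_sum, Bq_sum]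
  ring

/-- THE TEST -/
def chkA (l h : Fin 3 → ℤ) (X : Fin 3 → Fin 3 → Fin 3 → ℤ) (r : ℤ) : Bool :=
  decide (∀ i j k : Fin 4, 0 ≤ CX l h (shX X r) i j k - CN l h i j k ∧
    0 ≤ CN l h i j k - CX l h (shX X (-r)) i j k)

/-- SOUNDNESS -/
theorem chkA_sound {l h : Fin 3 → ℤ} {X : Fin 3 → Fin 3 → Fin 3 → ℤ} {r : ℤ}
    (hc : chkA l h X r = true) {t u v c0 c1 c2 : ℝ} (ht : 0 ≤ t ∧ t ≤ 1) (hu : 0 ≤ u ∧ u ≤ 1)
    (hv : 0 ≤ v ∧ v ≤ 1) (h0 : c0 = ((1 - t) * l 0 + t * h 0) / 2 ^ 48)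
    (h1 : c1 = ((1 - u) * l 1 + u * h 1) / 2 ^ 48)
    (h2 : c2 = ((1 - v) * l 2 + v * h 2) / 2 ^ 48) (p0 : 0 < c0) (p1 : 0 < c1) (p2 : 0 < c2) :
    |(4 - c2 ^ 2 - c0 ^ 2 * c1 ^ 2) / (c0 * c1 * c2) - Qf X t u v / 2 ^ 48| ≤ (r : ℝ) / 2 ^ 48 := by
  have hc' := of_decide_eq_true hc
  have k1 := S3_nonneg (f := fun i j k => (CX l h (shX X r) i j k : ℝ) - (CN l h i j k : ℝ))
    (fun i j k => by
      have := (hc' i j k).1
      exact_mod_cast this) ht hu hv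
  have k2 := S3_nonneg (f := fun i j k => (CN l h i j k : ℝ) - (CX l h (shX X (-r)) i j k : ℝ))
    (fun i j k => by
      have := (hc' i j k).2
      exact_mod_cast this) ht hu hv
  rw [S3_sub, CX_sum, CN_sum, Qf_sh] at k1 k2
  have g0 : (1 - t) * l 0 + t * h 0 = c0 * 2 ^ 48 := by rw [h0]; field_simp
  have g1 : (1 - u) * l 1 + u * h 1 = c1 * 2 ^ 48 := by rw [h1]; field_simp
  have g2 : (1 - v) * l 2 + v * h 2 = c2 * 2 ^ 48 := by rw [h2]; field_simp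
  rw [g0, g1, g2] at k1 k2
  push_cast at k1 k2
  have hp : 0 < c0 * c1 * c2 := by positivity
  generalize Qf X t u v = q at k1 k2 ⊢
  have k1' : 4 - c2 ^ 2 - c0 ^ 2 * c1 ^ 2 ≤ ((q + r) / 2 ^ 48) * (c0 * c1 * c2) := by
    have e : (q + r) * (c0 * 2 ^ 48 * (c1 * 2 ^ 48) * (c2 * 2 ^ 48)) -
        (4 * 2 ^ 192 - 2 ^ 96 * (c2 * 2 ^ 48) ^ 2 - (c0 * 2 ^ 48) ^ 2 * (c1 * 2 ^ 48) ^ 2) =
        2 ^ 192 * (((q + r) / 2 ^ 48) * (c0 * c1 * c2) - (4 - c2 ^ 2 - c0 ^ 2 * c1 ^ 2)) := by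
      ring
    rw [e] at k1
    have := nonneg_of_mul_nonneg_right k1 (by positivity)
    linarith
  have k2' : ((q - r) / 2 ^ 48) * (c0 * c1 * c2) ≤ 4 - c2 ^ 2 - c0 ^ 2 * c1 ^ 2 := by
    have e : (4 * 2 ^ 192 - 2 ^ 96 * (c2 * 2 ^ 48) ^ 2 - (c0 * 2 ^ 48) ^ 2 * (c1 * 2 ^ 48) ^ 2) -
        (q + -(r : ℝ)) * (c0 * 2 ^ 48 * (c1 * 2 ^ 48) * (c2 * 2 ^ 48)) =
        2 ^ 192 * ((4 - c2 ^ 2 - c0 ^ 2 * c1 ^ 2) - ((q - r) / 2 ^ 48) * (c0 * c1 * c2)) := by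
      ring
    rw [e] at k2
    have := nonneg_of_mul_nonneg_right k2 (by positivity)
    linarith
  rw [abs_le]
  constructor
  · have : (q - r) / 2 ^ 48 ≤ (4 - c2 ^ 2 - c0 ^ 2 * c1 ^ 2) / (c0 * c1 * c2) := by
      rw [le_div_iff₀ hp]
      exact k2'
    have e : (q - r) / 2 ^ 48 = q / 2 ^ 48 - r / 2 ^ 48 := by ring
    linarith
  · have : (4 - c2 ^ 2 - c0 ^ 2 * c1 ^ 2) / (c0 * c1 * c2) ≤ (q + r) / 2 ^ 48 := by
      rw [div_le_iff₀ hp]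
      exact k1'
    have e : (q + r) / 2 ^ 48 = q / 2 ^ 48 + r / 2 ^ 48 := by ring
    linarith

end Pool.Agent.Helper6.MONO.XTH
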